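import Pool.Agent.UBC.AlgDefs

/-!
# UBC project, part A: the contraction inequality (`TargetMac`)

For a finite dimensional space `E` of functions on monomials which is determined by the monomials
of degree `g + 1` in the variables `W`, and `D` containing all contractions `b (· + δ_w)`, `w ∈ W`:
`(g + 1) dim E ≤ (|W| + g) dim D`.
-/

set_option autoImplicit false

namespace Pool.Agent.UBC

open Finset

/-- monomials of degree `g` in the variables `W` -/
noncomputable def monos {V : Type} [DecidableEq V] (W : Finset V) (g : ℕ) : Finset (V →₀ ℕ) :=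
  W.finsuppAntidiag g

lemma mdeg_eq {V : Type} [DecidableEq V] {W : Finset V} {m : V →₀ ℕ} (h : m.support ⊆ W) :
    mdeg m = ∑ v ∈ W, m v := by
  rw [mdeg, Finsupp.sum]
  exact sum_subset h fun x _ hx => by simpa using hx

lemma mem_monos {V : Type} [DecidableEq V] {W : Finset V} {g : ℕ} {m : V →₀ ℕ} :
    m ∈ monos W g ↔ m.support ⊆ W ∧ mdeg m = g := by
  rw [monos, mem_finsuppAntidiag]
  constructor
  · rintro ⟨h1, h2⟩
    exact ⟨h2, by rw [mdeg_eq h2]; exact h1⟩
  · rintro ⟨h1, h2⟩
    exact ⟨by rw [← mdeg_eq h1]; exact h2, h1⟩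

lemma mdeg_add_single {V : Type} [DecidableEq V] (m : V →₀ ℕ) (v : V) :
    mdeg (m + Finsupp.single v 1) = mdeg m + 1 := by
  have h1 : m.support ⊆ m.support ∪ {v} := subset_union_left
  have h2 : (m + Finsupp.single v 1).support ⊆ m.support ∪ {v} :=
    Finsupp.support_add.trans (union_subset_union_right Finsupp.support_single_subset)
  rw [mdeg_eq h1, mdeg_eq h2]
  simp only [Finsupp.coe_add, Pi.add_apply, sum_add_distrib]
  congr 1
  rw [sum_eq_single v]
  · simp
  · intro b _ hb; simp [Ne.symm hb]
  · intro h; simp at h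

section Lead

variable {k : Type} [Field k] {M T : Type} [LinearOrder T] (w : M → T)

/-- `m` is the largest element of `S` at which `b` does not vanish. -/
def IsLead (S : Finset M) (b : M → k) (m : M) : Prop :=
  m ∈ S ∧ b m ≠ 0 ∧ ∀ m' ∈ S, w m < w m' → b m' = 0

lemma IsLead.exists {S : Finset M} {b : M → k} (h : ∃ m ∈ S, b m ≠ 0) :
    ∃ m, IsLead w S b m := by
  classical
  obtain ⟨m, hm, hb⟩ := h
  obtain ⟨m₀, h1, h2⟩ := (S.filter fun m => b m ≠ 0).exists_max_image w ⟨m, by simp [hm, hb]⟩
  rw [mem_filter] at h1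
  refine ⟨m₀, h1.1, h1.2, fun m' hm' hlt => ?_⟩
  by_contra hne
  have := h2 m' (by simp [hm', hne])
  exact absurd hlt (not_lt.mpr this)

/-- dimension is at most the number of leads -/
lemma finrank_le_card {S L : Finset M} {E : Submodule k (M → k)}
    (hE : ∀ b ∈ E, (∀ m ∈ S, b m = 0) → b = 0)
    (hL : ∀ b ∈ E, ∀ m, IsLead w S b m → m ∈ L) : Module.finrank k E ≤ L.card := by
  classical
  let φ : E →ₗ[k] (L → k) :=
    { toFun := fun b m => (b : M → k) m
      map_add' := fun _ _ => rfl
      map_smul' := fun _ _ => rfl }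
  have hφ : Function.Injective φ := by
    rw [injective_iff_map_eq_zero]
    intro b hb
    by_contra hne
    have h1 : ∃ m ∈ S, (b : M → k) m ≠ 0 := by
      by_contra hcon
      push Not at hcon
      exact hne (Subtype.ext (hE b b.2 hcon))
    obtain ⟨m, hm⟩ := IsLead.exists w h1
    have h2 := hL b b.2 m hm
    have h3 := congrFun hb ⟨m, h2⟩
    exact hm.2.1 h3
  have := LinearMap.finrank_le_finrank_of_injective hφ
  simpa using this

/-- the number of leads is at most the dimension -/
lemma card_le_finrank (hw : Function.Injective w) {S L : Finset M} {D : Submodule k (M → k)}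
    [FiniteDimensional k D] (hL : ∀ m ∈ L, ∃ b ∈ D, IsLead w S b m) :
    L.card ≤ Module.finrank k D := by
  classical
  choose! f hf using hL
  have hli : LinearIndependent k (fun m : L => (⟨f m, (hf m m.2).1⟩ : D)) := by
    rw [linearIndependent_iff']
    intro s c hc
    by_contra hcon
    push Not at hcon
    obtain ⟨m₀, h1, h2⟩ := (s.filter fun m => c m ≠ 0).exists_max_image
      (fun m : L => w (m : M)) (by
        obtain ⟨i, hi, hci⟩ := hcon
        exact ⟨i, by simp [hi, hci]⟩)
    rw [mem_filter] at h1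
    have h3 := congrArg (fun x : D => (x : M → k) (m₀ : M)) hc
    simp only [Submodule.coe_sum, Submodule.coe_smul, Finset.sum_apply, Pi.smul_apply,
      smul_eq_mul, Submodule.coe_zero, Pi.zero_apply] at h3
    rw [sum_eq_single m₀] at h3
    · exact h1.2 ((mul_eq_zero.mp h3).resolve_right (hf m₀ m₀.2).2.2.1)
    · intro m hm hne
      rcases eq_or_ne (c m) 0 with hc0 | hc0
      · rw [hc0, zero_mul]
      · have h4 := h2 m (by simp [hm, hc0])
        have h5 : w (m : M) < w (m₀ : M) :=
          lt_of_le_of_ne h4 fun h => hne (Subtype.ext (hw h))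
        rw [(hf m m.2).2.2.2 m₀ (hf m₀ m₀.2).2.1 h5, mul_zero]
    · intro h; exact absurd h1.1 h
  have := hli.fintype_card_le_finrank
  simpa using this

end Lead

/-- a linear monomial order -/
lemma exists_order (V : Type) : ∃ (T : Type) (_ : LinearOrder T) (w : (V →₀ ℕ) → T),
    Function.Injective w ∧ ∀ m m' a, w m < w m' → w (m + a) < w (m' + a) := by
  classical
  let _ : LinearOrder V := linearOrderOfSTO WellOrderingRel
  refine ⟨Lex (V →₀ ℕ), inferInstance, toLex, toLex.injective, fun m m' a h => ?_⟩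
  rw [toLex_add, toLex_add]
  exact add_lt_add_left h _

lemma sum_shift_le {V : Type} [DecidableEq V] (v : V) (L₁ L₀ : Finset (V →₀ ℕ))
    (h : ∀ m ∈ L₁, m v ≠ 0 → m - Finsupp.single v 1 ∈ L₀) :
    ∑ m ∈ L₁, m v ≤ ∑ m ∈ L₀, (m v + 1) := by
  classical
  have h1 : ∑ m ∈ L₁, m v = ∑ m ∈ L₁.filter (fun m => m v ≠ 0), m v :=
    (sum_filter_ne_zero L₁).symm
  have hsub : ∀ m : V →₀ ℕ, m v ≠ 0 →
      (m - Finsupp.single v 1) + Finsupp.single v 1 = m := by
    intro m hm
    ext u
    simp only [Finsupp.coe_add, Finsupp.coe_tsub, Pi.add_apply, Pi.sub_apply,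
      Finsupp.single_apply]
    split_ifs with huv
    · subst huv; omega
    · omega
  have h2 : ∑ m ∈ L₁.filter (fun m => m v ≠ 0), m v =
      ∑ m ∈ (L₁.filter (fun m => m v ≠ 0)).image (fun m => m - Finsupp.single v 1),
        (m v + 1) := by
    rw [sum_image]
    · refine sum_congr rfl fun m hm => ?_
      have hm' := (mem_filter.mp hm).2
      simp only [Finsupp.coe_tsub, Pi.sub_apply, Finsupp.single_apply, if_true]
      omega
    · intro a ha b hb hab
      have ha' := (mem_filter.mp ha).2
      have hb' := (mem_filter.mp hb).2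
      rw [← hsub a ha', ← hsub b hb']
      simp only at hab
      rw [hab]
  rw [h1, h2]
  refine sum_le_sum_of_subset fun x hx => ?_
  obtain ⟨m, hm, rfl⟩ := mem_image.mp hx
  exact h m (mem_filter.mp hm).1 (mem_filter.mp hm).2

/-- The contraction inequality. -/
theorem contraction_ineq {k : Type} [Field k] {V : Type} [DecidableEq V] (W : Finset V) (g : ℕ)
    (E D : Submodule k ((V →₀ ℕ) → k)) [FiniteDimensional k D]
    (hE : ∀ b ∈ E, (∀ m ∈ monos W (g + 1), b m = 0) → b = 0)
    (hD : ∀ b ∈ E, ∀ v ∈ W, contr v b ∈ D) :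
    (g + 1) * Module.finrank k E ≤ (W.card + g) * Module.finrank k D := by
  classical
  obtain ⟨T, _, w, hw, hadd⟩ := exists_order V
  set L₁ := (monos W (g + 1)).filter (fun m => ∃ b ∈ E, IsLead w (monos W (g + 1)) b m) with hL₁
  set L₀ := (monos W g).filter (fun m => ∃ b ∈ D, IsLead w (monos W g) b m) with hL₀
  have h1 : Module.finrank k E ≤ L₁.card := by
    refine finrank_le_card w hE fun b hb m hm => ?_
    rw [hL₁, mem_filter]
    exact ⟨hm.1, b, hb, hm⟩
  have h2 : L₀.card ≤ Module.finrank k D := by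
    refine card_le_finrank w hw (S := monos W g) fun m hm => ?_
    rw [hL₀, mem_filter] at hm
    exact hm.2
  have h3 : (g + 1) * L₁.card ≤ (W.card + g) * L₀.card := by
    have e1 : ∑ v ∈ W, ∑ m ∈ L₁, m v = (g + 1) * L₁.card := by
      rw [sum_comm]
      rw [mul_comm, ← smul_eq_mul, ← sum_const]
      refine sum_congr rfl fun m hm => ?_
      rw [hL₁, mem_filter, mem_monos] at hm
      rw [← mdeg_eq hm.1.1]; exact hm.1.2
    have e2 : ∑ v ∈ W, ∑ m ∈ L₀, (m v + 1) = (W.card + g) * L₀.card := by
      rw [sum_comm]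
      rw [mul_comm, ← smul_eq_mul, ← sum_const]
      refine sum_congr rfl fun m hm => ?_
      rw [hL₀, mem_filter, mem_monos] at hm
      rw [sum_add_distrib, ← mdeg_eq hm.1.1, hm.1.2]
      simp [add_comm]
    rw [← e1, ← e2]
    refine sum_le_sum fun v hv => sum_shift_le v L₁ L₀ fun m hm hmv => ?_
    rw [hL₁, mem_filter] at hm
    obtain ⟨hm1, b, hb, hlead⟩ := hm
    have hsub : (m - Finsupp.single v 1) + Finsupp.single v 1 = m := by
      ext u
      simp only [Finsupp.coe_add, Finsupp.coe_tsub, Pi.add_apply, Pi.sub_apply,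
        Finsupp.single_apply]
      split_ifs with huv
      · subst huv; omega
      · omega
    have hmem : m - Finsupp.single v 1 ∈ monos W g := by
      rw [mem_monos] at hm1 ⊢
      refine ⟨?_, ?_⟩
      · intro u hu
        apply hm1.1
        rw [Finsupp.mem_support_iff] at hu ⊢
        intro h0
        apply hu
        simp [h0]
      · have := mdeg_add_single (m - Finsupp.single v 1) v
        rw [hsub, hm1.2] at this
        omega
    rw [hL₀, mem_filter]
    refine ⟨hmem, contr v b, hD b hb v hv, hmem, ?_, ?_⟩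
    · change b ((m - Finsupp.single v 1) + Finsupp.single v 1) ≠ 0
      rw [hsub]; exact hlead.2.1
    · intro m' hm' hlt
      change b (m' + Finsupp.single v 1) = 0
      apply hlead.2.2
      · rw [mem_monos] at hm' ⊢
        refine ⟨?_, ?_⟩
        · refine Finsupp.support_add.trans (union_subset hm'.1 ?_)
          exact Finsupp.support_single_subset.trans (singleton_subset_iff.mpr hv)
        · rw [mdeg_add_single, hm'.2]
      · have := hadd _ _ (Finsupp.single v 1) hlt
        rwa [hsub] at this
  calc (g + 1) * Module.finrank k E ≤ (g + 1) * L₁.card := Nat.mul_le_mul_left _ h1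
    _ ≤ (W.card + g) * L₀.card := h3
    _ ≤ (W.card + g) * Module.finrank k D := Nat.mul_le_mul_left _ h2

lemma mem_verts {V : Type} [DecidableEq V] {Δ : Cplx V} {v : V} :
    v ∈ Δ.verts ↔ {v} ∈ Δ.faces := by
  rw [Cplx.verts, mem_biUnion]
  constructor
  · rintro ⟨s, hs, hv⟩
    exact Δ.down s hs _ (singleton_subset_iff.mpr hv)
  · intro h
    exact ⟨{v}, h, by simp⟩

lemma card_verts {V : Type} [DecidableEq V] (Δ : Cplx V) : Δ.verts.card = Δ.fnum 1 := by
  rw [Cplx.fnum]
  have : Δ.faces.filter (fun s => s.card = 1) = Δ.verts.map ⟨fun v => {v}, fun a b h => by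
      simpa using h⟩ := by
    ext s
    rw [mem_filter, mem_map, card_eq_one]
    constructor
    · rintro ⟨hs, v, rfl⟩
      exact ⟨v, mem_verts.mpr hs, rfl⟩
    · rintro ⟨v, hv, rfl⟩
      exact ⟨mem_verts.mp hv, v, rfl⟩
  rw [this, card_map]

lemma subset_verts {V : Type} [DecidableEq V] {Δ : Cplx V} {s : Finset V} (hs : s ∈ Δ.faces) :
    s ⊆ Δ.verts := fun _ hv => mem_verts.mpr (Δ.down s hs _ (singleton_subset_iff.mpr hv))

/-- finite-dimensionality of spaces of functions supported on a finite set -/
lemma finiteDimensional_of_support {k M : Type} [Field k] (S : Finset M)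
    (D : Submodule k (M → k)) (h : ∀ b ∈ D, ∀ m, m ∉ S → b m = 0) : FiniteDimensional k D := by
  classical
  let φ : D →ₗ[k] (S → k) :=
    { toFun := fun b m => (b : M → k) m
      map_add' := fun _ _ => rfl
      map_smul' := fun _ _ => rfl }
  refine FiniteDimensional.of_injective φ ?_
  rw [injective_iff_map_eq_zero]
  intro b hb
  refine Subtype.ext (funext fun m => ?_)
  by_cases hm : m ∈ S
  · exact congrFun hb ⟨m, hm⟩
  · exact h b b.2 m hm

lemma finiteDimensional_E {k : Type} [Field k] {V : Type} [DecidableEq V] {d : ℕ} (Δ : Cplx V)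
    (θ : V → Fin d → k) (g : ℕ) : FiniteDimensional k (E Δ θ g) := by
  refine finiteDimensional_of_support (monos Δ.verts g) _ fun b hb m hm => ?_
  apply hb.1
  by_contra hcon
  push Not at hcon
  exact hm (mem_monos.mpr ⟨subset_verts hcon.1, hcon.2⟩)

lemma contr_mem_E {k : Type} [Field k] {V : Type} [DecidableEq V] {d : ℕ} (Δ : Cplx V)
    (θ : V → Fin d → k) (g : ℕ) {b : (V →₀ ℕ) → k} (hb : b ∈ E Δ θ (g + 1)) (v : V) :
    contr v b ∈ E Δ θ g := by
  refine ⟨fun m hm => ?_, fun m p => ?_⟩
  · apply hb.1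
    rcases hm with hm | hm
    · left
      intro hcon
      apply hm
      refine Δ.down _ hcon _ fun u hu => ?_
      rw [Finsupp.mem_support_iff] at hu ⊢
      simp only [Finsupp.coe_add, Pi.add_apply]
      omega
    · right
      rw [mdeg_add_single]
      omega
  · have := hb.2 (m + Finsupp.single v 1) p
    rw [← this]
    refine sum_congr rfl fun u _ => ?_
    simp only [contr]
    rw [add_right_comm]

lemma D_le_E {k : Type} [Field k] {V : Type} [DecidableEq V] {d : ℕ} (Δ : Cplx V)
    (θ : V → Fin d → k) (g : ℕ) : D Δ θ g ≤ E Δ θ g := by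
  rw [D, Submodule.span_le]
  rintro c ⟨v, _, b, hb, rfl⟩
  exact contr_mem_E Δ θ g hb v

/-- dual coefficients at a facet -/
lemma exists_dual {k : Type} [Field k] {V : Type} [DecidableEq V] {d : ℕ} {F : Finset V}
    {θ : V → Fin d → k} (h : LinearIndependent k (fun v : {v // v ∈ F} => θ v.1)) (v : V)
    (hv : v ∈ F) : ∃ c : Fin d → k, ∀ u ∈ F, ∑ p, c p * θ u p = if u = v then 1 else 0 := by
  classical
  obtain ⟨f, hf⟩ := LinearMap.exists_extend
    ((Module.Basis.span h).constr k (fun u : {v // v ∈ F} => if u.1 = v then (1 : k) else 0))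
  have hf' : ∀ u : {v // v ∈ F}, f (θ u.1) = if u.1 = v then 1 else 0 := by
    intro u
    have h1 := LinearMap.congr_fun hf (Module.Basis.span h u)
    rw [Module.Basis.constr_basis] at h1
    rw [← h1, LinearMap.comp_apply, Submodule.subtype_apply, Module.Basis.span_apply]
  refine ⟨fun p => f (fun j => if p = j then 1 else 0), fun u hu => ?_⟩
  have h2 := hf' ⟨u, hu⟩
  rw [LinearMap.pi_apply_eq_sum_univ f (θ u)] at h2
  rw [← h2]
  refine sum_congr rfl fun p _ => ?_
  rw [smul_eq_mul, mul_comm]

/-- Elements of `E_g` are determined by the monomials avoiding a facet. -/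
lemma E_eq_zero {k : Type} [Field k] {V : Type} [DecidableEq V] {d : ℕ} (Δ : Cplx V)
    (θ : V → Fin d → k) (F : Finset V)
    (hF : ∀ v ∈ F, ∃ c : Fin d → k, ∀ u ∈ F, ∑ p, c p * θ u p = if u = v then 1 else 0)
    (hFV : F ⊆ Δ.verts) (g : ℕ) {b : (V →₀ ℕ) → k} (hb : b ∈ E Δ θ g)
    (h0 : ∀ m ∈ monos (Δ.verts \ F) g, b m = 0) : b = 0 := by
  have key : ∀ (n : ℕ) (m : V →₀ ℕ), ∑ v ∈ F, m v = n → b m = 0 := by
    intro n
    induction n with
    | zero =>
      intro m hm
      by_cases hs : m.support ∈ Δ.faces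
      · by_cases hg : mdeg m = g
        · refine h0 m (mem_monos.mpr ⟨fun u hu => ?_, hg⟩)
          rw [mem_sdiff]
          refine ⟨subset_verts hs hu, fun huF => ?_⟩
          have := (sum_eq_zero_iff.mp hm) u huF
          rw [Finsupp.mem_support_iff] at hu
          exact hu this
        · exact hb.1 m (Or.inr hg)
      · exact hb.1 m (Or.inl hs)
    | succ n ih =>
      intro m hm
      obtain ⟨v, hv, hmv⟩ : ∃ v ∈ F, m v ≠ 0 := by
        by_contra hcon
        push Not at hcon
        rw [sum_eq_zero hcon] at hm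
        omega
      obtain ⟨c, hc⟩ := hF v hv
      have hsub : (m - Finsupp.single v 1) + Finsupp.single v 1 = m := by
        ext u
        simp only [Finsupp.coe_add, Finsupp.coe_tsub, Pi.add_apply, Pi.sub_apply,
          Finsupp.single_apply]
        split_ifs with huv
        · subst huv; omega
        · omega
      set m' := m - Finsupp.single v 1 with hm'
      have h1 : ∑ u ∈ Δ.verts, (∑ p, c p * θ u p) * b (m' + Finsupp.single u 1) = 0 := by
        have h2 : ∑ p, c p * ∑ u ∈ Δ.verts, θ u p * b (m' + Finsupp.single u 1) = 0 :=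
          sum_eq_zero fun p _ => by rw [hb.2 m' p, mul_zero]
        rw [← h2]
        simp only [mul_sum, sum_mul]
        rw [sum_comm]
        exact sum_congr rfl fun p _ => sum_congr rfl fun u _ => by ring
      have h3 : ∑ u ∈ F, (∑ p, c p * θ u p) * b (m' + Finsupp.single u 1) = b m := by
        rw [sum_eq_single v]
        · rw [hc v hv, if_pos rfl, one_mul, hsub]
        · intro u hu huv
          rw [hc u hu, if_neg huv, zero_mul]
        · intro h; exact absurd hv h
      have hdeg : ∀ u, u ∉ F → ∑ x ∈ F, (m' + Finsupp.single u 1 : V →₀ ℕ) x = n := by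
        intro u hu
        have e1 : ∑ x ∈ F, (m' + Finsupp.single u 1 : V →₀ ℕ) x = ∑ x ∈ F, m' x := by
          refine sum_congr rfl fun x hx => ?_
          have : x ≠ u := fun h => hu (h ▸ hx)
          simp [Ne.symm this]
        have e2 : ∑ x ∈ F, m x = ∑ x ∈ F, m' x + 1 := by
          conv_lhs => rw [← hsub]
          simp only [Finsupp.coe_add, Pi.add_apply, sum_add_distrib]
          congr 1
          rw [sum_eq_single v]
          · simp
          · intro b _ hb; simp [Ne.symm hb]
          · intro h; exact absurd hv h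
        omega
      rw [← sum_sdiff hFV, h3, sum_eq_zero, zero_add] at h1
      · exact h1
      · intro u hu
        rw [ih _ (hdeg u (mem_sdiff.mp hu).2), mul_zero]
  funext m
  exact key _ m rfl

theorem targetMac (k : Type) [Field k] : TargetMac k := by
  intro V _ d Δ θ hgen hF g
  obtain ⟨F, hF, hFd⟩ := hF
  have hFV := subset_verts hF
  have := finiteDimensional_E Δ θ g
  have : FiniteDimensional k (D Δ θ g) :=
    Submodule.finiteDimensional_of_le (D_le_E Δ θ g)
  have h1 := contraction_ineq (Δ.verts \ F) g (E Δ θ (g + 1)) (D Δ θ g)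
    (fun b hb h0 => E_eq_zero Δ θ F (fun v hv => exists_dual (hgen F hF) v hv) hFV (g + 1) hb h0)
    (fun b hb v hv => Submodule.subset_span ⟨v, (mem_sdiff.mp hv).1, b, hb, rfl⟩)
  rw [card_sdiff_of_subset hFV, card_verts, hFd] at h1
  exact h1

end Pool.Agent.UBC
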