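import Pool.Agent.UBC.DCGrid

/-!
# UBC project: TargetDC1 (Reisner)
-/

set_option autoImplicit false
set_option linter.unusedSectionVars false

namespace Pool.Agent.UBC

open Finset Module

variable {V : Type} [DecidableEq V] {k : Type} [Field k] {d : ℕ}

/-- embedding of the first column -/
def colEmb (b : Finset (Fin d) → (V →₀ ℕ) → k) : Tri V k d :=
  fun s S m => if s = ∅ then b S m else 0

theorem colEmb_mem {Δ : Cplx V} {P : ℕ → Prop} {i : ℕ} {b : Finset (Fin d) → (V →₀ ℕ) → k}
    (h1 : SuppOn Δ b) (h2 : LevelAt i b) (h3 : ∀ S m, ¬ P (S.card + mdeg m) → b S m = 0) :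
    colEmb b ∈ XX Δ P 0 i := by
  intro s S m h
  unfold colEmb
  split_ifs with hs
  · subst hs
    by_cases c1 : m.support ∈ Δ.faces
    · by_cases c2 : S.card = i
      · refine h3 S m fun hP => h ⟨by simpa using c1, rfl, c2, hP⟩
      · exact h2 S m c2
    · exact h1 S m c1
  · rfl

theorem D2_colEmb {Δ : Cplx V} {θ : V → Fin d → k} (b : Finset (Fin d) → (V →₀ ℕ) → k) :
    D2 Δ θ (colEmb b) = colEmb (kos Δ θ b) := by
  funext s S m
  rw [D2_apply]
  unfold colEmb
  by_cases hs : s = ∅
  · simp only [hs, if_true]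
    rfl
  · simp [hs]

theorem targetDC1 (k : Type) [Field k] [CharP k 2] : TargetDC1 k := by
  intro V _ d Δ θ hac hst i hi b hb1 hb2 hb3
  by_cases hid : d < i
  · refine ⟨0, fun _ _ _ => rfl, fun _ _ _ => rfl, ?_⟩
    funext S m
    rw [hb2 S m (by have := S.card_le_univ; simp only [Fintype.card_fin] at this; omega)]
    simp [kos]
  · push Not at hid
    obtain ⟨i', rfl⟩ : ∃ i', i = i' + 1 := ⟨i - 1, by omega⟩
    let G := grid Δ θ (fun _ => True)
    have hcol : ∀ j i, G.Col (j + 1) i := fun j i => col_exact Δ θ _ hst j i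
    have hz : G.Z 0 (i' + 1) ≤ G.B 0 (i' + 1) := by
      refine G.zigzag_zero (d - i') (fun j hj => row_exact Δ θ _ j _ (Or.inr (hac j (by omega))))
        (fun j hj => hcol _ _) ?_
      intro a ha
      have ha1 := (G.mem_Z.1 ha).1
      have : a = 0 := by
        funext s S m
        refine ha1 s S m fun h' => ?_
        have h3 := h'.2.2.1
        have := S.card_le_univ
        simp only [Fintype.card_fin] at this
        omega
      rw [this]
      exact Submodule.zero_mem _
    have hmem : colEmb b ∈ G.Z 0 (i' + 1) := by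
      rw [G.Z_zero]
      refine ⟨colEmb_mem hb1 hb2 (fun _ _ h => absurd trivial h), ?_⟩
      change D2 Δ θ (colEmb b) = 0
      rw [D2_colEmb, hb3]
      funext s S m
      simp [colEmb]
    obtain ⟨c, hc, hcb⟩ := G.B_le_map (hcol 0 i') (hz hmem)
    change c ∈ XX Δ _ 0 i' at hc
    change D2 Δ θ c = colEmb b at hcb
    refine ⟨c ∅, ?_, ?_, ?_⟩
    · intro S m hm
      exact hc _ _ _ fun h' => hm (by simpa using h'.1)
    · intro S m hS
      exact hc _ _ _ fun h' => hS (by simpa using h'.2.2.1)
    · have : D2 Δ θ c ∅ = kos Δ θ (c ∅) := rfl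
      rw [← this, hcb]
      funext S m
      simp [colEmb]

end Pool.Agent.UBC
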