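import Pool.Agent.UBC.AlgDefs

/-!
# UBC project, part A: elimination of one form at a cone point (`TargetElim`)
-/

set_option autoImplicit false
set_option linter.unusedSectionVars false

namespace Pool.Agent.UBC

open Finset

section

variable {k : Type} [Field k] {V : Type} [DecidableEq V]

/-- contraction by a linear form with coefficients `a` on `U` -/
noncomputable def tc (U : Finset V) (a : V → k) (f : (V →₀ ℕ) → k) : (V →₀ ℕ) → k :=
  fun m => ∑ w ∈ U, a w * f (m + Finsupp.single w 1)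

lemma tc_apply (U : Finset V) (a : V → k) (f : (V →₀ ℕ) → k) (m : V →₀ ℕ) :
    tc U a f m = ∑ w ∈ U, a w * f (m + Finsupp.single w 1) := rfl

lemma tc_comm (U : Finset V) (a c : V → k) (f : (V →₀ ℕ) → k) :
    tc U a (tc U c f) = tc U c (tc U a f) := by
  funext m
  simp only [tc_apply, mul_sum]
  rw [sum_comm]
  refine sum_congr rfl fun w _ => sum_congr rfl fun u _ => ?_
  rw [add_right_comm]; ring

lemma tc_zero (U : Finset V) (a : V → k) : tc U a 0 = 0 := by
  funext m; simp [tc_apply]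

lemma tc_sub (U : Finset V) (a : V → k) (f g : (V →₀ ℕ) → k) :
    tc U a (f - g) = tc U a f - tc U a g := by
  funext m
  simp only [tc_apply, Pi.sub_apply, mul_sub, sum_sub_distrib]

lemma tc_sum {β : Type} (U : Finset V) (a : V → k) (s : Finset β) (f : β → (V →₀ ℕ) → k) :
    tc U a (∑ x ∈ s, f x) = ∑ x ∈ s, tc U a (f x) := by
  funext m
  simp only [tc_apply, Finset.sum_apply, mul_sum]
  exact sum_comm

/-- `f` is supported on monomials of `Δ` -/
def SuppM (Δ : Cplx V) (f : (V →₀ ℕ) → k) : Prop := ∀ m, m.support ∉ Δ.faces → f m = 0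

lemma SuppM.tc {Δ : Cplx V} {f : (V →₀ ℕ) → k} (h : SuppM Δ f) (U : Finset V) (a : V → k) :
    SuppM Δ (tc U a f) := by
  intro m hm
  rw [tc_apply]
  refine sum_eq_zero fun w _ => ?_
  rw [h, mul_zero]
  intro hcon
  apply hm
  refine Δ.down _ hcon _ fun u hu => ?_
  rw [Finsupp.mem_support_iff] at hu ⊢
  simp only [Finsupp.coe_add, Pi.add_apply]
  omega

/-- recursive solution of `tc f̃ = f` with prescribed values on monomials free of `v` -/
noncomputable def gext (U : Finset V) (a : V → k) (v : V) (f f₀ : (V →₀ ℕ) → k) :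
    ℕ → (V →₀ ℕ) → k
  | 0 => f₀
  | n + 1 => fun m => (a v)⁻¹ * (f (m + Finsupp.single v n) -
      ∑ w ∈ U.erase v, a w * gext U a v f f₀ n (m + Finsupp.single w 1))

lemma gext_succ (U : Finset V) (a : V → k) (v : V) (f f₀ : (V →₀ ℕ) → k) (n : ℕ) (m : V →₀ ℕ) :
    gext U a v f f₀ (n + 1) m = (a v)⁻¹ * (f (m + Finsupp.single v n) -
      ∑ w ∈ U.erase v, a w * gext U a v f f₀ n (m + Finsupp.single w 1)) := rfl

/-- the solution -/
noncomputable def ext (U : Finset V) (a : V → k) (v : V) (f f₀ : (V →₀ ℕ) → k) :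
    (V →₀ ℕ) → k := fun m => gext U a v f f₀ (m v) (m.erase v)

lemma erase_add_single_same (m : V →₀ ℕ) (v : V) (n : ℕ) :
    (m + Finsupp.single v n).erase v = m.erase v := by
  ext u
  by_cases h : u = v
  · subst h; simp
  · simp [Finsupp.erase_ne h]

lemma erase_add_single_ne (m : V →₀ ℕ) {v w : V} (h : w ≠ v) (n : ℕ) :
    (m + Finsupp.single w n).erase v = m.erase v + Finsupp.single w n := by
  ext u
  by_cases h' : u = v
  · subst h'
    simp [h]
  · simp [Finsupp.erase_ne h']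

lemma tc_ext {U : Finset V} {a : V → k} {v : V} (hv : v ∈ U) (ha : a v ≠ 0)
    (f f₀ : (V →₀ ℕ) → k) : tc U a (ext U a v f f₀) = f := by
  funext m
  rw [tc_apply, ← add_sum_erase U _ hv]
  have e1 : ext U a v f f₀ (m + Finsupp.single v 1) = (a v)⁻¹ * (f m -
      ∑ w ∈ U.erase v, a w * ext U a v f f₀ (m + Finsupp.single w 1)) := by
    rw [ext, erase_add_single_same]
    have e2 : (m + Finsupp.single v 1 : V →₀ ℕ) v = m v + 1 := by simp
    rw [e2, gext_succ, Finsupp.erase_add_single]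
    congr 2
    refine sum_congr rfl fun w hw => ?_
    have hwv := (mem_erase.mp hw).1
    rw [ext, erase_add_single_ne m hwv]
    have e3 : (m + Finsupp.single w 1 : V →₀ ℕ) v = m v := by
      simp [hwv]
    rw [e3]
  rw [e1, ← mul_assoc, mul_inv_cancel₀ ha, one_mul]
  ring

lemma ext_free (U : Finset V) (a : V → k) (v : V) (f f₀ : (V →₀ ℕ) → k) (m : V →₀ ℕ)
    (hm : m v = 0) : ext U a v f f₀ m = f₀ m := by
  rw [ext, hm, gext]
  congr 1
  rw [Finsupp.erase_of_notMem_support]
  simpa using hm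

lemma ext_supp {Δ : Cplx V} {v : V} (hΔ : ∀ t ∈ Δ.faces, insert v t ∈ Δ.faces) (U : Finset V)
    (a : V → k) {f f₀ : (V →₀ ℕ) → k} (hf : SuppM Δ f) (hf₀ : SuppM Δ f₀) :
    SuppM Δ (ext U a v f f₀) := by
  have key : ∀ n m, m.support ∉ Δ.faces → gext U a v f f₀ n m = 0 := by
    intro n
    induction n with
    | zero => intro m hm; exact hf₀ m hm
    | succ n ih =>
      intro m hm
      have hsub : ∀ w i, (m + Finsupp.single w i).support ∉ Δ.faces := by
        intro w i hcon
        apply hm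
        refine Δ.down _ hcon _ fun u hu => ?_
        rw [Finsupp.mem_support_iff] at hu ⊢
        simp only [Finsupp.coe_add, Pi.add_apply]
        omega
      rw [gext_succ, hf _ (hsub v n), sum_eq_zero, sub_zero, mul_zero]
      intro w _
      rw [ih _ (hsub w 1), mul_zero]
  intro m hm
  rw [ext]
  apply key
  intro hcon
  apply hm
  refine Δ.down _ (hΔ _ hcon) _ fun u hu => ?_
  rw [mem_insert]
  by_cases h : u = v
  · exact Or.inl h
  · right
    rw [Finsupp.mem_support_iff] at hu ⊢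
    rwa [Finsupp.erase_ne h]

lemma eq_zero_of_tc {U : Finset V} {a : V → k} {v : V} (hv : v ∈ U) (ha : a v ≠ 0)
    {f : (V →₀ ℕ) → k} (h : tc U a f = 0) (h0 : ∀ m : V →₀ ℕ, m v = 0 → f m = 0) : f = 0 := by
  have key : ∀ n, ∀ m : V →₀ ℕ, m v = n → f m = 0 := by
    intro n
    induction n with
    | zero => intro m hm; exact h0 m hm
    | succ n ih =>
      intro m hm
      have hsub : (m - Finsupp.single v 1) + Finsupp.single v 1 = m := by
        ext u
        simp only [Finsupp.coe_add, Finsupp.coe_tsub, Pi.add_apply, Pi.sub_apply,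
          Finsupp.single_apply]
        split_ifs with huv
        · subst huv; omega
        · omega
      have h1 := congrFun h (m - Finsupp.single v 1)
      rw [tc_apply, ← add_sum_erase U _ hv, hsub, sum_eq_zero, add_zero] at h1
      · exact (mul_eq_zero.mp h1).resolve_left ha
      · intro w hw
        rw [ih, mul_zero]
        have hwv := (mem_erase.mp hw).1
        simp only [Finsupp.coe_add, Finsupp.coe_tsub, Pi.add_apply, Pi.sub_apply,
          Finsupp.single_apply, if_neg hwv, if_true]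
        omega
  funext m
  exact key _ m rfl

/-- pull back of index sets along `p.succAbove` -/
def pull {d : ℕ} (p : Fin (d + 1)) (S : Finset (Fin (d + 1))) : Finset (Fin d) :=
  univ.filter fun q => p.succAbove q ∈ S

lemma pull_map {d : ℕ} (p : Fin (d + 1)) (S : Finset (Fin d)) :
    pull p (S.map p.succAboveEmb) = S := by
  ext q
  simp [pull]

lemma map_pull {d : ℕ} (p : Fin (d + 1)) (S : Finset (Fin (d + 1))) (h : p ∉ S) :
    (pull p S).map p.succAboveEmb = S := by
  ext q
  simp only [pull, mem_map, mem_filter, mem_univ, true_and, Fin.succAboveEmb_apply]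
  constructor
  · rintro ⟨q', h1, rfl⟩; exact h1
  · intro hq
    have : q ≠ p := fun h' => h (h' ▸ hq)
    obtain ⟨q', rfl⟩ := Fin.exists_succAbove_eq this
    exact ⟨q', hq, rfl⟩

lemma notMem_map {d : ℕ} (p : Fin (d + 1)) (S : Finset (Fin d)) :
    p ∉ S.map p.succAboveEmb := by
  simp only [mem_map, Fin.succAboveEmb_apply, not_exists, not_and]
  intro q _
  exact Fin.succAbove_ne p q

lemma erase_map {d : ℕ} (p : Fin (d + 1)) (S : Finset (Fin d)) (q : Fin d) :
    (S.map p.succAboveEmb).erase (p.succAbove q) = (S.erase q).map p.succAboveEmb := by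
  rw [← Fin.succAboveEmb_apply, map_erase]

/-- the reduced forms -/
noncomputable def redForm {d : ℕ} (θ : V → Fin (d + 1) → k) (v : V) (p : Fin (d + 1)) :
    V → Fin d → k :=
  fun w q => θ w (p.succAbove q) - θ v (p.succAbove q) / θ v p * θ w p

lemma indep_iff {M : Type} [AddCommGroup M] [Module k M] (s : Finset V) (f : V → M) :
    LinearIndependent k (fun v : {v // v ∈ s} => f v.1) ↔
      ∀ a : V → k, ∑ w ∈ s, a w • f w = 0 → ∀ w ∈ s, a w = 0 := by
  have h : LinearIndepOn k f (s : Set V) ↔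
      ∀ a : V → k, ∑ w ∈ s, a w • f w = 0 → ∀ w ∈ s, a w = 0 := linearIndepOn_finset_iff
  exact h

lemma generic_red {d : ℕ} {Γ Γ' : Cplx V} {v : V} {θ : V → Fin (d + 1) → k}
    (hΓ : ∀ t ∈ Γ.faces, insert v t ∈ Γ.faces)
    (hΓ' : Γ'.faces = Γ.faces.filter (fun t => v ∉ t)) (hg : Generic Γ θ) {p : Fin (d + 1)}
    (hp : θ v p ≠ 0) : Generic Γ' (redForm θ v p) := by
  intro s hs
  rw [hΓ', mem_filter] at hs
  have h1 := hg _ (hΓ s hs.1)
  rw [indep_iff] at h1 ⊢
  have hne : ∀ w ∈ s, w ≠ v := fun w hw h => hs.2 (h ▸ hw)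
  intro a ha
  set b := -(∑ w ∈ s, a w * θ w p) / θ v p with hb
  have h2 : ∑ w ∈ insert v s, (if w = v then b else a w) • θ w = 0 := by
    rw [sum_insert hs.2, if_pos rfl]
    have e1 : ∑ w ∈ s, (if w = v then b else a w) • θ w = ∑ w ∈ s, a w • θ w := by
      refine sum_congr rfl fun w hw => ?_
      rw [if_neg (hne w hw)]
    rw [e1]
    funext r
    simp only [Pi.add_apply, Pi.smul_apply, smul_eq_mul, Finset.sum_apply, Pi.zero_apply]
    rcases eq_or_ne r p with rfl | hr
    · rw [hb]; field_simp; ring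
    · obtain ⟨q, rfl⟩ := Fin.exists_succAbove_eq hr
      have h3 := congrFun ha q
      simp only [Finset.sum_apply, Pi.smul_apply, smul_eq_mul, redForm, Pi.zero_apply, mul_sub,
        sum_sub_distrib] at h3
      have h4 : ∑ x ∈ s, a x * (θ v (p.succAbove q) / θ v p * θ x p) =
          θ v (p.succAbove q) / θ v p * ∑ x ∈ s, a x * θ x p := by
        rw [mul_sum]; exact sum_congr rfl fun x _ => by ring
      rw [h4] at h3
      rw [hb, eq_of_sub_eq_zero h3]
      field_simp
      ring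
  intro w hw
  have h3 := h1 _ h2 w (mem_insert_of_mem hw)
  rwa [if_neg (hne w hw)] at h3

lemma kos_apply {d : ℕ} (Δ : Cplx V) (θ : V → Fin d → k) (b : Finset (Fin d) → (V →₀ ℕ) → k)
    (S : Finset (Fin d)) :
    kos Δ θ b S = ∑ p ∈ S, tc Δ.verts (fun v => θ v p) (b (S.erase p)) := by
  funext m
  simp only [kos, Finset.sum_apply, tc_apply]

lemma verts_insert {Δ Δ' : Cplx V} {v : V} (hΔ : ∀ t ∈ Δ.faces, insert v t ∈ Δ.faces)
    (hΔ' : Δ'.faces = Δ.faces.filter (fun t => v ∉ t)) : Δ'.verts = Δ.verts.erase v ∧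
      v ∈ Δ.verts := by
  have hv : v ∈ Δ.verts := by
    rw [Cplx.verts, mem_biUnion]
    exact ⟨insert v ∅, hΔ _ Δ.empty_mem, by simp⟩
  refine ⟨?_, hv⟩
  ext w
  rw [mem_erase, Cplx.verts, Cplx.verts, mem_biUnion, mem_biUnion, hΔ']
  constructor
  · rintro ⟨s, hs, hw⟩
    rw [mem_filter] at hs
    exact ⟨fun h => hs.2 (h ▸ hw), s, hs.1, hw⟩
  · rintro ⟨hwv, s, hs, hw⟩
    refine ⟨{w}, ?_, by simp⟩
    rw [mem_filter]
    exact ⟨Δ.down s hs _ (singleton_subset_iff.mpr hw), by simpa using Ne.symm hwv⟩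

/-- restriction to monomials free of `v` -/
noncomputable def rst (v : V) (f : (V →₀ ℕ) → k) : (V →₀ ℕ) → k :=
  fun m => if m v = 0 then f m else 0

lemma rst_supp {Δ Δ' : Cplx V} {v : V}
    (hΔ' : Δ'.faces = Δ.faces.filter (fun t => v ∉ t)) {f : (V →₀ ℕ) → k} (h : SuppM Δ f) :
    SuppM Δ' (rst v f) := by
  intro m hm
  rw [rst]
  split_ifs with h0
  · apply h
    intro hcon
    apply hm
    rw [hΔ', mem_filter]
    exact ⟨hcon, by simpa using h0⟩
  · rfl

/-- on the kernel of the eliminated form, the other forms restrict to the reduced forms -/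
lemma rst_tc {d : ℕ} {Δ Δ' : Cplx V} {v : V} (hΔ : ∀ t ∈ Δ.faces, insert v t ∈ Δ.faces)
    (hΔ' : Δ'.faces = Δ.faces.filter (fun t => v ∉ t)) {θ : V → Fin (d + 1) → k}
    {p : Fin (d + 1)} (hp : θ v p ≠ 0) {f : (V →₀ ℕ) → k}
    (hf : tc Δ.verts (fun w => θ w p) f = 0) (q : Fin d) (m : V →₀ ℕ) (hm : m v = 0) :
    tc Δ.verts (fun w => θ w (p.succAbove q)) f m =
      tc Δ'.verts (fun w => redForm θ v p w q) (rst v f) m := by
  obtain ⟨h1, hv⟩ := verts_insert hΔ hΔ'
  have h2 := congrFun hf m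
  rw [tc_apply, ← add_sum_erase _ _ hv] at h2
  rw [tc_apply, tc_apply, h1, ← add_sum_erase _ _ hv]
  have e1 : ∑ w ∈ Δ.verts.erase v, redForm θ v p w q * rst v f (m + Finsupp.single w 1) =
      ∑ w ∈ Δ.verts.erase v, θ w (p.succAbove q) * f (m + Finsupp.single w 1) -
      θ v (p.succAbove q) / θ v p *
        ∑ w ∈ Δ.verts.erase v, θ w p * f (m + Finsupp.single w 1) := by
    rw [mul_sum, ← sum_sub_distrib]
    refine sum_congr rfl fun w hw => ?_
    have hwv := (mem_erase.mp hw).1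
    have e3 : (m + Finsupp.single w 1 : V →₀ ℕ) v = 0 := by
      simp [hwv, hm]
    rw [rst, if_pos e3, redForm]
    ring
  rw [e1]
  have h3 : ∑ w ∈ Δ.verts.erase v, θ w p * f (m + Finsupp.single w 1) =
      -(θ v p * f (m + Finsupp.single v 1)) := by
    simp only [Pi.zero_apply] at h2
    linear_combination h2
  rw [h3]
  field_simp
  ring

lemma ext_zero {U : Finset V} {a : V → k} {v : V} (hv : v ∈ U) (ha : a v ≠ 0) :
    ext U a v 0 0 = 0 :=
  eq_zero_of_tc hv ha (tc_ext hv ha 0 0) fun m hm => by rw [ext_free _ _ _ _ _ _ hm]; rfl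

lemma tc_add (U : Finset V) (a : V → k) (f g : (V →₀ ℕ) → k) :
    tc U a (f + g) = tc U a f + tc U a g := by
  funext m
  simp only [tc_apply, Pi.add_apply, mul_add, sum_add_distrib]

lemma kos_add' {d : ℕ} (Δ : Cplx V) (θ : V → Fin d → k) (b c : Finset (Fin d) → (V →₀ ℕ) → k) :
    kos Δ θ (b + c) = kos Δ θ b + kos Δ θ c := by
  funext S
  rw [Pi.add_apply, kos_apply, kos_apply, kos_apply, ← sum_add_distrib]
  exact sum_congr rfl fun p _ => tc_add _ _ _ _

lemma kos_sub' {d : ℕ} (Δ : Cplx V) (θ : V → Fin d → k) (b c : Finset (Fin d) → (V →₀ ℕ) → k) :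
    kos Δ θ (b - c) = kos Δ θ b - kos Δ θ c := by
  funext S
  rw [Pi.sub_apply, kos_apply, kos_apply, kos_apply, ← sum_sub_distrib]
  exact sum_congr rfl fun p _ => tc_sub _ _ _ _

lemma sum_pairs_zero [CharP k 2] {α β : Type} [DecidableEq α] (S : Finset α)
    (g : α → α → β → k) (hg : ∀ p q, g p q = g q p) :
    ∑ p ∈ S, ∑ q ∈ S.erase p, g p q = 0 := by
  rw [sum_sigma']
  refine sum_involution (fun x _ => ⟨x.2, x.1⟩) ?_ ?_ ?_ ?_
  · rintro ⟨p, q⟩ _
    simp only
    rw [hg q p]
    funext m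
    simp only [Pi.add_apply, Pi.zero_apply]
    exact CharTwo.add_self_eq_zero _
  · rintro ⟨p, q⟩ h _ heq
    rw [mem_sigma, mem_erase] at h
    simp only [Sigma.mk.injEq] at heq
    exact h.2.1 heq.1
  · rintro ⟨p, q⟩ h
    rw [mem_sigma, mem_erase] at h ⊢
    exact ⟨h.2.2, fun h' => h.2.1 h'.symm, h.1⟩
  · rintro ⟨p, q⟩ _
    rfl

lemma kos_kos' [CharP k 2] {d : ℕ} (Δ : Cplx V) (θ : V → Fin d → k)
    (b : Finset (Fin d) → (V →₀ ℕ) → k) : kos Δ θ (kos Δ θ b) = 0 := by
  funext S
  rw [kos_apply]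
  have h : ∀ p ∈ S, tc Δ.verts (fun v => θ v p) (kos Δ θ b (S.erase p)) =
      ∑ q ∈ S.erase p, tc Δ.verts (fun v => θ v p) (tc Δ.verts (fun v => θ v q)
        (b ((S.erase p).erase q))) := by
    intro p _
    rw [kos_apply, tc_sum]
  rw [sum_congr rfl h]
  exact sum_pairs_zero S (fun p q => tc Δ.verts (fun v => θ v p) (tc Δ.verts (fun v => θ v q)
    (b ((S.erase p).erase q)))) fun p q => by
      rw [tc_comm, erase_right_comm]

lemma kos_supp {d : ℕ} {Δ : Cplx V} (θ : V → Fin d → k) {b : Finset (Fin d) → (V →₀ ℕ) → k}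
    (hb : SuppOn Δ b) : SuppOn Δ (kos Δ θ b) := by
  intro S m hm
  rw [kos_apply, Finset.sum_apply]
  refine sum_eq_zero fun p _ => ?_
  exact (SuppM.tc (Δ := Δ) (fun m hm => hb _ m hm) _ _) m hm

lemma kos_level {d : ℕ} {Δ : Cplx V} (θ : V → Fin d → k) {b : Finset (Fin d) → (V →₀ ℕ) → k}
    {i : ℕ} (hi : 1 ≤ i) (hb : LevelAt (i - 1) b) : LevelAt i (kos Δ θ b) := by
  intro S m hS
  rw [kos_apply, Finset.sum_apply]
  refine sum_eq_zero fun p hp => ?_
  have : b (S.erase p) = 0 := by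
    funext m
    apply hb
    rw [card_erase_of_mem hp]
    have := card_pos.mpr ⟨p, hp⟩
    omega
  rw [this, tc_zero]; rfl

theorem ke_of_ke [CharP k 2] {d : ℕ} {Δ Δ' : Cplx V} {v : V} {θ : V → Fin (d + 1) → k}
    (hΔ : ∀ t ∈ Δ.faces, insert v t ∈ Δ.faces)
    (hΔ' : Δ'.faces = Δ.faces.filter (fun t => v ∉ t)) {p : Fin (d + 1)}
    (hp : θ v p ≠ 0) (hke : KE Δ' (redForm θ v p)) : KE Δ θ := by
  intro i hi b hbs hbl hb0
  obtain ⟨hV, hv⟩ := verts_insert hΔ hΔ'
  set U := Δ.verts with hU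
  set ap : V → k := fun w => θ w p with hap
  have hap' : ap v ≠ 0 := hp
  have hsub : ∀ t, t ∉ Δ.faces → t ∉ Δ'.faces := by
    intro t ht h
    rw [hΔ', mem_filter] at h
    exact ht h.1
  -- first correction
  set c₀ : Finset (Fin (d + 1)) → (V →₀ ℕ) → k := fun S =>
    if p ∈ S then 0 else ext U ap v (b (insert p S)) 0 with hc₀
  have hc₀p : ∀ S, p ∈ S → c₀ S = 0 := fun S h => by simp only [hc₀]; rw [if_pos h]
  have hc₀T : ∀ S, p ∉ S → tc U ap (c₀ S) = b (insert p S) := fun S h => by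
    simp only [hc₀]; rw [if_neg h]; exact tc_ext hv hap' _ _
  have hc₀s : SuppOn Δ c₀ := by
    intro S m hm
    simp only [hc₀]
    split_ifs
    · rfl
    · exact ext_supp hΔ U ap (fun m hm => hbs _ m hm) (fun _ _ => rfl) m hm
  have hc₀l : LevelAt (i - 1) c₀ := by
    intro S m hS
    simp only [hc₀]
    split_ifs with h
    · rfl
    · have : b (insert p S) = 0 := by
        funext m
        apply hbl
        rw [card_insert_of_notMem h]
        omega
      rw [this, ext_zero hv hap']; rfl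
  set b₁ := b - kos Δ θ c₀ with hb₁
  have hb₁p : ∀ S, p ∈ S → b₁ S = 0 := by
    intro S hS
    rw [hb₁, Pi.sub_apply, kos_apply, ← add_sum_erase _ _ hS, hc₀T _ (notMem_erase _ _),
      insert_erase hS, sum_eq_zero, add_zero, sub_self]
    intro q hq
    rw [hc₀p _ (mem_erase.mpr ⟨(mem_erase.mp hq).1.symm, hS⟩), tc_zero]
  have hb₁k : kos Δ θ b₁ = 0 := by
    rw [hb₁, kos_sub', hb0, kos_kos', sub_zero]
  have hb₁s : SuppOn Δ b₁ := by
    intro S m hm
    have h1 := kos_supp θ hc₀s S m hm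
    rw [hb₁, Pi.sub_apply, Pi.sub_apply, hbs S m hm, h1, sub_zero]
  have hb₁l : LevelAt i b₁ := by
    intro S m hS
    have h1 := kos_level (Δ := Δ) θ hi hc₀l S m hS
    rw [hb₁, Pi.sub_apply, Pi.sub_apply, hbl S m hS, h1, sub_zero]
  have hb₁T : ∀ S, tc U ap (b₁ S) = 0 := by
    intro S
    by_cases hS : p ∈ S
    · rw [hb₁p S hS, tc_zero]
    · have h1 := congrFun hb₁k (insert p S)
      rw [kos_apply, sum_insert hS, erase_insert hS, sum_eq_zero, add_zero] at h1
      · exact h1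
      · intro q hq
        have hqp : q ≠ p := fun h => hS (h ▸ hq)
        rw [hb₁p, tc_zero]
        exact mem_erase.mpr ⟨hqp.symm, mem_insert_self _ _⟩
  -- the reduced cocycle
  set b' : Finset (Fin d) → (V →₀ ℕ) → k := fun S => rst v (b₁ (S.map p.succAboveEmb)) with hb'
  have hred : ∀ (c : Finset (Fin (d + 1)) → (V →₀ ℕ) → k), (∀ S, tc U ap (c S) = 0) →
      ∀ (S : Finset (Fin d)) (m : V →₀ ℕ), m v = 0 →
      kos Δ θ c (S.map p.succAboveEmb) m =
        kos Δ' (redForm θ v p) (fun S => rst v (c (S.map p.succAboveEmb))) S m := by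
    intro c hc S m hm
    rw [kos_apply, kos_apply, Finset.sum_apply, Finset.sum_apply, sum_map]
    refine sum_congr rfl fun q _ => ?_
    rw [Fin.succAboveEmb_apply, erase_map]
    exact rst_tc hΔ hΔ' hp (hc _) q m hm
  have hb's : SuppOn Δ' b' := fun S m hm =>
    rst_supp hΔ' (fun m hm => hb₁s _ m hm) m hm
  have hb'l : LevelAt i b' := by
    intro S m hS
    simp only [hb', rst]
    split_ifs
    · apply hb₁l; rwa [card_map]
    · rfl
  have hb'k : kos Δ' (redForm θ v p) b' = 0 := by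
    funext S m
    by_cases hm : m v = 0
    · rw [← hred b₁ hb₁T S m hm, hb₁k]; rfl
    · rw [kos_apply, Finset.sum_apply]
      refine sum_eq_zero fun q _ => ?_
      rw [tc_apply]
      refine sum_eq_zero fun w _ => ?_
      have : (m + Finsupp.single w 1 : V →₀ ℕ) v ≠ 0 := by
        simp only [Finsupp.coe_add, Pi.add_apply]; omega
      simp only [hb', rst]
      rw [if_neg this, mul_zero]
  obtain ⟨c', hc's, hc'l, hc'k⟩ := hke i hi b' hb's hb'l hb'k
  -- lift back
  set c₁ : Finset (Fin (d + 1)) → (V →₀ ℕ) → k := fun S =>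
    if p ∈ S then 0 else ext U ap v 0 (c' (pull p S)) with hc₁
  have hc₁p : ∀ S, p ∈ S → c₁ S = 0 := fun S h => by simp only [hc₁]; rw [if_pos h]
  have hc₁T : ∀ S, tc U ap (c₁ S) = 0 := by
    intro S
    simp only [hc₁]
    split_ifs
    · exact tc_zero _ _
    · exact tc_ext hv hap' _ _
  have hc₁s : SuppOn Δ c₁ := by
    intro S m hm
    simp only [hc₁]
    split_ifs
    · rfl
    · exact ext_supp hΔ U ap (fun _ _ => rfl) (fun m hm => hc's _ m (hsub _ hm)) m hm
  have hc₁l : LevelAt (i - 1) c₁ := by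
    intro S m hS
    simp only [hc₁]
    split_ifs with h
    · rfl
    · have : c' (pull p S) = 0 := by
        funext m
        apply hc'l
        rwa [← card_map p.succAboveEmb, map_pull p S h]
      rw [this, ext_zero hv hap']; rfl
  have hc₁r : ∀ S : Finset (Fin d), rst v (c₁ (S.map p.succAboveEmb)) = c' S := by
    intro S
    funext m
    rw [rst]
    split_ifs with hm
    · simp only [hc₁]
      rw [if_neg (notMem_map p S), pull_map, ext_free _ _ _ _ _ _ hm]
    · symm
      apply hc's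
      rw [hΔ', mem_filter]
      rintro ⟨_, h⟩
      exact h (by simpa using hm)
  have hc₁k : kos Δ θ c₁ = b₁ := by
    funext S
    by_cases hS : p ∈ S
    · rw [hb₁p S hS, kos_apply]
      refine sum_eq_zero fun q hq => ?_
      rcases eq_or_ne q p with rfl | hqp
      · exact hc₁T _
      · rw [hc₁p _ (mem_erase.mpr ⟨hqp.symm, hS⟩), tc_zero]
    · rw [← sub_eq_zero]
      refine eq_zero_of_tc hv hap' ?_ ?_
      · rw [tc_sub, hb₁T, sub_zero, kos_apply, tc_sum]
        refine sum_eq_zero fun q _ => ?_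
        rw [tc_comm, hc₁T, tc_zero]
      · intro m hm
        rw [Pi.sub_apply, ← map_pull p S hS, hred c₁ hc₁T _ m hm]
        simp only [hc₁r]
        rw [hc'k]
        simp only [hb', rst]
        rw [if_pos hm, sub_self]
  refine ⟨c₀ + c₁, ?_, ?_, ?_⟩
  · intro S m hm
    rw [Pi.add_apply, Pi.add_apply, hc₀s S m hm, hc₁s S m hm, add_zero]
  · intro S m hS
    rw [Pi.add_apply, Pi.add_apply, hc₀l S m hS, hc₁l S m hS, add_zero]
  · rw [kos_add', hc₁k, hb₁]
    exact add_sub_cancel _ _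

end

theorem targetElim (k : Type) [Field k] [CharP k 2] : TargetElim k := by
  intro V _ d Γ Γ' v θ hΓ hΓ' hg
  have hv : insert v (∅ : Finset V) ∈ Γ.faces := hΓ _ Γ.empty_mem
  obtain ⟨p, hp⟩ : ∃ p, θ v p ≠ 0 := by
    by_contra hcon
    push Not at hcon
    have h1 := hg _ hv
    rw [indep_iff] at h1
    have h2 := h1 (fun _ => 1) (by
      rw [sum_insert (notMem_empty _), sum_empty, add_zero]
      funext q
      simp [hcon q]) v (mem_insert_self _ _)
    exact one_ne_zero h2
  refine ⟨redForm θ v p, generic_red hΓ hΓ' hg hp, fun Δ' Δ'' _ h1 h2 hke => ?_⟩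
  exact ke_of_ke h1 h2 hp hke

end Pool.Agent.UBC
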