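import Pool.Agent.UBC.AlgDefs

/-!
# Existence of generic systems of linear forms (Vandermonde)
-/

set_option autoImplicit false

namespace Pool.Agent.UBC

open Finset

theorem targetGen (k : Type) [Field k] [Infinite k] : TargetGen k := by
  intro V _ d Δ hcard
  classical
  -- an injection of the vertices
  obtain ⟨t, ht⟩ : ∃ t : V → k, Set.InjOn t (Δ.verts : Set V) := by
    let e := Δ.verts.equivFin
    let f := Infinite.natEmbedding k
    refine ⟨fun v => if h : v ∈ Δ.verts then f (e ⟨v, h⟩ : ℕ) else 0, ?_⟩
    intro a ha b hb hab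
    have ha' : a ∈ Δ.verts := ha
    have hb' : b ∈ Δ.verts := hb
    simp only [ha', hb', dif_pos] at hab
    have h1 := f.injective hab
    have h2 := e.injective (Fin.ext h1)
    exact congrArg Subtype.val h2
  refine ⟨fun v p => t v ^ (p : ℕ), ?_⟩
  intro s hs
  have hsub : s ⊆ Δ.verts := by
    intro v hv
    unfold Cplx.verts
    rw [mem_biUnion]
    exact ⟨s, hs, hv⟩
  rw [Fintype.linearIndependent_iff]
  intro c hc
  let e := s.equivFin
  have hle : s.card ≤ d := hcard s hs
  have hinj : Function.Injective (fun i : Fin s.card => t (e.symm i)) := by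
    intro i j hij
    have h1 := ht (hsub (e.symm i).2) (hsub (e.symm j).2) hij
    exact e.symm.injective (Subtype.ext h1)
  have hz := Matrix.eq_zero_of_forall_pow_sum_mul_pow_eq_zero
    (v := fun i : Fin s.card => c (e.symm i)) hinj (by
      intro i
      have h1 := congrFun hc ⟨i, i.2.trans_le hle⟩
      simp only [Finset.sum_apply, Pi.smul_apply, smul_eq_mul, Pi.zero_apply] at h1
      rw [← h1]
      exact Equiv.sum_comp e.symm (fun v : {v // v ∈ s} => c v * t v ^ (i : ℕ)))
  intro v
  have := congrFun hz (e v)
  simpa using this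

end Pool.Agent.UBC
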