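import Pool.Agent.UBC.AlgDefs

/-!
# UBC project, part A: numerical end

`ubc_numeric`: the recursion `(g+1) e (g+1) + (N+g) C(d,g) β g ≤ (N+g) e g` and the Schenzel-type
estimate `h ≤ e i + C(d,i) ∑ β j` give `h ≤ C(N+i-1,i)`.
-/

set_option autoImplicit false

namespace Pool.Agent.UBC

open Finset

/-- `rr N j m = ∏_{l=j}^{j+m-1} (N+l)/(l+1)`. -/
def rr (N j : ℕ) : ℕ → ℚ
  | 0 => 1
  | m + 1 => rr N j m * (((N + (j + m) : ℕ) : ℚ) / ((j + m + 1 : ℕ) : ℚ))

lemma rr_nonneg (N j m : ℕ) : 0 ≤ rr N j m := by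
  induction m with
  | zero => simp [rr]
  | succ m ih => rw [rr]; positivity

lemma rr_zero_eq (N : ℕ) : ∀ m, rr N 0 m = ((N + m - 1).choose m : ℚ) := by
  intro m
  induction m with
  | zero => simp [rr]
  | succ m ih =>
    rw [rr, ih]
    rcases Nat.eq_zero_or_pos (N + m) with h | h
    · have hN : N = 0 := by omega
      have hm : m = 0 := by omega
      subst hN; subst hm; simp
    · have h1 : (N + (m + 1) - 1) = (N + m - 1) + 1 := by omega
      rw [h1]
      have h2 := Nat.add_one_mul_choose_eq (N + m - 1) m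
      have h3 : N + m - 1 + 1 = N + m := by omega
      rw [h3] at h2 ⊢
      have h4 : ((N + m : ℕ) : ℚ) * ((N + m - 1).choose m : ℚ) =
          ((N + m).choose (m + 1) : ℚ) * ((m + 1 : ℕ) : ℚ) := by exact_mod_cast h2
      have h5 : ((m + 1 : ℕ) : ℚ) ≠ 0 := by positivity
      rw [zero_add]
      field_simp
      linarith

lemma choose_le_rr {N d j : ℕ} (h : d ≤ N + 2 * j) : ∀ m,
    (d.choose (j + m) : ℚ) ≤ rr N j m * (d.choose j : ℚ) := by
  intro m
  induction m with
  | zero => simp [rr]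
  | succ m ih =>
    rw [rr]
    have h1 := Nat.choose_succ_right_eq d (j + m)
    have h2 : (d.choose (j + m + 1) : ℚ) * ((j + m + 1 : ℕ) : ℚ) =
        (d.choose (j + m) : ℚ) * ((d - (j + m) : ℕ) : ℚ) := by exact_mod_cast h1
    have h3 : (0 : ℚ) < ((j + m + 1 : ℕ) : ℚ) := by positivity
    have h4 : ((d - (j + m) : ℕ) : ℚ) ≤ ((N + (j + m) : ℕ) : ℚ) := by
      exact_mod_cast (by omega : d - (j + m) ≤ N + (j + m))
    have h5 : (d.choose (j + m + 1) : ℚ) =
        (d.choose (j + m) : ℚ) * ((d - (j + m) : ℕ) : ℚ) / ((j + m + 1 : ℕ) : ℚ) := by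
      rw [← h2]; field_simp
    rw [← add_assoc, h5]
    have h6 : rr N j m * (((N + (j + m) : ℕ) : ℚ) / ((j + m + 1 : ℕ) : ℚ)) * (d.choose j : ℚ) =
        (rr N j m * (d.choose j : ℚ)) * ((N + (j + m) : ℕ) : ℚ) / ((j + m + 1 : ℕ) : ℚ) := by
      ring
    rw [h6]
    apply div_le_div_of_nonneg_right _ h3.le
    apply mul_le_mul ih h4 (by positivity)
    exact mul_nonneg (rr_nonneg _ _ _) (by positivity)

/-- Numerical conclusion of part A. -/
theorem ubc_numeric (d N i : ℕ) (e β : ℕ → ℕ) (he0 : e 0 ≤ 1) (hβ0 : β 0 = 0)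
    (hstep : ∀ g < i, (g + 1) * e (g + 1) + (N + g) * (d.choose g * β g) ≤ (N + g) * e g)
    (hle : ∀ g < i, d.choose g * β g ≤ e g)
    (h : ℤ) (hh : h ≤ (e i : ℤ) + (d.choose i : ℤ) * ∑ j ∈ range i, (β j : ℤ)) :
    h ≤ ((N + i - 1).choose i : ℤ) := by
  -- the rational recursion
  have key : ∀ m ≤ i, (e m : ℚ) + ∑ j ∈ range m, rr N j (m - j) * ((d.choose j : ℚ) * (β j : ℚ)) ≤
      rr N 0 m := by
    intro m
    induction m with
    | zero => intro _; simp [rr]; exact_mod_cast he0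
    | succ m ih =>
      intro hm
      have h1 := ih (by omega)
      have h2 := hstep m (by omega)
      have h2' : ((m + 1 : ℕ) : ℚ) * (e (m + 1) : ℚ) +
          ((N + m : ℕ) : ℚ) * ((d.choose m : ℚ) * (β m : ℚ)) ≤ ((N + m : ℕ) : ℚ) * (e m : ℚ) := by
        exact_mod_cast h2
      have h3 : (0 : ℚ) < ((m + 1 : ℕ) : ℚ) := by positivity
      have hq : (e (m + 1) : ℚ) ≤ ((N + m : ℕ) : ℚ) / ((m + 1 : ℕ) : ℚ) *
          ((e m : ℚ) - (d.choose m : ℚ) * (β m : ℚ)) := by
        rw [div_mul_eq_mul_div, le_div_iff₀ h3]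
        nlinarith
      have hsum : ∑ j ∈ range m, rr N j (m + 1 - j) * ((d.choose j : ℚ) * (β j : ℚ)) =
          ((N + m : ℕ) : ℚ) / ((m + 1 : ℕ) : ℚ) *
            ∑ j ∈ range m, rr N j (m - j) * ((d.choose j : ℚ) * (β j : ℚ)) := by
        rw [mul_sum]
        refine sum_congr rfl fun j hj => ?_
        have hj' := mem_range.mp hj
        have e1 : m + 1 - j = (m - j) + 1 := by omega
        rw [e1, rr]
        have e2 : j + (m - j) = m := by omega
        rw [e2]
        ring
      rw [sum_range_succ, hsum]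
      have e3 : m + 1 - m = 0 + 1 := by omega
      have e4 : rr N m (m + 1 - m) = ((N + m : ℕ) : ℚ) / ((m + 1 : ℕ) : ℚ) := by
        rw [e3, rr, rr]; simp
      rw [e4]
      have e5 : rr N 0 (m + 1) = ((N + m : ℕ) : ℚ) / ((m + 1 : ℕ) : ℚ) * rr N 0 m := by
        rw [rr, zero_add]; ring
      rw [e5]
      have hc : (0 : ℚ) ≤ ((N + m : ℕ) : ℚ) / ((m + 1 : ℕ) : ℚ) := by positivity
      nlinarith [mul_le_mul_of_nonneg_left h1 hc]
  have hW : ∀ m ≤ i, (e m : ℚ) ≤ ((N + m - 1).choose m : ℚ) := by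
    intro m hm
    have h1 := key m hm
    rw [rr_zero_eq] at h1
    have h2 : 0 ≤ ∑ j ∈ range m, rr N j (m - j) * ((d.choose j : ℚ) * (β j : ℚ)) :=
      sum_nonneg fun j _ => mul_nonneg (rr_nonneg _ _ _) (by positivity)
    linarith
  have hterm : ∀ j ∈ range i, (d.choose i : ℚ) * (β j : ℚ) ≤
      rr N j (i - j) * ((d.choose j : ℚ) * (β j : ℚ)) := by
    intro j hj
    have hji := mem_range.mp hj
    rcases Nat.eq_zero_or_pos (β j) with hb | hb
    · rw [hb]; simp
    · have hj0 : j ≠ 0 := by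
        rintro rfl
        omega
      have h1 : d.choose j ≤ e j := by
        have := hle j hji
        nlinarith
      have h2 : (e j : ℚ) ≤ ((N + j - 1).choose j : ℚ) := hW j hji.le
      have h3 : d.choose j ≤ (N + j - 1).choose j := by
        have : e j ≤ (N + j - 1).choose j := by exact_mod_cast h2
        omega
      have h4 : d ≤ N + 2 * j := by
        by_contra hcon
        have h5 : (N + j - 1) + 1 ≤ d := by omega
        have h6 : ((N + j - 1) + 1).choose j ≤ d.choose j := Nat.choose_le_choose j h5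
        obtain ⟨j', rfl⟩ : ∃ j', j = j' + 1 := ⟨j - 1, by omega⟩
        rw [Nat.choose_succ_succ'] at h6
        have h7 : 0 < (N + (j' + 1) - 1).choose j' := Nat.choose_pos (by omega)
        omega
      have h5 := choose_le_rr h4 (i - j)
      have e1 : j + (i - j) = i := by omega
      rw [e1] at h5
      have : (0 : ℚ) ≤ (β j : ℚ) := by positivity
      nlinarith [mul_le_mul_of_nonneg_right h5 this]
  have h1 := key i le_rfl
  rw [rr_zero_eq] at h1
  have h2 : ∑ j ∈ range i, (d.choose i : ℚ) * (β j : ℚ) ≤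
      ∑ j ∈ range i, rr N j (i - j) * ((d.choose j : ℚ) * (β j : ℚ)) := sum_le_sum hterm
  have h3 : (h : ℚ) ≤ (e i : ℚ) + (d.choose i : ℚ) * ∑ j ∈ range i, (β j : ℚ) := by
    exact_mod_cast hh
  rw [mul_sum] at h3
  have h4 : (h : ℚ) ≤ ((N + i - 1).choose i : ℚ) := by linarith
  exact_mod_cast h4

theorem targetNum : TargetNum := by
  intro d N e D b h he0 hb0 hD hmac hh i hid
  refine ubc_numeric d N i e b (by rw [he0]) hb0 (fun g _ => ?_) (fun g _ => ?_) (h i) ?_
  · have h1 := hmac g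
    have h2 := Nat.mul_le_mul_left (N + g) (hD g)
    rw [mul_add] at h2
    omega
  · have := hD g
    omega
  · refine (hh i hid).trans ?_
    have : ∑ j ∈ (range (i - 1)).filter (fun j => Even (i - j)), (d.choose i * b j : ℤ) ≤
        ∑ j ∈ range i, (d.choose i * b j : ℤ) := by
      refine sum_le_sum_of_subset_of_nonneg ?_ (fun _ _ _ => by positivity)
      intro j hj
      rw [mem_filter, mem_range] at hj
      rw [mem_range]
      omega
    rw [mul_sum]
    linarith

end Pool.Agent.UBC
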