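import Pool.Agent.UBC.Asm
import Pool.Agent.UBC.Gen
import Pool.Agent.UBC.Elim
import Pool.Agent.UBC.DC1
import Pool.Agent.UBC.Contract
import Pool.Agent.UBC.Numeric

set_option autoImplicit false

namespace Pool.Agent.UBC

theorem targetA_of_dc2 (h : ∀ (k : Type) [Field k] [CharP k 2], TargetDC2 k) : TargetA :=
  targetA_of (fun k _ _ => targetElim k) (fun k _ _ => targetDC1 k) h
    (fun k _ => targetMac k) targetNum (fun k _ _ => targetGen k)

end Pool.Agent.UBC
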