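import Pool.Agent.UBC.AlgDefs

/-!
# The `h`-numbers as alternating sums of numbers of monomials
-/

set_option autoImplicit false
set_option linter.unusedSectionVars false

namespace Pool.Agent.UBC

open Finset

namespace Cnt

/-- number of monomials of degree `e` with a given support of size `j` -/
def cc : ℕ → ℕ → ℕ
  | 0, 0 => 1
  | _ + 1, 0 => 0
  | 0, _ + 1 => 0
  | e + 1, j + 1 => cc e (j + 1) + cc e j

theorem cc_zero_zero : cc 0 0 = 1 := rfl
theorem cc_succ_zero (e : ℕ) : cc (e + 1) 0 = 0 := rfl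
theorem cc_zero_succ (j : ℕ) : cc 0 (j + 1) = 0 := rfl
theorem cc_succ_succ (e j : ℕ) : cc (e + 1) (j + 1) = cc e (j + 1) + cc e j := rfl

/-- the alternating sum -/
def AA (d j g : ℕ) : ℤ := ∑ i ∈ range (g + 1), (-1 : ℤ) ^ i * (d.choose i : ℤ) * (cc (g - i) j : ℤ)

theorem AA_zero_right (d j : ℕ) : AA d j 0 = (cc 0 j : ℤ) := by
  simp [AA]

theorem AA_succ_left (d j g : ℕ) : AA (d + 1) j (g + 1) = AA d j (g + 1) - AA d j g := by
  unfold AA
  rw [sum_range_succ' _ (g + 1), sum_range_succ' (fun i => (-1 : ℤ) ^ i * (d.choose i : ℤ) *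
    (cc (g + 1 - i) j : ℤ)) (g + 1)]
  have : ∀ i ∈ range (g + 1), (-1 : ℤ) ^ (i + 1) * ((d + 1).choose (i + 1) : ℤ) *
      (cc (g + 1 - (i + 1)) j : ℤ) = (-1 : ℤ) ^ (i + 1) * (d.choose (i + 1) : ℤ) *
      (cc (g + 1 - (i + 1)) j : ℤ) - (-1 : ℤ) ^ i * (d.choose i : ℤ) * (cc (g - i) j : ℤ) := by
    intro i _
    rw [Nat.choose_succ_succ, Nat.add_sub_add_right]
    push_cast
    ring
  rw [sum_congr rfl this, sum_sub_distrib]
  simp only [pow_zero, Nat.choose_zero_right]
  ring

theorem AA_succ_mid (d j g : ℕ) : AA d (j + 1) (g + 1) - AA d (j + 1) g = AA d j g := by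
  unfold AA
  rw [sum_range_succ _ (g + 1)]
  have h0 : cc (g + 1 - (g + 1)) (j + 1) = 0 := by rw [Nat.sub_self]; rfl
  rw [h0]
  have : ∀ i ∈ range (g + 1), (-1 : ℤ) ^ i * (d.choose i : ℤ) * (cc (g + 1 - i) (j + 1) : ℤ) =
      (-1 : ℤ) ^ i * (d.choose i : ℤ) * (cc (g - i) (j + 1) : ℤ) +
      (-1 : ℤ) ^ i * (d.choose i : ℤ) * (cc (g - i) j : ℤ) := by
    intro i hi
    rw [mem_range] at hi
    have : g + 1 - i = (g - i) + 1 := by omega
    rw [this, cc_succ_succ]
    push_cast
    ring
  rw [sum_congr rfl this, sum_add_distrib]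
  simp

theorem AA_succ_succ (d j g : ℕ) : AA (d + 1) (j + 1) (g + 1) = AA d j g := by
  rw [AA_succ_left, AA_succ_mid]

theorem AA_zero_mid (d g : ℕ) : AA d 0 g = (-1 : ℤ) ^ g * (d.choose g : ℤ) := by
  unfold AA
  rw [sum_range_succ, Nat.sub_self, cc_zero_zero, Nat.cast_one, mul_one]
  rw [sum_eq_zero, zero_add]
  intro i hi
  rw [mem_range] at hi
  obtain ⟨e, he⟩ : ∃ e, g - i = e + 1 := ⟨g - i - 1, by omega⟩
  rw [he, cc_succ_zero]
  simp

theorem AA_eq : ∀ (j d g : ℕ), j ≤ d →
    AA d j g = if j ≤ g then (-1 : ℤ) ^ (g - j) * ((d - j).choose (g - j) : ℤ) else 0 := by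
  intro j
  induction j with
  | zero => intro d g _; rw [AA_zero_mid]; simp
  | succ j ih =>
    intro d g hd
    obtain ⟨d, rfl⟩ : ∃ d', d = d' + 1 := ⟨d - 1, by omega⟩
    cases g with
    | zero => rw [AA_zero_right, cc_zero_succ]; simp
    | succ g =>
      rw [AA_succ_succ, ih d g (by omega)]
      simp only [Nat.add_sub_add_right, Nat.add_le_add_iff_right]

variable {V : Type} [DecidableEq V]

theorem mdeg_add_single (m : V →₀ ℕ) (v : V) :
    mdeg (m + Finsupp.single v 1) = mdeg m + 1 := by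
  unfold mdeg
  rw [Finsupp.sum_add_index' (fun _ => rfl) (fun _ _ _ => rfl)]
  simp

theorem mdeg_zero : mdeg (0 : V →₀ ℕ) = 0 := by simp [mdeg]

theorem support_add_single (m : V →₀ ℕ) (v : V) :
    (m + Finsupp.single v 1).support = insert v m.support := by
  ext w
  rw [Finsupp.mem_support_iff, mem_insert, Finsupp.mem_support_iff, Finsupp.add_apply,
    Finsupp.single_apply]
  by_cases h : v = w
  · subst h; simp
  · rw [if_neg h, add_zero]
    constructor
    · exact fun h' => Or.inr h'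
    · rintro (h' | h')
      · exact absurd h'.symm h
      · exact h'

theorem eq_zero_of_mdeg {m : V →₀ ℕ} (h : mdeg m = 0) : m = 0 := by
  unfold mdeg Finsupp.sum at h
  rw [sum_eq_zero_iff] at h
  ext w
  by_contra h'
  exact h' (h w (Finsupp.mem_support_iff.mpr h'))

theorem exists_sub {m : V →₀ ℕ} {v : V} (h : v ∈ m.support) :
    ∃ m', m = m' + Finsupp.single v 1 := by
  refine ⟨m - Finsupp.single v 1, ?_⟩
  ext w
  rw [Finsupp.mem_support_iff] at h
  simp only [Finsupp.add_apply, Finsupp.tsub_apply, Finsupp.single_apply]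
  by_cases h' : v = w
  · subst h'; simp; omega
  · simp [h']

theorem count_supp (s : Finset V) : ∀ e : ℕ,
    ({m : V →₀ ℕ | m.support = s ∧ mdeg m = e}).Finite ∧
    ({m : V →₀ ℕ | m.support = s ∧ mdeg m = e}).ncard = cc e s.card := by
  induction s using Finset.induction_on with
  | empty =>
    intro e
    cases e with
    | zero =>
      have : {m : V →₀ ℕ | m.support = ∅ ∧ mdeg m = 0} = {0} := by
        ext m
        simp only [Set.mem_ofPred_eq, Set.mem_singleton_iff]
        constructor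
        · rintro ⟨_, h⟩; exact eq_zero_of_mdeg h
        · rintro rfl; exact ⟨by simp, mdeg_zero⟩
      rw [this]
      exact ⟨Set.finite_singleton _, by rw [Set.ncard_singleton]; rfl⟩
    | succ e =>
      have : {m : V →₀ ℕ | m.support = ∅ ∧ mdeg m = e + 1} = ∅ := by
        ext m
        simp only [Set.mem_ofPred_eq, Set.mem_empty_iff_false, iff_false, not_and]
        intro h h2
        rw [Finsupp.support_eq_empty] at h
        rw [h, mdeg_zero] at h2
        omega
      rw [this]
      exact ⟨Set.finite_empty, by rw [Set.ncard_empty]; rfl⟩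
  | insert v s hv ih =>
    intro e
    rw [card_insert_of_notMem hv]
    induction e with
    | zero =>
      have : {m : V →₀ ℕ | m.support = insert v s ∧ mdeg m = 0} = ∅ := by
        ext m
        simp only [Set.mem_ofPred_eq, Set.mem_empty_iff_false, iff_false, not_and]
        intro h h2
        rw [eq_zero_of_mdeg h2, Finsupp.support_zero] at h
        exact absurd h.symm (insert_ne_empty v s)
      rw [this]
      exact ⟨Set.finite_empty, by rw [Set.ncard_empty]; rfl⟩
    | succ e ihe =>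
      have hinj : Function.Injective (fun m : V →₀ ℕ => m + Finsupp.single v 1) :=
        fun a b h => by simpa using h
      have hset : {m : V →₀ ℕ | m.support = insert v s ∧ mdeg m = e + 1} =
          (fun m : V →₀ ℕ => m + Finsupp.single v 1) ''
            {m : V →₀ ℕ | m.support = insert v s ∧ mdeg m = e} ∪
          (fun m : V →₀ ℕ => m + Finsupp.single v 1) ''
            {m : V →₀ ℕ | m.support = s ∧ mdeg m = e} := by
        ext m
        simp only [Set.mem_ofPred_eq, Set.mem_union, Set.mem_image]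
        constructor
        · rintro ⟨h1, h2⟩
          obtain ⟨m', rfl⟩ := exists_sub (m := m) (v := v) (by rw [h1]; exact mem_insert_self v s)
          rw [mdeg_add_single] at h2
          rw [support_add_single] at h1
          by_cases h3 : v ∈ m'.support
          · left
            rw [insert_eq_of_mem h3] at h1
            exact ⟨m', ⟨h1, by omega⟩, rfl⟩
          · right
            refine ⟨m', ⟨?_, by omega⟩, rfl⟩
            have := congrArg (fun t => t.erase v) h1
            simp only [erase_insert h3, erase_insert hv] at this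
            exact this
        · rintro (⟨m', ⟨h1, h2⟩, rfl⟩ | ⟨m', ⟨h1, h2⟩, rfl⟩)
          · rw [support_add_single, mdeg_add_single, h1, h2]
            exact ⟨by simp, rfl⟩
          · rw [support_add_single, mdeg_add_single, h1, h2]
            exact ⟨rfl, rfl⟩
      have hdisj : Disjoint ((fun m : V →₀ ℕ => m + Finsupp.single v 1) ''
            {m : V →₀ ℕ | m.support = insert v s ∧ mdeg m = e})
          ((fun m : V →₀ ℕ => m + Finsupp.single v 1) ''
            {m : V →₀ ℕ | m.support = s ∧ mdeg m = e}) := by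
        rw [Set.disjoint_image_iff hinj, Set.disjoint_left]
        rintro m ⟨h1, _⟩ ⟨h2, _⟩
        rw [h2] at h1
        exact hv (h1 ▸ mem_insert_self v s)
      rw [hset]
      refine ⟨(ihe.1.image _).union ((ih e).1.image _), ?_⟩
      rw [Set.ncard_union_eq hdisj (ihe.1.image _) ((ih e).1.image _),
        Set.ncard_image_of_injective _ hinj, Set.ncard_image_of_injective _ hinj, ihe.2,
        (ih e).2, cc_succ_succ]

theorem count_faces (Δ : Cplx V) (e : ℕ) :
    ({m : V →₀ ℕ | m.support ∈ Δ.faces ∧ mdeg m = e}).ncard = ∑ s ∈ Δ.faces, cc e s.card := by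
  classical
  have hset : {m : V →₀ ℕ | m.support ∈ Δ.faces ∧ mdeg m = e} =
      ⋃ s ∈ Δ.faces, {m : V →₀ ℕ | m.support = s ∧ mdeg m = e} := by
    ext m
    simp only [Set.mem_ofPred_eq, Set.mem_iUnion, exists_prop]
    constructor
    · rintro ⟨h1, h2⟩; exact ⟨_, h1, rfl, h2⟩
    · rintro ⟨s, hs, rfl, h2⟩; exact ⟨hs, h2⟩
  have hfin : {m : V →₀ ℕ | m.support ∈ Δ.faces ∧ mdeg m = e}.Finite := by
    rw [hset]
    exact Δ.faces.finite_toSet.biUnion (fun s _ => (count_supp s e).1)
  rw [Set.ncard_eq_toFinset_card _ hfin]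
  rw [card_eq_sum_card_fiberwise (f := fun m : V →₀ ℕ => m.support) (t := Δ.faces)
    (fun m hm => ((Set.Finite.mem_toFinset hfin).mp hm).1)]
  refine sum_congr rfl (fun s hs => ?_)
  rw [← (count_supp s e).2, ← Set.ncard_coe_finset]
  congr 1
  ext m
  simp only [coe_filter, Set.Finite.mem_toFinset, Set.mem_ofPred_eq]
  constructor
  · rintro ⟨⟨_, h2⟩, h3⟩; exact ⟨h3, h2⟩
  · rintro ⟨h1, h2⟩; exact ⟨⟨h1 ▸ hs, h2⟩, h1⟩

end Cnt

open Cnt in
theorem hnum_eq_alt (V : Type) [DecidableEq V] (Δ : Cplx V) (d g : ℕ) (_ : g ≤ d)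
    (hd : ∀ s ∈ Δ.faces, s.card ≤ d) :
    Δ.hnum d g = ∑ i ∈ range (g + 1), (-1 : ℤ) ^ i * (d.choose i : ℤ) *
      (Set.ncard {m : V →₀ ℕ | m.support ∈ Δ.faces ∧ mdeg m = g - i} : ℤ) := by
  have h1 : ∑ i ∈ range (g + 1), (-1 : ℤ) ^ i * (d.choose i : ℤ) *
      (Set.ncard {m : V →₀ ℕ | m.support ∈ Δ.faces ∧ mdeg m = g - i} : ℤ) =
      ∑ s ∈ Δ.faces, AA d s.card g := by
    unfold AA
    rw [sum_comm]
    refine sum_congr rfl (fun i _ => ?_)
    rw [count_faces, Nat.cast_sum, mul_sum]
  rw [h1]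
  have h2 : ∑ s ∈ Δ.faces, AA d s.card g = ∑ s ∈ Δ.faces, ∑ j ∈ range (g + 1),
      if s.card = j then (-1 : ℤ) ^ (g - j) * ((d - j).choose (g - j) : ℤ) else 0 := by
    refine sum_congr rfl (fun s hs => ?_)
    rw [AA_eq s.card d g (hd s hs), sum_ite_eq]
    simp only [mem_range, Nat.lt_succ_iff]
  rw [h2, sum_comm]
  unfold Cplx.hnum Cplx.fnum
  refine sum_congr rfl (fun j _ => ?_)
  rw [← sum_filter, sum_const, nsmul_eq_mul]
  ring

end Pool.Agent.UBC
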