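import Pool.Agent.UBC.DCGrid

/-!
# UBC project: TargetDC2 (socle inequality and Euler characteristic inequality)
-/

set_option autoImplicit false
set_option linter.unusedSectionVars false

namespace Pool.Agent.UBC

open Finset Module

variable {V : Type} [DecidableEq V] {k : Type} [Field k] {d : ℕ}

/-- coordinates on `XX` -/
noncomputable def xxEquiv (Δ : Cplx V) (P : ℕ → Prop) (j i : ℕ) :
    (XX Δ P j i : Submodule k (Tri V k d)) ≃ₗ[k]
      ({x : Finset V × Finset (Fin d) × (V →₀ ℕ) // OK Δ P j i x.1 x.2.1 x.2.2} → k) := by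
  classical
  exact
  { toFun := fun b x => b.1 x.1.1 x.1.2.1 x.1.2.2
    map_add' := fun a b => rfl
    map_smul' := fun c b => rfl
    invFun := fun f => ⟨fun s S m => if h : OK Δ P j i s S m then f ⟨(s, S, m), h⟩ else 0,
      fun s S m h => dif_neg h⟩
    left_inv := by
      intro b
      apply Subtype.ext
      funext s S m
      by_cases h : OK Δ P j i s S m
      · simp [h]
      · simp only [h, dif_neg, not_false_iff]
        exact (b.2 s S m h).symm
    right_inv := by
      intro f
      funext x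
      obtain ⟨⟨s, S, m⟩, h⟩ := x
      simp [h] }

/-- monomials of bounded degree -/
theorem finite_mon (Δ : Cplx V) (g : ℕ) :
    {m : V →₀ ℕ | m.support ∈ Δ.faces ∧ mdeg m ≤ g}.Finite := by
  refine (Finset.finite_toSet (Δ.verts.finsupp (fun _ => range (g + 1)))).subset ?_
  intro m hm
  rw [mem_coe, mem_finsupp_iff]
  refine ⟨fun v hv => Cplx.mem_verts_of hm.1 hv, fun v _ => ?_⟩
  rw [mem_range]
  have := le_mdeg m v
  have := hm.2
  omega

theorem finite_ok (Δ : Cplx V) (g j i : ℕ) :
    Finite {x : Finset V × Finset (Fin d) × (V →₀ ℕ) //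
      OK Δ (fun n => n = g) j i x.1 x.2.1 x.2.2} := by
  have hf : ((Δ.faces : Set (Finset V)) ×ˢ ((Set.univ : Set (Finset (Fin d))) ×ˢ
      {m : V →₀ ℕ | m.support ∈ Δ.faces ∧ mdeg m ≤ g})).Finite :=
    (Finset.finite_toSet _).prod (Set.finite_univ.prod (finite_mon Δ g))
  refine (hf.subset (t := {x : Finset V × Finset (Fin d) × (V →₀ ℕ) |
      OK Δ (fun n => n = g) j i x.1 x.2.1 x.2.2}) ?_).to_subtype
  rintro ⟨s, S, m⟩ ⟨h1, h2, h3, h4⟩
  refine ⟨Δ.down _ h1 _ subset_union_left, Set.mem_univ _, Δ.down _ h1 _ subset_union_right, ?_⟩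
  simp only at h3 h4
  show mdeg m ≤ g
  omega

theorem finite_XX (Δ : Cplx V) (g j i : ℕ) :
    FiniteDimensional k (XX Δ (fun n => n = g) j i : Submodule k (Tri V k d)) := by
  have := finite_ok (d := d) Δ g j i
  exact (xxEquiv (k := k) (d := d) Δ (fun n => n = g) j i).symm.finiteDimensional

theorem card_powersetCard_fin (d i : ℕ) : Nat.card {S : Finset (Fin d) // S.card = i} =
    d.choose i := by
  classical
  rw [Nat.card_eq_fintype_card, Fintype.card_finset_len, Fintype.card_fin]

theorem finrank_XX0 (Δ : Cplx V) {g i : ℕ} (hi : i ≤ g) :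
    finrank k (XX Δ (fun n => n = g) 0 i : Submodule k (Tri V k d)) =
      d.choose i * Set.ncard {m : V →₀ ℕ | m.support ∈ Δ.faces ∧ mdeg m = g - i} := by
  classical
  have := finite_ok (d := d) Δ g 0 i
  let _ := Fintype.ofFinite {x : Finset V × Finset (Fin d) × (V →₀ ℕ) //
      OK Δ (fun n => n = g) 0 i x.1 x.2.1 x.2.2}
  rw [(xxEquiv (k := k) (d := d) Δ (fun n => n = g) 0 i).finrank_eq,
    Module.finrank_fintype_fun_eq_card, ← Nat.card_eq_fintype_card,
    ← card_powersetCard_fin, ← Nat.card_coe_set_eq, ← Nat.card_prod]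
  refine Nat.card_congr
    { toFun := fun x => (⟨x.1.2.1, x.2.2.2.1⟩, ⟨x.1.2.2, ?_⟩)
      invFun := fun y => ⟨(∅, y.1.1, y.2.1), ?_⟩
      left_inv := ?_
      right_inv := ?_ }
  · obtain ⟨⟨s, S, m⟩, h1, h2, h3, h4⟩ := x
    refine ⟨Δ.down _ h1 _ subset_union_right, ?_⟩
    simp only at h3 h4 ⊢
    omega
  · obtain ⟨⟨S, hS⟩, ⟨m, hm1, hm2⟩⟩ := y
    refine ⟨by simpa using hm1, rfl, hS, ?_⟩
    simp only
    omega
  · rintro ⟨⟨s, S, m⟩, h1, h2, h3, h4⟩
    have : s = ∅ := card_eq_zero.1 h2
    subst this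
    rfl
  · intro y; rfl

/-- tensoring with functions on index sets of size `g` (monomial `0`) -/
def Wsub (g : ℕ) (W : Submodule k (Finset V → k)) : Submodule k (Tri V k d) where
  carrier := {b | (∀ s S m, ¬ (S.card = g ∧ m = 0) → b s S m = 0) ∧
    ∀ S, (fun s => b s S 0) ∈ W}
  add_mem' := by
    rintro a b ⟨ha, ha'⟩ ⟨hb, hb'⟩
    refine ⟨fun s S m h => ?_, fun S => ?_⟩
    · simp only [Pi.add_apply, ha s S m h, hb s S m h, add_zero]
    · exact W.add_mem (ha' S) (hb' S)
  zero_mem' := ⟨fun _ _ _ _ => rfl, fun _ => W.zero_mem⟩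
  smul_mem' := by
    rintro c b ⟨hb, hb'⟩
    refine ⟨fun s S m h => ?_, fun S => ?_⟩
    · simp only [Pi.smul_apply, hb s S m h, smul_zero]
    · exact W.smul_mem c (hb' S)

noncomputable def wEquiv (g : ℕ) (W : Submodule k (Finset V → k)) :
    (Wsub g W : Submodule k (Tri V k d)) ≃ₗ[k] ({S : Finset (Fin d) // S.card = g} → W) := by
  classical
  exact
  { toFun := fun b S => ⟨fun s => b.1 s S.1 0, b.2.2 S.1⟩
    map_add' := fun a b => rfl
    map_smul' := fun c b => rfl
    invFun := fun f => ⟨fun s S m => if h : S.card = g ∧ m = 0 then (f ⟨S, h.1⟩).1 s else 0, by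
      refine ⟨fun s S m h => dif_neg h, fun S => ?_⟩
      by_cases h : S.card = g
      · simp only [h, and_self, dite_true]
        exact (f ⟨S, h⟩).2
      · simp only [h, false_and, dite_false]
        exact W.zero_mem⟩
    left_inv := by
      intro b
      apply Subtype.ext
      funext s S m
      by_cases h : S.card = g ∧ m = 0
      · obtain ⟨h1, h2⟩ := h
        subst h2
        simp [h1]
      · simp only [h, dite_false]
        exact (b.2.1 s S m h).symm
    right_inv := by
      intro f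
      funext x
      obtain ⟨S, h⟩ := x
      apply Subtype.ext
      funext s
      simp [h] }

theorem finrank_Wsub (g : ℕ) (W : Submodule k (Finset V → k)) [FiniteDimensional k W] :
    finrank k (Wsub g W : Submodule k (Tri V k d)) = d.choose g * finrank k W := by
  classical
  rw [(wEquiv (d := d) g W).finrank_eq, Module.finrank_pi_fintype, sum_const, smul_eq_mul,
    card_univ, ← card_powersetCard_fin, Nat.card_eq_fintype_card]

theorem finite_Zc (Δ : Cplx V) (i : ℕ) : FiniteDimensional k (Zc k Δ i) := by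
  let f : Zc k Δ i →ₗ[k] ({s // s ∈ Δ.faces} → k) :=
    { toFun := fun c s => c.1 s.1
      map_add' := fun _ _ => rfl
      map_smul' := fun _ _ => rfl }
  refine FiniteDimensional.of_injective f ?_
  intro a b hab
  apply Subtype.ext
  funext s
  by_cases hs : s ∈ Δ.faces
  · exact congrFun hab ⟨s, hs⟩
  · rw [a.2.1 s (Or.inl hs), b.2.1 s (Or.inl hs)]

/-- boundaries -/
theorem mem_Bc {Δ : Cplx V} {i : ℕ} {x : Finset V → k} :
    x ∈ Bc k Δ i ↔ ∃ c : Finset V → k, (∀ s, (s ∉ Δ.faces ∨ s.card ≠ i + 1) → c s = 0) ∧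
      ∀ t, Δ.bd c t = x t := by
  classical
  constructor
  · intro h
    refine Submodule.span_induction ?_ ?_ ?_ ?_ h
    · rintro _ ⟨s, hs, hsc, rfl⟩
      refine ⟨fun t => if t = s then 1 else 0, ?_, ?_⟩
      · rintro t ht
        refine if_neg ?_
        rintro rfl
        rcases ht with h | h
        · exact h hs
        · exact h hsc
      · intro t
        unfold Cplx.bd
        rw [sum_ite_eq']
        simp only [mem_filter, hs, true_and, hsc]
        refine if_congr ⟨fun h => ⟨h.1, by omega⟩, fun h => ⟨h.1, by omega⟩⟩ rfl rfl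
    · exact ⟨0, fun _ _ => rfl, fun t => by simp [Cplx.bd]⟩
    · rintro a b _ _ ⟨c, hc, hca⟩ ⟨e, he, heb⟩
      refine ⟨c + e, fun s hs => by simp [hc s hs, he s hs], fun t => ?_⟩
      rw [Pi.add_apply, ← hca, ← heb]
      simp [Cplx.bd, sum_add_distrib]
    · rintro r a _ ⟨c, hc, hca⟩
      refine ⟨r • c, fun s hs => by simp [hc s hs], fun t => ?_⟩
      rw [Pi.smul_apply, ← hca]
      simp [Cplx.bd, mul_sum]
  · rintro ⟨c, hc, hcx⟩
    have e : x = ∑ s ∈ Δ.faces.filter (fun s => s.card = i + 1),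
        c s • (fun t : Finset V => if t ⊆ s ∧ t.card = i then (1 : k) else 0) := by
      funext t
      rw [← hcx t, Finset.sum_apply]
      unfold Cplx.bd
      simp only [Pi.smul_apply, smul_eq_mul, mul_ite, mul_one, mul_zero]
      rw [← sum_filter, filter_filter]
      have e2 : Δ.faces.filter (fun a => a.card = i + 1 ∧ t ⊆ a ∧ t.card = i) =
          (Δ.faces.filter (fun s => t ⊆ s ∧ s.card = t.card + 1)).filter
            (fun s => s.card = i + 1) := by
        ext a
        simp only [mem_filter]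
        constructor
        · rintro ⟨h1, h2, h3, h4⟩
          exact ⟨⟨h1, h3, by omega⟩, h2⟩
        · rintro ⟨⟨h1, h3, h4⟩, h2⟩
          exact ⟨h1, h2, h3, by omega⟩
      rw [e2]
      symm
      refine sum_subset (filter_subset _ _) fun s hs hs' => ?_
      exact hc s (Or.inr fun h => hs' (mem_filter.2 ⟨hs, h⟩))
    rw [e]
    refine Submodule.sum_mem _ fun s hs => Submodule.smul_mem _ _ (Submodule.subset_span ?_)
    rw [mem_filter] at hs
    exact ⟨s, hs.1, hs.2, rfl⟩

section

variable [CharP k 2] (Δ : Cplx V) (θ : V → Fin d → k)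

theorem Z_eq_Wsub (g j : ℕ) :
    (grid Δ θ (fun n => n = g)).Z j g = Wsub g (Zc k Δ j) := by
  ext b
  rw [Grid.mem_Z]
  change (b ∈ XX Δ (fun n => n = g) j g ∧ D1 Δ b = 0 ∧ D2 Δ θ b = 0) ↔ _
  constructor
  · rintro ⟨h1, h2, h3⟩
    refine ⟨fun s S m h => h1 _ _ _ fun h' => h ?_, fun S => ⟨?_, ?_⟩⟩
    · obtain ⟨_, _, hS, hd⟩ := h'
      have : mdeg m = 0 := by omega
      exact ⟨hS, mdeg_eq_zero.1 this⟩
    · intro s hs
      refine h1 _ _ _ fun h' => ?_
      rcases hs with h | h
      · exact h (by simpa using h'.1)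
      · exact h h'.2.1
    · intro t _
      rw [bd_eq]
      · have := congrFun (congrFun (congrFun h2 t) S) 0
        rw [D1_apply] at this
        exact this
      · intro s hs
        exact h1 _ _ _ fun h' => hs (by simpa using h'.1)
  · rintro ⟨h1, h2⟩
    have hX : b ∈ XX Δ (fun n => n = g) j g := by
      intro s S m h
      by_cases hSm : S.card = g ∧ m = 0
      · obtain ⟨hS, rfl⟩ := hSm
        refine (h2 S).1 s ?_
        by_contra hcon
        push Not at hcon
        exact h ⟨by simpa using hcon.1, hcon.2, hS, by rw [mdeg_zero]; omega⟩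
      · exact h1 s S m hSm
    refine ⟨hX, ?_, ?_⟩
    · funext s S m
      rw [D1_apply]
      simp only [Pi.zero_apply]
      by_cases hm : m = 0
      · subst hm
        have hsup : ∀ s, s ∉ Δ.faces → (fun s => b s S 0) s = 0 :=
          fun s hs => (h2 S).1 s (Or.inl hs)
        by_cases hs : s ∈ Δ.faces
        · rw [← (h2 S).2 s hs, bd_eq hsup]
        · refine sum_eq_zero fun v _ => hsup _ fun h' => hs (Δ.down _ h' _ (subset_insert _ _))
      · exact sum_eq_zero fun v _ => h1 _ _ _ fun h' => hm h'.2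
    · funext s S m
      have h := (grid Δ θ (fun n => n = g)).h2 j g b hX s S m
      refine h fun h' => ?_
      obtain ⟨_, _, h3, h4⟩ := h'
      omega

theorem B_eq_Wsub (g j : ℕ) :
    (grid Δ θ (fun n => n = g)).B j g = Wsub g (Bc k Δ j) := by
  classical
  ext b
  rw [Grid.mem_B]
  change (∃ c ∈ XX Δ (fun n => n = g) (j + 1) g, D2 Δ θ c = 0 ∧ D1 Δ c = b) ↔ _
  constructor
  · rintro ⟨c, hc, hc2, rfl⟩
    refine ⟨fun s S m h => ?_, fun S => ?_⟩
    · rw [D1_apply]
      refine sum_eq_zero fun v _ => hc _ _ _ fun h' => h ?_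
      obtain ⟨_, _, hS, hd⟩ := h'
      have : mdeg m = 0 := by omega
      exact ⟨hS, mdeg_eq_zero.1 this⟩
    · rw [mem_Bc]
      refine ⟨fun s => c s S 0, ?_, fun t => ?_⟩
      · intro s hs
        refine hc _ _ _ fun h' => ?_
        rcases hs with h | h
        · exact h (by simpa using h'.1)
        · exact h h'.2.1
      · rw [bd_eq, D1_apply]
        intro s hs
        exact hc _ _ _ fun h' => hs (by simpa using h'.1)
  · rintro ⟨h1, h2⟩
    have : ∀ S : Finset (Fin d), ∃ c : Finset V → k,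
        (∀ s, (s ∉ Δ.faces ∨ s.card ≠ j + 1) → c s = 0) ∧ ∀ t, Δ.bd c t = b t S 0 :=
      fun S => mem_Bc.1 (h2 S)
    choose c hc1 hc2 using this
    refine ⟨fun s S m => if S.card = g ∧ m = 0 then c S s else 0, ?_, ?_, ?_⟩
    · intro s S m h
      show (if S.card = g ∧ m = 0 then c S s else 0) = 0
      split_ifs with hSm
      · obtain ⟨hS, rfl⟩ := hSm
        refine hc1 S s ?_
        by_contra hcon
        push Not at hcon
        exact h ⟨by simpa using hcon.1, hcon.2, hS, by rw [mdeg_zero]; omega⟩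
      · rfl
    · funext s S m
      rw [D2_apply]
      refine sum_eq_zero fun p _ => sum_eq_zero fun v _ => ?_
      rw [if_neg, mul_zero]
      rintro ⟨_, h⟩
      have := congrArg mdeg h
      rw [mdeg_add_one, mdeg_zero] at this
      omega
    · funext s S m
      rw [D1_apply]
      by_cases hSm : S.card = g ∧ m = 0
      · obtain ⟨hS, rfl⟩ := hSm
        simp only [hS, and_self, if_true]
        rw [← hc2 S s, bd_eq]
        intro s hs
        exact hc1 S s (Or.inl hs)
      · simp only [hSm, if_false, sum_const_zero]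
        exact (h1 s S m hSm).symm

theorem Bc_le_Zc (j : ℕ) : Bc k Δ j ≤ Zc k Δ j := by
  intro x hx
  have h : (fun s (S : Finset (Fin 0)) m => if S.card = 0 ∧ m = 0 then x s else 0 : Tri V k 0) ∈
      Wsub 0 (Bc k Δ j) := by
    refine ⟨fun s S m h => if_neg h, fun S => ?_⟩
    have hS : S.card = 0 := by
      have := S.card_le_univ
      simpa using this
    simpa [hS] using hx
  rw [← B_eq_Wsub Δ (fun _ p => p.elim0) 0 j] at h
  have h2 := Grid.B_le_Z _ _ _ h
  rw [Z_eq_Wsub] at h2
  simpa using h2.2 ∅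

/-- embedding of functions on monomials -/
def monEmb : ((V →₀ ℕ) → k) →ₗ[k] Tri V k d where
  toFun b := fun s S m => if s = ∅ ∧ S = ∅ then b m else 0
  map_add' := by
    intro a b
    funext s S m
    simp only [Pi.add_apply]
    split_ifs <;> simp
  map_smul' := by
    intro c b
    funext s S m
    simp only [Pi.smul_apply, RingHom.id_apply]
    split_ifs <;> simp

theorem monEmb_apply (b : (V →₀ ℕ) → k) (s : Finset V) (S : Finset (Fin d)) (m : V →₀ ℕ) :
    monEmb b s S m = if s = ∅ ∧ S = ∅ then b m else 0 := rfl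

theorem monEmb_injective : Function.Injective (monEmb (V := V) (k := k) (d := d)) := by
  intro a b h
  funext m
  have := congrFun (congrFun (congrFun h ∅) ∅) m
  simpa [monEmb_apply] using this

theorem E_map (g : ℕ) : (E Δ θ g).map monEmb = (grid Δ θ (fun n => n = g)).Z 0 0 := by
  ext b
  rw [Grid.Z_zero]
  change _ ↔ (b ∈ XX Δ (fun n => n = g) 0 0 ∧ D2 Δ θ b = 0)
  rw [Submodule.mem_map]
  constructor
  · rintro ⟨e, he, rfl⟩
    refine ⟨?_, ?_⟩
    · intro s S m h
      rw [monEmb_apply]
      split_ifs with hsS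
      · obtain ⟨rfl, rfl⟩ := hsS
        refine he.1 m ?_
        by_contra hcon
        push Not at hcon
        exact h ⟨by simpa using hcon.1, rfl, rfl, by simpa using hcon.2⟩
      · rfl
    · funext s S m
      rw [D2_apply]
      simp only [Pi.zero_apply]
      refine sum_eq_zero fun p hp => ?_
      by_cases hsS : s = ∅ ∧ S.erase p = ∅
      · simp only [monEmb_apply, hsS, and_self, if_true]
        exact he.2 m p
      · simp only [monEmb_apply, hsS, if_false, mul_zero, sum_const_zero]
  · rintro ⟨h1, h2⟩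
    refine ⟨fun m => b ∅ ∅ m, ⟨fun m hm => h1 _ _ _ fun h' => ?_, fun m p => ?_⟩, ?_⟩
    · rcases hm with h | h
      · exact h (by simpa using h'.1)
      · exact h (by simpa using h'.2.2.2)
    · have := congrFun (congrFun (congrFun h2 ∅) {p}) m
      rw [D2_apply] at this
      simpa using this
    · funext s S m
      rw [monEmb_apply]
      split_ifs with hsS
      · rw [hsS.1, hsS.2]
      · refine (h1 _ _ _ fun h' => hsS ⟨?_, ?_⟩).symm
        · exact card_eq_zero.1 h'.2.1
        · exact card_eq_zero.1 h'.2.2.1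

theorem D_map (g : ℕ) : (D Δ θ g).map monEmb ≤ (grid Δ θ (fun n => n = g)).B 0 0 := by
  unfold D
  rw [Submodule.map_span, Submodule.span_le]
  rintro _ ⟨_, ⟨v, hv, b, hb, rfl⟩, rfl⟩
  rw [SetLike.mem_coe, Grid.mem_B]
  change ∃ c ∈ XX Δ (fun n => n = g) 1 0, D2 Δ θ c = 0 ∧ D1 Δ c = _
  refine ⟨fun s S m => if s = {v} ∧ S = ∅ then b (m + Finsupp.single v 1) else 0, ?_, ?_, ?_⟩
  · intro s S m h
    show (if s = {v} ∧ S = ∅ then b (m + Finsupp.single v 1) else 0) = 0
    split_ifs with hsS
    · obtain ⟨rfl, rfl⟩ := hsS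
      refine hb.1 _ ?_
      by_contra hcon
      push Not at hcon
      rw [support_add_single, mdeg_add_one] at hcon
      refine h ⟨?_, card_singleton _, rfl, ?_⟩
      · rw [← insert_eq]; exact hcon.1
      · simp only [card_empty]; omega
    · rfl
  · funext s S m
    rw [D2_apply]
    simp only [Pi.zero_apply]
    refine sum_eq_zero fun p _ => ?_
    by_cases hsS : s = {v} ∧ S.erase p = ∅
    · simp only [hsS, and_self, if_true]
      have := hb.2 (m + Finsupp.single v 1) p
      rw [← this]
      refine sum_congr rfl fun w _ => ?_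
      rw [add_right_comm]
    · simp only [hsS, if_false, mul_zero, sum_const_zero]
  · funext s S m
    rw [D1_apply, monEmb_apply]
    by_cases hs : s = ∅
    · subst hs
      rw [sum_eq_single v]
      · simp [contr]
      · intro w _ hwv
        rw [if_neg]
        rintro ⟨h, _⟩
        rw [insert_empty_eq, singleton_inj] at h
        exact hwv h
      · intro h
        exact absurd (by simpa using hv) h
    · rw [if_neg (fun h => hs h.1)]
      refine sum_eq_zero fun w hw => ?_
      rw [if_neg]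
      rintro ⟨h, _⟩
      rw [mem_sdiff] at hw
      have := congrArg card h
      rw [card_insert_of_notMem hw.2, card_singleton] at this
      exact hs (card_eq_zero.1 (by omega))

theorem finrank_monEmb (W : Submodule k ((V →₀ ℕ) → k)) :
    finrank k (W.map (monEmb (V := V) (k := k) (d := d))) = finrank k W :=
  ((Submodule.equivMapOfInjective monEmb monEmb_injective W).finrank_eq).symm

/-- the socle inequality -/
theorem socle_ineq (hst : ∀ s (hs : s ∈ Δ.faces), s.Nonempty → KE (Δ.star s hs) θ) (g : ℕ) :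
    finrank k (D Δ θ g) + d.choose g * betti k Δ g ≤ finrank k (E Δ θ g) := by
  let G := grid Δ θ (fun n => n = g)
  have hcol : ∀ j i, G.Col (j + 1) i := fun j i => col_exact Δ θ _ hst j i
  have hfin : ∀ j i, FiniteDimensional k (G.X j i) := fun j i => finite_XX Δ g j i
  have h : finrank k (G.Z g g) + finrank k (G.B 0 0) ≤
      finrank k (G.Z 0 0) + finrank k (G.B g g) := G.zigzag_down (n := 0) g hfin
    (fun j hj => row_exact Δ θ _ _ _ (Or.inl (by omega)))
    (fun j hj => hcol _ _)
  have := finite_Zc (k := k) Δ g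
  have hBZ := Bc_le_Zc (k := k) Δ g
  have : FiniteDimensional k (Bc k Δ g) := Submodule.finiteDimensional_of_le hBZ
  have e1 : finrank k (G.Z g g) = d.choose g * finrank k (Zc k Δ g) := by
    show finrank k ((grid Δ θ (fun n => n = g)).Z g g) = _
    rw [Z_eq_Wsub, finrank_Wsub]
  have e2 : finrank k (G.B g g) = d.choose g * finrank k (Bc k Δ g) := by
    show finrank k ((grid Δ θ (fun n => n = g)).B g g) = _
    rw [B_eq_Wsub, finrank_Wsub]
  have e3 : finrank k (G.Z 0 0) = finrank k (E Δ θ g) := by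
    show finrank k ((grid Δ θ (fun n => n = g)).Z 0 0) = _
    rw [← E_map, finrank_monEmb]
  have hZf : FiniteDimensional k (G.Z 0 0) :=
    Submodule.finiteDimensional_of_le (S₂ := G.X 0 0)
      (show G.Z 0 0 ≤ G.X 0 0 from fun a ha => (G.mem_Z.1 ha).1)
  have hBf : FiniteDimensional k (G.B 0 0) := Submodule.finiteDimensional_of_le (G.B_le_Z 0 0)
  have e4 : finrank k (D Δ θ g) ≤ finrank k (G.B 0 0) := by
    rw [← finrank_monEmb (d := d)]
    exact Submodule.finrank_mono (D_map Δ θ g)
  have e5 : finrank k (Bc k Δ g) ≤ finrank k (Zc k Δ g) := Submodule.finrank_mono hBZ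
  rw [e1, e2, e3] at h
  unfold betti
  rw [Nat.mul_sub]
  have e6 := Nat.mul_le_mul_left (d.choose g) e5
  omega

/-- the Euler characteristic inequality, with the counting identity as a hypothesis -/
theorem euler_ineq (hst : ∀ s (hs : s ∈ Δ.faces), s.Nonempty → KE (Δ.star s hs) θ) (g : ℕ)
    (hcount : Δ.hnum d g = ∑ i ∈ range (g + 1), (-1 : ℤ) ^ i * (d.choose i : ℤ) *
      (Set.ncard {m : V →₀ ℕ | m.support ∈ Δ.faces ∧ mdeg m = g - i} : ℤ)) :
    Δ.hnum d g ≤ (finrank k (E Δ θ g) : ℤ) +
      ∑ j ∈ (range (g - 1)).filter (fun j => Even (g - j)), (d.choose g * betti k Δ j : ℤ) := by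
  let G := grid Δ θ (fun n => n = g)
  have hcol : ∀ j i, G.Col (j + 1) i := fun j i => col_exact Δ θ _ hst j i
  have hfin : ∀ j i, FiniteDimensional k (G.X j i) := fun j i => finite_XX Δ g j i
  have hZf : ∀ j i, FiniteDimensional k (G.Z j i) := fun j i =>
    Submodule.finiteDimensional_of_le (S₂ := G.X j i)
      (show G.Z j i ≤ G.X j i from fun a ha => (G.mem_Z.1 ha).1)
  have hMf : ∀ i, FiniteDimensional k ((G.X 0 i).map G.d2) := fun i =>
    Submodule.finiteDimensional_of_le (G.map_le_Z i)
  let b : ℕ → ℤ := fun i => match i with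
    | 0 => 0
    | i + 1 => (finrank k ((G.X 0 i).map G.d2) : ℤ)
  let z : ℕ → ℤ := fun i => (finrank k (G.Z 0 i) : ℤ)
  let x : ℕ → ℤ := fun i => (finrank k (G.X 0 i) : ℤ)
  let c : ℕ → ℤ := fun i => ((d.choose g * betti k Δ (g - i) : ℕ) : ℤ)
  have hx : ∀ i, i ≤ g → x i = z i + b (i + 1) := by
    intro i _
    have := G.finrank_X 0 i (hfin 0 i)
    rw [← G.Z_zero] at this
    simp only [x, z, b]
    rw [this]
    push_cast
    ring
  have hb1 : ∀ i, 1 ≤ i → i ≤ g → b i ≤ z i := by
    intro i hi _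
    obtain ⟨i', rfl⟩ : ∃ i', i = i' + 1 := ⟨i - 1, by omega⟩
    simp only [b, z]
    have := hZf 0 (i' + 1)
    exact_mod_cast Submodule.finrank_mono (G.map_le_Z i')
  have hb2 : ∀ i, 2 ≤ i → i ≤ g → Even i → z i ≤ b i + c i := by
    intro i hi hig _
    have h := G.zigzag_up (n := i) (g - i) hfin
      (fun j hj => row_exact Δ θ _ _ _ (Or.inl (by omega)))
      (fun j hj => hcol _ _)
    have eg : g - i + i = g := by omega
    rw [eg] at h
    have := finite_Zc (k := k) Δ (g - i)
    have hBZ := Bc_le_Zc (k := k) Δ (g - i)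
    have : FiniteDimensional k (Bc k Δ (g - i)) := Submodule.finiteDimensional_of_le hBZ
    have e1 : finrank k (G.Z (g - i) g) = d.choose g * finrank k (Zc k Δ (g - i)) := by
      show finrank k ((grid Δ θ (fun n => n = g)).Z (g - i) g) = _
      rw [Z_eq_Wsub, finrank_Wsub]
    have e2 : finrank k (G.B (g - i) g) = d.choose g * finrank k (Bc k Δ (g - i)) := by
      show finrank k ((grid Δ θ (fun n => n = g)).B (g - i) g) = _
      rw [B_eq_Wsub, finrank_Wsub]
    have e5 : finrank k (Bc k Δ (g - i)) ≤ finrank k (Zc k Δ (g - i)) :=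
      Submodule.finrank_mono hBZ
    have e6 := Nat.mul_le_mul_left (d.choose g) e5
    obtain ⟨i', rfl⟩ : ∃ i', i = i' + 1 := ⟨i - 1, by omega⟩
    have := hMf i'
    have e7 : finrank k (G.B 0 (i' + 1)) ≤ finrank k ((G.X 0 i').map G.d2) :=
      Submodule.finrank_mono (G.B_le_map (hcol 0 i'))
    rw [e1, e2] at h
    simp only [b, z, c]
    unfold betti
    rw [Nat.mul_sub]
    have : finrank k (G.Z 0 (i' + 1)) ≤ finrank k ((G.X 0 i').map G.d2) +
        (d.choose g * finrank k (Zc k Δ (g - (i' + 1))) -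
          d.choose g * finrank k (Bc k Δ (g - (i' + 1)))) := by omega
    exact_mod_cast this
  have hbg : b (g + 1) = 0 := by
    simp only [b]
    have : (G.X 0 g).map G.d2 = ⊥ := by
      rw [eq_bot_iff]
      rintro _ ⟨a, ha, rfl⟩
      rw [Submodule.mem_bot]
      have h2 := G.h2 0 g a ha
      funext s S m
      refine h2 s S m fun h' => ?_
      obtain ⟨_, _, h3, h4⟩ := h'
      omega
    rw [this]
    simp
  have key := euler_numeric g x z b c hx hb1 hb2
  rw [hbg, mul_zero, add_zero] at key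
  have eL : Δ.hnum d g = ∑ i ∈ range (g + 1), (-1 : ℤ) ^ i * x i := by
    rw [hcount]
    refine sum_congr rfl fun i hi => ?_
    rw [mem_range] at hi
    have : x i = ((d.choose i * Set.ncard {m : V →₀ ℕ | m.support ∈ Δ.faces ∧
        mdeg m = g - i} : ℕ) : ℤ) := by
      simp only [x]
      have := finrank_XX0 (k := k) (d := d) Δ (g := g) (i := i) (by omega)
      exact_mod_cast this
    rw [this]
    push_cast
    ring
  have eZ : z 0 = (finrank k (E Δ θ g) : ℤ) := by
    simp only [z]
    show ((finrank k ((grid Δ θ (fun n => n = g)).Z 0 0) : ℕ) : ℤ) = _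
    rw [← E_map, finrank_monEmb]
  rw [eL]
  refine key.trans ?_
  rw [eZ]
  refine add_le_add le_rfl (le_of_eq ?_)
  refine sum_bij' (fun i _ => g - i) (fun j _ => g - j) ?_ ?_ ?_ ?_ ?_
  · intro i hi
    rw [mem_filter, mem_range] at hi ⊢
    have e : g - (g - i) = i := by omega
    exact ⟨by omega, by rw [e]; exact hi.2.1⟩
  · intro j hj
    rw [mem_filter, mem_range] at hj ⊢
    exact ⟨by omega, hj.2, by omega⟩
  · intro i hi
    rw [mem_filter, mem_range] at hi
    omega
  · intro j hj
    rw [mem_filter, mem_range] at hj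
    omega
  · intro i hi
    simp only [c]
    push_cast
    rfl

end

/-- TargetDC2 from the counting identity `hnum_eq_alt` of Count.lean -/
theorem targetDC2_of_count (k : Type) [Field k] [CharP k 2]
    (hcount : ∀ (V : Type) [DecidableEq V] (Δ : Cplx V) (d g : ℕ), g ≤ d →
      (∀ s ∈ Δ.faces, s.card ≤ d) →
      Δ.hnum d g = ∑ i ∈ range (g + 1), (-1 : ℤ) ^ i * (d.choose i : ℤ) *
        (Set.ncard {m : V →₀ ℕ | m.support ∈ Δ.faces ∧ mdeg m = g - i} : ℤ)) :
    TargetDC2 k := by
  intro V _ d Δ θ hst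
  refine ⟨socle_ineq Δ θ hst, fun g hg hc => ?_⟩
  exact euler_ineq Δ θ hst g (hcount V Δ d g hg hc)

end Pool.Agent.UBC
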