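import Pool.Agent.UBC.TopDefs

/-!
# General position
-/

set_option autoImplicit false

namespace Pool.Agent.UBC

open Finset Topology

section

variable {E : Type} [NormedAddCommGroup E] [NormedSpace ℝ E]

theorem avoid_one (p u : E) (l : List E) (S : Submodule ℝ E) (hS : ∀ y ∈ l, y - p ∈ S)
    (hu : u - p ∉ S) (hl : p ∉ convexHull ℝ {y | y ∈ l}) :
    p ∉ convexHull ℝ {y | y ∈ u :: l} := by
  intro hp
  have hset : {y | y ∈ u :: l} = insert u {y | y ∈ l} := by
    ext y; simp
  rw [hset] at hp
  have hconv : convexHull ℝ {y | y ∈ l} ⊆ {q | q - p ∈ S} := by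
    apply convexHull_min
    · intro y hy; exact hS y hy
    · intro a ha b hb s t _ _ hst
      have h1 : s • a + t • b - p = s • (a - p) + t • (b - p) := by
        have : p = (s + t) • p := by rw [hst, one_smul]
        conv_lhs => rw [this]
        module
      change s • a + t • b - p ∈ S
      rw [h1]
      exact S.add_mem (S.smul_mem _ ha) (S.smul_mem _ hb)
  rcases Set.eq_empty_or_nonempty {y | y ∈ l} with h | h
  · rw [h] at hp
    have : p = u := by simpa using hp
    apply hu
    rw [this, sub_self]
    exact S.zero_mem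
  · rw [convexHull_insert h, convexJoin_singleton_left, Set.mem_iUnion₂] at hp
    obtain ⟨q, hq, a, b, ha, hb, hab, hpq⟩ := hp
    rcases ha.eq_or_lt with ha0 | ha0
    · have hb1 : b = 1 := by linarith
      rw [← ha0, hb1] at hpq
      apply hl
      rw [← hpq]
      simpa using hq
    · apply hu
      have h1 : a • (u - p) + b • (q - p) = 0 := by
        have : p = (a + b) • p := by rw [hab, one_smul]
        calc a • (u - p) + b • (q - p) = (a • u + b • q) - (a + b) • p := by module
          _ = 0 := by rw [hab, hpq]; simp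
      have h2 : u - p = (-(b / a)) • (q - p) := by
        have h3 : a • (u - p) = (-b) • (q - p) := by
          rw [neg_smul]; exact eq_neg_of_add_eq_zero_left h1
        calc u - p = a⁻¹ • (a • (u - p)) := by rw [smul_smul, inv_mul_cancel₀ ha0.ne', one_smul]
          _ = (-(b / a)) • (q - p) := by rw [h3, smul_smul]; congr 1; field_simp
      rw [h2]
      exact S.smul_mem _ (hconv hq)

end

theorem targetAvoid : TargetAvoid := by
  constructor
  · intro m r p hr ε hε T hT
    classical
    let S : T → Submodule ℝ (EuclideanSpace ℝ (Fin m)) := fun l =>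
      Submodule.span ℝ (Set.range fun i : Fin l.1.length => l.1.get i - p)
    have hS : ∀ l, S l ≠ ⊤ := by
      intro l h
      have h1 : Module.finrank ℝ (S l) ≤ l.1.length := by
        have := finrank_range_le_card (R := ℝ) (fun i : Fin l.1.length => l.1.get i - p)
        rw [Fintype.card_fin] at this
        exact this
      rw [h, finrank_top, finrank_euclideanSpace_fin, (hT l.1 l.2).1] at h1
      omega
    obtain ⟨w, hw⟩ := Submodule.exists_forall_notMem_of_forall_ne_top S hS
    let t : ℝ := ε / (2 * (‖w‖ + 1))
    have hw0 : 0 ≤ ‖w‖ := norm_nonneg w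
    have ht : 0 < t := by positivity
    refine ⟨p + t • w, Set.mem_univ _, ?_, ?_⟩
    · rw [dist_eq_norm, add_sub_cancel_left, norm_smul, Real.norm_of_nonneg ht.le]
      have : t * ‖w‖ ≤ ε / 2 := by
        simp only [t]
        rw [div_mul_eq_mul_div, div_le_iff₀ (by positivity)]
        nlinarith
      linarith
    · intro l hl
      refine avoid_one p _ l (S ⟨l, hl⟩) ?_ ?_ (hT l hl).2.2
      · intro y hy
        obtain ⟨i, hi, rfl⟩ := List.mem_iff_getElem.mp hy
        exact Submodule.subset_span ⟨⟨i, hi⟩, rfl⟩
      · rw [add_sub_cancel_left]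
        intro h
        have h2 := (S ⟨l, hl⟩).smul_mem t⁻¹ h
        rw [smul_smul, inv_mul_cancel₀ ht.ne', one_smul] at h2
        exact hw _ h2
  · intro m r hm p hp ε hε T hT
    let e : EuclideanSpace ℝ (Fin m) := EuclideanSpace.single ⟨0, hm⟩ 1
    have he : e ⟨0, hm⟩ = 1 := by simp [e]
    have hu0 : (p + (ε / 2) • e) ⟨0, hm⟩ = ε / 2 := by
      simp [hp, he]
    refine ⟨p + (ε / 2) • e, ?_, ?_, ?_⟩
    · change 0 ≤ (p + (ε / 2) • e) ⟨0, hm⟩
      rw [hu0]; positivity
    · rw [dist_eq_norm, add_sub_cancel_left, norm_smul, Real.norm_of_nonneg (by positivity)]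
      have : ‖e‖ = 1 := by simp [e]
      rw [this]; linarith
    · intro l hl hp'
      obtain ⟨-, hlC, hpl⟩ := hT l hl
      have hset : {y | y ∈ (p + (ε / 2) • e) :: l} = insert (p + (ε / 2) • e) {y | y ∈ l} := by
        ext y; simp
      rw [hset] at hp'
      have hconv : convexHull ℝ {y | y ∈ l} ⊆
          {q : EuclideanSpace ℝ (Fin m) | 0 ≤ q ⟨0, hm⟩} := by
        apply convexHull_min
        · intro y hy; exact hlC y hy
        · intro a ha b hb s t hs ht _
          change 0 ≤ (s • a + t • b) ⟨0, hm⟩
          change 0 ≤ a ⟨0, hm⟩ at ha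
          change 0 ≤ b ⟨0, hm⟩ at hb
          simp only [PiLp.add_apply, PiLp.smul_apply, smul_eq_mul]
          positivity
      rcases Set.eq_empty_or_nonempty {y | y ∈ l} with h | h
      · rw [h] at hp'
        have h1 : p = p + (ε / 2) • e := by simpa using hp'
        have h2 := congrArg (fun q : EuclideanSpace ℝ (Fin m) => q ⟨0, hm⟩) h1
        simp only [hu0, hp] at h2
        linarith
      · rw [convexHull_insert h, convexJoin_singleton_left, Set.mem_iUnion₂] at hp'
        obtain ⟨q, hq, a, b, ha, hb, hab, hpq⟩ := hp'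
        rcases ha.eq_or_lt with ha0 | ha0
        · have hb1 : b = 1 := by linarith
          rw [← ha0, hb1] at hpq
          apply hpl
          rw [← hpq]
          simpa using hq
        · have h2 := congrArg (fun q : EuclideanSpace ℝ (Fin m) => q ⟨0, hm⟩) hpq
          simp only [PiLp.add_apply, PiLp.smul_apply, smul_eq_mul] at h2
          have h3 : (p + (ε / 2) • e) ⟨0, hm⟩ = ε / 2 := hu0
          simp only [PiLp.add_apply, PiLp.smul_apply, smul_eq_mul] at h3
          rw [h3, hp] at h2
          have h4 : 0 ≤ q ⟨0, hm⟩ := hconv hq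
          have h5 := mul_nonneg hb h4
          have h6 : 0 < a * (ε / 2) := by positivity
          linarith

end Pool.Agent.UBC
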