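import Pool.Agent.UBC.TopDefs

/-!
# Cone coordinates near a point of a realization
-/

set_option autoImplicit false

namespace Pool.Agent.UBC

open Finset Topology

variable {n : ℕ}

theorem suppF_subset_iff (c : Fin n → ℝ) (t : Finset (Fin n)) :
    suppF c ⊆ t ↔ ∀ i, i ∉ t → c i = 0 := by
  constructor
  · intro h i hi
    by_contra hc
    exact hi (h ((mem_suppF c i).mpr hc))
  · intro h i hi
    by_contra hc
    exact (mem_suppF c i).mp hi (h i hc)

theorem suppF_mem_iff (Δ : Cplx (Fin n)) (c : Fin n → ℝ) :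
    suppF c ∈ Δ.faces ↔ ∃ t ∈ Δ.faces, ∀ i, i ∉ t → c i = 0 := by
  constructor
  · intro h
    exact ⟨suppF c, h, (suppF_subset_iff c _).mp subset_rfl⟩
  · rintro ⟨t, ht, h⟩
    exact Δ.down t ht _ ((suppF_subset_iff c t).mpr h)

theorem real_eq (Δ : Cplx (Fin n)) :
    real Δ = ⋃ t ∈ Δ.faces, {c : Fin n → ℝ | (∀ i, 0 ≤ c i) ∧ ∑ i, c i = 1 ∧
      ∀ i, i ∉ t → c i = 0} := by
  ext c
  simp only [real, Set.mem_setOf_eq, Set.mem_iUnion, suppF_mem_iff]
  constructor
  · rintro ⟨h1, h2, t, ht, h3⟩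
    exact ⟨t, ht, h1, h2, h3⟩
  · rintro ⟨t, ht, h1, h2, h3⟩
    exact ⟨h1, h2, t, ht, h3⟩

theorem isClosed_real (Δ : Cplx (Fin n)) : IsClosed (real Δ) := by
  rw [real_eq]
  refine Set.Finite.isClosed_biUnion (Finset.finite_toSet _) ?_
  intro t _
  have h1 : IsClosed {c : Fin n → ℝ | ∀ i, 0 ≤ c i} := by
    simp only [Set.setOf_forall]
    exact isClosed_iInter fun i => isClosed_le continuous_const (continuous_apply i)
  have h2 : IsClosed {c : Fin n → ℝ | ∑ i, c i = 1} :=
    isClosed_eq (continuous_finsetSum _ fun i _ => continuous_apply i) continuous_const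
  have h3 : IsClosed {c : Fin n → ℝ | ∀ i, i ∉ t → c i = 0} := by
    simp only [Set.setOf_forall]
    exact isClosed_iInter fun i => isClosed_iInter fun _ =>
      isClosed_eq (continuous_apply i) continuous_const
  exact h1.inter (h2.inter h3)

theorem real_le_one {Δ : Cplx (Fin n)} {c : Fin n → ℝ} (hc : c ∈ real Δ) (i : Fin n) :
    c i ≤ 1 := by
  have h := single_le_sum (f := c) (fun i _ => hc.1 i) (mem_univ i)
  rw [hc.2.1] at h
  exact h

theorem real_dist_le_one {Δ Δ' : Cplx (Fin n)} {c c' : Fin n → ℝ} (hc : c ∈ real Δ)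
    (hc' : c' ∈ real Δ') : dist c c' ≤ 1 := by
  rw [dist_pi_le_iff zero_le_one]
  intro i
  rw [Real.dist_eq, abs_le]
  have h1 := hc.1 i
  have h2 := hc'.1 i
  have h3 := real_le_one hc i
  have h4 := real_le_one hc' i
  constructor <;> linarith

theorem isCompact_real (Δ : Cplx (Fin n)) : IsCompact (real Δ) := by
  refine Metric.isCompact_of_isClosed_isBounded (isClosed_real Δ) ?_
  rw [Metric.isBounded_iff]
  exact ⟨1, fun c hc c' hc' => real_dist_le_one hc hc'⟩

theorem real_ne_zero {Δ : Cplx (Fin n)} {c : Fin n → ℝ} (hc : c ∈ real Δ) : c ≠ 0 := by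
  rintro rfl
  have := hc.2.1
  simp at this

section cone

variable (x : Fin n → ℝ) (hne : (suppF x).Nonempty)

/-- the largest multiple of `x` that can be subtracted -/
noncomputable def lam (z : Fin n → ℝ) : ℝ := (suppF x).inf' hne (fun v => z v / x v)

/-- cone coordinates -/
noncomputable def Wc (z : Fin n → ℝ) : Fin n → ℝ := z - lam x hne z • x

theorem continuous_lam : Continuous (lam x hne) := by
  unfold lam
  exact Continuous.finset_inf'_apply hne fun v _ => (continuous_apply v).div_const _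

theorem continuous_Wc : Continuous (Wc x hne) := by
  unfold Wc
  exact continuous_id.sub ((continuous_lam x hne).smul continuous_const)

theorem lam_le (z : Fin n → ℝ) {v : Fin n} (hv : v ∈ suppF x) : lam x hne z ≤ z v / x v :=
  inf'_le _ hv

theorem exists_lam_eq (z : Fin n → ℝ) : ∃ v ∈ suppF x, lam x hne z = z v / x v := by
  obtain ⟨v, hv, h⟩ := exists_mem_eq_inf' hne (fun v => z v / x v)
  exact ⟨v, hv, h⟩

theorem Wc_nonneg (hx : ∀ i, 0 ≤ x i) (z : Fin n → ℝ) (hz : ∀ i, 0 ≤ z i) (v : Fin n) :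
    0 ≤ Wc x hne z v := by
  simp only [Wc, Pi.sub_apply, Pi.smul_apply, smul_eq_mul, sub_nonneg]
  by_cases hv : v ∈ suppF x
  · have h1 := lam_le x hne z hv
    have h2 : 0 < x v := lt_of_le_of_ne (hx v) (Ne.symm ((mem_suppF x v).mp hv))
    rw [le_div_iff₀ h2] at h1
    exact h1
  · have : x v = 0 := by
      by_contra hc
      exact hv ((mem_suppF x v).mpr hc)
    rw [this, mul_zero]
    exact hz v

theorem Wc_support (z : Fin n → ℝ) : suppF (Wc x hne z) ⊆ suppF z ∪ suppF x := by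
  intro v hv
  rw [mem_suppF] at hv
  rw [mem_union, mem_suppF, mem_suppF]
  by_contra hc
  push Not at hc
  apply hv
  simp [Wc, hc.1, hc.2]

theorem Wc_not_support (z : Fin n → ℝ) : ¬ suppF x ⊆ suppF (Wc x hne z) := by
  intro h
  obtain ⟨v, hv, h1⟩ := exists_lam_eq x hne z
  have h2 := (mem_suppF _ _).mp (h hv)
  apply h2
  have hx := (mem_suppF x v).mp hv
  simp only [Wc, Pi.sub_apply, Pi.smul_apply, smul_eq_mul, h1]
  field_simp
  ring

theorem Wc_mem (Δ : Cplx (Fin n)) (hs : suppF x ∈ Δ.faces) (z : Fin n → ℝ)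
    (hz : suppF z ∪ suppF x ∈ Δ.faces) : suppF (Wc x hne z) ∈ (Lcx Δ (suppF x) hs hne).faces := by
  simp only [Lcx, mem_filter]
  refine ⟨Δ.down _ hz _ (Wc_support x hne z), Δ.down _ hz _ ?_, Wc_not_support x hne z⟩
  exact union_subset (Wc_support x hne z) subset_union_right

theorem Wc_ne_zero {Δ : Cplx (Fin n)} (hx : x ∈ real Δ) {z : Fin n → ℝ} (hz : z ∈ real Δ)
    (hzx : z ≠ x) : Wc x hne z ≠ 0 := by
  intro h
  have h1 : z = lam x hne z • x := by
    have := sub_eq_zero.mp h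
    exact this
  have h2 : lam x hne z = 1 := by
    have h3 := hz.2.1
    rw [h1] at h3
    simp only [Pi.smul_apply, smul_eq_mul, ← mul_sum, hx.2.1, mul_one] at h3
    have h4 : lam x hne (lam x hne z • x) = lam x hne z := by rw [← h1]
    linarith
  rw [h2, one_smul] at h1
  exact hzx h1

/-- the scaled copy of the link near `x` -/
noncomputable def scl (ε : ℝ) (y : Fin n → ℝ) : Fin n → ℝ := (1 - ε) • x + ε • y

theorem continuous_scl (ε : ℝ) : Continuous (scl x ε) := by
  unfold scl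
  exact continuous_const.add (continuous_id.const_smul ε)

theorem lam_scl {Δ : Cplx (Fin n)} (hx : x ∈ real Δ) {ε : ℝ} (hε : 0 < ε)
    {y : Fin n → ℝ} (hy : y ∈ real (Lcx Δ (suppF x) hx.2.2 hne)) :
    lam x hne (scl x ε y) = 1 - ε := by
  have hpos : ∀ v ∈ suppF x, 0 < x v := fun v hv =>
    lt_of_le_of_ne (hx.1 v) (Ne.symm ((mem_suppF x v).mp hv))
  apply le_antisymm
  · have h1 : ¬ suppF x ⊆ suppF y := by
      have := hy.2.2
      simp only [Lcx, mem_filter] at this
      exact this.2.2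
    obtain ⟨v, hv, hvy⟩ := not_subset.mp h1
    have h2 : y v = 0 := by
      by_contra hc
      exact hvy ((mem_suppF y v).mpr hc)
    refine (lam_le x hne _ hv).trans ?_
    have h3 := hpos v hv
    simp only [scl, Pi.add_apply, Pi.smul_apply, smul_eq_mul, h2, mul_zero, add_zero]
    rw [mul_div_assoc, div_self h3.ne', mul_one]
  · obtain ⟨v, hv, h1⟩ := exists_lam_eq x hne (scl x ε y)
    rw [h1]
    have h3 := hpos v hv
    rw [le_div_iff₀ h3]
    simp only [scl, Pi.add_apply, Pi.smul_apply, smul_eq_mul]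
    have := mul_nonneg hε.le (hy.1 v)
    linarith

theorem Wc_scl {Δ : Cplx (Fin n)} (hx : x ∈ real Δ) {ε : ℝ} (hε : 0 < ε)
    {y : Fin n → ℝ} (hy : y ∈ real (Lcx Δ (suppF x) hx.2.2 hne)) :
    Wc x hne (scl x ε y) = ε • y := by
  unfold Wc
  rw [lam_scl x hne hx hε hy]
  unfold scl
  abel

theorem scl_mem {Δ : Cplx (Fin n)} (hx : x ∈ real Δ) {ε : ℝ} (hε : 0 < ε) (hε1 : ε ≤ 1)
    {y : Fin n → ℝ} (hy : y ∈ real (Lcx Δ (suppF x) hx.2.2 hne)) :
    scl x ε y ∈ real Δ := by
  refine ⟨fun i => ?_, ?_, ?_⟩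
  · simp only [scl, Pi.add_apply, Pi.smul_apply, smul_eq_mul]
    have h1 := mul_nonneg hε.le (hy.1 i)
    have h2 := mul_nonneg (sub_nonneg.mpr hε1) (hx.1 i)
    linarith
  · simp only [scl, Pi.add_apply, Pi.smul_apply, smul_eq_mul, sum_add_distrib, ← mul_sum,
      hx.2.1, hy.2.1]
    ring
  · have h1 := hy.2.2
    simp only [Lcx, mem_filter] at h1
    refine Δ.down _ h1.2.1 _ ?_
    intro v hv
    rw [mem_suppF] at hv
    rw [mem_union, mem_suppF, mem_suppF]
    by_contra hc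
    push Not at hc
    apply hv
    simp [scl, hc.1, hc.2]

theorem dist_scl {Δ : Cplx (Fin n)} (hx : x ∈ real Δ) {ε : ℝ} (hε : 0 < ε)
    {y : Fin n → ℝ} (hy : y ∈ real (Lcx Δ (suppF x) hx.2.2 hne)) :
    dist (scl x ε y) x ≤ ε := by
  rw [dist_pi_le_iff hε.le]
  intro i
  rw [Real.dist_eq]
  have : scl x ε y i - x i = ε * (y i - x i) := by
    simp only [scl, Pi.add_apply, Pi.smul_apply, smul_eq_mul]; ring
  rw [this, abs_mul, abs_of_pos hε]
  have h := real_dist_le_one hy hx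
  rw [dist_pi_le_iff zero_le_one] at h
  have h2 := h i
  rw [Real.dist_eq] at h2
  calc ε * |y i - x i| ≤ ε * 1 := mul_le_mul_of_nonneg_left h2 hε.le
    _ = ε := mul_one _

theorem scl_ne {Δ : Cplx (Fin n)} (hx : x ∈ real Δ) {ε : ℝ} (hε : 0 < ε)
    {y : Fin n → ℝ} (hy : y ∈ real (Lcx Δ (suppF x) hx.2.2 hne)) : scl x ε y ≠ x := by
  intro h
  have h1 := lam_scl x hne hx hε hy
  have h2 : lam x hne x = 1 := by
    obtain ⟨v, hv, h3⟩ := exists_lam_eq x hne x
    rw [h3, div_self ((mem_suppF x v).mp hv)]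
  rw [h, h2] at h1
  linarith

/-- near `x` the support contains the support of `x` -/
theorem eventually_supp : ∀ᶠ z in 𝓝 x, suppF x ⊆ suppF z := by
  have : ∀ v ∈ suppF x, ∀ᶠ z in 𝓝 x, z v ≠ 0 := by
    intro v hv
    exact (continuous_apply v).continuousAt.eventually_ne ((mem_suppF x v).mp hv)
  have h2 := (Filter.eventually_all_finset (suppF x)).mpr this
  filter_upwards [h2] with z hz v hv
  exact (mem_suppF z v).mpr (hz v hv)

/-- a vertex with largest cone coordinate -/
theorem exists_vert (hn : 0 < n) (w : Fin n → ℝ) : ∃ v, ∀ u, w u ≤ w v := by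
  haveI : Nonempty (Fin n) := ⟨⟨0, hn⟩⟩
  obtain ⟨v, -, hv⟩ := exists_max_image univ w univ_nonempty
  exact ⟨v, fun u => hv u (mem_univ u)⟩

end cone

end Pool.Agent.UBC
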