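import Pool.Agent.UBC.TopDefs

/-!
# Assembly of the abstract manifold theorem
-/

set_option autoImplicit false

namespace Pool.Agent.UBC

open Finset Topology

theorem exists_max_face {V : Type} [DecidableEq V] (Δ : Cplx V) (s : Finset V)
    (hs : s ∈ Δ.faces) : ∃ F ∈ Δ.faces, s ⊆ F ∧ ∀ G ∈ Δ.faces, F ⊆ G → G = F := by
  obtain ⟨F, hF, hmax⟩ := exists_max_image (Δ.faces.filter (fun t => s ⊆ t)) card
    ⟨s, mem_filter.mpr ⟨hs, subset_rfl⟩⟩
  rw [mem_filter] at hF
  refine ⟨F, hF.1, hF.2, fun G hG hFG => ?_⟩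
  have := hmax G (mem_filter.mpr ⟨hG, hF.2.trans hFG⟩)
  exact (eq_of_subset_of_card_le hFG this).symm

/-- barycenter of a face -/
theorem exists_real_point {n : ℕ} (Δ : Cplx (Fin n)) (s : Finset (Fin n)) (hs : s ∈ Δ.faces)
    (hne : s.Nonempty) : ∃ x ∈ real Δ, suppF x = s := by
  have hc : (0 : ℝ) < s.card := by exact_mod_cast card_pos.mpr hne
  let x : Fin n → ℝ := fun i => if i ∈ s then (s.card : ℝ)⁻¹ else 0
  have hsupp : suppF x = s := by
    ext i
    rw [mem_suppF]
    by_cases hi : i ∈ s
    · simp [x, hi, hne.ne_empty]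
    · simp [x, hi]
  refine ⟨x, ⟨fun i => ?_, ?_, ?_⟩, hsupp⟩
  · by_cases hi : i ∈ s
    · simp only [x, hi, if_true]; positivity
    · simp [x, hi]
  · simp only [x]
    rw [sum_ite_mem, univ_inter, sum_const, nsmul_eq_mul]
    exact mul_inv_cancel₀ hc.ne'
  · rw [hsupp]; exact hs

theorem man_of (k : Type) [Field k] [CharP k 2] (hMain : TargetMain k) (hAvoid : TargetAvoid)
    (hRes : TargetRes k) (hDim : TargetDim) : TargetMan k := by
  intro n m Δ hloc hne
  constructor
  · -- purity
    intro s hs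
    have hgen : ∀ t ∈ Δ.faces, t.Nonempty → ∃ F ∈ Δ.faces, t ⊆ F ∧ F.card = m + 1 := by
      intro t ht htn
      obtain ⟨F, hF, htF, hmax⟩ := exists_max_face Δ t ht
      exact ⟨F, hF, htF, hDim n m Δ hloc F hF (htn.mono htF) hmax⟩
    rcases s.eq_empty_or_nonempty with h | h
    · subst h
      obtain ⟨t, ht, htn⟩ := hne
      obtain ⟨F, hF, -, hc⟩ := hgen t ht htn
      exact ⟨by simp, F, hF, empty_subset _, hc⟩
    · obtain ⟨F, hF, hsF, hc⟩ := hgen s hs h
      refine ⟨?_, F, hF, hsF, hc⟩
      rw [← hc]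
      exact card_le_card hsF
  · intro σ hσ hσn i hi
    have hpos : 0 < σ.card := card_pos.mpr hσn
    obtain ⟨x, hx, hxs⟩ := exists_real_point Δ σ hσ hσn
    subst hxs
    apply hRes (Fin n) Δ (suppF x) hσ hσn i
    rcases Nat.eq_zero_or_pos (i + ((suppF x).card - 1)) with h0 | h0
    · -- size 0: need a vertex
      have hi0 : i = 0 := by omega
      have hc1 : (suppF x).card = 1 := by omega
      have hm : 0 < m := by omega
      -- σ is not maximal
      have hnm : ∃ G ∈ Δ.faces, suppF x ⊆ G ∧ G ≠ suppF x := by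
        by_contra hcon
        push Not at hcon
        have := hDim n m Δ hloc (suppF x) hσ hσn hcon
        omega
      obtain ⟨G, hG, hsG, hne'⟩ := hnm
      obtain ⟨v, hvG, hvs⟩ : ∃ v ∈ G, v ∉ suppF x := by
        by_contra hcon
        push Not at hcon
        exact hne' (subset_antisymm hcon hsG)
      have hv : {v} ∈ (Lcx Δ (suppF x) hσ hσn).faces := by
        simp only [Lcx, mem_filter]
        refine ⟨Δ.down G hG _ (singleton_subset_iff.mpr hvG), Δ.down G hG _
          (union_subset (singleton_subset_iff.mpr hvG) hsG), ?_⟩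
        intro h
        rw [subset_singleton_iff] at h
        rcases h with h | h
        · exact hσn.ne_empty h
        · apply hvs; rw [h]; exact mem_singleton_self v
      rw [h0]
      intro c _
      refine ⟨fun s => if s = {v} then c ∅ else 0, fun t ht htc => ?_⟩
      rw [card_eq_zero] at htc
      subst htc
      unfold Cplx.bd
      rw [sum_ite_eq' _ ({v} : Finset (Fin n)) (fun _ => c ∅)]
      rw [if_pos]
      rw [mem_filter]
      exact ⟨hv, empty_subset _, by simp⟩
    · have hrm : i + ((suppF x).card - 1) < m := by omega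
      rcases hloc x hx with ⟨p, hp⟩ | ⟨hm, p, hp0, hp⟩
      · exact hMain n Δ x hx hσn _ Set.univ p _ convex_univ isClosed_univ hp h0
          (hAvoid.1 m _ p hrm)
      · refine hMain n Δ x hx hσn _ {q : EuclideanSpace ℝ (Fin m) | 0 ≤ q ⟨0, hm⟩} p _ ?_ ?_ hp h0
          (hAvoid.2 m _ hm p hp0)
        · intro a ha b hb s t hs ht _
          simp only [Set.mem_setOf_eq] at ha hb ⊢
          simp only [PiLp.add_apply, PiLp.smul_apply, smul_eq_mul]
          positivity
        · have hcont : Continuous fun q : EuclideanSpace ℝ (Fin m) => q ⟨0, hm⟩ := by fun_prop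
          exact isClosed_le continuous_const hcont

end Pool.Agent.UBC
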