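import Pool.Agent.UBC.LH
import Pool.Agent.UBC.Avoid
import Pool.Agent.UBC.Cone
import Pool.Agent.UBC.Man

/-!
# Dimension of maximal faces
-/

set_option autoImplicit false

namespace Pool.Agent.UBC

open Finset Topology

/-- the boundary of a simplex is not exact in the top dimension -/
theorem sphere_not_exact {V : Type} [DecidableEq V] (L : Cplx V) (F : Finset V) (r : ℕ)
    (hF : F.card = r + 1) (hL : ∀ t, t ∈ L.faces ↔ t ⊆ F ∧ t ≠ F) :
    ¬ L.ExactAt (ZMod 2) r := by
  intro h
  have hcard : ∀ t ∈ L.faces, t.card ≤ r := by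
    intro t ht
    have h1 := (hL t).mp ht
    have := card_lt_card (Finset.ssubset_iff_subset_ne.mpr h1)
    omega
  obtain ⟨b, hb⟩ := h (fun _ => 1) (by
    intro t ht htc
    unfold Cplx.bd
    rw [sum_const, nsmul_eq_mul, mul_one]
    have h1 := (hL t).mp ht
    have h2 : L.faces.filter (fun s => t ⊆ s ∧ s.card = t.card + 1) =
        (F \ t).image (fun v => insert v t) := by
      ext s
      simp only [mem_filter, mem_image, mem_sdiff]
      constructor
      · rintro ⟨hs, hts, hsc⟩
        have h3 : (s \ t).card = 1 := by rw [card_sdiff_of_subset hts]; omega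
        obtain ⟨v, hv⟩ := card_eq_one.mp h3
        have h4 : v ∈ s \ t := by rw [hv]; exact mem_singleton_self v
        rw [mem_sdiff] at h4
        refine ⟨v, ⟨((hL s).mp hs).1 h4.1, h4.2⟩, ?_⟩
        rw [← union_sdiff_of_subset hts, hv, union_comm]
        rfl
      · rintro ⟨v, ⟨hvF, hvt⟩, rfl⟩
        have hc : (insert v t).card = t.card + 1 := card_insert_of_notMem hvt
        refine ⟨(hL _).mpr ⟨insert_subset hvF h1.1, ?_⟩, subset_insert _ _, hc⟩
        intro heq
        rw [heq] at hc
        omega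
    rw [h2, card_image_of_injOn, card_sdiff_of_subset h1.1, hF]
    · have : r + 1 - t.card = 2 := by omega
      rw [this]
      rfl
    · intro v hv w hw hvw
      have hv' := (mem_sdiff.mp hv).2
      simp only at hvw
      have : v ∈ insert w t := by rw [← hvw]; exact mem_insert_self v t
      rcases mem_insert.mp this with h | h
      · exact h
      · exact absurd h hv')
  have hne : F.Nonempty := card_pos.mp (by omega)
  obtain ⟨v, hv⟩ := hne
  have ht : F.erase v ∈ L.faces := by
    rw [hL]
    exact ⟨erase_subset _ _, fun h => (notMem_erase v F) (by rw [h]; exact hv)⟩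
  have hc : (F.erase v).card = r := by rw [card_erase_of_mem hv]; omega
  have h1 := hb _ ht hc
  unfold Cplx.bd at h1
  rw [filter_eq_empty_iff.mpr, sum_empty] at h1
  · exact absurd h1 (by decide)
  · rintro s hs ⟨_, hsc⟩
    have := hcard s hs
    omega

theorem Lcx_max {V : Type} [DecidableEq V] (Δ : Cplx V) (F : Finset V) (hF : F ∈ Δ.faces)
    (hne : F.Nonempty) (hmax : ∀ G ∈ Δ.faces, F ⊆ G → G = F) (t : Finset V) :
    t ∈ (Lcx Δ F hF hne).faces ↔ t ⊆ F ∧ t ≠ F := by
  simp only [Lcx, mem_filter]
  constructor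
  · rintro ⟨h1, h2, h3⟩
    have h4 := hmax _ h2 subset_union_right
    have h5 : t ⊆ F := by rw [← h4]; exact subset_union_left
    exact ⟨h5, fun h => h3 (by rw [h])⟩
  · rintro ⟨h1, h2⟩
    refine ⟨Δ.down F hF t h1, ?_, fun h => h2 (subset_antisymm h1 h)⟩
    rwa [union_eq_right.mpr h1]

/-- near a point in the interior of a maximal face -/
theorem LH_max {n : ℕ} (Δ : Cplx (Fin n)) (F : Finset (Fin n)) (r : ℕ) (hr : F.card = r + 1)
    (hmax : ∀ G ∈ Δ.faces, F ⊆ G → G = F) (y : Fin n → ℝ) (hy : y ∈ real Δ)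
    (hyF : suppF y = F) :
    ∃ p, LH (real Δ) y (Set.univ : Set (EuclideanSpace ℝ (Fin r))) p := by
  classical
  obtain ⟨i0, hi0⟩ : F.Nonempty := card_pos.mp (by omega)
  let A : Set (Fin n → ℝ) := {z | ∑ i, z i = 1 ∧ ∀ i, i ∉ F → z i = 0}
  have hyA : y ∈ A := by
    refine ⟨hy.2.1, fun i hi => ?_⟩
    by_contra hc
    exact hi (hyF ▸ (mem_suppF y i).mpr hc)
  have hypos : ∀ i ∈ F, 0 < y i := by
    intro i hi
    rw [← hyF, mem_suppF] at hi
    exact lt_of_le_of_ne (hy.1 i) (Ne.symm hi)
  -- neighbourhoods agree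
  have hnear : ∀ᶠ z in 𝓝 y, ∀ i ∈ F, 0 < z i := by
    rw [Filter.eventually_all_finset]
    intro i hi
    exact (continuous_apply i).continuousAt.eventually (lt_mem_nhds (hypos i hi))
  have h1 : LH (real Δ) y A y := by
    refine ⟨hy, hyA, id, id, rfl, rfl, ?_, ?_⟩
    · filter_upwards [self_mem_nhdsWithin, hnear.filter_mono nhdsWithin_le_nhds] with z hz1 hz2
      refine ⟨⟨hz1.2.1, fun i hi => ?_⟩, rfl, continuousWithinAt_id⟩
      have h3 : suppF z = F := by
        refine hmax _ hz1.2.2 ?_
        intro j hj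
        exact (mem_suppF z j).mpr (hz2 j hj).ne'
      by_contra hc
      exact hi (h3 ▸ (mem_suppF z i).mpr hc)
    · filter_upwards [self_mem_nhdsWithin, hnear.filter_mono nhdsWithin_le_nhds] with z hz1 hz2
      refine ⟨⟨fun i => ?_, hz1.1, ?_⟩, rfl, continuousWithinAt_id⟩
      · by_cases hi : i ∈ F
        · exact (hz2 i hi).le
        · exact (hz1.2 i hi).ge
      · have hF : F ∈ Δ.faces := hyF ▸ hy.2.2
        refine Δ.down F hF _ ?_
        rw [suppF_subset_iff]
        exact hz1.2
  have hcard : Fintype.card {i // i ∈ F.erase i0} = r := by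
    rw [Fintype.card_coe, card_erase_of_mem hi0]; omega
  let e : {i // i ∈ F.erase i0} ≃ Fin r := Fintype.equivFinOfCardEq hcard
  let φ : (Fin n → ℝ) → EuclideanSpace ℝ (Fin r) := fun z => WithLp.toLp 2 fun j => z (e.symm j)
  let ψ : EuclideanSpace ℝ (Fin r) → (Fin n → ℝ) := fun w i =>
    if h : i ∈ F.erase i0 then w (e ⟨i, h⟩) else if i = i0 then 1 - ∑ j, w j else 0
  have hsum : ∀ z : Fin n → ℝ, (∀ i, i ∉ F → z i = 0) →
      ∑ i, z i = z i0 + ∑ j, z (e.symm j) := by
    intro z hz
    have h2 : ∑ i, z i = ∑ i ∈ F, z i :=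
      (sum_subset (subset_univ F) fun i _ hi => hz i hi).symm
    rw [h2, ← add_sum_erase F z hi0]
    congr 1
    rw [← sum_coe_sort (F.erase i0) z]
    exact (Equiv.sum_comp e.symm (fun i : {i // i ∈ F.erase i0} => z i)).symm
  have h2 : LH A y (Set.univ : Set (EuclideanSpace ℝ (Fin r))) (φ y) := by
    refine LH.of_maps φ ψ ?_ ?_ (fun _ _ => Set.mem_univ _) ?_ ?_ ?_ hyA
    · have : Continuous φ := by
        refine (PiLp.continuous_toLp 2 _).comp ?_
        exact continuous_pi fun j => continuous_apply _
      exact this.continuousOn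
    · have : Continuous ψ := by
        refine continuous_pi fun i => ?_
        by_cases h : i ∈ F.erase i0
        · simp only [ψ, h, dif_pos]
          fun_prop
        · simp only [ψ, h, dif_neg, not_false_iff]
          by_cases h' : i = i0
          · simp only [h', if_true]
            fun_prop
          · simp only [h', if_false]
            exact continuous_const
      exact this.continuousOn
    · intro w _
      have hz : ∀ i, i ∉ F → ψ w i = 0 := by
        intro i hi
        have h3 : i ∉ F.erase i0 := fun h => hi (mem_of_mem_erase h)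
        have h4 : i ≠ i0 := fun h => hi (h ▸ hi0)
        simp only [ψ, h3, dif_neg, not_false_iff, h4, if_false]
      refine ⟨?_, hz⟩
      rw [hsum _ hz]
      have h5 : ψ w i0 = 1 - ∑ j, w j := by
        simp [ψ]
      have h6 : ∀ j, ψ w (e.symm j) = w j := by
        intro j
        have := (e.symm j).2
        simp only [ψ, this, dif_pos]
        simp
      rw [h5, sum_congr rfl fun j _ => h6 j]
      ring
    · intro z hz
      funext i
      by_cases h : i ∈ F.erase i0
      · simp only [ψ, h, dif_pos, φ]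
        simp
      · simp only [ψ, h, dif_neg, not_false_iff]
        by_cases h' : i = i0
        · simp only [h', if_true]
          have := hsum z hz.2
          rw [hz.1] at this
          simp only [φ]
          rw [h'] at *
          simp only at *
          linarith
        · simp only [h', if_false]
          refine (hz.2 i fun hi => h ?_).symm
          exact mem_erase.mpr ⟨h', hi⟩
    · intro w _
      ext j
      have := (e.symm j).2
      simp only [φ, ψ, this, dif_pos]
      simp
  exact ⟨φ y, h1.trans h2⟩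

/-- isolated points on one side are isolated on the other -/
theorem LH_isolated {F E : Type} [TopologicalSpace F] [TopologicalSpace E]
    {X : Set F} {x : F} {C : Set E} {p : E} (h : LH X x C p)
    (hx : ∀ᶠ y in 𝓝[X] x, y = x) : ∀ᶠ q in 𝓝[C] p, q = p := by
  obtain ⟨hxX, hp, φ, ψ, h1, h2, h3, h4⟩ := h
  have hc : ContinuousWithinAt ψ C p := (h4.self_of_nhdsWithin hp).2.2
  have ht : Filter.Tendsto ψ (𝓝[C] p) (𝓝[X] x) := by
    rw [← h2]
    refine tendsto_nhdsWithin_of_tendsto_nhds_of_eventually_within _ hc.tendsto ?_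
    filter_upwards [h4] with z hz using hz.1
  filter_upwards [h4, ht.eventually hx] with q h5 h6
  rw [← h5.2.1, h6, h1]

theorem Avoid_not_isolated {E : Type} [NormedAddCommGroup E] [NormedSpace ℝ E] {C : Set E} {p : E}
    (h : Avoid C p 0) : ¬ ∀ᶠ q in 𝓝[C] p, q = p := by
  intro h1
  rw [eventually_nhdsWithin_iff, Metric.eventually_nhds_iff] at h1
  obtain ⟨ε, hε, h2⟩ := h1
  obtain ⟨u, huC, hud, hu⟩ := h ε hε {[]} (by
    intro l hl
    rw [mem_singleton] at hl
    subst hl
    simp)
  have h3 := hu [] (mem_singleton_self _)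
  apply h3
  rw [h2 hud huC]
  simp

theorem LH_translate {m : ℕ} (p q : EuclideanSpace ℝ (Fin m)) :
    LH (Set.univ : Set (EuclideanSpace ℝ (Fin m))) p Set.univ q := by
  have h := LH.of_maps (X := (Set.univ : Set (EuclideanSpace ℝ (Fin m))))
    (C := (Set.univ : Set (EuclideanSpace ℝ (Fin m)))) (fun z => z + (q - p))
    (fun z => z - (q - p)) (by fun_prop) (by fun_prop) (fun _ _ => Set.mem_univ _)
    (fun _ _ => Set.mem_univ _) (fun y _ => by simp) (fun y _ => by simp) (Set.mem_univ p)
  simpa using h

/-- the full simplex -/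
def fullC (m : ℕ) : Cplx (Fin (m + 1)) where
  faces := univ
  empty_mem := mem_univ _
  down := fun _ _ _ _ => mem_univ _

theorem euclid_dim (hMain : TargetMain (ZMod 2)) {m r : ℕ} (hmr : m < r)
    (p : EuclideanSpace ℝ (Fin m)) (q : EuclideanSpace ℝ (Fin r))
    (h : LH (Set.univ : Set (EuclideanSpace ℝ (Fin m))) p Set.univ q) : False := by
  rcases Nat.eq_zero_or_pos m with hm | hm
  · subst hm
    refine Avoid_not_isolated (targetAvoid.1 r 0 q hmr) (LH_isolated h ?_)
    exact Filter.Eventually.of_forall fun z => Subsingleton.elim _ _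
  · obtain ⟨x, hx, hxs⟩ := exists_real_point (fullC m) univ (mem_univ _) univ_nonempty
    have hmax : ∀ G ∈ (fullC m).faces, (univ : Finset (Fin (m + 1))) ⊆ G → G = univ :=
      fun G _ hG => univ_subset_iff.mp hG
    obtain ⟨p', hp'⟩ := LH_max (fullC m) univ m (by simp) hmax x hx hxs
    have h2 := (hp'.trans (LH_translate p' p)).trans h
    have hne : (suppF x).Nonempty := by rw [hxs]; exact univ_nonempty
    have h3 := hMain (m + 1) (fullC m) x hx hne _ Set.univ q m convex_univ isClosed_univ h2 hm
      (targetAvoid.1 r m q hmr)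
    refine sphere_not_exact _ (suppF x) m (by rw [hxs]; simp) ?_ h3
    exact Lcx_max (fullC m) (suppF x) hx.2.2 hne (by rw [hxs]; exact hmax)

theorem targetDim_of (hMain : TargetMain (ZMod 2)) : TargetDim := by
  intro n m Δ hloc F hF hFne hmax
  obtain ⟨r, hr⟩ : ∃ r, F.card = r + 1 :=
    ⟨F.card - 1, by have := card_pos.mpr hFne; omega⟩
  obtain ⟨x, hx, hxs⟩ := exists_real_point Δ F hF hFne
  have hnesx : (suppF x).Nonempty := by rw [hxs]; exact hFne
  -- r < m impossible
  have h1 : ¬ r < m := by
    intro hrm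
    rcases Nat.eq_zero_or_pos r with h0 | h0
    · -- isolated point
      have hiso : ∀ᶠ y in 𝓝[real Δ] x, y = x := by
        filter_upwards [self_mem_nhdsWithin,
          (eventually_supp x).filter_mono nhdsWithin_le_nhds] with y hy hys
        have h2 : suppF y = F := hmax _ hy.2.2 (hxs ▸ hys)
        obtain ⟨v, hv⟩ := card_eq_one.mp (by omega : F.card = 1)
        have hval : ∀ z ∈ real Δ, suppF z = F → ∀ i, z i = if i = v then 1 else 0 := by
          intro z hz hzF i
          have hz0 : ∀ j, j ≠ v → z j = 0 := by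
            intro j hj
            by_contra hc
            have := (mem_suppF z j).mpr hc
            rw [hzF, hv, mem_singleton] at this
            exact hj this
          by_cases hi : i = v
          · subst hi
            have := hz.2.1
            rw [sum_eq_single i (fun j _ hj => hz0 j hj) (by simp)] at this
            simp [this]
          · simp [hi, hz0 i hi]
        funext i
        rw [hval y hy h2 i, hval x hx hxs i]
      rcases hloc x hx with ⟨p, hp⟩ | ⟨hm, p, hp0, hp⟩
      · exact Avoid_not_isolated (targetAvoid.1 m 0 p (by omega)) (LH_isolated hp hiso)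
      · exact Avoid_not_isolated (targetAvoid.2 m 0 hm p hp0) (LH_isolated hp hiso)
    · have h2 : (Lcx Δ (suppF x) hx.2.2 hnesx).ExactAt (ZMod 2) r := by
        rcases hloc x hx with ⟨p, hp⟩ | ⟨hm, p, hp0, hp⟩
        · exact hMain n Δ x hx hnesx _ Set.univ p r convex_univ isClosed_univ hp h0
            (targetAvoid.1 m r p hrm)
        · refine hMain n Δ x hx hnesx _ {q : EuclideanSpace ℝ (Fin m) | 0 ≤ q ⟨0, hm⟩} p r ?_ ?_
            hp h0 (targetAvoid.2 m r hm p hp0)
          · intro a ha b hb s t hs ht _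
            change 0 ≤ (s • a + t • b) ⟨0, hm⟩
            change 0 ≤ a ⟨0, hm⟩ at ha
            change 0 ≤ b ⟨0, hm⟩ at hb
            simp only [PiLp.add_apply, PiLp.smul_apply, smul_eq_mul]
            positivity
          · have hcont : Continuous fun q : EuclideanSpace ℝ (Fin m) => q ⟨0, hm⟩ := by fun_prop
            exact isClosed_le continuous_const hcont
      refine sphere_not_exact _ (suppF x) r (by rw [hxs]; exact hr) ?_ h2
      exact Lcx_max Δ (suppF x) hx.2.2 hnesx (by rw [hxs]; exact hmax)
  -- m < r impossible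
  have h2 : ¬ m < r := by
    intro hmr
    rcases hloc x hx with ⟨p, hp⟩ | ⟨hm, p, hp0, hp⟩
    · obtain ⟨q, hq⟩ := LH_max Δ F r hr hmax x hx hxs
      exact euclid_dim hMain hmr p q (hp.symm.trans hq)
    · obtain ⟨ψ, hψp, hψc, hψ⟩ := hp.symm.exists_nhds
      -- supports near x
      have hsupp : ∀ᶠ q in 𝓝[{q : EuclideanSpace ℝ (Fin m) | 0 ≤ q ⟨0, hm⟩}] p,
          suppF x ⊆ suppF (ψ q) := by
        have := hψc.tendsto
        rw [hψp] at this
        exact this.eventually (eventually_supp x)
      have hboth := hψ.and hsupp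
      rw [eventually_nhdsWithin_iff, Metric.eventually_nhds_iff] at hboth
      obtain ⟨ε, hε, hb⟩ := hboth
      let e : EuclideanSpace ℝ (Fin m) := EuclideanSpace.single ⟨0, hm⟩ 1
      let q : EuclideanSpace ℝ (Fin m) := p + (ε / 2) • e
      have hq0 : q ⟨0, hm⟩ = ε / 2 := by simp [q, e, hp0]
      have hqd : dist q p < ε := by
        simp only [q]
        rw [dist_eq_norm, add_sub_cancel_left, norm_smul, Real.norm_of_nonneg (by positivity)]
        have : ‖e‖ = 1 := by simp [e]
        rw [this]; linarith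
      have hqC : q ∈ {q : EuclideanSpace ℝ (Fin m) | 0 ≤ q ⟨0, hm⟩} := by
        change 0 ≤ q ⟨0, hm⟩
        rw [hq0]; positivity
      obtain ⟨hLH, hs⟩ := hb hqd hqC
      have hψq : suppF (ψ q) = F := hmax _ hLH.2.1.2.2 (hxs ▸ hs)
      obtain ⟨q', hq'⟩ := LH_max Δ F r hr hmax (ψ q) hLH.2.1 hψq
      have hopen : {q : EuclideanSpace ℝ (Fin m) | 0 ≤ q ⟨0, hm⟩} ∈ 𝓝 q := by
        have hcont : Continuous fun q : EuclideanSpace ℝ (Fin m) => q ⟨0, hm⟩ := by fun_prop
        have : ∀ᶠ z in 𝓝 q, 0 < (fun q : EuclideanSpace ℝ (Fin m) => q ⟨0, hm⟩) z := by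
          refine hcont.continuousAt.eventually (lt_mem_nhds ?_)
          change 0 < q ⟨0, hm⟩
          rw [hq0]; positivity
        filter_upwards [this] with z hz using le_of_lt hz
      have h3 : LH {q : EuclideanSpace ℝ (Fin m) | 0 ≤ q ⟨0, hm⟩} q Set.univ q :=
        LH.of_nhds hqC (Set.subset_univ _) (by rw [nhdsWithin_univ]; exact hopen)
      exact euclid_dim hMain hmr q q' ((h3.symm.trans hLH).trans hq')
  omega

end Pool.Agent.UBC
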