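import Pool.Agent.UBC.Tup

/-!
# Barycentric subdivision of tuple chains in a normed space: convex carriers and mesh
-/

set_option autoImplicit false
set_option linter.unusedSectionVars false

namespace Pool.Agent.UBC.Tup

open Finsupp

/-! ### families of carriers and iterates -/

section Fam

variable {k : Type*} [CommRing k] {X : Type*} (b : List X → X)

/-- tuples contained in a member of the family `𝒜` -/
def Fam (𝒜 : Set (Set X)) : Set (List X) := {l | ∃ A ∈ 𝒜, l ∈ In A}

theorem In_subset_Fam {𝒜 : Set (Set X)} {A : Set X} (hA : A ∈ 𝒜) : In A ⊆ Fam 𝒜 :=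
  fun _ hl => ⟨A, hA, hl⟩

theorem d_mem_Fam {𝒜 : Set (Set X)} {c : List X →₀ k} (hc : c ∈ supported k k (Fam 𝒜)) :
    d k c ∈ supported k k (Fam 𝒜) := by
  refine supp_le (d k) ?_ c hc
  rintro l ⟨A, hA, hl⟩
  exact supported_mono (In_subset_Fam hA) (d_mem_In (single_mem_supported k _ hl))

variable {b}

theorem sd_mem_Fam {𝒜 : Set (Set X)}
    (hb : ∀ A ∈ 𝒜, ∀ l : List X, l ≠ [] → l ∈ In A → b l ∈ A)
    {c : List X →₀ k} (hc : c ∈ supported k k (Fam 𝒜)) :
    sd k b c ∈ supported k k (Fam 𝒜) := by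
  refine supp_le (sd k b) ?_ c hc
  rintro l ⟨A, hA, hl⟩
  exact supported_mono (In_subset_Fam hA) (sd_mem_In b (hb A hA) (single_mem_supported k _ hl))

theorem T_mem_Fam {𝒜 : Set (Set X)}
    (hb : ∀ A ∈ 𝒜, ∀ l : List X, l ≠ [] → l ∈ In A → b l ∈ A)
    {c : List X →₀ k} (hc : c ∈ supported k k (Fam 𝒜)) :
    T k b c ∈ supported k k (Fam 𝒜) := by
  refine supp_le (T k b) ?_ c hc
  rintro l ⟨A, hA, hl⟩
  exact supported_mono (In_subset_Fam hA) (T_mem_In b (hb A hA) (single_mem_supported k _ hl))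

theorem iter_sd_mem_Fam {𝒜 : Set (Set X)}
    (hb : ∀ A ∈ 𝒜, ∀ l : List X, l ≠ [] → l ∈ In A → b l ∈ A)
    {c : List X →₀ k} (hc : c ∈ supported k k (Fam 𝒜)) (N : ℕ) :
    (⇑(sd k b))^[N] c ∈ supported k k (Fam 𝒜) := by
  induction N with
  | zero => exact hc
  | succ N ih => rw [Function.iterate_succ_apply']; exact sd_mem_Fam hb ih

theorem iter_sd_mem_In {A : Set X} (hb : ∀ l : List X, l ≠ [] → l ∈ In A → b l ∈ A)
    {c : List X →₀ k} (hc : c ∈ supported k k (In A)) (N : ℕ) :
    (⇑(sd k b))^[N] c ∈ supported k k (In A) := by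
  induction N with
  | zero => exact hc
  | succ N ih => rw [Function.iterate_succ_apply']; exact sd_mem_In b hb ih

theorem iter_sd_mem_Len {n : ℕ} {c : List X →₀ k} (hc : c ∈ supported k k (Len n)) (N : ℕ) :
    (⇑(sd k b))^[N] c ∈ supported k k (Len n) := by
  induction N with
  | zero => exact hc
  | succ N ih => rw [Function.iterate_succ_apply']; exact sd_mem_Len b n ih

theorem d_iter_sd [CharP k 2] (c : List X →₀ k) (N : ℕ) :
    d k ((⇑(sd k b))^[N] c) = (⇑(sd k b))^[N] (d k c) := by
  induction N with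
  | zero => rfl
  | succ N ih => rw [Function.iterate_succ_apply', Function.iterate_succ_apply', d_sd, ih]

/-- Every cycle is homologous to its subdivisions, inside the carriers. -/
theorem exists_homotopy [CharP k 2] {𝒜 : Set (Set X)}
    (hb : ∀ A ∈ 𝒜, ∀ l : List X, l ≠ [] → l ∈ In A → b l ∈ A)
    {c : List X →₀ k} (hc : c ∈ supported k k (Fam 𝒜)) (hcy : d k c = 0) (N : ℕ) :
    ∃ h ∈ supported k k (Fam 𝒜), d k h = c + (⇑(sd k b))^[N] c := by
  induction N with
  | zero =>
    refine ⟨0, Submodule.zero_mem _, ?_⟩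
    rw [map_zero, Function.iterate_zero, id]
    exact (two_zero' c).symm
  | succ N ih =>
    obtain ⟨h, hh, hd⟩ := ih
    refine ⟨h + T k b ((⇑(sd k b))^[N] c),
      Submodule.add_mem _ hh (T_mem_Fam hb (iter_sd_mem_Fam hb hc N)), ?_⟩
    have h1 := d_T b ((⇑(sd k b))^[N] c)
    have h0 : (⇑(sd k b))^[N] (0 : List X →₀ k) = 0 := by
      clear hd hh h h1
      induction N with
      | zero => rfl
      | succ N ih => rw [Function.iterate_succ_apply', ih, map_zero]
    rw [d_iter_sd, hcy, h0, map_zero, add_zero] at h1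
    rw [map_add, hd, h1, Function.iterate_succ_apply']
    have e := two_zero' ((⇑(sd k b))^[N] c)
    generalize (⇑(sd k b))^[N] c = u at e ⊢
    calc c + u + (u + sd k b u) = c + (u + u) + sd k b u := by abel
      _ = _ := by rw [e, add_zero]

end Fam

/-! ### barycentres -/

section Bary

variable {k : Type*} [CommRing k] {E : Type*} [NormedAddCommGroup E] [NormedSpace ℝ E]

/-- barycentre of a tuple -/
noncomputable def bary (l : List E) : E := (l.length : ℝ)⁻¹ • l.sum

theorem sum_mem_smul {A : Set E} (hA : Convex ℝ A) : ∀ l : List E, l ≠ [] → l ∈ In A →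
    ∃ a ∈ A, l.sum = (l.length : ℝ) • a := by
  intro l
  induction l with
  | nil => intro h; exact absurd rfl h
  | cons x l ih =>
    intro _ hl
    have hx : x ∈ A := hl x (by simp)
    by_cases h : l = []
    · subst h
      exact ⟨x, hx, by simp⟩
    · obtain ⟨a, ha, hs⟩ := ih h (fun y hy => hl y (List.mem_cons_of_mem _ hy))
      have hn : (0 : ℝ) ≤ l.length := Nat.cast_nonneg _
      have hn1 : (0 : ℝ) < l.length + 1 := by linarith
      refine ⟨(1 / (l.length + 1 : ℝ)) • x + ((l.length : ℝ) / (l.length + 1)) • a,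
        hA hx ha (by positivity) (by positivity) (by field_simp; ring), ?_⟩
      rw [List.sum_cons, hs, List.length_cons, smul_add, smul_smul, smul_smul]
      push_cast
      rw [mul_one_div_cancel hn1.ne', one_smul, mul_div_cancel₀ _ hn1.ne']

theorem bary_mem {A : Set E} (hA : Convex ℝ A) (l : List E) (hl : l ≠ []) (hlA : l ∈ In A) :
    bary l ∈ A := by
  obtain ⟨a, ha, hs⟩ := sum_mem_smul hA l hl hlA
  have : (l.length : ℝ) ≠ 0 := by
    simpa using hl
  rw [bary, hs, smul_smul, inv_mul_cancel₀ this, one_smul]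
  exact ha

theorem norm_sum_sub_le {r : ℝ} (a : E) : ∀ l : List E, (∀ x ∈ l, ‖x - a‖ ≤ r) →
    ‖l.sum - (l.length : ℝ) • a‖ ≤ l.length * r := by
  intro l
  induction l with
  | nil => intro _; simp
  | cons x l ih =>
    intro h
    have h1 := ih (fun y hy => h y (List.mem_cons_of_mem _ hy))
    have h2 := h x (by simp)
    have : (x :: l).sum - ((x :: l).length : ℝ) • a = (x - a) + (l.sum - (l.length : ℝ) • a) := by
      rw [List.sum_cons, List.length_cons]
      push_cast
      rw [add_smul, one_smul]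
      abel
    rw [this]
    refine (norm_add_le _ _).trans ?_
    rw [List.length_cons]
    push_cast
    nlinarith

theorem norm_sum_sub_le' {r : ℝ} (a : E) : ∀ l : List E, a ∈ l → (∀ x ∈ l, ‖x - a‖ ≤ r) →
    ‖l.sum - (l.length : ℝ) • a‖ ≤ (l.length - 1) * r := by
  intro l
  induction l with
  | nil => intro h; simp at h
  | cons x l ih =>
    intro ha h
    have : (x :: l).sum - ((x :: l).length : ℝ) • a = (x - a) + (l.sum - (l.length : ℝ) • a) := by
      rw [List.sum_cons, List.length_cons]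
      push_cast
      rw [add_smul, one_smul]
      abel
    rw [this]
    refine (norm_add_le _ _).trans ?_
    rw [List.length_cons]
    push_cast
    rcases List.mem_cons.mp ha with rfl | ha
    · have h1 := norm_sum_sub_le a l (fun y hy => h y (List.mem_cons_of_mem _ hy))
      rw [sub_self, norm_zero]
      linarith
    · have h1 := ih ha (fun y hy => h y (List.mem_cons_of_mem _ hy))
      have h2 := h x (by simp)
      nlinarith

theorem dist_bary_le {r : ℝ} (l : List E) (a : E) (ha : a ∈ l) (h : ∀ x ∈ l, dist x a ≤ r) :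
    dist (bary l) a ≤ (1 - 1 / (l.length : ℝ)) * r := by
  have hl : l ≠ [] := List.ne_nil_of_mem ha
  have hn : (0 : ℝ) < l.length := by
    have := List.length_pos_iff.mpr hl
    exact_mod_cast this
  have h1 := norm_sum_sub_le' a l ha (fun x hx => by rw [← dist_eq_norm]; exact h x hx)
  have : bary l - a = (l.length : ℝ)⁻¹ • (l.sum - (l.length : ℝ) • a) := by
    rw [smul_sub, smul_smul, inv_mul_cancel₀ hn.ne', one_smul]; rfl
  rw [dist_eq_norm, this, norm_smul, norm_inv, Real.norm_of_nonneg hn.le]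
  calc (l.length : ℝ)⁻¹ * ‖l.sum - (l.length : ℝ) • a‖
      ≤ (l.length : ℝ)⁻¹ * ((l.length - 1) * r) := by gcongr
    _ = _ := by field_simp

/-- the convex hull of a tuple -/
def hull (l : List E) : Set E := convexHull ℝ {x | x ∈ l}

theorem hull_convex (l : List E) : Convex ℝ (hull l) := convex_convexHull ℝ _

theorem mem_In_hull (l : List E) : l ∈ In (hull l) := fun _ ha => subset_convexHull ℝ _ ha

theorem hull_subset {l : List E} {A : Set E} (hA : Convex ℝ A) (h : l ∈ In A) : hull l ⊆ A :=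
  convexHull_min (fun x hx => h x hx) hA

theorem hull_compact (l : List E) : IsCompact (hull l) :=
  (List.finite_toSet l).isCompact_convexHull (𝕜 := ℝ)

theorem hull_mono {l l' : List E} (h : ∀ x ∈ l, x ∈ l') : hull l ⊆ hull l' :=
  convexHull_mono h

/-- tuples with all distances at most `r` -/
def PD (r : ℝ) : Set (List E) := {l | ∀ a ∈ l, ∀ a' ∈ l, dist a a' ≤ r}

theorem PD_mono {r r' : ℝ} (h : r ≤ r') : (PD r : Set (List E)) ⊆ PD r' :=
  fun _ hl a ha a' ha' => (hl a ha a' ha').trans h

theorem dist_le_of_mem_hull {l : List E} {x : E} {r : ℝ} (h : ∀ a ∈ l, dist a x ≤ r) {y : E}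
    (hy : y ∈ hull l) : dist y x ≤ r := by
  have := hull_subset (convex_closedBall x r) (l := l) (fun a ha => by
    rw [Metric.mem_closedBall]; exact h a ha) hy
  rwa [Metric.mem_closedBall] at this

theorem dist_le_of_mem_hull' {l : List E} {r : ℝ} (h : l ∈ PD r) {x y : E}
    (hx : x ∈ hull l) (hy : y ∈ hull l) : dist x y ≤ r := by
  refine dist_le_of_mem_hull (fun a ha => ?_) hx
  rw [dist_comm]
  exact dist_le_of_mem_hull (fun a' ha' => h a' ha' a ha) hy

theorem sd_PD_single {D : ℕ} (hD : 0 < D) {r : ℝ} (hr : 0 ≤ r) : ∀ (n : ℕ) (l : List E),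
    l.length = n → n ≤ D → l ∈ PD r →
    sd k bary (single l 1) ∈ supported k k (PD ((1 - 1 / (D : ℝ)) * r)) := by
  have hD' : (1 : ℝ) ≤ D := by exact_mod_cast hD
  have h1D : 0 ≤ 1 - 1 / (D : ℝ) := by
    rw [sub_nonneg, div_le_one (by linarith)]
    exact hD'
  intro n
  induction n with
  | zero =>
    intro l hl _ _
    rw [List.length_eq_zero_iff] at hl
    subst hl
    rw [sd_nil]
    exact single_mem_supported k _ (by intro a ha; simp at ha)
  | succ n ih =>
    intro l hl hn hlr
    obtain ⟨a, l', rfl⟩ : ∃ a l', l = a :: l' := by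
      cases l with
      | nil => simp at hl
      | cons a l' => exact ⟨a, l', rfl⟩
    rw [sd_cons]
    set L := a :: l' with hL
    have hbL : ∀ y ∈ hull L, dist (bary L) y ≤ (1 - 1 / (D : ℝ)) * r := by
      intro y hy
      rw [dist_comm]
      refine dist_le_of_mem_hull (fun x hx => ?_) hy
      rw [dist_comm]
      refine (dist_bary_le L x hx (fun x' hx' => hlr x' hx' x hx)).trans ?_
      have h3 : (0 : ℝ) < L.length := by rw [hl]; positivity
      have h4 : (L.length : ℝ) ≤ D := by rw [hl]; exact_mod_cast hn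
      have : 1 / (D : ℝ) ≤ 1 / (L.length : ℝ) := one_div_le_one_div_of_le h3 h4
      gcongr
    have hc1 : sd k bary (bdL k L) ∈ supported k k (In (hull L)) :=
      sd_mem_In bary (fun l hl hlA => bary_mem (hull_convex L) l hl hlA)
        (bdL_mem_In (mem_In_hull L))
    have hc2 : sd k bary (bdL k L) ∈ supported k k (PD ((1 - 1 / (D : ℝ)) * r)) := by
      refine supp_le (sd k bary) ?_ _ (bdL_mem (k := k) L)
      rintro l'' ⟨h1, h2⟩
      refine ih l'' (by omega) (by omega) (fun x hx y hy => hlr x (h1.subset hx) y (h1.subset hy))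
    have hc : sd k bary (bdL k L) ∈
        supported k k (In (hull L) ∩ PD ((1 - 1 / (D : ℝ)) * r)) := by
      rw [mem_supported] at hc1 hc2 ⊢
      exact fun x hx => ⟨hc1 hx, hc2 hx⟩
    refine cone_mem _ ?_ hc
    rintro l'' ⟨h1, h2⟩ x hx y hy
    rcases List.mem_cons.mp hx with rfl | hx <;> rcases List.mem_cons.mp hy with rfl | hy
    · rw [dist_self]; positivity
    · exact hbL y (h1 y hy)
    · rw [dist_comm]; exact hbL x (h1 x hx)
    · exact h2 x hx y hy

theorem iter_sd_PD {D : ℕ} (hD : 0 < D) {n : ℕ} (hn : n ≤ D) {r : ℝ} (hr : 0 ≤ r)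
    {c : List E →₀ k} (hc : c ∈ supported k k (PD r)) (hcn : c ∈ supported k k (Len n)) (N : ℕ) :
    (⇑(sd k bary))^[N] c ∈ supported k k (PD ((1 - 1 / (D : ℝ)) ^ N * r)) := by
  have hD' : (1 : ℝ) ≤ D := by exact_mod_cast hD
  have h1D : 0 ≤ 1 - 1 / (D : ℝ) := by
    rw [sub_nonneg, div_le_one (by linarith)]
    exact hD'
  induction N with
  | zero => simpa using hc
  | succ N ih =>
    rw [Function.iterate_succ_apply']
    have h2 := iter_sd_mem_Len (b := bary) hcn N
    have h3 : (⇑(sd k bary))^[N] c ∈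
        supported k k (PD ((1 - 1 / (D : ℝ)) ^ N * r) ∩ Len n) := by
      rw [mem_supported] at ih h2 ⊢
      exact fun x hx => ⟨ih hx, h2 hx⟩
    refine supp_le (sd k bary) ?_ _ h3
    rintro l ⟨h4, h5⟩
    have := sd_PD_single (k := k) hD (r := (1 - 1 / (D : ℝ)) ^ N * r) (by positivity) n l h5 hn h4
    rw [pow_succ']
    rwa [mul_assoc]

end Bary

end Pool.Agent.UBC.Tup
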