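import Mathlib

/-!
# Chains of tuples in characteristic 2

`List X →₀ k`: formal combinations of tuples; boundary `d`, cones, a general subdivision operator
`sd` built from a centre function `b : List X → X`, and the chain homotopy `T` with
`d T + T d = 1 + sd`.
-/

set_option autoImplicit false

namespace Pool.Agent.UBC.Tup

open Finsupp

section Alg

variable (k : Type*) [CommRing k] {X Y : Type*}

/-- The boundary of a tuple. -/
noncomputable def bdL : List X → (List X →₀ k)
  | [] => 0
  | a :: l => single l 1 + mapDomain (List.cons a) (bdL l)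

/-- The boundary of a chain of tuples. -/
noncomputable def d : (List X →₀ k) →ₗ[k] (List X →₀ k) := linearCombination k (bdL k)

/-- The cone with apex `a`. -/
noncomputable def cone (a : X) : (List X →₀ k) →ₗ[k] (List X →₀ k) :=
  lmapDomain k k (List.cons a)

/-- The chain map induced by a map of points. -/
noncomputable def map (f : X → Y) : (List X →₀ k) →ₗ[k] (List Y →₀ k) :=
  lmapDomain k k (List.map f)

variable {k}

theorem supp_le {ι M : Type*} [AddCommGroup M] [Module k M] {s : Set ι} {S : Submodule k M}
    (g : (ι →₀ k) →ₗ[k] M) (h : ∀ l ∈ s, g (single l 1) ∈ S) :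
    ∀ c ∈ supported k k s, g c ∈ S := by
  intro c hc
  rw [supported_eq_span_single] at hc
  have : Submodule.span k ((fun i => single i (1 : k)) '' s) ≤ S.comap g := by
    rw [Submodule.span_le]
    rintro _ ⟨l, hl, rfl⟩
    exact h l hl
  exact this hc

theorem eq_on_supp {ι M : Type*} [AddCommGroup M] [Module k M] {s : Set ι}
    (g g' : (ι →₀ k) →ₗ[k] M) (h : ∀ l ∈ s, g (single l 1) = g' (single l 1)) :
    ∀ c ∈ supported k k s, g c = g' c := by
  intro c hc
  have := supp_le (S := (⊥ : Submodule k M)) (g - g') (s := s) (fun l hl => by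
    simp [h l hl]) c hc
  rw [Submodule.mem_bot, LinearMap.sub_apply, sub_eq_zero] at this
  exact this

@[simp] theorem d_single (l : List X) : d k (single l 1) = bdL k l := by
  simp [d]

@[simp] theorem cone_single (a : X) (l : List X) (r : k) :
    cone k a (single l r) = single (a :: l) r := by
  simp [cone]

@[simp] theorem map_single (f : X → Y) (l : List X) (r : k) :
    map k f (single l r) = single (l.map f) r := by
  simp [map]

theorem bdL_cons (a : X) (l : List X) : bdL k (a :: l) = single l 1 + cone k a (bdL k l) := rfl

theorem d_cone (a : X) (c : List X →₀ k) : d k (cone k a c) = c + cone k a (d k c) := by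
  have := eq_on_supp (k := k) (s := Set.univ) (d k ∘ₗ cone k a)
    (LinearMap.id + cone k a ∘ₗ d k) (fun l _ => by simp [bdL_cons]) c (by simp)
  simpa using this

theorem two_zero [CharP k 2] {M : Type*} [AddCommGroup M] [Module k M] (x : M) : x + x = 0 := by
  have : (1 + 1 : k) • x = x + x := by rw [add_smul, one_smul]
  rw [← this, CharTwo.add_self_eq_zero, zero_smul]

theorem two_zero' [CharP k 2] {ι : Type*} (x : ι →₀ k) : x + x = 0 := two_zero (k := k) x

theorem d_bdL [CharP k 2] (l : List X) : d k (bdL k l) = 0 := by
  induction l with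
  | nil => simp [bdL]
  | cons a l ih =>
    rw [bdL_cons, map_add, d_single, d_cone, ih, map_zero, add_zero]
    exact two_zero' _

theorem d_d [CharP k 2] (c : List X →₀ k) : d k (d k c) = 0 := by
  have := eq_on_supp (k := k) (s := Set.univ) (d k ∘ₗ d k) 0
    (fun l _ => by simp [d_bdL]) c (by simp)
  simpa using this

theorem map_cone (f : X → Y) (a : X) (c : List X →₀ k) :
    map k f (cone k a c) = cone k (f a) (map k f c) := by
  have := eq_on_supp (k := k) (s := Set.univ) (map k f ∘ₗ cone k a) (cone k (f a) ∘ₗ map k f)
    (fun l _ => by simp) c (by simp)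
  simpa using this

theorem map_bdL (f : X → Y) (l : List X) : map k f (bdL k l) = bdL k (l.map f) := by
  induction l with
  | nil => simp [bdL]
  | cons a l ih =>
    rw [bdL_cons, List.map_cons, bdL_cons, map_add, map_single, map_cone, ih]

theorem map_d (f : X → Y) (c : List X →₀ k) : map k f (d k c) = d k (map k f c) := by
  have := eq_on_supp (k := k) (s := Set.univ) (map k f ∘ₗ d k) (d k ∘ₗ map k f)
    (fun l _ => by simp [map_bdL]) c (by simp)
  simpa using this

/-! ### supports -/

/-- all points in `A` -/
def In (A : Set X) : Set (List X) := {l | ∀ a ∈ l, a ∈ A}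

/-- tuples with `n` entries -/
def Len (n : ℕ) : Set (List X) := {l | l.length = n}

theorem bdL_mem (l : List X) : bdL k l ∈ supported k k {l' | List.Sublist l' l ∧ l'.length + 1 = l.length} := by
  induction l with
  | nil => simp [bdL]
  | cons a l ih =>
    rw [bdL_cons]
    refine Submodule.add_mem _ (single_mem_supported k _ ⟨List.sublist_cons_self a l, by simp⟩) ?_
    refine supp_le (cone k a) ?_ _ ih
    rintro l' ⟨h1, h2⟩
    rw [cone_single]
    exact single_mem_supported k _ ⟨h1.cons_cons a, by simp [h2]⟩

theorem d_mem_Len {n : ℕ} {c : List X →₀ k} (hc : c ∈ supported k k (Len (n + 1))) :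
    d k c ∈ supported k k (Len n) := by
  refine supp_le (d k) ?_ c hc
  intro l hl
  rw [d_single]
  refine supported_mono ?_ (bdL_mem l)
  rintro l' ⟨_, h⟩
  simp only [Len, Set.mem_ofPred_eq] at hl ⊢
  omega

theorem map_mem {s : Set (List X)} {t : Set (List Y)} (f : X → Y)
    (h : ∀ l ∈ s, l.map f ∈ t) {c : List X →₀ k} (hc : c ∈ supported k k s) :
    map k f c ∈ supported k k t := by
  refine supp_le (map k f) ?_ c hc
  intro l hl
  rw [map_single]
  exact single_mem_supported k _ (h l hl)

theorem cone_mem {s t : Set (List X)} (a : X)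
    (h : ∀ l ∈ s, a :: l ∈ t) {c : List X →₀ k} (hc : c ∈ supported k k s) :
    cone k a c ∈ supported k k t := by
  refine supp_le (cone k a) ?_ c hc
  intro l hl
  rw [cone_single]
  exact single_mem_supported k _ (h l hl)

theorem map_congr {s : Set (List X)} (f g : X → Y)
    (h : ∀ l ∈ s, ∀ a ∈ l, f a = g a) {c : List X →₀ k} (hc : c ∈ supported k k s) :
    map k f c = map k g c := by
  refine eq_on_supp (map k f) (map k g) ?_ c hc
  intro l hl
  rw [map_single, map_single, List.map_congr_left (h l hl)]

theorem map_map {Z : Type*} (f : X → Y) (g : Y → Z) (c : List X →₀ k) :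
    map k g (map k f c) = map k (g ∘ f) c := by
  have := eq_on_supp (k := k) (s := Set.univ) (map k g ∘ₗ map k f) (map k (g ∘ f))
    (fun l _ => by simp) c (by simp)
  simpa using this

theorem lc_congr {ι M : Type*} [AddCommGroup M] [Module k M] {s : Set ι} (F G : ι → M)
    (h : ∀ i ∈ s, F i = G i) {c : ι →₀ k} (hc : c ∈ supported k k s) :
    linearCombination k F c = linearCombination k G c :=
  eq_on_supp (linearCombination k F) (linearCombination k G)
    (fun l hl => by simp [h l hl]) c hc

end Alg

/-! ### subdivision -/

section Sd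

variable (k : Type*) [CommRing k] {X : Type*} (b : List X → X)

/-- subdivision of a tuple of length `n` -/
noncomputable def sdL : ℕ → List X → (List X →₀ k)
  | 0, l => single l 1
  | n + 1, l => cone k (b l) (linearCombination k (sdL n) (bdL k l))

/-- subdivision -/
noncomputable def sd : (List X →₀ k) →ₗ[k] (List X →₀ k) :=
  linearCombination k (fun l => sdL k b l.length l)

/-- chain homotopy -/
noncomputable def TL : ℕ → List X → (List X →₀ k)
  | 0, _ => 0
  | n + 1, l => cone k (b l) (single l 1 + linearCombination k (TL n) (bdL k l))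

/-- chain homotopy -/
noncomputable def T : (List X →₀ k) →ₗ[k] (List X →₀ k) :=
  linearCombination k (fun l => TL k b l.length l)

variable {k}

theorem sd_nil : sd k b (single [] 1) = single [] 1 := by simp [sd, sdL]

theorem T_nil : T k b (single [] 1) = 0 := by simp [T, TL]

theorem sd_cons (a : X) (l : List X) :
    sd k b (single (a :: l) 1) = cone k (b (a :: l)) (sd k b (bdL k (a :: l))) := by
  simp only [sd, linearCombination_single, one_smul, List.length_cons, sdL]
  congr 1
  refine lc_congr _ _ ?_ (bdL_mem (k := k) (a :: l))
  rintro l' ⟨_, h⟩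
  have : l'.length = l.length := by simpa using h
  rw [this]

theorem T_cons (a : X) (l : List X) :
    T k b (single (a :: l) 1) =
      cone k (b (a :: l)) (single (a :: l) 1 + T k b (bdL k (a :: l))) := by
  simp only [T, linearCombination_single, one_smul, List.length_cons, TL]
  congr 2
  refine lc_congr _ _ ?_ (bdL_mem (k := k) (a :: l))
  rintro l' ⟨_, h⟩
  have : l'.length = l.length := by simpa using h
  rw [this]

theorem d_sd_single [CharP k 2] : ∀ (n : ℕ) (l : List X), l.length = n →
    d k (sd k b (single l 1)) = sd k b (d k (single l 1)) := by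
  intro n
  induction n with
  | zero =>
    intro l hl
    rw [List.length_eq_zero_iff] at hl
    subst hl
    simp [sd_nil, bdL]
  | succ n ih =>
    intro l hl
    obtain ⟨a, l', rfl⟩ : ∃ a l', l = a :: l' := by
      cases l with
      | nil => simp at hl
      | cons a l' => exact ⟨a, l', rfl⟩
    have h : d k (sd k b (bdL k (a :: l'))) = sd k b (d k (bdL k (a :: l'))) := by
      refine eq_on_supp (d k ∘ₗ sd k b) (sd k b ∘ₗ d k) ?_ _ (bdL_mem (k := k) (a :: l'))
      rintro l'' ⟨_, h⟩
      exact ih l'' (by omega)
    rw [sd_cons, d_cone, h, d_bdL, map_zero, map_zero, add_zero, d_single]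

theorem d_sd [CharP k 2] (c : List X →₀ k) : d k (sd k b c) = sd k b (d k c) :=
  eq_on_supp (s := Set.univ) (d k ∘ₗ sd k b) (sd k b ∘ₗ d k)
    (fun l _ => d_sd_single b l.length l rfl) c (by simp)

theorem d_T_single [CharP k 2] : ∀ (n : ℕ) (l : List X), l.length = n →
    d k (T k b (single l 1)) + T k b (d k (single l 1)) = single l 1 + sd k b (single l 1) := by
  intro n
  induction n with
  | zero =>
    intro l hl
    rw [List.length_eq_zero_iff] at hl
    subst hl
    simp only [sd_nil, T_nil, map_zero, d_single, bdL, add_zero]
    exact (two_zero' _).symm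
  | succ n ih =>
    intro l hl
    obtain ⟨a, l', rfl⟩ : ∃ a l', l = a :: l' := by
      cases l with
      | nil => simp at hl
      | cons a l' => exact ⟨a, l', rfl⟩
    have h : d k (T k b (bdL k (a :: l'))) + T k b (d k (bdL k (a :: l'))) =
        bdL k (a :: l') + sd k b (bdL k (a :: l')) := by
      have := eq_on_supp (d k ∘ₗ T k b + T k b ∘ₗ d k) (LinearMap.id + sd k b) ?_ _
        (bdL_mem (k := k) (a :: l'))
      · simpa using this
      · rintro l'' ⟨_, h⟩
        simpa using ih l'' (by omega)
    rw [d_bdL, map_zero, add_zero] at h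
    rw [T_cons, d_cone, d_single, map_add, h, d_single, sd_cons]
    have e : bdL k (a :: l') + (bdL k (a :: l') + sd k b (bdL k (a :: l'))) =
        sd k b (bdL k (a :: l')) := by
      rw [← add_assoc, two_zero', zero_add]
    rw [e]
    have e2 := two_zero' (T k b (bdL k (a :: l')))
    generalize T k b (bdL k (a :: l')) = u at e2 ⊢
    calc single (a :: l') 1 + u + cone k (b (a :: l')) (sd k b (bdL k (a :: l'))) + u
        = single (a :: l') 1 + cone k (b (a :: l')) (sd k b (bdL k (a :: l'))) + (u + u) := by abel
      _ = _ := by rw [e2, add_zero]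

theorem d_T [CharP k 2] (c : List X →₀ k) :
    d k (T k b c) + T k b (d k c) = c + sd k b c := by
  have := eq_on_supp (s := Set.univ) (d k ∘ₗ T k b + T k b ∘ₗ d k) (LinearMap.id + sd k b)
    (fun l _ => by simpa using d_T_single (k := k) b l.length l rfl) c (by simp)
  simpa using this

/-! supports of subdivisions -/

theorem d_mem_In {A : Set X} {c : List X →₀ k} (hc : c ∈ supported k k (In A)) :
    d k c ∈ supported k k (In A) := by
  refine supp_le (d k) ?_ c hc
  intro l hl
  rw [d_single]
  refine supported_mono ?_ (bdL_mem l)
  rintro l' ⟨h, _⟩ a ha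
  exact hl a (h.subset ha)

theorem bdL_mem_In {A : Set X} {l : List X} (hl : l ∈ In A) :
    bdL k l ∈ supported k k (In A) := by
  rw [← d_single]
  exact d_mem_In (single_mem_supported k _ hl)

theorem sd_mem_In {A : Set X} (hb : ∀ l : List X, l ≠ [] → l ∈ In A → b l ∈ A)
    {c : List X →₀ k} (hc : c ∈ supported k k (In A)) :
    sd k b c ∈ supported k k (In A) := by
  have key : ∀ (n : ℕ) (l : List X), l.length = n → l ∈ In A →
      sd k b (single l 1) ∈ supported k k (In A) := by
    intro n
    induction n with
    | zero =>
      intro l hl hlA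
      rw [List.length_eq_zero_iff] at hl
      subst hl
      rw [sd_nil]
      exact single_mem_supported k _ hlA
    | succ n ih =>
      intro l hl hlA
      obtain ⟨a, l', rfl⟩ : ∃ a l', l = a :: l' := by
        cases l with
        | nil => simp at hl
        | cons a l' => exact ⟨a, l', rfl⟩
      rw [sd_cons]
      refine cone_mem (s := In A) _ ?_ ?_
      · intro l'' h'' x hx
        rcases List.mem_cons.mp hx with rfl | hx
        · exact hb _ (by simp) hlA
        · exact h'' x hx
      · refine supp_le (s := {l'' | l''.length = n} ∩ In A) (sd k b) ?_ _ ?_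
        · rintro l'' ⟨h1, h2⟩
          exact ih l'' h1 h2
        · have h1 := bdL_mem (k := k) (a :: l')
          have h2 := bdL_mem_In (k := k) hlA
          rw [mem_supported] at h1 h2 ⊢
          intro x hx
          have := (h1 hx).2
          exact ⟨by simp only [Set.mem_ofPred_eq]; omega, h2 hx⟩
  exact supp_le (sd k b) (fun l hl => key l.length l rfl hl) c hc

theorem T_mem_In {A : Set X} (hb : ∀ l : List X, l ≠ [] → l ∈ In A → b l ∈ A)
    {c : List X →₀ k} (hc : c ∈ supported k k (In A)) :
    T k b c ∈ supported k k (In A) := by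
  have key : ∀ (n : ℕ) (l : List X), l.length = n → l ∈ In A →
      T k b (single l 1) ∈ supported k k (In A) := by
    intro n
    induction n with
    | zero =>
      intro l hl hlA
      rw [List.length_eq_zero_iff] at hl
      subst hl
      rw [T_nil]
      exact Submodule.zero_mem _
    | succ n ih =>
      intro l hl hlA
      obtain ⟨a, l', rfl⟩ : ∃ a l', l = a :: l' := by
        cases l with
        | nil => simp at hl
        | cons a l' => exact ⟨a, l', rfl⟩
      rw [T_cons]
      refine cone_mem (s := In A) _ ?_ ?_
      · intro l'' h'' x hx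
        rcases List.mem_cons.mp hx with rfl | hx
        · exact hb _ (by simp) hlA
        · exact h'' x hx
      · refine Submodule.add_mem _ (single_mem_supported k _ hlA) ?_
        refine supp_le (s := {l'' | l''.length = n} ∩ In A) (T k b) ?_ _ ?_
        · rintro l'' ⟨h1, h2⟩
          exact ih l'' h1 h2
        · have h1 := bdL_mem (k := k) (a :: l')
          have h2 := bdL_mem_In (k := k) hlA
          rw [mem_supported] at h1 h2 ⊢
          intro x hx
          have := (h1 hx).2
          exact ⟨by simp only [Set.mem_ofPred_eq]; omega, h2 hx⟩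
  exact supp_le (T k b) (fun l hl => key l.length l rfl hl) c hc

theorem sd_mem_Len (n : ℕ) {c : List X →₀ k} (hc : c ∈ supported k k (Len n)) :
    sd k b c ∈ supported k k (Len n) := by
  induction n generalizing c with
  | zero =>
    refine supp_le (sd k b) ?_ c hc
    intro l hl
    have : l = [] := List.length_eq_zero_iff.mp hl
    subst this
    rw [sd_nil]
    exact single_mem_supported k _ hl
  | succ n ih =>
    refine supp_le (sd k b) ?_ c hc
    intro l hl
    obtain ⟨a, l', rfl⟩ : ∃ a l', l = a :: l' := by
      cases l with
      | nil => simp [Len] at hl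
      | cons a l' => exact ⟨a, l', rfl⟩
    rw [sd_cons]
    refine cone_mem (s := Len n) _ ?_ (ih ?_)
    · intro l'' h''
      simp only [Len, Set.mem_ofPred_eq, List.length_cons] at h'' ⊢
      omega
    · rw [← d_single]
      exact d_mem_Len (single_mem_supported k _ hl)

theorem T_mem_Len (n : ℕ) {c : List X →₀ k} (hc : c ∈ supported k k (Len n)) :
    T k b c ∈ supported k k (Len (n + 1)) := by
  induction n generalizing c with
  | zero =>
    refine supp_le (T k b) ?_ c hc
    intro l hl
    have : l = [] := List.length_eq_zero_iff.mp hl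
    subst this
    rw [T_nil]
    exact Submodule.zero_mem _
  | succ n ih =>
    refine supp_le (T k b) ?_ c hc
    intro l hl
    obtain ⟨a, l', rfl⟩ : ∃ a l', l = a :: l' := by
      cases l with
      | nil => simp [Len] at hl
      | cons a l' => exact ⟨a, l', rfl⟩
    rw [T_cons]
    refine cone_mem (s := Len (n + 1)) _ ?_ ?_
    · intro l'' h''
      simp only [Len, Set.mem_ofPred_eq, List.length_cons] at h'' ⊢
      omega
    · refine Submodule.add_mem _ (single_mem_supported k _ hl) (ih ?_)
      rw [← d_single]
      exact d_mem_Len (single_mem_supported k _ hl)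

end Sd

end Pool.Agent.UBC.Tup
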