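import Pool.Agent.UBC.Defs
import Pool.Agent.UBC.Tup

/-!
# Simplicial chains (functions on finsets, characteristic 2) and tuple chains
-/

set_option autoImplicit false
set_option linter.unusedSectionVars false

namespace Pool.Agent.UBC.Tup

open Finsupp

section Simp

variable (k : Type*) [CommRing k] {V X : Type*} [DecidableEq V]

/-- boundary of a simplex -/
noncomputable def bdF (s : Finset V) : Finset V →₀ k := ∑ v ∈ s, single (s.erase v) 1

/-- simplicial boundary -/
noncomputable def dF : (Finset V →₀ k) →ₗ[k] (Finset V →₀ k) := linearCombination k (bdF k)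

/-- join with a vertex, zero if the vertex is already there -/
noncomputable def mul (a : V) : (Finset V →₀ k) →ₗ[k] (Finset V →₀ k) :=
  linearCombination k (fun s => if a ∈ s then 0 else single (insert a s) 1)

/-- the simplex of a tuple -/
noncomputable def QL : List V → (Finset V →₀ k)
  | [] => single ∅ 1
  | a :: l => mul k a (QL l)

/-- from tuple chains to simplicial chains -/
noncomputable def Q : (List V →₀ k) →ₗ[k] (Finset V →₀ k) := linearCombination k (QL k)

variable {k}

@[simp] theorem dF_single (s : Finset V) : dF k (single s 1) = bdF k s := by simp [dF]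

@[simp] theorem Q_single (l : List V) : Q k (single l 1) = QL k l := by simp [Q]

theorem mul_single (a : V) (s : Finset V) :
    mul k a (single s 1) = if a ∈ s then 0 else single (insert a s) 1 := by simp [mul]

theorem mul_single_of_mem {a : V} {s : Finset V} (h : a ∈ s) : mul k a (single s 1) = 0 := by
  rw [mul_single, if_pos h]

theorem mul_single_of_notMem {a : V} {s : Finset V} (h : a ∉ s) :
    mul k a (single s 1) = single (insert a s) 1 := by
  rw [mul_single, if_neg h]

theorem dF_mul_single [CharP k 2] (a : V) (s : Finset V) :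
    dF k (mul k a (single s 1)) = single s 1 + mul k a (dF k (single s 1)) := by
  rw [dF_single, bdF, map_sum]
  by_cases h : a ∈ s
  · rw [mul_single_of_mem h, map_zero]
    rw [Finset.sum_eq_single a]
    · rw [mul_single_of_notMem (Finset.notMem_erase a s), Finset.insert_erase h]
      exact (two_zero' _).symm
    · intro v hv hva
      exact mul_single_of_mem (Finset.mem_erase.mpr ⟨hva.symm, h⟩)
    · intro h'; exact absurd h h'
  · rw [mul_single_of_notMem h, dF_single, bdF, Finset.sum_insert h, Finset.erase_insert h]
    congr 1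
    refine Finset.sum_congr rfl (fun v hv => ?_)
    have hav : a ≠ v := fun e => h (e ▸ hv)
    rw [mul_single_of_notMem (fun h' => h (Finset.mem_of_mem_erase h')),
      Finset.erase_insert_of_ne hav]

theorem dF_mul [CharP k 2] (a : V) (x : Finset V →₀ k) :
    dF k (mul k a x) = x + mul k a (dF k x) := by
  have := eq_on_supp (k := k) (s := Set.univ) (dF k ∘ₗ mul k a)
    (LinearMap.id + mul k a ∘ₗ dF k) (fun l _ => by simpa using dF_mul_single a l) x (by simp)
  simpa using this

theorem Q_cone (a : V) (c : List V →₀ k) : Q k (cone k a c) = mul k a (Q k c) := by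
  have := eq_on_supp (k := k) (s := Set.univ) (Q k ∘ₗ cone k a) (mul k a ∘ₗ Q k)
    (fun l _ => by simp [QL]) c (by simp)
  simpa using this

theorem Q_bdL [CharP k 2] (l : List V) : Q k (bdL k l) = dF k (QL k l) := by
  induction l with
  | nil => simp [bdL, QL, bdF]
  | cons a l ih => rw [bdL_cons, map_add, Q_single, Q_cone, ih, QL, dF_mul]

theorem Q_d [CharP k 2] (c : List V →₀ k) : Q k (d k c) = dF k (Q k c) := by
  have := eq_on_supp (k := k) (s := Set.univ) (Q k ∘ₗ d k) (dF k ∘ₗ Q k)
    (fun l _ => by simpa using Q_bdL l) c (by simp)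
  simpa using this

theorem QL_mem (l : List V) :
    QL k l ∈ supported k k {s : Finset V | (∀ v ∈ s, v ∈ l) ∧ s.card = l.length ∧
      s = l.toFinset} := by
  induction l with
  | nil => exact single_mem_supported k _ (by simp)
  | cons a l ih =>
    rw [QL]
    refine supp_le (mul k a) ?_ _ ih
    rintro s ⟨h1, h2, h3⟩
    rw [mul_single]
    split_ifs with h
    · exact Submodule.zero_mem _
    · refine single_mem_supported k _ ⟨?_, ?_, ?_⟩
      · intro v hv
        rcases Finset.mem_insert.mp hv with rfl | hv
        · simp
        · exact List.mem_cons_of_mem _ (h1 v hv)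
      · rw [Finset.card_insert_of_notMem h, h2, List.length_cons]
      · rw [h3, List.toFinset_cons]

theorem dF_bdF [CharP k 2] (s : Finset V) : dF k (bdF k s) = 0 := by
  have : bdF k s = Q k (d k (single s.toList 1)) := by
    rw [Q_d, Q_single]
    rw [← dF_single]
    congr 1
    have key : ∀ l : List V, l.Nodup → QL k l = single l.toFinset 1 := by
      intro l
      induction l with
      | nil => intro _; rfl
      | cons a l ih =>
        intro h
        rw [List.nodup_cons] at h
        rw [QL, ih h.2, mul_single_of_notMem (by simpa using h.1), List.toFinset_cons]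
    rw [key _ s.nodup_toList, Finset.toList_toFinset]
  rw [this, ← Q_d, d_d, map_zero]

theorem dF_dF [CharP k 2] (x : Finset V →₀ k) : dF k (dF k x) = 0 := by
  have := eq_on_supp (k := k) (s := Set.univ) (dF k ∘ₗ dF k) 0
    (fun l _ => by simp [dF_bdF]) x (by simp)
  simpa using this

theorem bdF_mem (s : Finset V) :
    bdF k s ∈ supported k k {t : Finset V | t ⊆ s ∧ t.card + 1 = s.card} := by
  rw [bdF]
  refine Submodule.sum_mem _ (fun v hv => single_mem_supported k _ ⟨Finset.erase_subset _ _, ?_⟩)
  rw [Finset.card_erase_of_mem hv]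
  have := Finset.card_pos.mpr ⟨v, hv⟩
  omega

theorem bdF_apply (s t : Finset V) :
    bdF k s t = if t ⊆ s ∧ s.card = t.card + 1 then 1 else 0 := by
  rw [bdF, finsetSum_apply]
  split_ifs with h
  · obtain ⟨h1, h2⟩ := h
    have h3 : (s \ t).card = 1 := by
      rw [Finset.card_sdiff_of_subset h1]; omega
    obtain ⟨v, hv⟩ := Finset.card_eq_one.mp h3
    have hvs : v ∈ s \ t := by rw [hv]; simp
    rw [Finset.mem_sdiff] at hvs
    have e : s.erase v = t := by
      ext w
      rw [Finset.mem_erase]
      constructor
      · rintro ⟨h4, h5⟩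
        by_contra h6
        have : w ∈ s \ t := Finset.mem_sdiff.mpr ⟨h5, h6⟩
        rw [hv, Finset.mem_singleton] at this
        exact h4 this
      · intro h4
        exact ⟨fun h5 => hvs.2 (h5 ▸ h4), h1 h4⟩
    rw [Finset.sum_eq_single v]
    · rw [e, single_eq_same]
    · intro w hw hwv
      rw [single_apply, if_neg]
      intro h5
      have : v ∈ s.erase w := Finset.mem_erase.mpr ⟨hwv.symm, hvs.1⟩
      rw [h5] at this
      exact hvs.2 this
    · intro h5; exact absurd hvs.1 h5
  · refine Finset.sum_eq_zero (fun v hv => ?_)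
    rw [single_apply, if_neg]
    intro h5
    apply h
    rw [← h5]
    refine ⟨Finset.erase_subset _ _, ?_⟩
    rw [Finset.card_erase_of_mem hv]
    have := Finset.card_pos.mpr ⟨v, hv⟩
    omega

/-! ### the realisation chain map -/

variable (k) in
/-- barycentric realisation of a simplex with `n` vertices -/
noncomputable def SL (b : Finset V → X) : ℕ → Finset V → (List X →₀ k)
  | 0, _ => single [] 1
  | n + 1, s => cone k (b s) (linearCombination k (SL b n) (bdF k s))

variable (k) in
/-- barycentric realisation -/
noncomputable def S (b : Finset V → X) : (Finset V →₀ k) →ₗ[k] (List X →₀ k) :=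
  linearCombination k (fun s => SL k b s.card s)

variable (b : Finset V → X)

theorem S_empty : S k b (single ∅ 1) = single [] 1 := by simp [S, SL]

theorem S_nonempty {s : Finset V} (hs : s.Nonempty) :
    S k b (single s 1) = cone k (b s) (S k b (bdF k s)) := by
  obtain ⟨n, hn⟩ : ∃ n, s.card = n + 1 := ⟨s.card - 1, by
    have := Finset.card_pos.mpr hs; omega⟩
  simp only [S, linearCombination_single, one_smul, hn, SL]
  congr 1
  refine lc_congr _ _ ?_ (bdF_mem (k := k) s)
  rintro t ⟨_, h⟩
  have : t.card = n := by omega
  rw [this]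

theorem d_S_single [CharP k 2] : ∀ (n : ℕ) (s : Finset V), s.card = n →
    d k (S k b (single s 1)) = S k b (dF k (single s 1)) := by
  intro n
  induction n with
  | zero =>
    intro s hs
    rw [Finset.card_eq_zero] at hs
    subst hs
    simp [S_empty, bdL, bdF]
  | succ n ih =>
    intro s hs
    have hne : s.Nonempty := Finset.card_pos.mp (by omega)
    have h : d k (S k b (bdF k s)) = S k b (dF k (bdF k s)) := by
      refine eq_on_supp (d k ∘ₗ S k b) (S k b ∘ₗ dF k) ?_ _ (bdF_mem (k := k) s)
      rintro t ⟨_, h⟩
      exact ih t (by omega)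
    rw [S_nonempty b hne, d_cone, h, dF_bdF, map_zero, map_zero, add_zero, dF_single]

theorem d_S [CharP k 2] (c : Finset V →₀ k) : d k (S k b c) = S k b (dF k c) :=
  eq_on_supp (s := Set.univ) (d k ∘ₗ S k b) (S k b ∘ₗ dF k)
    (fun l _ => d_S_single b l.card l rfl) c (by simp)

theorem S_mem_In : ∀ (n : ℕ) (s : Finset V) (A : Set X), s.card = n →
    (∀ t ⊆ s, t.Nonempty → b t ∈ A) → S k b (single s 1) ∈ supported k k (In A) := by
  intro n
  induction n with
  | zero =>
    intro s A hs _
    rw [Finset.card_eq_zero] at hs
    subst hs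
    rw [S_empty]
    exact single_mem_supported k _ (by intro a ha; simp at ha)
  | succ n ih =>
    intro s A hs hA
    have hne : s.Nonempty := Finset.card_pos.mp (by omega)
    rw [S_nonempty b hne]
    refine cone_mem (s := In A) _ ?_ ?_
    · intro l hl x hx
      rcases List.mem_cons.mp hx with rfl | hx
      · exact hA s (Finset.Subset.refl s) hne
      · exact hl x hx
    · refine supp_le (S k b) ?_ _ (bdF_mem (k := k) s)
      rintro t ⟨h1, h2⟩
      exact ih t A (by omega) (fun t' ht' => hA t' (ht'.trans h1))

theorem S_mem_Len : ∀ (n : ℕ) (s : Finset V), s.card = n →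
    S k b (single s 1) ∈ supported k k (Len n) := by
  intro n
  induction n with
  | zero =>
    intro s hs
    rw [Finset.card_eq_zero] at hs
    subst hs
    rw [S_empty]
    exact single_mem_supported k _ rfl
  | succ n ih =>
    intro s hs
    have hne : s.Nonempty := Finset.card_pos.mp (by omega)
    rw [S_nonempty b hne]
    refine cone_mem (s := Len n) _ ?_ ?_
    · intro l hl
      simp only [Len, Set.mem_ofPred_eq, List.length_cons] at hl ⊢
      omega
    · refine supp_le (S k b) ?_ _ (bdF_mem (k := k) s)
      rintro t ⟨h1, h2⟩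
      exact ih t (by omega)

/-! ### Sperner: a carrier preserving augmented chain map is the identity -/

theorem eq_id_of_carrier (P : (Finset V →₀ k) →ₗ[k] (Finset V →₀ k))
    (hP : ∀ x, dF k (P x) = P (dF k x)) (h0 : P (single ∅ 1) = single ∅ 1)
    (hc : ∀ s : Finset V, P (single s 1) ∈ supported k k {t | t ⊆ s ∧ t.card = s.card}) :
    ∀ x, P x = x := by
  have key : ∀ (n : ℕ) (s : Finset V), s.card = n → P (single s 1) = single s 1 := by
    intro n
    induction n with
    | zero =>
      intro s hs
      rw [Finset.card_eq_zero] at hs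
      subst hs
      exact h0
    | succ n ih =>
      intro s hs
      obtain ⟨v, hv⟩ : s.Nonempty := Finset.card_pos.mp (by omega)
      have h1 : ∃ r : k, P (single s 1) = single s r := by
        refine ⟨P (single s 1) s, ?_⟩
        ext t
        rw [single_apply]
        split_ifs with h
        · rw [h]
        · have h2 := hc s
          rw [mem_supported] at h2
          by_contra h3
          have h4 : t ∈ (P (single s 1)).support := mem_support_iff.mpr h3
          obtain ⟨h5, h6⟩ := h2 h4
          exact h (Finset.eq_of_subset_of_card_le h5 h6.ge).symm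
      obtain ⟨r, hr⟩ := h1
      have h2 : dF k (P (single s 1)) = r • bdF k s := by
        rw [hr]
        have : (single s r : Finset V →₀ k) = r • single s 1 := by simp
        rw [this, map_smul, dF_single]
      have h3 : P (dF k (single s 1)) = bdF k s := by
        rw [dF_single]
        have := eq_on_supp (k := k) P LinearMap.id (s := {t | t ⊆ s ∧ t.card + 1 = s.card}) ?_ _
          (bdF_mem (k := k) s)
        · simpa using this
        · rintro t ⟨_, h⟩
          rw [ih t (by omega)]
          rfl
      have h4 : r • bdF k s = bdF k s := by rw [← h2, hP, h3]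
      have h5 := DFunLike.congr_fun h4 (s.erase v)
      have h6 : s.erase v ⊆ s ∧ s.card = (s.erase v).card + 1 := by
        refine ⟨Finset.erase_subset _ _, ?_⟩
        rw [Finset.card_erase_of_mem hv]
        omega
      rw [Finsupp.smul_apply, bdF_apply, if_pos h6, smul_eq_mul, mul_one] at h5
      rw [hr, h5]
  intro x
  have := eq_on_supp (k := k) (s := Set.univ) P LinearMap.id
    (fun l _ => by simpa using key l.card l rfl) x (by simp)
  simpa using this

/-! ### comparison with `Cplx.bd` -/

end Simp

section Cplx

variable {k : Type*} [CommRing k] {V : Type} [DecidableEq V]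

theorem dF_eq_bd (Δ : Cplx V) (C : Finset V →₀ k)
    (hC : C ∈ supported k k (Δ.faces : Set (Finset V))) (t : Finset V) :
    dF k C t = Δ.bd (⇑C) t := by
  rw [dF, linearCombination_apply, Finsupp.sum, finsetSum_apply, Cplx.bd]
  rw [mem_supported] at hC
  have h1 : ∑ s ∈ C.support, (C s • bdF k s) t =
      ∑ s ∈ Δ.faces, (C s • bdF k s) t := by
    refine Finset.sum_subset (by exact_mod_cast hC) ?_
    intro s _ hs
    rw [notMem_support_iff.mp hs, zero_smul]
    rfl
  rw [h1, Finset.sum_filter]
  refine Finset.sum_congr rfl (fun s _ => ?_)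
  rw [Finsupp.smul_apply, bdF_apply, smul_eq_mul]
  split_ifs <;> simp

theorem exactAt_of_chains (Δ : Cplx V) (i : ℕ)
    (h : ∀ C : Finset V →₀ k, C ∈ supported k k {s : Finset V | s ∈ Δ.faces ∧ s.card = i} →
      dF k C = 0 → ∃ B ∈ supported k k (Δ.faces : Set (Finset V)), dF k B = C) :
    Δ.ExactAt k i := by
  classical
  intro c hc
  let C : Finset V →₀ k := Finsupp.onFinset (Δ.faces.filter (fun s => s.card = i))
    (fun s => if s ∈ Δ.faces ∧ s.card = i then c s else 0) (by
      intro s hs
      rw [Finset.mem_filter]
      by_contra h'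
      exact hs (if_neg h'))
  have hCa : ∀ s, C s = if s ∈ Δ.faces ∧ s.card = i then c s else 0 := fun s => rfl
  have hCs : C ∈ supported k k {s : Finset V | s ∈ Δ.faces ∧ s.card = i} := by
    rw [mem_supported]
    intro s hs
    rw [Finset.mem_coe, mem_support_iff, hCa] at hs
    by_contra h'
    exact hs (if_neg h')
  have hCs' : C ∈ supported k k (Δ.faces : Set (Finset V)) :=
    supported_mono (fun s hs => hs.1) hCs
  obtain ⟨B, hB, hdB⟩ := h C hCs (by
    ext t
    rw [dF_eq_bd Δ C hCs' t, Finsupp.coe_zero, Pi.zero_apply]
    by_cases ht : t.card + 1 = i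
    · by_cases htf : t ∈ Δ.faces
      · rw [← hc t htf ht]
        unfold Cplx.bd
        refine Finset.sum_congr rfl (fun s hs => ?_)
        rw [Finset.mem_filter] at hs
        rw [hCa, if_pos ⟨hs.1, by omega⟩]
      · unfold Cplx.bd
        refine Finset.sum_eq_zero (fun s hs => ?_)
        rw [Finset.mem_filter] at hs
        exact absurd (Δ.down s hs.1 t hs.2.1) htf
    · unfold Cplx.bd
      refine Finset.sum_eq_zero (fun s hs => ?_)
      rw [Finset.mem_filter] at hs
      rw [hCa, if_neg]
      rintro ⟨_, h2⟩
      omega)
  refine ⟨⇑B, fun t ht hti => ?_⟩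
  rw [← dF_eq_bd Δ B hB t, hdB, hCa, if_pos ⟨ht, hti⟩]

end Cplx

end Pool.Agent.UBC.Tup
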