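import Pool.Agent.UBC.TopDefs
import Pool.Agent.UBC.Simp
import Pool.Agent.UBC.Mesh

/-!
# The chain-level retract lemma

If the realization of `L` is a retract (through `f`, `g`) of a punctured convex set in which small
tuples can be coned off, then `L` has no homology in the corresponding dimension.
-/

set_option autoImplicit false
set_option linter.unusedSectionVars false

namespace Pool.Agent.UBC.Tup

open Finsupp

section Cell

variable {n : ℕ}

/-- closed cell of a finset -/
def cell (s : Finset (Fin n)) : Set (Fin n → ℝ) :=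
  {y | (∀ i, 0 ≤ y i) ∧ ∑ i, y i = 1 ∧ ∀ i, i ∉ s → y i = 0}

theorem cell_convex (s : Finset (Fin n)) : Convex ℝ (cell s) := by
  intro x hx y hy a b ha hb hab
  refine ⟨fun i => ?_, ?_, fun i hi => ?_⟩
  · have h1 := hx.1 i
    have h2 := hy.1 i
    simp only [Pi.add_apply, Pi.smul_apply, smul_eq_mul]
    positivity
  · simp only [Pi.add_apply, Pi.smul_apply, smul_eq_mul]
    rw [Finset.sum_add_distrib, ← Finset.mul_sum, ← Finset.mul_sum, hx.2.1, hy.2.1]
    linarith
  · simp only [Pi.add_apply, Pi.smul_apply, smul_eq_mul]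
    rw [hx.2.2 i hi, hy.2.2 i hi]
    ring

theorem cell_compact (s : Finset (Fin n)) : IsCompact (cell s) := by
  have : cell s = stdSimplex ℝ (Fin n) ∩ {y | ∀ i, i ∉ s → y i = 0} := by
    ext y
    constructor
    · rintro ⟨h1, h2, h3⟩
      exact ⟨⟨h1, h2⟩, h3⟩
    · rintro ⟨⟨h1, h2⟩, h3⟩
      exact ⟨h1, h2, h3⟩
  rw [this]
  refine (isCompact_stdSimplex ℝ (Fin n)).inter_right ?_
  simp only [Set.ofPred_forall]
  refine isClosed_iInter (fun i => isClosed_iInter (fun _ => ?_))
  exact isClosed_eq (continuous_apply i) continuous_const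

theorem real_eq (L : Cplx (Fin n)) : real L = ⋃ s ∈ L.faces, cell s := by
  ext y
  simp only [Set.mem_iUnion]
  constructor
  · rintro ⟨h1, h2, h3⟩
    refine ⟨suppF y, h3, h1, h2, fun i hi => ?_⟩
    by_contra h
    exact hi ((mem_suppF y i).mpr h)
  · rintro ⟨s, hs, h1, h2, h3⟩
    refine ⟨h1, h2, L.down s hs _ (fun i hi => ?_)⟩
    by_contra h
    exact (mem_suppF y i).mp hi (h3 i h)

theorem real_compact (L : Cplx (Fin n)) : IsCompact (real L) := by
  rw [real_eq]
  exact L.faces.isCompact_biUnion (fun s _ => cell_compact s)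

theorem cell_subset_real (L : Cplx (Fin n)) {s : Finset (Fin n)} (hs : s ∈ L.faces) :
    cell s ⊆ real L := by
  rw [real_eq]
  exact Set.subset_biUnion_of_mem (u := fun s => cell s) hs

/-- centre of a cell -/
noncomputable def ctr (s : Finset (Fin n)) : Fin n → ℝ :=
  fun i => if i ∈ s then (s.card : ℝ)⁻¹ else 0

theorem ctr_mem {s t : Finset (Fin n)} (hs : s.Nonempty) (hst : s ⊆ t) : ctr s ∈ cell t := by
  have h0 : (0 : ℝ) < s.card := by exact_mod_cast hs.card_pos
  refine ⟨fun i => ?_, ?_, fun i hi => ?_⟩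
  · unfold ctr
    split_ifs <;> positivity
  · unfold ctr
    rw [Finset.sum_ite_mem, Finset.univ_inter, Finset.sum_const, nsmul_eq_mul,
      mul_inv_cancel₀ h0.ne']
  · unfold ctr
    rw [if_neg (fun h => hi (hst h))]

variable [NeZero n]

/-- a vertex with large barycentric coordinate -/
noncomputable def vm (y : Fin n → ℝ) : Fin n :=
  if h : ∃ v, 1 / (n : ℝ) ≤ y v then h.choose else 0

theorem vm_spec {y : Fin n → ℝ} (h : ∑ i, y i = 1) : 1 / (n : ℝ) ≤ y (vm y) := by
  have hn : (0 : ℝ) < n := by exact_mod_cast Nat.pos_of_ne_zero (NeZero.ne n)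
  have : ∃ v, 1 / (n : ℝ) ≤ y v := by
    obtain ⟨v, _, hv⟩ := Finset.exists_le_of_sum_le (s := (Finset.univ : Finset (Fin n)))
      (f := fun _ => 1 / (n : ℝ)) (g := y) ⟨0, Finset.mem_univ _⟩ (by
        rw [h, Finset.sum_const, Finset.card_univ, Fintype.card_fin, nsmul_eq_mul,
          mul_one_div_cancel hn.ne'])
    exact ⟨v, hv⟩
  unfold vm
  rw [dif_pos this]
  exact this.choose_spec

theorem n_pos : (0 : ℝ) < n := by exact_mod_cast Nat.pos_of_ne_zero (NeZero.ne n)

theorem vm_mem_cell {y : Fin n → ℝ} {s : Finset (Fin n)} (hy : y ∈ cell s) : vm y ∈ s := by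
  by_contra h
  have h1 := vm_spec hy.2.1
  rw [hy.2.2 _ h] at h1
  have : (0 : ℝ) < 1 / n := one_div_pos.mpr n_pos
  linarith

theorem vm_face (L : Cplx (Fin n)) (l : List (Fin n → ℝ)) (h1 : ∀ y ∈ l, y ∈ real L)
    (h2 : ∀ y ∈ l, ∀ y' ∈ l, dist y y' < 1 / (n : ℝ)) : (l.map vm).toFinset ∈ L.faces := by
  cases l with
  | nil => exact L.empty_mem
  | cons y0 l =>
    have h0 := h1 y0 (by simp)
    refine L.down _ h0.2.2 _ ?_
    intro v hv
    rw [List.mem_toFinset, List.mem_map] at hv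
    obtain ⟨y, hy, rfl⟩ := hv
    rw [mem_suppF]
    have h3 := vm_spec (h1 y hy).2.1
    have h4 := dist_le_pi_dist y y0 (vm y)
    have h5 := h2 y hy y0 (by simp)
    rw [Real.dist_eq] at h4
    have h6 := le_abs_self (y (vm y) - y0 (vm y))
    intro h7
    rw [h7] at h4 h6
    linarith

end Cell

section Main

variable {k : Type*} [CommRing k] [CharP k 2]

theorem iter_sd_nil {X : Type*} (b : List X → X) (N : ℕ) :
    (⇑(sd k b))^[N] (single [] 1) = single [] 1 := by
  induction N with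
  | zero => rfl
  | succ N ih => rw [Function.iterate_succ_apply', ih, sd_nil]

/-- the operator `v_* sd^N` on simplicial chains is the identity -/
theorem sperner {n : ℕ} [NeZero n] (N : ℕ) (x : Finset (Fin n) →₀ k) :
    Q k (map k vm ((⇑(sd k (bary (E := Fin n → ℝ))))^[N] (S k ctr x))) = x := by
  let P : (Finset (Fin n) →₀ k) →ₗ[k] (Finset (Fin n) →₀ k) :=
    Q k ∘ₗ map k vm ∘ₗ ((sd k (bary (E := Fin n → ℝ))) ^ N) ∘ₗ S k ctr
  have hPa : ∀ x, P x = Q k (map k vm ((⇑(sd k (bary (E := Fin n → ℝ))))^[N] (S k ctr x))) := by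
    intro x
    simp only [P, LinearMap.comp_apply, Module.End.pow_apply]
  rw [← hPa]
  refine eq_id_of_carrier P ?_ ?_ ?_ x
  · intro x
    rw [hPa, hPa, ← Q_d, ← map_d, d_iter_sd, d_S]
  · rw [hPa, S_empty, iter_sd_nil, map_single, Q_single]
    rfl
  · intro s
    rw [hPa]
    have h1 : (⇑(sd k (bary (E := Fin n → ℝ))))^[N] (S k ctr (single s 1)) ∈
        supported k k (In (cell s)) :=
      iter_sd_mem_In (fun l hl hlA => bary_mem (cell_convex s) l hl hlA)
        (S_mem_In ctr s.card s (cell s) rfl (fun t ht hne => ctr_mem hne ht)) N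
    have h2 : (⇑(sd k (bary (E := Fin n → ℝ))))^[N] (S k ctr (single s 1)) ∈
        supported k k (Len s.card) :=
      iter_sd_mem_Len (S_mem_Len ctr s.card s rfl) N
    have h3 : (⇑(sd k (bary (E := Fin n → ℝ))))^[N] (S k ctr (single s 1)) ∈
        supported k k (In (cell s) ∩ Len s.card) := by
      rw [mem_supported] at h1 h2 ⊢
      exact fun x hx => ⟨h1 hx, h2 hx⟩
    refine supp_le (Q k ∘ₗ map k vm) ?_ _ h3
    rintro l ⟨h4, h5⟩
    rw [LinearMap.comp_apply, map_single, Q_single]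
    refine supported_mono ?_ (QL_mem (k := k) (l.map vm))
    rintro t ⟨h6, h7, _⟩
    refine ⟨fun v hv => ?_, ?_⟩
    · obtain ⟨y, hy, rfl⟩ := List.mem_map.mp (h6 v hv)
      exact vm_mem_cell (h4 y hy)
    · rw [h7, List.length_map]
      exact h5

theorem supported_inter {ι : Type*} {s t : Set ι} {c : ι →₀ k} (h1 : c ∈ supported k k s)
    (h2 : c ∈ supported k k t) : c ∈ supported k k (s ∩ t) := by
  rw [mem_supported] at h1 h2 ⊢
  exact fun x hx => ⟨h1 hx, h2 hx⟩

theorem supported_support {ι : Type*} (c : ι →₀ k) : c ∈ supported k k {i | i ∈ c.support} := by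
  rw [mem_supported]
  exact fun x hx => hx

theorem exactAt_of_retract_aux {n : ℕ} [NeZero n] (L : Cplx (Fin n)) (r : ℕ) {E : Type}
    [NormedAddCommGroup E] [NormedSpace ℝ E] [FiniteDimensional ℝ E] (C : Set E) (p : E)
    (hC : Convex ℝ C) (hCc : IsClosed C) (ε : ℝ) (hε : 0 < ε)
    (f : (Fin n → ℝ) → E) (g : E → (Fin n → ℝ))
    (hf : ContinuousOn f (real L)) (hfm : ∀ y ∈ real L, f y ∈ C ∧ f y ≠ p ∧ dist (f y) p ≤ ε)
    (hg : ContinuousOn g {q | q ∈ C ∧ q ≠ p ∧ dist q p ≤ ε})
    (hgm : ∀ q, q ∈ C → q ≠ p → dist q p ≤ ε → g q ∈ real L)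
    (hgf : ∀ y ∈ real L, g (f y) = y) (hA : Avoid C p r)
    (c : Finset (Fin n) →₀ k) (hc : c ∈ supported k k {s : Finset (Fin n) | s ∈ L.faces ∧
      s.card = r}) (hcy : dF k c = 0) :
    ∃ b ∈ supported k k (L.faces : Set (Finset (Fin n))), dF k b = c := by
  classical
  have : ProperSpace E := FiniteDimensional.proper ℝ E
  have hn := n_pos (n := n)
  -- the compact convex set `B`
  set B : Set E := C ∩ Metric.closedBall p ε with hB
  have hBconv : Convex ℝ B := hC.inter (convex_closedBall p ε)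
  have hBcomp : IsCompact B := (isCompact_closedBall p ε).inter_left hCc
  have hBset : ∀ q, q ∈ B → q ≠ p → q ∈ {q | q ∈ C ∧ q ≠ p ∧ dist q p ≤ ε} := by
    rintro q ⟨h1, h2⟩ h3
    exact ⟨h1, h3, Metric.mem_closedBall.mp h2⟩
  -- the distance of the image of `f` from `p`
  obtain ⟨δ, hδ, hδf⟩ : ∃ δ > 0, ∀ y ∈ real L, δ ≤ dist (f y) p := by
    have h1 : IsClosed (f '' real L) := ((real_compact L).image_of_continuousOn hf).isClosed
    have h2 : p ∈ (f '' real L)ᶜ := by
      rintro ⟨y, hy, hyp⟩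
      exact (hfm y hy).2.1 hyp
    obtain ⟨δ, hδ, hδs⟩ := Metric.isOpen_iff.mp h1.isOpen_compl p h2
    refine ⟨δ, hδ, fun y hy => ?_⟩
    by_contra h3
    push Not at h3
    exact hδs (Metric.mem_ball.mpr h3) ⟨y, hy, rfl⟩
  set C1 : Set E := B \ Metric.ball p (δ / 2) with hC1
  have hC1c : IsCompact C1 := hBcomp.diff Metric.isOpen_ball
  have hC1s : C1 ⊆ {q | q ∈ C ∧ q ≠ p ∧ dist q p ≤ ε} := by
    rintro q ⟨h1, h2⟩
    refine hBset q h1 ?_
    rintro rfl
    exact h2 (Metric.mem_ball_self (by linarith))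
  have hη : (0 : ℝ) < 1 / n := one_div_pos.mpr hn
  -- uniform continuity of `g` on `C1`
  obtain ⟨ε1, hε1, hg1⟩ := Metric.uniformContinuousOn_iff.mp
    (hC1c.uniformContinuousOn_of_continuous (hg.mono hC1s)) (1 / n) hη
  set ε2 : ℝ := min (ε1 / 2) (δ / 2) with hε2
  have hε2p : 0 < ε2 := lt_min (by linarith) (by linarith)
  obtain ⟨ε3, hε3, hf3⟩ := Metric.uniformContinuousOn_iff.mp
    ((real_compact L).uniformContinuousOn_of_continuous hf) ε2 hε2p
  -- subdivision
  set D : ℕ := r + 2 with hD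
  have hθ0 : 0 ≤ 1 - 1 / (D : ℝ) := by
    rw [sub_nonneg, div_le_one (by positivity)]
    rw [hD]; push_cast
    linarith [(Nat.cast_nonneg r : (0 : ℝ) ≤ r)]
  have hθ1 : 1 - 1 / (D : ℝ) < 1 := by
    have : (0 : ℝ) < 1 / (D : ℝ) := by positivity
    linarith
  obtain ⟨N, hN⟩ := exists_pow_lt_of_lt_one hε3 hθ1
  -- the realised cycle
  set z := S k (ctr (n := n)) c with hz
  have hzd : d k z = 0 := by rw [hz, d_S, hcy, map_zero]
  have hzF : z ∈ supported k k (Fam {A | ∃ s ∈ L.faces, A = cell s}) := by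
    refine supp_le (S k ctr) ?_ c hc
    rintro s ⟨hs, _⟩
    exact supported_mono
      (In_subset_Fam (show cell s ∈ {A | ∃ s ∈ L.faces, A = cell s} from ⟨s, hs, rfl⟩))
      (S_mem_In ctr s.card s (cell s) rfl (fun t ht hne => ctr_mem hne ht))
  have hzL : z ∈ supported k k (Len r) := by
    refine supp_le (S k ctr) ?_ c hc
    rintro s ⟨_, hs⟩
    exact S_mem_Len ctr r s hs
  have hzR : z ∈ supported k k (In (real L)) := by
    refine supported_mono ?_ hzF
    rintro l ⟨A, ⟨s, hs, rfl⟩, hl⟩ y hy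
    exact cell_subset_real L hs (hl y hy)
  have hzP : z ∈ supported k k (PD 1) := by
    refine supported_mono ?_ hzR
    intro l hl y hy y' hy'
    rw [dist_pi_le_iff zero_le_one]
    intro i
    have h1 := (hl y hy).1
    have h2 := (hl y' hy').1
    have h3 : y i ≤ 1 := by
      rw [← (hl y hy).2.1]
      exact Finset.single_le_sum (f := y) (fun j _ => h1 j) (Finset.mem_univ i)
    have h4 : y' i ≤ 1 := by
      rw [← (hl y' hy').2.1]
      exact Finset.single_le_sum (f := y') (fun j _ => h2 j) (Finset.mem_univ i)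
    rw [Real.dist_eq, abs_le]
    constructor <;> linarith [h1 i, h2 i]
  set zN := (⇑(sd k (bary (E := Fin n → ℝ))))^[N] z with hzN
  have hzNF : zN ∈ supported k k (Fam {A | ∃ s ∈ L.faces, A = cell s}) := by
    refine iter_sd_mem_Fam ?_ hzF N
    rintro A ⟨s, _, rfl⟩ l hl hlA
    exact bary_mem (cell_convex s) l hl hlA
  have hzNR : zN ∈ supported k k (In (real L)) := by
    refine supported_mono ?_ hzNF
    rintro l ⟨A, ⟨s, hs, rfl⟩, hl⟩ y hy
    exact cell_subset_real L hs (hl y hy)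
  have hzNL : zN ∈ supported k k (Len r) := iter_sd_mem_Len hzL N
  have hzNP : zN ∈ supported k k (PD ((1 - 1 / (D : ℝ)) ^ N * 1)) :=
    iter_sd_PD (by omega) (by omega : r ≤ D) zero_le_one hzP hzL N
  have hzNd : d k zN = 0 := by
    rw [hzN, d_iter_sd, hzd]
    clear hzNF hzNR hzNL hzNP hzN zN hN
    induction N with
    | zero => rfl
    | succ N ih => rw [Function.iterate_succ_apply', ih, map_zero]
  -- push forward by `f`
  set y := map k f zN with hy
  have hyd : d k y = 0 := by rw [hy, ← map_d, hzNd, map_zero]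
  set Good : Set (List E) := {l | l ∈ PD (E := E) ε2 ∧ l ∈ In C1 ∧ hull l ⊆ C1 ∧ l.length = r}
    with hGood
  have hyG : y ∈ supported k k Good := by
    refine map_mem f ?_ (supported_inter hzNR (supported_inter hzNL hzNP))
    rintro l ⟨h1, h2, h3⟩
    have h4 : l.map f ∈ PD (E := E) ε2 := by
      intro a ha a' ha'
      obtain ⟨q, hq, rfl⟩ := List.mem_map.mp ha
      obtain ⟨q', hq', rfl⟩ := List.mem_map.mp ha'
      refine (hf3 q (h1 q hq) q' (h1 q' hq') ?_).le
      refine lt_of_le_of_lt (h3 q hq q' hq') ?_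
      rw [mul_one]
      exact hN
    have h5 : ∀ a ∈ l.map f, a ∈ B ∧ δ ≤ dist a p := by
      intro a ha
      obtain ⟨q, hq, rfl⟩ := List.mem_map.mp ha
      obtain ⟨h6, h7, h8⟩ := hfm q (h1 q hq)
      exact ⟨⟨h6, Metric.mem_closedBall.mpr h8⟩, hδf q (h1 q hq)⟩
    have h6 : hull (l.map f) ⊆ C1 := by
      intro a ha
      refine ⟨hull_subset hBconv (fun a ha => (h5 a ha).1) ha, ?_⟩
      intro h7
      rw [Metric.mem_ball] at h7
      -- some point of the tuple
      have h8 : l.map f ≠ [] := by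
        intro h9
        rw [h9] at ha
        simp [hull] at ha
      obtain ⟨a0, ha0⟩ := List.exists_mem_of_ne_nil _ h8
      have h9 : dist a a0 ≤ ε2 := dist_le_of_mem_hull (fun x hx => h4 x hx a0 ha0) ha
      have h10 : ε2 ≤ δ / 2 := min_le_right _ _
      have h11 := (h5 a0 ha0).2
      have h12 := dist_triangle a0 a p
      rw [dist_comm a0 a] at h12
      linarith
    refine ⟨h4, fun a ha => h6 (mem_In_hull _ a ha), h6, ?_⟩
    rw [List.length_map]
    exact h2
  -- cone off
  obtain ⟨u, huC, hup, hu⟩ := hA ε hε y.support (by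
    intro l hl
    have h1 : l ∈ Good := by
      rw [mem_supported] at hyG
      exact hyG hl
    obtain ⟨h2, h3, h4, h5⟩ := h1
    refine ⟨h5, fun a ha => (h3 a ha).1.1, ?_⟩
    intro h6
    exact (hC1s (h4 h6)).2.1 rfl)
  have huB : u ∈ B := ⟨huC, Metric.mem_closedBall.mpr hup.le⟩
  set w := cone k u y with hw
  have hwd : d k w = y := by rw [hw, d_cone, hyd, map_zero, add_zero]
  -- carriers of `w`
  set C2 : Set E := ⋃ l ∈ y.support, hull (u :: l) with hC2
  have hC2c : IsCompact C2 := y.support.isCompact_biUnion (fun l _ => hull_compact (u :: l))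
  have hC2s : C2 ⊆ {q | q ∈ C ∧ q ≠ p ∧ dist q p ≤ ε} := by
    intro q hq
    simp only [hC2, Set.mem_iUnion] at hq
    obtain ⟨l, hl, hq⟩ := hq
    have h1 : l ∈ Good := by
      rw [mem_supported] at hyG
      exact hyG hl
    refine hBset q ?_ ?_
    · refine hull_subset hBconv (fun a ha => ?_) hq
      rcases List.mem_cons.mp ha with rfl | ha
      · exact huB
      · exact (h1.2.1 a ha).1
    · rintro rfl
      exact hu l hl hq
  obtain ⟨ε4, hε4, hg4⟩ := Metric.uniformContinuousOn_iff.mp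
    (hC2c.uniformContinuousOn_of_continuous (hg.mono hC2s)) (1 / n) hη
  have hwF : w ∈ supported k k (Fam {A | ∃ l ∈ y.support, A = hull (u :: l)}) := by
    refine cone_mem u ?_ (supported_support y)
    intro l hl
    exact ⟨hull (u :: l), ⟨l, hl, rfl⟩, mem_In_hull _⟩
  have hyL : y ∈ supported k k (Len r) := by
    refine supported_mono ?_ hyG
    intro l hl
    exact hl.2.2.2
  have hwL : w ∈ supported k k (Len (r + 1)) := by
    refine cone_mem (s := Len r) u ?_ hyL
    intro l hl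
    simp only [Len, Set.mem_ofPred_eq, List.length_cons] at hl ⊢
    omega
  obtain ⟨R, hR⟩ : ∃ R : ℝ, ∀ a ∈ B, ∀ a' ∈ B, dist a a' ≤ R :=
    ⟨2 * ε, fun a ha a' ha' => by
      have h1 := Metric.mem_closedBall.mp ha.2
      have h2 := Metric.mem_closedBall.mp ha'.2
      have h3 := dist_triangle a p a'
      rw [dist_comm p a'] at h3
      linarith⟩
  have hR' : 0 ≤ |R| := abs_nonneg R
  have hwP : w ∈ supported k k (PD (|R| + 1)) := by
    refine supported_mono ?_ hwF
    rintro l ⟨A, ⟨l', hl', rfl⟩, hl⟩ a ha a' ha'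
    have h1 : l' ∈ Good := by
      rw [mem_supported] at hyG
      exact hyG hl'
    have h2 : hull (u :: l') ⊆ B := by
      refine hull_subset hBconv (fun a ha => ?_)
      rcases List.mem_cons.mp ha with rfl | ha
      · exact huB
      · exact (h1.2.1 a ha).1
    refine (hR a (h2 (hl a ha)) a' (h2 (hl a' ha'))).trans ?_
    linarith [le_abs_self R]
  obtain ⟨M, hM⟩ := exists_pow_lt_of_lt_one (div_pos hε4 (by linarith : 0 < |R| + 1)) hθ1
  rw [lt_div_iff₀ (by linarith)] at hM
  set wM := (⇑(sd k (bary (E := E))))^[M] w with hwM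
  have hwMF : wM ∈ supported k k (Fam {A | ∃ l ∈ y.support, A = hull (u :: l)}) := by
    refine iter_sd_mem_Fam ?_ hwF M
    rintro A ⟨s, _, rfl⟩ l hl hlA
    exact bary_mem (hull_convex _) l hl hlA
  have hwMP : wM ∈ supported k k (PD ((1 - 1 / (D : ℝ)) ^ M * (|R| + 1))) :=
    iter_sd_PD (by omega) (by omega : r + 1 ≤ D) (by linarith) hwP hwL M
  have hwMd : d k wM = (⇑(sd k (bary (E := E))))^[M] y := by rw [hwM, d_iter_sd, hwd]
  -- homotopy for `y`
  obtain ⟨h, hhF, hhd⟩ := exists_homotopy (k := k) (b := bary (E := E))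
    (𝒜 := {A | ∃ l ∈ y.support, A = hull l})
    (by rintro A ⟨s, _, rfl⟩ l hl hlA; exact bary_mem (hull_convex _) l hl hlA)
    (c := y) (by
      rw [mem_supported]
      intro l hl
      exact ⟨hull l, ⟨l, hl, rfl⟩, mem_In_hull l⟩) hyd M
  -- the bounding chain
  set Nice : Set (List E) := {l | (∀ a ∈ l, g a ∈ real L) ∧
    ∀ a ∈ l, ∀ a' ∈ l, dist (g a) (g a') < 1 / (n : ℝ)} with hNice
  have hN1 : wM ∈ supported k k Nice := by
    refine supported_mono ?_ (supported_inter hwMF hwMP)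
    rintro l ⟨⟨A, ⟨l', hl', rfl⟩, hl⟩, h2⟩
    have h3 : ∀ a ∈ l, a ∈ C2 := by
      intro a ha
      simp only [hC2, Set.mem_iUnion]
      exact ⟨l', hl', hl a ha⟩
    refine ⟨fun a ha => ?_, fun a ha a' ha' => ?_⟩
    · have := hC2s (h3 a ha)
      exact hgm a this.1 this.2.1 this.2.2
    · exact hg4 a (h3 a ha) a' (h3 a' ha') (lt_of_le_of_lt (h2 a ha a' ha') hM)
  have hN2 : h ∈ supported k k Nice := by
    refine supported_mono ?_ hhF
    rintro l ⟨A, ⟨l', hl', rfl⟩, hl⟩
    have h1 : l' ∈ Good := by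
      rw [mem_supported] at hyG
      exact hyG hl'
    have h3 : ∀ a ∈ l, a ∈ C1 := fun a ha => h1.2.2.1 (hl a ha)
    refine ⟨fun a ha => ?_, fun a ha a' ha' => ?_⟩
    · have := hC1s (h3 a ha)
      exact hgm a this.1 this.2.1 this.2.2
    · refine hg1 a (h3 a ha) a' (h3 a' ha') ?_
      have h4 := dist_le_of_mem_hull' h1.1 (hl a ha) (hl a' ha')
      have h5 : ε2 ≤ ε1 / 2 := min_le_left _ _
      linarith
  have hNd : d k (wM + h) = y := by
    rw [map_add, hwMd, hhd]
    have e := two_zero' ((⇑(sd k (bary (E := E))))^[M] y)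
    generalize (⇑(sd k (bary (E := E))))^[M] y = q at e ⊢
    calc q + (y + q) = y + (q + q) := by abel
      _ = _ := by rw [e, add_zero]
  refine ⟨Q k (map k (vm ∘ g) (wM + h)), ?_, ?_⟩
  · refine supp_le (Q k ∘ₗ map k (vm ∘ g)) ?_ _ (Submodule.add_mem _ hN1 hN2)
    rintro l ⟨h1, h2⟩
    rw [LinearMap.comp_apply, map_single, Q_single]
    refine supported_mono ?_ (QL_mem (k := k) (l.map (vm ∘ g)))
    rintro t ⟨_, _, h3⟩
    rw [h3, ← List.map_map]
    refine vm_face L (l.map g) ?_ ?_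
    · intro y hy
      obtain ⟨a, ha, rfl⟩ := List.mem_map.mp hy
      exact h1 a ha
    · intro y hy y' hy'
      obtain ⟨a, ha, rfl⟩ := List.mem_map.mp hy
      obtain ⟨a', ha', rfl⟩ := List.mem_map.mp hy'
      exact h2 a ha a' ha'
  · rw [← Q_d, ← map_d, hNd, hy, map_map]
    have e : map k ((vm ∘ g) ∘ f) zN = map k vm zN := by
      refine map_congr _ _ ?_ hzNR
      intro l hl a ha
      simp only [Function.comp_apply]
      rw [hgf a (hl a ha)]
    rw [e, hzN, hz]
    exact sperner N c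

/-- The chain-level retract lemma. -/
theorem exactAt_of_retract {n : ℕ} (L : Cplx (Fin n)) (r : ℕ) {E : Type}
    [NormedAddCommGroup E] [NormedSpace ℝ E] [FiniteDimensional ℝ E] (C : Set E) (p : E)
    (hC : Convex ℝ C) (hCc : IsClosed C) (ε : ℝ) (hε : 0 < ε)
    (f : (Fin n → ℝ) → E) (g : E → (Fin n → ℝ))
    (hf : ContinuousOn f (real L)) (hfm : ∀ y ∈ real L, f y ∈ C ∧ f y ≠ p ∧ dist (f y) p ≤ ε)
    (hg : ContinuousOn g {q | q ∈ C ∧ q ≠ p ∧ dist q p ≤ ε})
    (hgm : ∀ q, q ∈ C → q ≠ p → dist q p ≤ ε → g q ∈ real L)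
    (hgf : ∀ y ∈ real L, g (f y) = y) (hA : Avoid C p r) :
    L.ExactAt k r := by
  refine exactAt_of_chains L r (fun c hc hcy => ?_)
  rcases Nat.eq_zero_or_pos n with hn | hn
  · subst hn
    rcases Nat.eq_zero_or_pos r with hr | hr
    · subst hr
      exfalso
      obtain ⟨u, huC, hup, hu⟩ := hA ε hε {[]} (by
        intro l hl
        rw [Finset.mem_singleton] at hl
        subst hl
        refine ⟨rfl, by simp, ?_⟩
        simp)
      have h1 := hu [] (Finset.mem_singleton_self _)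
      have h2 : u ≠ p := by
        rintro rfl
        apply h1
        exact subset_convexHull ℝ _ (by simp)
      have h3 := (hgm u huC h2 hup.le).2.1
      simp at h3
    · refine ⟨0, Submodule.zero_mem _, ?_⟩
      rw [map_zero]
      symm
      rw [← Finsupp.support_eq_empty, Finset.eq_empty_iff_forall_notMem]
      intro s hs
      rw [mem_supported] at hc
      have h1 := (hc hs).2
      have h2 : s = ∅ := by
        ext v
        exact v.elim0
      rw [h2, Finset.card_empty] at h1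
      omega
  · have : NeZero n := ⟨by omega⟩
    exact exactAt_of_retract_aux L r C p hC hCc ε hε f g hf hfm hg hgm hgf hA c hc hcy

end Main

end Pool.Agent.UBC.Tup
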