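import Pool.Agent.UBC.LH
import Pool.Agent.UBC.Retract

/-!
# From the geometric complex to an abstract complex on `Fin n`
-/

set_option autoImplicit false
set_option linter.unusedSectionVars false

namespace Pool.Agent.UBC

open Finset Topology

/-! ### transfer along an embedding of the vertices -/

section transfer

variable {V W : Type} [DecidableEq V] [DecidableEq W]

/-- `Γ` is the image of `Δ` -/
def IsImg (Δ : Cplx V) (Γ : Cplx W) (φ : V ↪ W) : Prop :=
  ∀ t, t ∈ Γ.faces ↔ ∃ s ∈ Δ.faces, s.map φ = t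

variable {Δ : Cplx V} {Γ : Cplx W} {φ : V ↪ W}

theorem IsImg.mem (h : IsImg Δ Γ φ) (s : Finset V) : s.map φ ∈ Γ.faces ↔ s ∈ Δ.faces := by
  rw [h]
  constructor
  · rintro ⟨s', hs', e⟩
    rwa [← Finset.map_injective φ e]
  · intro hs
    exact ⟨s, hs, rfl⟩

theorem IsImg.bd {k : Type*} [CommRing k] (h : IsImg Δ Γ φ) (c : Finset W → k) (s : Finset V) :
    Γ.bd c (s.map φ) = Δ.bd (fun s => c (s.map φ)) s := by
  unfold Cplx.bd
  symm
  refine Finset.sum_bij (fun s' _ => s'.map φ) ?_ ?_ ?_ ?_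
  · intro s' hs'
    rw [mem_filter] at hs' ⊢
    refine ⟨(h.mem s').mpr hs'.1, Finset.map_subset_map.mpr hs'.2.1, ?_⟩
    rw [card_map, card_map, hs'.2.2]
  · intro a _ b _ e
    exact Finset.map_injective φ e
  · intro t ht
    rw [mem_filter] at ht
    obtain ⟨s', hs', rfl⟩ := (h t).mp ht.1
    refine ⟨s', ?_, rfl⟩
    rw [mem_filter]
    refine ⟨hs', Finset.map_subset_map.mp ht.2.1, ?_⟩
    have := ht.2.2
    rwa [card_map, card_map] at this
  · intro s' _
    rfl

theorem IsImg.exactAt {k : Type*} [CommRing k] (h : IsImg Δ Γ φ) (i : ℕ)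
    (hE : Δ.ExactAt k i) : Γ.ExactAt k i := by
  intro c hc
  obtain ⟨b, hb⟩ := hE (fun s => c (s.map φ)) (by
    intro t ht hti
    rw [← h.bd]
    exact hc _ ((h.mem t).mpr ht) (by rwa [card_map]))
  refine ⟨Function.extend (Finset.map φ) b 0, fun t ht hti => ?_⟩
  obtain ⟨s, hs, rfl⟩ := (h t).mp ht
  rw [h.bd]
  have e : (fun s : Finset V => Function.extend (Finset.map φ) b 0 (s.map φ)) = b := by
    funext s
    exact (Finset.map_injective φ).extend_apply b 0 s
  rw [e]
  exact hb s hs (by rwa [card_map] at hti)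

theorem IsImg.lk (h : IsImg Δ Γ φ) (σ : Finset V) (hσ : σ ∈ Δ.faces)
    (hσ' : σ.map φ ∈ Γ.faces) : IsImg (Δ.lk σ hσ) (Γ.lk (σ.map φ) hσ') φ := by
  intro t
  simp only [Cplx.lk, mem_filter]
  constructor
  · rintro ⟨h1, h2, h3⟩
    obtain ⟨s, hs, rfl⟩ := (h t).mp h1
    refine ⟨s, ⟨hs, (disjoint_map φ).mp h2, ?_⟩, rfl⟩
    rwa [← map_union, h.mem] at h3
  · rintro ⟨s, ⟨h1, h2, h3⟩, rfl⟩
    refine ⟨(h.mem s).mpr h1, (disjoint_map φ).mpr h2, ?_⟩
    rwa [← map_union, h.mem]

theorem IsImg.isBuchsbaum {k : Type*} [CommRing k] (h : IsImg Δ Γ φ) (d : ℕ)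
    (hB : Δ.IsBuchsbaum k d) : Γ.IsBuchsbaum k d := by
  refine ⟨?_, ?_⟩
  · intro t ht
    obtain ⟨s, hs, rfl⟩ := (h t).mp ht
    obtain ⟨h1, s', hs', h2, h3⟩ := hB.1 s hs
    refine ⟨by rwa [card_map], s'.map φ, (h.mem s').mpr hs', Finset.map_subset_map.mpr h2, ?_⟩
    rwa [card_map]
  · intro σ hσ hne i hi
    obtain ⟨s, hs, rfl⟩ := (h σ).mp hσ
    rw [card_map] at hi
    exact (h.lk s hs hσ).exactAt i (hB.2 s hs (Finset.map_nonempty.mp hne) i hi)

end transfer

/-! ### geometry -/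

section geom

variable {N : ℕ}

theorem weights_unique {E : Type} [AddCommGroup E] [Module ℝ E] {n : ℕ} (v : Fin n ↪ E)
    (S : Finset (Fin n)) (hS : AffineIndependent ℝ (fun x : ↥(S.map v) => (x : E)))
    (a b : Fin n → ℝ) (ha : ∀ i, i ∉ S → a i = 0) (hb : ∀ i, i ∉ S → b i = 0)
    (ha1 : ∑ i, a i = 1) (hb1 : ∑ i, b i = 1) (hab : ∑ i, a i • v i = ∑ i, b i • v i) :
    a = b := by
  rw [affineIndependent_iff] at hS
  set w : E → ℝ := Function.extend v (a - b) 0 with hw
  have hwv : ∀ i, w (v i) = a i - b i := fun i => by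
    rw [hw, v.injective.extend_apply]; rfl
  have h1 : ∑ x ∈ (S.map v).attach, w x = 0 := by
    rw [Finset.sum_attach (S.map v) w, Finset.sum_map]
    simp only [hwv]
    rw [Finset.sum_subset (Finset.subset_univ S) (fun i _ hi => by rw [ha i hi, hb i hi, sub_zero]),
      Finset.sum_sub_distrib, ha1, hb1, sub_self]
  have h2 : ∑ x ∈ (S.map v).attach, w x • (x : E) = 0 := by
    rw [Finset.sum_attach (S.map v) (fun x => w x • x), Finset.sum_map]
    simp only [hwv]
    rw [Finset.sum_subset (Finset.subset_univ S)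
      (fun i _ hi => by rw [ha i hi, hb i hi, sub_zero, zero_smul])]
    simp only [sub_smul]
    rw [Finset.sum_sub_distrib, hab, sub_self]
  have h3 := hS (S.map v).attach (fun x => w x) h1 h2
  funext i
  by_cases hi : i ∈ S
  · have h4 := h3 ⟨v i, Finset.mem_map_of_mem v hi⟩ (Finset.mem_attach _ _)
    simp only [hwv] at h4
    linarith
  · rw [ha i hi, hb i hi]

/-- points of the convex hull of the image of `S` as coordinate vectors -/
theorem exists_weights {E : Type} [AddCommGroup E] [Module ℝ E] {n : ℕ} (v : Fin n ↪ E)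
    (S : Finset (Fin n)) (p : E) (hp : p ∈ convexHull ℝ ((S.map v : Finset E) : Set E)) :
    ∃ a : Fin n → ℝ, (∀ i, 0 ≤ a i) ∧ ∑ i, a i = 1 ∧ (∀ i, i ∉ S → a i = 0) ∧
      ∑ i, a i • v i = p := by
  classical
  rw [Finset.mem_convexHull'] at hp
  obtain ⟨w, hw0, hw1, hwp⟩ := hp
  refine ⟨fun i => if i ∈ S then w (v i) else 0, fun i => ?_, ?_, fun i hi => if_neg hi, ?_⟩
  · dsimp only
    split_ifs with h
    · exact hw0 _ (Finset.mem_map_of_mem v h)
    · exact le_refl _
  · rw [Finset.sum_map] at hw1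
    rw [← hw1, Finset.sum_ite_mem, Finset.univ_inter]
  · rw [Finset.sum_map] at hwp
    rw [← hwp]
    simp only [ite_smul, zero_smul]
    rw [Finset.sum_ite_mem, Finset.univ_inter]

theorem mem_hull_of_weights {E : Type} [AddCommGroup E] [Module ℝ E] {n : ℕ} (v : Fin n ↪ E)
    (S : Finset (Fin n)) (a : Fin n → ℝ) (h0 : ∀ i, 0 ≤ a i) (h1 : ∑ i, a i = 1)
    (hS : ∀ i, i ∉ S → a i = 0) :
    ∑ i, a i • v i ∈ convexHull ℝ ((S.map v : Finset E) : Set E) := by
  classical
  rw [Finset.mem_convexHull']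
  refine ⟨Function.extend v a 0, ?_, ?_, ?_⟩
  · intro y hy
    obtain ⟨i, hi, rfl⟩ := Finset.mem_map.mp hy
    rw [v.injective.extend_apply]
    exact h0 i
  · rw [Finset.sum_map]
    simp only [v.injective.extend_apply]
    rw [← h1]
    exact Finset.sum_subset (Finset.subset_univ S) (fun i _ hi => hS i hi)
  · rw [Finset.sum_map]
    simp only [v.injective.extend_apply]
    exact Finset.sum_subset (Finset.subset_univ S) (fun i _ hi => by rw [hS i hi, zero_smul])

end geom

theorem targetGeom : TargetGeom := by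
  classical
  intro N K hK hne hm
  set E := EuclideanSpace ℝ (Fin N) with hE
  -- the vertices
  have hvfin : K.vertices.Finite := by
    refine Set.Finite.subset (Set.Finite.biUnion hK (t := fun s => ((s : Finset E) : Set E))
      (fun s _ => s.finite_toSet)) ?_
    rw [Geometry.SimplicialComplex.vertices_eq]
  set W : Finset E := hvfin.toFinset with hW
  have hWm : ∀ x, x ∈ W ↔ {x} ∈ K.faces := by
    intro x
    rw [hW, Set.Finite.mem_toFinset]
    rfl
  set n := W.card with hn
  let v : Fin n ↪ E :=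
    ⟨fun i => (W.equivFin.symm i : E), fun i j h => by
      have := Subtype.ext h
      exact W.equivFin.symm.injective this⟩
  have hvW : ∀ i, v i ∈ W := fun i => (W.equivFin.symm i).2
  have hvs : ∀ x ∈ W, ∃ i, v i = x := fun x hx => ⟨W.equivFin ⟨x, hx⟩, by
    show ((W.equivFin.symm (W.equivFin ⟨x, hx⟩) : W) : E) = x
    rw [Equiv.symm_apply_apply]⟩
  have hface : ∀ s ∈ K.faces, ∃ S : Finset (Fin n), S.map v = s := by
    intro s hs
    refine ⟨Finset.univ.filter (fun i => v i ∈ s), ?_⟩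
    ext x
    rw [Finset.mem_map]
    constructor
    · rintro ⟨i, hi, rfl⟩
      exact (Finset.mem_filter.mp hi).2
    · intro hx
      have : x ∈ W := by
        rw [hWm]
        exact K.down_closed hs (Finset.singleton_subset_iff.mpr hx) (Finset.singleton_nonempty x)
      obtain ⟨i, hi⟩ := hvs x this
      exact ⟨i, Finset.mem_filter.mpr ⟨Finset.mem_univ _, hi ▸ hx⟩, hi⟩
  -- the abstract complex
  let Δ : Cplx (Fin n) :=
    { faces := Finset.univ.filter (fun S : Finset (Fin n) => S = ∅ ∨ S.map v ∈ K.faces)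
      empty_mem := by simp
      down := by
        intro s hs t hts
        rw [Finset.mem_filter] at hs ⊢
        refine ⟨Finset.mem_univ _, ?_⟩
        rcases Finset.eq_empty_or_nonempty t with h | h
        · exact Or.inl h
        · right
          rcases hs.2 with h2 | h2
          · subst h2
            exact absurd (Finset.subset_empty.mp hts) h.ne_empty
          · exact K.down_closed h2 (Finset.map_subset_map.mpr hts) (Finset.map_nonempty.mpr h) }
  have hΔm : ∀ S, S ∈ Δ.faces ↔ S = ∅ ∨ S.map v ∈ K.faces := by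
    intro S
    simp [Δ]
  have hΔne : ∀ S ∈ Δ.faces, S.Nonempty → S.map v ∈ K.faces := by
    intro S hS hne
    rcases (hΔm S).mp hS with h | h
    · exact absurd h hne.ne_empty
    · exact h
  -- the map
  let h : (Fin n → ℝ) → E := fun c => ∑ i, c i • v i
  have hcont : Continuous h := by
    refine continuous_finsetSum _ (fun i _ => ?_)
    exact (continuous_apply i).smul continuous_const
  have hsne : ∀ c ∈ real Δ, (suppF c).Nonempty := by
    intro c hc
    rw [Finset.nonempty_iff_ne_empty]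
    intro he
    have : ∑ i, c i = 0 := Finset.sum_eq_zero (fun i _ => by
      by_contra h
      have := (mem_suppF c i).mpr h
      rw [he] at this
      simp at this)
    rw [hc.2.1] at this
    exact one_ne_zero this
  have hsupp : ∀ (c : Fin n → ℝ) (i : Fin n), i ∉ suppF c → c i = 0 := by
    intro c i hi
    by_contra h
    exact hi ((mem_suppF c i).mpr h)
  have hmap : ∀ c ∈ real Δ, h c ∈ K.space := by
    intro c hc
    rw [Geometry.SimplicialComplex.mem_space_iff]
    exact ⟨_, hΔne _ hc.2.2 (hsne c hc),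
      mem_hull_of_weights v (suppF c) c hc.1 hc.2.1 (hsupp c)⟩
  have hinj : ∀ c ∈ real Δ, ∀ c' ∈ real Δ, h c = h c' → c = c' := by
    intro c hc c' hc' heq
    have hs := hΔne _ hc.2.2 (hsne c hc)
    have hs' := hΔne _ hc'.2.2 (hsne c' hc')
    have h1 := mem_hull_of_weights v (suppF c) c hc.1 hc.2.1 (hsupp c)
    have h2 := mem_hull_of_weights v (suppF c') c' hc'.1 hc'.2.1 (hsupp c')
    have h3 : h c ∈ convexHull ℝ ((((suppF c) ∩ (suppF c')).map v : Finset E) : Set E) := by
      have h4 := K.inter_subset_convexHull hs hs' ⟨h1, (show h c ∈ _ from heq ▸ h2)⟩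
      have h5 : (((suppF c ∩ suppF c').map v : Finset E) : Set E) =
          (((suppF c).map v : Finset E) : Set E) ∩ (((suppF c').map v : Finset E) : Set E) := by
        rw [Finset.map_inter, Finset.coe_inter]
      rw [h5]
      exact h4
    obtain ⟨a, ha0, ha1, haS, hap⟩ := exists_weights v _ _ h3
    have e1 : c = a := weights_unique v (suppF c) (K.indep hs) c a (hsupp c)
      (fun i hi => haS i (fun h' => hi (Finset.mem_inter.mp h').1)) hc.2.1 ha1 hap.symm
    have e2 : c' = a := weights_unique v (suppF c') (K.indep hs') c' a (hsupp c')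
      (fun i hi => haS i (fun h' => hi (Finset.mem_inter.mp h').2)) hc'.2.1 ha1
      (by rw [hap]; exact heq.symm)
    rw [e1, e2]
  have hsurj : ∀ p ∈ K.space, ∃ c ∈ real Δ, h c = p := by
    intro p hp
    rw [Geometry.SimplicialComplex.mem_space_iff] at hp
    obtain ⟨s, hs, hps⟩ := hp
    obtain ⟨S, rfl⟩ := hface s hs
    obtain ⟨a, ha0, ha1, haS, hap⟩ := exists_weights v S p hps
    refine ⟨a, ⟨ha0, ha1, ?_⟩, hap⟩
    refine Δ.down S ((hΔm S).mpr (Or.inr hs)) _ ?_
    intro i hi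
    by_contra h'
    exact (mem_suppF a i).mp hi (haS i h')
  -- the homeomorphism
  have : CompactSpace (real Δ) := isCompact_iff_compactSpace.mp (Tup.real_compact Δ)
  let eqv : real Δ ≃ K.space := Equiv.ofBijective (fun c => ⟨h c, hmap c c.2⟩) (by
    constructor
    · intro c c' hcc
      exact Subtype.ext (hinj c c.2 c' c'.2 (congrArg Subtype.val hcc))
    · rintro ⟨p, hp⟩
      obtain ⟨c, hc, hcp⟩ := hsurj p hp
      exact ⟨⟨c, hc⟩, Subtype.ext hcp⟩)
  have heqvc : Continuous eqv :=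
    (hcont.comp continuous_subtype_val).subtype_mk _
  let hom : real Δ ≃ₜ K.space := heqvc.homeoOfEquivCompactToT2
  have hlh : ∀ x (hx : x ∈ real Δ), LH (real Δ) x K.space (hom ⟨x, hx⟩ : E) := fun x hx =>
    LH.of_homeomorph hom ⟨x, hx⟩
  -- nonempty face
  have hΔN : ∃ s ∈ Δ.faces, s.Nonempty := by
    obtain ⟨s, hs⟩ := hne
    obtain ⟨S, rfl⟩ := hface s hs
    exact ⟨S, (hΔm S).mpr (Or.inr hs), Finset.map_nonempty.mp (K.nonempty_of_mem_faces hs)⟩
  have hbuch : ∀ (k : Type) [Field k] [CharP k 2] (d : ℕ), Δ.IsBuchsbaum k d →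
      letI := Classical.decEq (EuclideanSpace ℝ (Fin N))
      (ofGeom K hK).IsBuchsbaum k d := by
    intro k _ _ d hB
    let _ := Classical.decEq (EuclideanSpace ℝ (Fin N))
    refine IsImg.isBuchsbaum (φ := v) ?_ d hB
    intro t
    simp only [ofGeom, Finset.mem_insert, Set.Finite.mem_toFinset]
    constructor
    · rintro (h' | h')
      · exact ⟨∅, Δ.empty_mem, by rw [h', Finset.map_empty]⟩
      · obtain ⟨S, rfl⟩ := hface t h'
        exact ⟨S, (hΔm S).mpr (Or.inr h'), rfl⟩
    · rintro ⟨S, hS, rfl⟩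
      rcases (hΔm S).mp hS with h' | h'
      · left; rw [h', Finset.map_empty]
      · exact Or.inr h'
  obtain ⟨m, hm | hm⟩ := hm
  · refine ⟨n, m, Δ, ?_, hΔN, hbuch⟩
    intro x hx
    obtain ⟨cs⟩ := hm
    left
    exact ⟨_, (hlh x hx).trans (LH.of_chart (chartAt (EuclideanSpace ℝ (Fin m)) (hom ⟨x, hx⟩))
      (hom ⟨x, hx⟩) (mem_chart_source _ _))⟩
  · refine ⟨n, m + 1, Δ, ?_, hΔN, hbuch⟩
    intro x hx
    obtain ⟨cs⟩ := hm
    obtain ⟨e, he⟩ : ∃ e : OpenPartialHomeomorph K.space (EuclideanHalfSpace (m + 1)),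
        hom ⟨x, hx⟩ ∈ e.source := ⟨chartAt _ (hom ⟨x, hx⟩), mem_chart_source _ _⟩
    let e' : OpenPartialHomeomorph K.space {q : EuclideanSpace ℝ (Fin (m + 1)) | 0 ≤ q 0} := e
    have h1 := (hlh x hx).trans (LH.of_openPartialHomeomorph e' (hom ⟨x, hx⟩) he)
    set q : EuclideanSpace ℝ (Fin (m + 1)) := (e' (hom ⟨x, hx⟩) : EuclideanSpace ℝ (Fin (m + 1)))
      with hq
    have hq0 : 0 ≤ q 0 := (e' (hom ⟨x, hx⟩)).2
    rcases eq_or_lt_of_le hq0 with h2 | h2
    · right
      exact ⟨Nat.succ_pos m, q, h2.symm, h1⟩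
    · left
      refine ⟨q, h1.trans (LH.of_nhds hq0 (Set.subset_univ _) ?_)⟩
      rw [nhdsWithin_univ]
      have h3 : IsOpen {q : EuclideanSpace ℝ (Fin (m + 1)) | 0 < q 0} :=
        isOpen_lt continuous_const (by fun_prop)
      exact Filter.mem_of_superset (h3.mem_nhds h2) (fun y hy => show 0 ≤ y 0 from le_of_lt hy)

end Pool.Agent.UBC
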