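import Pool.Agent.UBC.TopDefs

/-!
# Residue along a facet of the boundary of `s`: from `∂s * lk s` to `lk s`
-/

set_option autoImplicit false

namespace Pool.Agent.UBC

open Finset

theorem targetRes (k : Type) [Field k] [CharP k 2] : TargetRes k := by
  classical
  intro V _ Δ s hs hne i hL c hc
  have hspos : 0 < s.card := hne.card_pos
  set C : Finset V → k := fun t => if (t ∩ s).card + 1 = s.card then c (t \ s) else 0 with hC
  have hmemL : ∀ t, t ∈ (Lcx Δ s hs hne).faces ↔ t ∈ Δ.faces ∧ t ∪ s ∈ Δ.faces ∧ ¬ s ⊆ t := by
    intro t; simp [Lcx]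
  have hmemk : ∀ t, t ∈ (Δ.lk s hs).faces ↔ t ∈ Δ.faces ∧ Disjoint t s ∧ t ∪ s ∈ Δ.faces := by
    intro t; simp [Cplx.lk]
  obtain ⟨B, hB⟩ := hL C (by
    intro u hu hui
    rw [hmemL] at hu
    obtain ⟨hu1, hu2, hu3⟩ := hu
    unfold Cplx.bd
    -- faces of `Lcx` covering `u`
    have hcov : ∀ t ∈ (Lcx Δ s hs hne).faces.filter (fun t => u ⊆ t ∧ t.card = u.card + 1),
        ∃ v ∉ u, insert v u = t := by
      intro t ht
      rw [mem_filter] at ht
      exact Finset.exists_eq_insert_iff.mpr ⟨ht.2.1, ht.2.2.symm⟩
    by_cases hA : (u ∩ s).card + 1 = s.card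
    · have hus : (u \ s) ∈ (Δ.lk s hs).faces := by
        rw [hmemk]
        refine ⟨Δ.down u hu1 _ sdiff_subset, sdiff_disjoint, ?_⟩
        rwa [sdiff_union_self_eq_union]
      have hcard : (u \ s).card + 1 = i := by
        have := card_sdiff_add_card_inter u s
        omega
      rw [← hc (u \ s) hus hcard]
      unfold Cplx.bd
      have hint : ∀ t, t ∈ (Lcx Δ s hs hne).faces → u ⊆ t → t ∩ s = u ∩ s := by
        intro t ht hut
        rw [hmemL] at ht
        symm
        refine Finset.eq_of_subset_of_card_le (inter_subset_inter_right hut) ?_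
        have h1 : (t ∩ s).card < s.card := by
          refine card_lt_card ⟨inter_subset_right, fun h => ht.2.2 ?_⟩
          exact fun x hx => (mem_inter.mp (h hx)).1
        omega
      refine Finset.sum_bij' (fun t _ => t \ s) (fun t _ => t ∪ (u ∩ s)) ?_ ?_ ?_ ?_ ?_
      · intro t ht
        rw [mem_filter] at ht ⊢
        have h1 := hint t ht.1 ht.2.1
        have h2 := (hmemL t).mp ht.1
        refine ⟨(hmemk _).mpr ⟨Δ.down t h2.1 _ sdiff_subset, sdiff_disjoint, ?_⟩,
          sdiff_subset_sdiff ht.2.1 (Subset.refl s), ?_⟩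
        · rw [sdiff_union_self_eq_union]; exact h2.2.1
        · have h3 := card_sdiff_add_card_inter t s
          have h4 := card_sdiff_add_card_inter u s
          rw [h1] at h3
          omega
      · intro t ht
        rw [mem_filter] at ht ⊢
        have h2 := (hmemk t).mp ht.1
        have h5 : Disjoint t (u ∩ s) := h2.2.1.mono_right inter_subset_right
        refine ⟨(hmemL _).mpr ⟨Δ.down _ h2.2.2 _ (union_subset_union_right inter_subset_right),
          ?_, ?_⟩, ?_, ?_⟩
        · have : t ∪ u ∩ s ∪ s = t ∪ s := by
            rw [union_assoc, union_eq_right.mpr (inter_subset_right : u ∩ s ⊆ s)]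
          rw [this]; exact h2.2.2
        · intro h6
          apply hu3
          intro x hx
          rcases mem_union.mp (h6 hx) with h7 | h7
          · exact absurd hx (disjoint_left.mp h2.2.1 h7)
          · exact (mem_inter.mp h7).1
        · intro x hx
          by_cases hxs : x ∈ s
          · exact mem_union_right _ (mem_inter.mpr ⟨hx, hxs⟩)
          · exact mem_union_left _ (ht.2.1 (mem_sdiff.mpr ⟨hx, hxs⟩))
        · rw [card_union_of_disjoint h5, ht.2.2]
          have h4 := card_sdiff_add_card_inter u s
          omega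
      · intro t ht
        rw [mem_filter] at ht
        have h1 := hint t ht.1 ht.2.1
        rw [← h1]
        exact sdiff_union_inter t s
      · intro t ht
        rw [mem_filter] at ht
        have h2 := (hmemk t).mp ht.1
        ext x
        rw [mem_sdiff, mem_union, mem_inter]
        constructor
        · rintro ⟨h3 | h3, h4⟩
          · exact h3
          · exact absurd h3.2 h4
        · intro h3
          exact ⟨Or.inl h3, disjoint_left.mp h2.2.1 h3⟩
      · intro t ht
        rw [mem_filter] at ht
        have h1 := hint t ht.1 ht.2.1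
        rw [hC]
        simp only
        rw [h1, if_pos hA]
    · by_cases hB2 : (u ∩ s).card + 2 = s.card
      · have h2 : (s \ u).card = 2 := by
          have := card_sdiff_add_card_inter s u
          rw [inter_comm] at this
          omega
        obtain ⟨v1, v2, hv12, hsu⟩ := card_eq_two.mp h2
        have hv1 : v1 ∈ s \ u := by rw [hsu]; simp
        have hv2 : v2 ∈ s \ u := by rw [hsu]; simp
        rw [mem_sdiff] at hv1 hv2
        have key : ∀ v w, v ∈ s → v ∉ u → w ∈ s → w ∉ u → v ≠ w →
            insert v u ∈ (Lcx Δ s hs hne).faces.filter (fun t => u ⊆ t ∧ t.card = u.card + 1) := by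
          intro v w hv hvu hw hwu hvw
          rw [mem_filter, hmemL]
          have h3 : insert v u ∪ s = u ∪ s := by
            rw [insert_union, insert_eq_of_mem (mem_union_right _ hv)]
          refine ⟨⟨Δ.down _ hu2 _ ?_, ?_, ?_⟩, subset_insert _ _, card_insert_of_notMem hvu⟩
          · intro x hx
            rcases mem_insert.mp hx with rfl | hx
            · exact mem_union_right _ hv
            · exact mem_union_left _ hx
          · rw [h3]; exact hu2
          · intro h4
            rcases mem_insert.mp (h4 hw) with h5 | h5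
            · exact hvw h5.symm
            · exact hwu h5
        have hval : ∀ v, v ∈ s → v ∉ u → C (insert v u) = c (u \ s) := by
          intro v hv hvu
          have h3 : insert v u ∩ s = insert v (u ∩ s) := insert_inter_of_mem hv
          have h4 : v ∉ u ∩ s := fun h => hvu (mem_inter.mp h).1
          have h5 : insert v u \ s = u \ s := insert_sdiff_of_mem _ hv
          rw [hC]
          simp only
          rw [h3, card_insert_of_notMem h4, if_pos (by omega), h5]
        have hsub : ({insert v1 u, insert v2 u} : Finset (Finset V)) ⊆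
            (Lcx Δ s hs hne).faces.filter (fun t => u ⊆ t ∧ t.card = u.card + 1) := by
          intro t ht
          rw [mem_insert, mem_singleton] at ht
          rcases ht with rfl | rfl
          · exact key v1 v2 hv1.1 hv1.2 hv2.1 hv2.2 hv12
          · exact key v2 v1 hv2.1 hv2.2 hv1.1 hv1.2 hv12.symm
        rw [← Finset.sum_subset hsub]
        · rw [Finset.sum_pair, hval v1 hv1.1 hv1.2, hval v2 hv2.1 hv2.2]
          · exact CharTwo.add_self_eq_zero _
          · intro h
            have : v1 ∈ insert v2 u := h ▸ mem_insert_self v1 u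
            rcases mem_insert.mp this with h5 | h5
            · exact hv12 h5
            · exact hv1.2 h5
        · intro t ht ht'
          obtain ⟨v, hvu, rfl⟩ := hcov t ht
          have hvs : v ∉ s := by
            intro hvs
            have : v ∈ s \ u := mem_sdiff.mpr ⟨hvs, hvu⟩
            rw [hsu, mem_insert, mem_singleton] at this
            apply ht'
            rw [mem_insert, mem_singleton]
            rcases this with rfl | rfl
            · exact Or.inl rfl
            · exact Or.inr rfl
          rw [hC]
          simp only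
          rw [insert_inter_of_notMem hvs, if_neg hA]
      · refine Finset.sum_eq_zero (fun t ht => ?_)
        obtain ⟨v, hvu, rfl⟩ := hcov t ht
        rw [hC]
        simp only
        rw [if_neg]
        by_cases hvs : v ∈ s
        · rw [insert_inter_of_mem hvs, card_insert_of_notMem (fun h => hvu (mem_inter.mp h).1)]
          omega
        · rw [insert_inter_of_notMem hvs]
          exact hA)
  obtain ⟨v0, hv0⟩ := id hne
  refine ⟨fun t => B (t ∪ s.erase v0), fun t ht hti => ?_⟩
  rw [hmemk] at ht
  obtain ⟨ht1, ht2, ht3⟩ := ht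
  have hdisj : ∀ t', Disjoint t' s → Disjoint t' (s.erase v0) := fun t' h =>
    h.mono_right (erase_subset _ _)
  have hface : ∀ t', Disjoint t' s → t' ∪ s ∈ Δ.faces →
      t' ∪ s.erase v0 ∈ (Lcx Δ s hs hne).faces := by
    intro t' h1 h2
    rw [hmemL]
    refine ⟨Δ.down _ h2 _ (union_subset_union_right (erase_subset _ _)), ?_, ?_⟩
    · rw [union_assoc, union_eq_right.mpr (erase_subset v0 s)]
      exact h2
    · intro h3
      rcases mem_union.mp (h3 hv0) with h4 | h4
      · exact disjoint_left.mp h1 h4 hv0
      · exact notMem_erase _ _ h4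
  have hcd : ∀ t', Disjoint t' s → (t' ∪ s.erase v0).card = t'.card + (s.card - 1) := by
    intro t' h
    rw [card_union_of_disjoint (hdisj t' h), card_erase_of_mem hv0]
  have h1 := hB (t ∪ s.erase v0) (hface t ht2 ht3) (by rw [hcd t ht2, hti])
  have h2 : C (t ∪ s.erase v0) = c t := by
    have e1 : (t ∪ s.erase v0) ∩ s = s.erase v0 := by
      ext x
      simp only [mem_inter, mem_union, mem_erase]
      constructor
      · rintro ⟨h3 | h3, h4⟩
        · exact absurd h4 (disjoint_left.mp ht2 h3)
        · exact h3
      · rintro ⟨h3, h4⟩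
        exact ⟨Or.inr ⟨h3, h4⟩, h4⟩
    have e2 : (t ∪ s.erase v0) \ s = t := by
      ext x
      simp only [mem_sdiff, mem_union, mem_erase]
      constructor
      · rintro ⟨h3 | h3, h4⟩
        · exact h3
        · exact absurd h3.2 h4
      · intro h3
        exact ⟨Or.inl h3, disjoint_left.mp ht2 h3⟩
    rw [hC]
    simp only
    rw [e1, e2, card_erase_of_mem hv0, if_pos (by omega)]
  rw [← h2, ← h1]
  unfold Cplx.bd
  have hint : ∀ u, u ∈ (Lcx Δ s hs hne).faces → t ∪ s.erase v0 ⊆ u → u ∩ s = s.erase v0 := by
    intro u hu htu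
    rw [hmemL] at hu
    have hv0u : v0 ∉ u := by
      intro h
      apply hu.2.2
      intro x hx
      by_cases hx0 : x = v0
      · exact hx0 ▸ h
      · exact htu (mem_union_right _ (mem_erase.mpr ⟨hx0, hx⟩))
    ext x
    simp only [mem_inter, mem_erase]
    constructor
    · rintro ⟨h3, h4⟩
      exact ⟨fun h5 => hv0u (h5 ▸ h3), h4⟩
    · rintro ⟨h3, h4⟩
      exact ⟨htu (mem_union_right _ (mem_erase.mpr ⟨h3, h4⟩)), h4⟩
  refine Finset.sum_bij' (fun t' _ => t' ∪ s.erase v0) (fun u _ => u \ s) ?_ ?_ ?_ ?_ ?_
  · intro t' ht'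
    rw [mem_filter, hmemk] at ht'
    rw [mem_filter]
    refine ⟨hface t' ht'.1.2.1 ht'.1.2.2, union_subset_union_left ht'.2.1, ?_⟩
    rw [hcd t' ht'.1.2.1, hcd t ht2, ht'.2.2]
    omega
  · intro u hu
    rw [mem_filter] at hu
    have h3 := hint u hu.1 hu.2.1
    have h4 := (hmemL u).mp hu.1
    rw [mem_filter, hmemk]
    refine ⟨⟨Δ.down u h4.1 _ sdiff_subset, sdiff_disjoint, ?_⟩, ?_, ?_⟩
    · rw [sdiff_union_self_eq_union]; exact h4.2.1
    · intro x hx
      exact mem_sdiff.mpr ⟨hu.2.1 (mem_union_left _ hx), disjoint_left.mp ht2 hx⟩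
    · have h5 := card_sdiff_add_card_inter u s
      rw [h3, card_erase_of_mem hv0, hu.2.2, hcd t ht2] at h5
      omega
  · intro t' ht'
    rw [mem_filter, hmemk] at ht'
    ext x
    simp only [mem_sdiff, mem_union, mem_erase]
    constructor
    · rintro ⟨h3 | h3, h4⟩
      · exact h3
      · exact absurd h3.2 h4
    · intro h3
      exact ⟨Or.inl h3, disjoint_left.mp ht'.1.2.1 h3⟩
  · intro u hu
    rw [mem_filter] at hu
    have h3 := hint u hu.1 hu.2.1
    rw [← h3]
    exact sdiff_union_inter u s
  · intro t' _
    rfl

end Pool.Agent.UBC
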