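import Pool.Agent.UBC.RetractMain
import Pool.Agent.UBC.Res
import Pool.Agent.UBC.Geom
import Pool.Agent.UBC.Dim
import Pool.Agent.UBC.Man

set_option autoImplicit false

namespace Pool.Agent.UBC

theorem targetMan (k : Type) [Field k] [CharP k 2] : TargetMan k :=
  man_of k (targetMain k) targetAvoid (targetRes k) (targetDim_of (targetMain (ZMod 2)))

theorem targetT : TargetT :=
  targetT_of (fun k _ _ => targetMan k) targetGeom

end Pool.Agent.UBC
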