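import Pool.Agent.UBC.Defs

set_option autoImplicit false

namespace Pool.Agent.UBC

open Finset Geometry

theorem fnum_geom {E : Type} [AddCommGroup E] [Module ℝ E]
    (K : Geometry.SimplicialComplex ℝ E) (hK : K.faces.Finite) (j : ℕ) (hj : j ≠ 0) :
    letI := Classical.decEq E
    (ofGeom K hK).fnum j = ({σ | σ ∈ K.faces ∧ σ.card = j} : Set (Finset E)).ncard := by
  letI := Classical.decEq E
  unfold Cplx.fnum
  rw [← Set.ncard_coe_finset]
  congr 1
  ext s
  simp only [ofGeom, coe_filter, mem_insert, Set.Finite.mem_toFinset, Set.mem_setOf_eq]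
  constructor
  · rintro ⟨h | h, hc⟩
    · subst h; simp at hc; omega
    · exact ⟨h, hc⟩
  · rintro ⟨h, hc⟩
    exact ⟨Or.inr h, hc⟩

theorem fnum_zero_geom {E : Type} [AddCommGroup E] [Module ℝ E]
    (K : Geometry.SimplicialComplex ℝ E) (hK : K.faces.Finite) :
    letI := Classical.decEq E
    (ofGeom K hK).fnum 0 = 1 := by
  letI := Classical.decEq E
  unfold Cplx.fnum
  have : (ofGeom K hK).faces.filter (fun s => s.card = 0) = {∅} := by
    ext s
    simp only [mem_filter, card_eq_zero, mem_singleton]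
    constructor
    · rintro ⟨_, h⟩; exact h
    · rintro rfl; exact ⟨(ofGeom K hK).empty_mem, rfl⟩
  rw [this, card_singleton]

theorem vertices_ncard {E : Type} [AddCommGroup E] [Module ℝ E]
    (K : Geometry.SimplicialComplex ℝ E) (hK : K.faces.Finite) :
    letI := Classical.decEq E
    (ofGeom K hK).fnum 1 = K.vertices.ncard := by
  letI := Classical.decEq E
  rw [fnum_geom K hK 1 one_ne_zero]
  have : ({σ | σ ∈ K.faces ∧ σ.card = 1} : Set (Finset E)) =
      (fun x : E => ({x} : Finset E)) '' K.vertices := by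
    ext s
    simp only [Set.mem_setOf_eq, Set.mem_image, card_eq_one]
    constructor
    · rintro ⟨hs, x, rfl⟩
      exact ⟨x, hs, rfl⟩
    · rintro ⟨x, hx, rfl⟩
      exact ⟨hx, x, rfl⟩
  rw [this, Set.ncard_image_of_injective _ (fun a b h => by simpa using h)]

theorem final (hA : TargetA) (hT : TargetT) :
    ¬ (∃ (N : ℕ) (K : Geometry.SimplicialComplex ℝ (EuclideanSpace ℝ (Fin N))),
      K.faces.Finite ∧
      (∃ m : ℕ, Nonempty (ChartedSpace (EuclideanSpace ℝ (Fin m)) K.space) ∨
        Nonempty (ChartedSpace (EuclideanHalfSpace (m + 1)) K.space)) ∧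
      ∃ d : ℕ, (∃ σ ∈ K.faces, σ.card = d) ∧ (∀ σ ∈ K.faces, σ.card ≤ d) ∧
        ∃ i : ℕ, i ≤ d ∧
          ((Nat.choose (K.vertices.ncard - d + i - 1) i : ℕ) : ℤ) <
            ∑ j ∈ Finset.range (i + 1),
              (-1 : ℤ) ^ (i - j) * ((Nat.choose (d - j) (i - j) : ℕ) : ℤ) *
                (if j = 0 then (1 : ℤ) else
                  ((({σ | σ ∈ K.faces ∧ σ.card = j} :
                      Set (Finset (EuclideanSpace ℝ (Fin N)))).ncard : ℕ) : ℤ))) := by
  rintro ⟨N, K, hfin, hm, d, ⟨σ, hσ, hσd⟩, hmax, i, hid, hlt⟩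
  letI := Classical.decEq (EuclideanSpace ℝ (Fin N))
  obtain ⟨d', hB⟩ := hT (AlgebraicClosure (ZMod 2)) N K hfin ⟨σ, hσ⟩ hm
  have hσ' : σ ∈ (ofGeom K hfin).faces := by
    simp only [ofGeom, mem_insert, Set.Finite.mem_toFinset]
    exact Or.inr hσ
  have hσne : σ.Nonempty := K.nonempty_of_mem_faces hσ
  obtain ⟨h1, t, ht, hσt, htd⟩ := hB.1 σ hσ'
  have ht' : t ∈ K.faces := by
    simp only [ofGeom, mem_insert, Set.Finite.mem_toFinset] at ht
    rcases ht with h | h
    · subst h
      exact absurd (subset_empty.mp hσt) hσne.ne_empty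
    · exact h
  have hd : d' = d := by
    have := hmax t ht'
    omega
  subst hd
  have key := hA (AlgebraicClosure (ZMod 2)) (EuclideanSpace ℝ (Fin N)) (ofGeom K hfin) d' hB i hid
  rw [vertices_ncard K hfin] at key
  refine absurd hlt (not_lt.mpr ?_)
  refine le_trans (le_of_eq ?_) key
  unfold Cplx.hnum
  refine sum_congr rfl ?_
  intro j _
  congr 1
  split_ifs with hj
  · subst hj
    rw [fnum_zero_geom K hfin]; rfl
  · rw [fnum_geom K hfin j hj]

end Pool.Agent.UBC
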