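import Pool.Agent.UBC.Defs

/-!
# UBC part A: definitions for the algebra (dual / inverse-system form, characteristic 2)

All spaces are spaces of functions on monomials `m : V →₀ ℕ`.
-/

set_option autoImplicit false

namespace Pool.Agent.UBC

open Finset

variable {V : Type} [DecidableEq V]

namespace Cplx

/-- vertices of the complex -/
def verts (Δ : Cplx V) : Finset V := Δ.faces.biUnion id

/-- the closed star of `s` (for a face `s`): all `t` with `t ∪ s` a face. -/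
def star (Δ : Cplx V) (s : Finset V) (hs : s ∈ Δ.faces) : Cplx V where
  faces := Δ.faces.filter (fun t => t ∪ s ∈ Δ.faces)
  empty_mem := by
    rw [mem_filter]; exact ⟨Δ.empty_mem, by rwa [empty_union]⟩
  down := by
    intro t ht u hut
    rw [mem_filter] at ht ⊢
    exact ⟨Δ.down t ht.1 u hut, Δ.down _ ht.2 _ (union_subset_union_left hut)⟩

end Cplx

section Koszul

variable {k : Type} [Field k] {d : ℕ}

/-- total degree of a monomial -/
def mdeg (m : V →₀ ℕ) : ℕ := m.sum (fun _ a => a)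

/-- contraction with the variable `x_v`: `(x_v b)(m) = b (m + δ_v)`. -/
noncomputable def contr (v : V) (b : (V →₀ ℕ) → k) : (V →₀ ℕ) → k := fun m => b (m + Finsupp.single v 1)

/-- contraction with the linear form `∑_{v ∈ verts} θ v • x_v`. -/
noncomputable def contrLin (Δ : Cplx V) (θ : V → k) (b : (V →₀ ℕ) → k) : (V →₀ ℕ) → k :=
  fun m => ∑ v ∈ Δ.verts, θ v * b (m + Finsupp.single v 1)

/-- Koszul differential (dual form, char 2):
`(∂ b)(S, m) = ∑_{p ∈ S} (θ_p · b(S \ p))(m)`. -/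
noncomputable def kos (Δ : Cplx V) (θ : V → Fin d → k) (b : Finset (Fin d) → (V →₀ ℕ) → k) :
    Finset (Fin d) → (V →₀ ℕ) → k :=
  fun S m => ∑ p ∈ S, ∑ v ∈ Δ.verts, θ v p * b (S.erase p) (m + Finsupp.single v 1)

/-- `b` is supported on monomials of `Δ`. -/
def SuppOn (Δ : Cplx V) (b : Finset (Fin d) → (V →₀ ℕ) → k) : Prop :=
  ∀ S m, m.support ∉ Δ.faces → b S m = 0

/-- `b` lives on index sets of size `i`. -/
def LevelAt (i : ℕ) (b : Finset (Fin d) → (V →₀ ℕ) → k) : Prop :=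
  ∀ S m, S.card ≠ i → b S m = 0

/-- Koszul exactness in positive level (dual of: the Koszul homology `H_i(Θ; k[Δ])` vanishes for
`i ≥ 1`). It is ungraded; the graded version follows by truncation, `kos` preserves
`S.card + mdeg m`. -/
def KE (Δ : Cplx V) (θ : V → Fin d → k) : Prop :=
  ∀ i, 1 ≤ i → ∀ b : Finset (Fin d) → (V →₀ ℕ) → k, SuppOn Δ b → LevelAt i b →
    kos Δ θ b = 0 → ∃ b', SuppOn Δ b' ∧ LevelAt (i - 1) b' ∧ kos Δ θ b' = b

/-- generic system of linear forms: independent on every face. -/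
def Generic (Δ : Cplx V) (θ : V → Fin d → k) : Prop :=
  ∀ s ∈ Δ.faces, LinearIndependent k (fun v : {v // v ∈ s} => θ v.1)

/-- `E_g(Δ)`: the dual of `(k[Δ]/Θ)_g`. -/
def E (Δ : Cplx V) (θ : V → Fin d → k) (g : ℕ) : Submodule k ((V →₀ ℕ) → k) where
  carrier := {b | (∀ m, (m.support ∉ Δ.faces ∨ mdeg m ≠ g) → b m = 0) ∧
    ∀ m, ∀ p : Fin d, ∑ v ∈ Δ.verts, θ v p * b (m + Finsupp.single v 1) = 0}
  add_mem' := by
    rintro a b ⟨ha1, ha2⟩ ⟨hb1, hb2⟩
    refine ⟨fun m hm => ?_, fun m p => ?_⟩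
    · simp [ha1 m hm, hb1 m hm]
    · simp only [Pi.add_apply, mul_add, sum_add_distrib, ha2, hb2, add_zero]
  zero_mem' := ⟨fun m _ => rfl, fun m p => by simp⟩
  smul_mem' := by
    rintro c b ⟨hb1, hb2⟩
    refine ⟨fun m hm => ?_, fun m p => ?_⟩
    · simp [hb1 m hm]
    · have := hb2 m p
      simp only [Pi.smul_apply, smul_eq_mul]
      calc _ = c * ∑ v ∈ Δ.verts, θ v p * b (m + Finsupp.single v 1) := by
            rw [mul_sum]; exact sum_congr rfl fun v _ => by ring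
        _ = 0 := by rw [this, mul_zero]

/-- `D_g = ∑_v x_v E_{g+1} ⊆ E_g`. -/
def D (Δ : Cplx V) (θ : V → Fin d → k) (g : ℕ) : Submodule k ((V →₀ ℕ) → k) :=
  Submodule.span k {c | ∃ v ∈ Δ.verts, ∃ b ∈ E Δ θ (g + 1), c = contr v b}

/-- cycles of `Δ` on faces with `i` vertices. -/
def Zc (k : Type) [Field k] (Δ : Cplx V) (i : ℕ) : Submodule k (Finset V → k) where
  carrier := {c | (∀ s, (s ∉ Δ.faces ∨ s.card ≠ i) → c s = 0) ∧ ∀ t ∈ Δ.faces, Δ.bd c t = 0}
  add_mem' := by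
    rintro a b ⟨ha1, ha2⟩ ⟨hb1, hb2⟩
    refine ⟨fun m hm => by simp [ha1 m hm, hb1 m hm], fun t ht => ?_⟩
    have h1 := ha2 t ht
    have h2 := hb2 t ht
    unfold Cplx.bd at h1 h2 ⊢
    simp only [Pi.add_apply, sum_add_distrib, h1, h2, add_zero]
  zero_mem' := ⟨fun _ _ => rfl, fun t _ => by simp [Cplx.bd]⟩
  smul_mem' := by
    rintro c b ⟨hb1, hb2⟩
    refine ⟨fun m hm => by simp [hb1 m hm], fun t ht => ?_⟩
    have h2 := hb2 t ht
    unfold Cplx.bd at h2 ⊢
    simp only [Pi.smul_apply, smul_eq_mul, ← mul_sum, h2, mul_zero]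

/-- boundaries of `Δ` on faces with `i` vertices (as functions vanishing off the faces). -/
def Bc (k : Type) [Field k] (Δ : Cplx V) (i : ℕ) : Submodule k (Finset V → k) :=
  Submodule.span k {c | ∃ s ∈ Δ.faces, s.card = i + 1 ∧
    c = fun t => if t ⊆ s ∧ t.card = i then 1 else 0}

/-- reduced Betti number at faces with `i` vertices (dimension `i - 1`). -/
noncomputable def betti (k : Type) [Field k] (Δ : Cplx V) (i : ℕ) : ℕ :=
  Module.finrank k (Zc k Δ i) - Module.finrank k (Bc k Δ i)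

end Koszul

/-! ## Statements (targets of the algebra team) -/

/-- A-elim: a cone with apex `v`: eliminate the variable `x_v` and one form. `Γ` is closed under
inserting `v`; its base `{t ∈ Γ | v ∉ t}` is `Γ'`. There is a system `θ'` of `d` forms on the base,
generic if `θ` is generic on `Γ`, such that `KE Γ' θ'` implies `KE Γ θ`. -/
def TargetElim (k : Type) [Field k] [CharP k 2] : Prop :=
  ∀ (V : Type) [DecidableEq V] (d : ℕ) (Γ Γ' : Cplx V) (v : V) (θ : V → Fin (d + 1) → k),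
    (∀ t ∈ Γ.faces, insert v t ∈ Γ.faces) →
    Γ'.faces = Γ.faces.filter (fun t => v ∉ t) →
    Generic Γ θ →
    ∃ θ' : V → Fin d → k, Generic Γ' θ' ∧
      (∀ Δ' Δ'' : Cplx V, Δ''.faces ⊆ Γ.faces → (∀ t ∈ Δ''.faces, insert v t ∈ Δ''.faces) →
        Δ'.faces = Δ''.faces.filter (fun t => v ∉ t) → KE Δ' θ' → KE Δ'' θ)

/-- A-dc1 (Reisner): if the homology of `Δ` vanishes at sizes `< d` and all proper stars are Koszul
exact, then `Δ` is Koszul exact. -/
def TargetDC1 (k : Type) [Field k] [CharP k 2] : Prop :=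
  ∀ (V : Type) [DecidableEq V] (d : ℕ) (Δ : Cplx V) (θ : V → Fin d → k),
    Δ.AcyclicBelow k d →
    (∀ s (hs : s ∈ Δ.faces), s.Nonempty → KE (Δ.star s hs) θ) → KE Δ θ

/-- A-dc2: if all proper stars are Koszul exact: the socle inequality and the Euler
characteristic inequality. -/
def TargetDC2 (k : Type) [Field k] [CharP k 2] : Prop :=
  ∀ (V : Type) [DecidableEq V] (d : ℕ) (Δ : Cplx V) (θ : V → Fin d → k),
    (∀ s (hs : s ∈ Δ.faces), s.Nonempty → KE (Δ.star s hs) θ) →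
    (∀ g, Module.finrank k (D Δ θ g) + d.choose g * betti k Δ g ≤ Module.finrank k (E Δ θ g)) ∧
    (∀ g ≤ d, (∀ s ∈ Δ.faces, s.card ≤ d) → Δ.hnum d g ≤ (Module.finrank k (E Δ θ g) : ℤ) +
      ∑ j ∈ (range (g - 1)).filter (fun j => Even (g - j)), (d.choose g * betti k Δ j : ℤ))

/-- A-mac. -/
def TargetMac (k : Type) [Field k] : Prop :=
  ∀ (V : Type) [DecidableEq V] (d : ℕ) (Δ : Cplx V) (θ : V → Fin d → k), Generic Δ θ →
    (∃ s ∈ Δ.faces, s.card = d) → ∀ g,
    (g + 1) * Module.finrank k (E Δ θ (g + 1)) ≤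
      (Δ.fnum 1 - d + g) * Module.finrank k (D Δ θ g)

/-- A-num. -/
def TargetNum : Prop :=
  ∀ (d N : ℕ) (e D b : ℕ → ℕ) (h : ℕ → ℤ), e 0 = 1 → b 0 = 0 →
    (∀ g, D g + d.choose g * b g ≤ e g) →
    (∀ g, (g + 1) * e (g + 1) ≤ (N + g) * D g) →
    (∀ g ≤ d, h g ≤ (e g : ℤ) +
      ∑ j ∈ (range (g - 1)).filter (fun j => Even (g - j)), (d.choose g * b j : ℤ)) →
    ∀ i ≤ d, h i ≤ ((N + i - 1).choose i : ℤ)

/-- A-gen: existence of a generic system. -/
def TargetGen (k : Type) [Field k] [Infinite k] : Prop :=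
  ∀ (V : Type) [DecidableEq V] (d : ℕ) (Δ : Cplx V), (∀ s ∈ Δ.faces, s.card ≤ d) →
    ∃ θ : V → Fin d → k, Generic Δ θ

end Pool.Agent.UBC
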