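import Pool.Agent.UBC.AlgDefs

/-!
# Assembly of part A from its targets
-/

set_option autoImplicit false

namespace Pool.Agent.UBC

open Finset

theorem Cplx.ext_faces {V : Type} [DecidableEq V] {A B : Cplx V} (h : A.faces = B.faces) :
    A = B := by
  cases A; cases B; simp only at h; subst h; rfl

section

variable {V : Type} [DecidableEq V] {k : Type} [Field k]

theorem Generic.mono {d : ℕ} {Γ Δ : Cplx V} {θ : V → Fin d → k} (h : Generic Δ θ)
    (hsub : Γ.faces ⊆ Δ.faces) : Generic Γ θ := fun s hs => h s (hsub hs)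

theorem star_subset (Δ : Cplx V) (s : Finset V) (hs : s ∈ Δ.faces) :
    (Δ.star s hs).faces ⊆ Δ.faces := filter_subset _ _

theorem mem_star (Δ : Cplx V) (s : Finset V) (hs : s ∈ Δ.faces) (t : Finset V) :
    t ∈ (Δ.star s hs).faces ↔ t ∪ s ∈ Δ.faces := by
  simp only [Cplx.star, mem_filter]
  exact ⟨fun h => h.2, fun h => ⟨Δ.down _ h _ subset_union_left, h⟩⟩

theorem mem_lk (Δ : Cplx V) (s : Finset V) (hs : s ∈ Δ.faces) (t : Finset V) :
    t ∈ (Δ.lk s hs).faces ↔ Disjoint t s ∧ t ∪ s ∈ Δ.faces := by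
  simp only [Cplx.lk, mem_filter]
  exact ⟨fun h => h.2, fun h => ⟨Δ.down _ h.2 _ subset_union_left, h⟩⟩

theorem star_empty (Δ : Cplx V) (h : ∅ ∈ Δ.faces) : Δ.star ∅ h = Δ := by
  apply Cplx.ext_faces
  ext t
  rw [mem_star, union_empty]

theorem lk_empty (Δ : Cplx V) (h : ∅ ∈ Δ.faces) : Δ.lk ∅ h = Δ := by
  apply Cplx.ext_faces
  ext t
  rw [mem_lk, union_empty]
  simp

theorem lk_lk (Δ : Cplx V) (v : V) (hv : {v} ∈ Δ.faces) (t : Finset V)
    (ht : t ∈ (Δ.lk {v} hv).faces) (ht' : t ∪ {v} ∈ Δ.faces) :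
    (Δ.lk {v} hv).lk t ht = Δ.lk (t ∪ {v}) ht' := by
  apply Cplx.ext_faces
  ext u
  rw [mem_lk, mem_lk, mem_lk]
  rw [mem_lk] at ht
  rw [disjoint_union_left, disjoint_union_right, union_assoc]
  constructor
  · rintro ⟨h1, ⟨h2, h3⟩, h4⟩
    exact ⟨⟨h1, h2⟩, h4⟩
  · rintro ⟨⟨h1, h2⟩, h4⟩
    exact ⟨h1, ⟨h2, ht.1⟩, h4⟩

end

theorem ke_zero {V : Type} [DecidableEq V] {k : Type} [Field k] (Γ : Cplx V)
    (θ : V → Fin 0 → k) : KE Γ θ := by
  intro i hi b _ hb2 _
  have hb : b = 0 := by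
    funext S m
    apply hb2 S m
    have : S = ∅ := by
      ext x; exact x.elim0
    rw [this, card_empty]
    omega
  refine ⟨0, fun _ _ _ => rfl, fun _ _ _ => rfl, ?_⟩
  rw [hb]
  funext S m
  simp [kos]

/-- one elimination step -/
theorem ke_step {k : Type} [Field k] [CharP k 2] (hElim : TargetElim k)
    {V : Type} [DecidableEq V] (d : ℕ) (Δ : Cplx V) (θ : V → Fin (d + 1) → k)
    (hθ : Generic Δ θ)
    (IH : ∀ (Δ' : Cplx V) (θ' : V → Fin d → k), Generic Δ' θ' →
      (∀ s (hs : s ∈ Δ'.faces), (Δ'.lk s hs).AcyclicBelow k (d - s.card)) →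
      ∀ s (hs : s ∈ Δ'.faces), KE (Δ'.star s hs) θ')
    (hlk : ∀ s (hs : s ∈ Δ.faces), s.Nonempty → (Δ.lk s hs).AcyclicBelow k (d + 1 - s.card))
    (s : Finset V) (hs : s ∈ Δ.faces) (hne : s.Nonempty) : KE (Δ.star s hs) θ := by
  obtain ⟨v, hv⟩ := hne
  have hvΔ : {v} ∈ Δ.faces := Δ.down s hs _ (singleton_subset_iff.mpr hv)
  obtain ⟨θ', hθ', htr⟩ := hElim V d (Δ.star {v} hvΔ) (Δ.lk {v} hvΔ) v θ (by
      intro t ht
      rw [mem_star] at ht ⊢
      rw [insert_eq, union_comm {v} t, union_assoc, union_idempotent]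
      exact ht) (by
      ext t
      rw [mem_filter, mem_star, mem_lk, disjoint_singleton_right]
      exact and_comm) (hθ.mono (star_subset _ _ _))
  have hs' : s.erase v ∈ (Δ.lk {v} hvΔ).faces := by
    rw [mem_lk, disjoint_singleton_right]
    refine ⟨notMem_erase v s, ?_⟩
    rw [union_comm, ← insert_eq, insert_erase hv]
    exact hs
  refine htr ((Δ.lk {v} hvΔ).star (s.erase v) hs') (Δ.star s hs) ?_ ?_ ?_ ?_
  · intro t ht
    rw [mem_star] at ht ⊢
    exact Δ.down _ ht _ (union_subset_union_right (singleton_subset_iff.mpr hv))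
  · intro t ht
    rw [mem_star] at ht ⊢
    rw [insert_union, insert_eq_of_mem (mem_union_right _ hv)]
    exact ht
  · ext t
    rw [mem_filter, mem_star, mem_star, mem_lk, disjoint_singleton_right, union_assoc,
      union_comm (s.erase v) {v}, ← insert_eq, insert_erase hv, mem_union]
    constructor
    · rintro ⟨h1, h2⟩
      exact ⟨h2, fun h => h1 (Or.inl h)⟩
    · rintro ⟨h1, h2⟩
      refine ⟨?_, h1⟩
      rintro (h | h)
      · exact h2 h
      · exact notMem_erase v s h
  · refine IH (Δ.lk {v} hvΔ) θ' hθ' ?_ (s.erase v) hs'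
    intro t ht
    have ht2 := (mem_lk _ _ _ _).mp ht
    rw [lk_lk Δ v hvΔ t ht ht2.2]
    have h1 := hlk (t ∪ {v}) ht2.2 ⟨v, mem_union_right _ (mem_singleton_self v)⟩
    have h2 : (t ∪ {v}).card = t.card + 1 := by
      rw [card_union_of_disjoint ht2.1, card_singleton]
    rw [h2] at h1
    have h3 : d + 1 - (t.card + 1) = d - t.card := by omega
    rwa [h3] at h1

theorem ke_all {k : Type} [Field k] [CharP k 2] (hElim : TargetElim k) (hDC1 : TargetDC1 k)
    {V : Type} [DecidableEq V] : ∀ (d : ℕ) (Δ : Cplx V) (θ : V → Fin d → k), Generic Δ θ →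
      (∀ s (hs : s ∈ Δ.faces), (Δ.lk s hs).AcyclicBelow k (d - s.card)) →
      ∀ s (hs : s ∈ Δ.faces), KE (Δ.star s hs) θ := by
  intro d
  induction d with
  | zero => intro Δ θ _ _ s hs; exact ke_zero _ _
  | succ d IH =>
    intro Δ θ hθ hlk s hs
    have hne : ∀ s (hs : s ∈ Δ.faces), s.Nonempty → KE (Δ.star s hs) θ := fun s hs hne =>
      ke_step hElim d Δ θ hθ IH (fun s hs _ => hlk s hs) s hs hne
    rcases s.eq_empty_or_nonempty with h | h
    · subst h
      rw [star_empty]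
      refine hDC1 V (d + 1) Δ θ ?_ hne
      have := hlk ∅ hs
      rwa [lk_empty, card_empty, Nat.sub_zero] at this
    · exact hne s hs h

theorem ke_buchsbaum {k : Type} [Field k] [CharP k 2] (hElim : TargetElim k)
    (hDC1 : TargetDC1 k) {V : Type} [DecidableEq V] (d : ℕ) (Δ : Cplx V) (θ : V → Fin d → k)
    (hθ : Generic Δ θ) (hΔ : Δ.IsBuchsbaum k d) (s : Finset V) (hs : s ∈ Δ.faces)
    (hne : s.Nonempty) : KE (Δ.star s hs) θ := by
  cases d with
  | zero => exact ke_zero _ _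
  | succ d => exact ke_step hElim d Δ θ hθ (ke_all hElim hDC1 d) hΔ.2 s hs hne

theorem finrank_E_zero {V : Type} [DecidableEq V] {k : Type} [Field k] {d : ℕ} (Δ : Cplx V)
    (θ : V → Fin d → k) : Module.finrank k (E Δ θ 0) = 1 := by
  classical
  have hdeg : ∀ m : V →₀ ℕ, mdeg m = 0 → m = 0 := by
    intro m hm
    unfold mdeg at hm
    ext v
    rw [Finsupp.coe_zero, Pi.zero_apply]
    by_contra hv
    have h1 : v ∈ m.support := Finsupp.mem_support_iff.mpr hv
    have := (Finset.sum_eq_zero_iff.mp hm) v h1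
    exact hv this
  have hns : ∀ (m : V →₀ ℕ) (v : V), m + Finsupp.single v 1 ≠ 0 := by
    intro m v h
    have := DFunLike.congr_fun h v
    simp at this
  let b0 : (V →₀ ℕ) → k := fun m => if m = 0 then 1 else 0
  have hb0 : b0 ∈ E Δ θ 0 := by
    refine ⟨fun m hm => ?_, fun m p => ?_⟩
    · have : m ≠ 0 := by
        rintro rfl
        rcases hm with hm | hm
        · exact hm (by rw [Finsupp.support_zero]; exact Δ.empty_mem)
        · exact hm (by simp [mdeg])
      simp [b0, this]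
    · refine sum_eq_zero fun v _ => ?_
      simp [b0, hns m v]
  refine finrank_eq_one (⟨b0, hb0⟩ : E Δ θ 0) ?_ ?_
  · intro h
    have h1 := congrArg Subtype.val h
    have h2 := congrFun h1 0
    simp [b0] at h2
  · rintro ⟨b, hb⟩
    refine ⟨b 0, ?_⟩
    apply Subtype.ext
    funext m
    simp only [Submodule.coe_smul, Pi.smul_apply, smul_eq_mul]
    by_cases hm : m = 0
    · subst hm; simp [b0]
    · have h1 : b m = 0 := by
        apply hb.1
        right
        exact fun h => hm (hdeg m h)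
      simp [b0, hm, h1]

theorem betti_zero {V : Type} [DecidableEq V] (k : Type) [Field k] (Δ : Cplx V)
    (h : ∃ s ∈ Δ.faces, s.Nonempty) : betti k Δ 0 = 0 := by
  obtain ⟨s, hs, v, hv⟩ := h
  have hvΔ : {v} ∈ Δ.faces := Δ.down s hs _ (singleton_subset_iff.mpr hv)
  have heq : Zc k Δ 0 = Bc k Δ 0 := by
    apply le_antisymm
    · intro c hc
      have h1 : c = c ∅ • (fun t : Finset V => if t ⊆ {v} ∧ t.card = 0 then (1 : k) else 0) := by
        funext t
        simp only [Pi.smul_apply, smul_eq_mul]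
        by_cases ht : t.card = 0
        · have : t = ∅ := card_eq_zero.mp ht
          subst this
          simp
        · rw [hc.1 t (Or.inr ht)]
          simp [ht]
      rw [h1]
      refine Submodule.smul_mem _ _ (Submodule.subset_span ⟨{v}, hvΔ, by simp, rfl⟩)
    · refine Submodule.span_le.mpr ?_
      rintro c ⟨u, hu, huc, rfl⟩
      refine ⟨fun t ht => ?_, fun t ht => ?_⟩
      · refine if_neg ?_
        rintro ⟨h1, h2⟩
        rcases ht with ht | ht
        · have : t = ∅ := card_eq_zero.mp h2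
          subst this
          exact ht Δ.empty_mem
        · exact ht h2
      · unfold Cplx.bd
        refine sum_eq_zero fun w hw => ?_
        rw [mem_filter] at hw
        refine if_neg ?_
        rintro ⟨_, h2⟩
        omega
  unfold betti
  rw [heq, Nat.sub_self]

theorem targetA_of
    (hElim : ∀ (k : Type) [Field k] [CharP k 2], TargetElim k)
    (hDC1 : ∀ (k : Type) [Field k] [CharP k 2], TargetDC1 k)
    (hDC2 : ∀ (k : Type) [Field k] [CharP k 2], TargetDC2 k)
    (hMac : ∀ (k : Type) [Field k], TargetMac k) (hNum : TargetNum)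
    (hGen : ∀ (k : Type) [Field k] [Infinite k], TargetGen k) : TargetA := by
  intro k _ _ _ V _ Δ d hΔ i hi
  rcases Nat.eq_zero_or_pos d with hd | hd
  · subst hd
    have hi0 : i = 0 := by omega
    subst hi0
    have h1 : Δ.fnum 0 = 1 := by
      unfold Cplx.fnum
      have : Δ.faces.filter (fun s => s.card = 0) = {∅} := by
        ext s
        simp only [mem_filter, card_eq_zero, mem_singleton]
        constructor
        · rintro ⟨_, h⟩; exact h
        · rintro rfl; exact ⟨Δ.empty_mem, rfl⟩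
      rw [this, card_singleton]
    simp [Cplx.hnum, h1]
  · have hcard : ∀ s ∈ Δ.faces, s.card ≤ d := fun s hs => (hΔ.1 s hs).1
    obtain ⟨-, F, hF, -, hFd⟩ := hΔ.1 ∅ Δ.empty_mem
    obtain ⟨θ, hθ⟩ := hGen k V d Δ hcard
    have hKE := ke_buchsbaum (hElim k) (hDC1 k) d Δ θ hθ hΔ
    obtain ⟨h1, h2⟩ := hDC2 k V d Δ θ hKE
    have h3 := hMac k V d Δ θ hθ ⟨F, hF, hFd⟩
    have hne : F.Nonempty := card_pos.mp (by omega)
    exact hNum d (Δ.fnum 1 - d) (fun g => Module.finrank k (E Δ θ g))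
      (fun g => Module.finrank k (D Δ θ g)) (fun g => betti k Δ g) (fun g => Δ.hnum d g)
      (finrank_E_zero Δ θ) (betti_zero k Δ ⟨F, hF, hne⟩) h1 h3
      (fun g hg => h2 g hg hcard) i hi

end Pool.Agent.UBC
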