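import Mathlib

/-!
# UBC project: linear algebra of linear relations and the zigzag step of a double complex
-/

set_option autoImplicit false

namespace Pool.Agent.UBC

open Module

/-- Linear choice: if every element of `Z` is related to some element of `W` by the linear
relation `R`, the choice can be made linear. -/
theorem exists_linear_choice {K A B : Type*} [Field K] [AddCommGroup A] [Module K A]
    [AddCommGroup B] [Module K B] (R : Submodule K (A × B)) (Z : Submodule K A)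
    (W : Submodule K B) (h : ∀ a ∈ Z, ∃ b ∈ W, (a, b) ∈ R) :
    ∃ f : Z →ₗ[K] W, ∀ a : Z, ((a : A), (f a : B)) ∈ R := by
  classical
  let bs := Basis.ofVectorSpace K Z
  choose g hgW hgR using fun i => h (bs i : A) (bs i).2
  let f : Z →ₗ[K] W := bs.constr K (fun i => (⟨g i, hgW i⟩ : W))
  refine ⟨f, fun a => ?_⟩
  -- the set of good `a` is a submodule containing the basis
  let S : Submodule K Z := R.comap ((Z.subtype).prod (W.subtype ∘ₗ f))
  have hS : S = ⊤ := by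
    rw [eq_top_iff, ← bs.span_eq, Submodule.span_le]
    rintro _ ⟨i, rfl⟩
    show ((bs i : A), ((f (bs i) : W) : B)) ∈ R
    have : f (bs i) = ⟨g i, hgW i⟩ := by
      simp [f, Basis.constr_basis]
    rw [this]
    exact hgR i
  have : a ∈ S := by rw [hS]; trivial
  exact this

/-- The comparison lemma: `dim ZA/BA ≤ dim ZB/BB` by a linear relation. -/
theorem finrank_le_of_rel {K A B : Type*} [Field K] [AddCommGroup A] [Module K A]
    [AddCommGroup B] [Module K B] (R : Submodule K (A × B)) (ZA BA : Submodule K A)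
    (ZB BB : Submodule K B) (hfA : FiniteDimensional K ZA) (hfB : FiniteDimensional K ZB)
    (hA : BA ≤ ZA) (hB : BB ≤ ZB)
    (h1 : ∀ a ∈ ZA, ∃ b ∈ ZB, (a, b) ∈ R)
    (h2 : ∀ a b, a ∈ ZA → b ∈ BB → (a, b) ∈ R → a ∈ BA) :
    finrank K ZA + finrank K BB ≤ finrank K ZB + finrank K BA := by
  classical
  obtain ⟨f, hf⟩ := exists_linear_choice R ZA ZB h1
  let BB' : Submodule K ZB := BB.comap ZB.subtype
  have e1 : finrank K BB' = finrank K BB :=
    (Submodule.comapSubtypeEquivOfLe hB).finrank_eq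
  let q : ZA →ₗ[K] (ZB ⧸ BB') := BB'.mkQ ∘ₗ f
  have hr := q.finrank_range_add_finrank_ker
  have hr2 : finrank K (LinearMap.range q) ≤ finrank K (ZB ⧸ BB') := Submodule.finrank_le _
  have hr3 : finrank K (ZB ⧸ BB') + finrank K BB' = finrank K ZB :=
    Submodule.finrank_quotient_add_finrank BB'
  have hk : finrank K (LinearMap.ker q) ≤ finrank K BA := by
    have hle : (LinearMap.ker q).map ZA.subtype ≤ BA := by
      rintro _ ⟨a, ha, rfl⟩
      have ha' : BB'.mkQ (f a) = 0 := ha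
      rw [Submodule.mkQ_apply, Submodule.Quotient.mk_eq_zero] at ha'
      exact h2 _ _ a.2 ha' (hf a)
    have e2 : finrank K (LinearMap.ker q) = finrank K ((LinearMap.ker q).map ZA.subtype) :=
      (Submodule.equivMapOfInjective ZA.subtype ZA.injective_subtype _).finrank_eq
    have : FiniteDimensional K BA := Submodule.finiteDimensional_of_le hA
    rw [e2]
    exact Submodule.finrank_mono hle
  omega

/-- swapping a relation -/
theorem finrank_le_of_rel' {K A B : Type*} [Field K] [AddCommGroup A] [Module K A]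
    [AddCommGroup B] [Module K B] (R : Submodule K (A × B)) (ZA BA : Submodule K A)
    (ZB BB : Submodule K B) (hfA : FiniteDimensional K ZA) (hfB : FiniteDimensional K ZB)
    (hA : BA ≤ ZA) (hB : BB ≤ ZB)
    (h1 : ∀ b ∈ ZB, ∃ a ∈ ZA, (a, b) ∈ R)
    (h2 : ∀ a b, a ∈ BA → b ∈ ZB → (a, b) ∈ R → b ∈ BB) :
    finrank K ZB + finrank K BA ≤ finrank K ZA + finrank K BB := by
  let R' : Submodule K (B × A) := R.comap ((LinearMap.snd K B A).prod (LinearMap.fst K B A))
  refine finrank_le_of_rel R' ZB BB ZA BA hfB hfA hB hA ?_ ?_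
  · intro b hb
    obtain ⟨a, ha, hab⟩ := h1 b hb
    exact ⟨a, ha, hab⟩
  · intro b a hb ha hab
    exact h2 a b ha hb hab

/-- A commuting grid of submodules of one module with two differentials. -/
structure Grid (K T : Type*) [Field K] [AddCommGroup T] [Module K T] where
  X : ℕ → ℕ → Submodule K T
  d1 : T →ₗ[K] T
  d2 : T →ₗ[K] T
  h1 : ∀ j i, ∀ b ∈ X (j + 1) i, d1 b ∈ X j i
  h2 : ∀ j i, ∀ b ∈ X j i, d2 b ∈ X j (i + 1)
  h11 : ∀ b, d1 (d1 b) = 0
  h22 : ∀ b, d2 (d2 b) = 0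
  h12 : ∀ b, d1 (d2 b) = d2 (d1 b)
  /-- `d1` kills the first column -/
  h10 : ∀ i, ∀ b ∈ X 0 i, d1 b = 0

namespace Grid

variable {K T : Type*} [Field K] [AddCommGroup T] [Module K T] (G : Grid K T)

/-- row exactness at `(j, i)` -/
def Row (j i : ℕ) : Prop := ∀ a ∈ G.X j i, G.d1 a = 0 → ∃ c ∈ G.X (j + 1) i, G.d1 c = a

/-- column exactness at `(j, i + 1)` -/
def Col (j i : ℕ) : Prop := ∀ a ∈ G.X j (i + 1), G.d2 a = 0 → ∃ c ∈ G.X j i, G.d2 c = a

def Z (j i : ℕ) : Submodule K T := G.X j i ⊓ LinearMap.ker G.d1 ⊓ LinearMap.ker G.d2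

def B (j i : ℕ) : Submodule K T := (G.X (j + 1) i ⊓ LinearMap.ker G.d2).map G.d1

def R (j i : ℕ) : Submodule K (T × T) := (G.X (j + 1) i).map (G.d1.prod G.d2)

theorem mem_Z {j i : ℕ} {a : T} : a ∈ G.Z j i ↔ a ∈ G.X j i ∧ G.d1 a = 0 ∧ G.d2 a = 0 := by
  simp [Z, and_assoc]

theorem mem_B {j i : ℕ} {a : T} :
    a ∈ G.B j i ↔ ∃ c ∈ G.X (j + 1) i, G.d2 c = 0 ∧ G.d1 c = a := by
  simp [B, and_assoc]

theorem mem_R {j i : ℕ} {a b : T} :
    (a, b) ∈ G.R j i ↔ ∃ c ∈ G.X (j + 1) i, G.d1 c = a ∧ G.d2 c = b := by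
  simp [R]

theorem B_le_Z (j i : ℕ) : G.B j i ≤ G.Z j i := by
  intro a ha
  rw [mem_B] at ha
  obtain ⟨c, hc, hc2, rfl⟩ := ha
  rw [mem_Z]
  exact ⟨G.h1 _ _ _ hc, G.h11 _, by rw [← G.h12, hc2, map_zero]⟩

theorem F1 {j i : ℕ} (hr : G.Row j i) : ∀ a ∈ G.Z j i, ∃ b ∈ G.Z (j + 1) (i + 1),
    (a, b) ∈ G.R j i := by
  intro a ha
  rw [mem_Z] at ha
  obtain ⟨c, hc, hca⟩ := hr a ha.1 ha.2.1
  refine ⟨G.d2 c, ?_, ?_⟩
  · rw [mem_Z]
    exact ⟨G.h2 _ _ _ hc, by rw [G.h12, hca, ha.2.2], G.h22 _⟩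
  · rw [mem_R]
    exact ⟨c, hc, hca, rfl⟩

theorem F2 {j i : ℕ} (hc : G.Col (j + 2) i) : ∀ a b, b ∈ G.B (j + 1) (i + 1) →
    (a, b) ∈ G.R j i → a ∈ G.B j i := by
  intro a b hb hab
  rw [mem_B] at hb
  rw [mem_R] at hab
  obtain ⟨e, he, he2, rfl⟩ := hb
  obtain ⟨c, hcX, hca, hcb⟩ := hab
  obtain ⟨f, hf, hfe⟩ := hc e he he2
  rw [mem_B]
  refine ⟨c - G.d1 f, Submodule.sub_mem _ hcX (G.h1 _ _ _ hf), ?_, ?_⟩
  · rw [map_sub, hcb, ← G.h12, hfe, sub_self]
  · rw [map_sub, hca, G.h11, sub_zero]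

theorem F3 {j i : ℕ} (hc : G.Col (j + 1) i) : ∀ b ∈ G.Z (j + 1) (i + 1), ∃ a ∈ G.Z j i,
    (a, b) ∈ G.R j i := by
  intro b hb
  rw [mem_Z] at hb
  obtain ⟨c, hcX, hcb⟩ := hc b hb.1 hb.2.2
  refine ⟨G.d1 c, ?_, ?_⟩
  · rw [mem_Z]
    exact ⟨G.h1 _ _ _ hcX, G.h11 _, by rw [← G.h12, hcb, hb.2.1]⟩
  · rw [mem_R]
    exact ⟨c, hcX, rfl, hcb⟩

theorem F4 {j i : ℕ} (hr : G.Row (j + 1) i) : ∀ a b, a ∈ G.B j i →
    (a, b) ∈ G.R j i → b ∈ G.B (j + 1) (i + 1) := by
  intro a b ha hab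
  rw [mem_B] at ha
  rw [mem_R] at hab
  obtain ⟨u, hu, hu2, rfl⟩ := ha
  obtain ⟨c, hcX, hca, hcb⟩ := hab
  obtain ⟨x, hx, hxc⟩ := hr (c - u) (Submodule.sub_mem _ hcX hu) (by rw [map_sub, hca, sub_self])
  rw [mem_B]
  refine ⟨G.d2 x, G.h2 _ _ _ hx, G.h22 _, ?_⟩
  rw [G.h12, hxc, map_sub, hcb, hu2, sub_zero]

/-- vanishing version of the zigzag -/
theorem zigzag_zero {n : ℕ} (N : ℕ) (hr : ∀ j < N, G.Row j (j + n))
    (hc : ∀ j < N, G.Col (j + 2) (j + n)) (hN : G.Z N (N + n) ≤ G.B N (N + n)) :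
    G.Z 0 n ≤ G.B 0 n := by
  induction N with
  | zero => simpa using hN
  | succ N ih =>
    refine ih (fun j hj => hr j (by omega)) (fun j hj => hc j (by omega)) ?_
    intro a ha
    obtain ⟨b, hb, hab⟩ := G.F1 (hr N (by omega)) a ha
    have e : N + 1 + n = N + n + 1 := by ring
    rw [e] at hN
    exact G.F2 (hc N (by omega)) a b (hN hb) hab

/-- zigzag inequality, up -/
theorem zigzag_up {n : ℕ} (N : ℕ) (hf : ∀ j i, FiniteDimensional K (G.X j i))
    (hr : ∀ j < N, G.Row j (j + n)) (hc : ∀ j < N, G.Col (j + 2) (j + n)) :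
    finrank K (G.Z 0 n) + finrank K (G.B N (N + n)) ≤
      finrank K (G.Z N (N + n)) + finrank K (G.B 0 n) := by
  have hfZ : ∀ j i, FiniteDimensional K (G.Z j i) := fun j i =>
    Submodule.finiteDimensional_of_le (S₂ := G.X j i)
      (show G.Z j i ≤ G.X j i from fun a ha => (G.mem_Z.1 ha).1)
  induction N with
  | zero => rw [Nat.zero_add]
  | succ N ih =>
    have h1 := ih (fun j hj => hr j (by omega)) (fun j hj => hc j (by omega))
    have h2 := finrank_le_of_rel (G.R N (N + n)) (G.Z N (N + n)) (G.B N (N + n))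
      (G.Z (N + 1) (N + n + 1)) (G.B (N + 1) (N + n + 1)) (hfZ _ _) (hfZ _ _)
      (G.B_le_Z _ _) (G.B_le_Z _ _) (G.F1 (hr N (by omega)))
      (fun a b _ hb hab => G.F2 (hc N (by omega)) a b hb hab)
    have e : N + 1 + n = N + n + 1 := by ring
    rw [e]
    omega

/-- zigzag inequality, down -/
theorem zigzag_down {n : ℕ} (N : ℕ) (hf : ∀ j i, FiniteDimensional K (G.X j i))
    (hr : ∀ j < N, G.Row (j + 1) (j + n)) (hc : ∀ j < N, G.Col (j + 1) (j + n)) :
    finrank K (G.Z N (N + n)) + finrank K (G.B 0 n) ≤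
      finrank K (G.Z 0 n) + finrank K (G.B N (N + n)) := by
  have hfZ : ∀ j i, FiniteDimensional K (G.Z j i) := fun j i =>
    Submodule.finiteDimensional_of_le (S₂ := G.X j i)
      (show G.Z j i ≤ G.X j i from fun a ha => (G.mem_Z.1 ha).1)
  induction N with
  | zero => rw [Nat.zero_add]
  | succ N ih =>
    have h1 := ih (fun j hj => hr j (by omega)) (fun j hj => hc j (by omega))
    have h2 := finrank_le_of_rel' (G.R N (N + n)) (G.Z N (N + n)) (G.B N (N + n))
      (G.Z (N + 1) (N + n + 1)) (G.B (N + 1) (N + n + 1)) (hfZ _ _) (hfZ _ _)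
      (G.B_le_Z _ _) (G.B_le_Z _ _) (G.F3 (hc N (by omega)))
      (fun a b ha _ hab => G.F4 (hr N (by omega)) a b ha hab)
    have e : N + 1 + n = N + n + 1 := by ring
    rw [e]
    omega

/-- rank-nullity in the first column -/
theorem finrank_X (j i : ℕ) (hf : FiniteDimensional K (G.X j i)) :
    finrank K (G.X j i) = finrank K (G.X j i ⊓ LinearMap.ker G.d2 : Submodule K T) +
      finrank K ((G.X j i).map G.d2) := by
  have h := (G.d2.domRestrict (G.X j i)).finrank_range_add_finrank_ker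
  have e1 : LinearMap.range (G.d2.domRestrict (G.X j i)) = (G.X j i).map G.d2 := by
    ext y
    simp
  have e2 : finrank K (LinearMap.ker (G.d2.domRestrict (G.X j i))) =
      finrank K (G.X j i ⊓ LinearMap.ker G.d2 : Submodule K T) := by
    have e3 : (LinearMap.ker (G.d2.domRestrict (G.X j i))).map (G.X j i).subtype =
        G.X j i ⊓ LinearMap.ker G.d2 := by
      ext y
      simp [and_comm]
    rw [← e3]
    exact (Submodule.equivMapOfInjective (G.X j i).subtype (G.X j i).injective_subtype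
      _).finrank_eq
  rw [e1, e2] at h
  omega

theorem Z_zero (i : ℕ) : G.Z 0 i = G.X 0 i ⊓ LinearMap.ker G.d2 := by
  ext a
  rw [mem_Z]
  simp only [Submodule.mem_inf, LinearMap.mem_ker]
  constructor
  · rintro ⟨h1, h2, h3⟩
    exact ⟨h1, h3⟩
  · rintro ⟨h1, h3⟩
    exact ⟨h1, G.h10 _ _ h1, h3⟩

theorem B_le_map {i : ℕ} (hc : G.Col 1 i) : G.B 0 (i + 1) ≤ (G.X 0 i).map G.d2 := by
  intro a ha
  rw [mem_B] at ha
  obtain ⟨c, hcX, hc2, rfl⟩ := ha
  obtain ⟨f, hf, rfl⟩ := hc c hcX hc2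
  exact ⟨G.d1 f, G.h1 _ _ _ hf, (G.h12 f).symm⟩

theorem map_le_Z (i : ℕ) : (G.X 0 i).map G.d2 ≤ G.Z 0 (i + 1) := by
  rintro _ ⟨a, ha, rfl⟩
  rw [mem_Z]
  exact ⟨G.h2 _ _ _ ha, by rw [G.h12, G.h10 _ _ ha, map_zero], G.h22 _⟩

end Grid

/-- Euler characteristic inequality (numeric form). -/
theorem euler_numeric (g : ℕ) (x z b c : ℕ → ℤ) (hx : ∀ i, i ≤ g → x i = z i + b (i + 1))
    (h1 : ∀ i, 1 ≤ i → i ≤ g → b i ≤ z i)
    (h2 : ∀ i, 2 ≤ i → i ≤ g → Even i → z i ≤ b i + c i) :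
    ∑ i ∈ Finset.range (g + 1), (-1 : ℤ) ^ i * x i ≤ z 0 +
      (∑ i ∈ (Finset.range (g + 1)).filter (fun i => Even i ∧ 2 ≤ i), c i) +
      (-1) ^ g * b (g + 1) := by
  induction g with
  | zero =>
    have e : (Finset.range (0 + 1)).filter (fun i => Even i ∧ 2 ≤ i) = ∅ := by
      ext i
      simp only [Finset.mem_filter, Finset.mem_range, Finset.notMem_empty, iff_false, not_and]
      intro hi _
      omega
    rw [e]
    simp only [zero_add, Finset.range_one, Finset.sum_singleton, pow_zero, one_mul,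
      Finset.sum_empty, add_zero]
    rw [hx 0 le_rfl]
  | succ g ih =>
    have ih' := ih (fun i hi => hx i (by omega)) (fun i h h' => h1 i h (by omega))
      (fun i h h' => h2 i h (by omega))
    rw [Finset.sum_range_succ, Finset.range_add_one (n := g + 1), Finset.filter_insert]
    have hx' := hx (g + 1) le_rfl
    have h1' := h1 (g + 1) (by omega) le_rfl
    rcases Nat.even_or_odd (g + 1) with he | ho
    · have h2' := h2 (g + 1) (by obtain ⟨r, hr⟩ := he; omega) le_rfl he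
      rw [if_pos ⟨he, by obtain ⟨r, hr⟩ := he; omega⟩, Finset.sum_insert (by simp)]
      have hg : Odd g := by
        rcases Nat.even_or_odd g with h | h
        · exact absurd he (Nat.not_even_iff_odd.mpr (h.add_one))
        · exact h
      rw [he.neg_one_pow]
      rw [hg.neg_one_pow] at ih'
      linarith
    · rw [if_neg (fun h => absurd h.1 (Nat.not_even_iff_odd.mpr ho))]
      have hg : Even g := by
        rcases Nat.even_or_odd g with h | h
        · exact h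
        · exact absurd (h.add_one) (Nat.not_even_iff_odd.mpr ho)
      rw [ho.neg_one_pow]
      rw [hg.neg_one_pow] at ih'
      linarith

end Pool.Agent.UBC
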