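import Pool.Agent.UBC.AlgDefs
import Pool.Agent.UBC.LinAlg

/-!
# UBC project: the concrete double complex
-/

set_option autoImplicit false

namespace Pool.Agent.UBC

open Finset Module

set_option linter.unusedSectionVars false

variable {V : Type} [DecidableEq V] {k : Type} [Field k] {d : ℕ}

/-- functions of a face, an index set and a monomial -/
abbrev Tri (V k : Type) (d : ℕ) : Type := Finset V → Finset (Fin d) → (V →₀ ℕ) → k

theorem mdeg_add_one (m : V →₀ ℕ) (v : V) :
    mdeg (m + Finsupp.single v 1) = mdeg m + 1 := by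
  unfold mdeg
  rw [Finsupp.sum_add_index' (fun _ => rfl) (fun _ _ _ => rfl), Finsupp.sum_single_index rfl]

theorem mdeg_zero : mdeg (0 : V →₀ ℕ) = 0 := by
  simp [mdeg]

theorem le_mdeg (m : V →₀ ℕ) (v : V) : m v ≤ mdeg m := by
  by_cases h : v ∈ m.support
  · exact Finset.single_le_sum (f := fun v => m v) (fun _ _ => Nat.zero_le _) h
  · rw [Finsupp.notMem_support_iff] at h
    omega

theorem mdeg_eq_zero {m : V →₀ ℕ} : mdeg m = 0 ↔ m = 0 := by
  constructor
  · intro h
    ext v
    have := le_mdeg m v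
    simp only [Finsupp.coe_zero, Pi.zero_apply]
    omega
  · rintro rfl
    exact mdeg_zero

theorem support_add_single (m : V →₀ ℕ) (v : V) :
    (m + Finsupp.single v 1).support = insert v m.support := by
  ext w
  simp only [Finsupp.mem_support_iff, Finsupp.coe_add, Pi.add_apply, mem_insert]
  rcases eq_or_ne w v with h | h
  · subst h; simp
  · simp [h]

theorem Cplx.mem_verts {Δ : Cplx V} {v : V} : v ∈ Δ.verts ↔ ∃ s ∈ Δ.faces, v ∈ s := by
  simp [Cplx.verts]

theorem Cplx.mem_verts_of {Δ : Cplx V} {v : V} {s : Finset V} (hs : s ∈ Δ.faces) (hv : v ∈ s) :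
    v ∈ Δ.verts := Cplx.mem_verts.2 ⟨s, hs, hv⟩

theorem sum_erase_symm_zero [CharP k 2] {ι : Type*} [DecidableEq ι] (U : Finset ι)
    (F : ι → ι → k) (hF : ∀ p q, F p q = F q p) :
    ∑ p ∈ U, ∑ q ∈ U.erase p, F p q = 0 := by
  have e : ∑ p ∈ U, ∑ q ∈ U.erase p, F p q = ∑ x ∈ U.offDiag, F x.1 x.2 := by
    rw [Finset.sum_sigma']
    refine Finset.sum_bij' (fun x _ => (x.1, x.2)) (fun x _ => ⟨x.1, x.2⟩) ?_ ?_ ?_ ?_ ?_
    · rintro ⟨p, q⟩ h
      simp only [mem_sigma, mem_erase] at h
      rw [mem_offDiag]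
      exact ⟨h.1, h.2.2, fun e => h.2.1 e.symm⟩
    · rintro ⟨p, q⟩ h
      rw [mem_offDiag] at h
      simp only [mem_sigma, mem_erase]
      exact ⟨h.1, fun e => h.2.2 e.symm, h.2.1⟩
    · intro _ _; rfl
    · intro _ _; rfl
    · intro _ _; rfl
  rw [e]
  refine Finset.sum_involution (fun x _ => (x.2, x.1)) ?_ ?_ ?_ ?_
  · intro x _
    rw [hF x.2 x.1]
    exact CharTwo.add_self_eq_zero _
  · intro x hx _ h
    rw [mem_offDiag] at hx
    exact hx.2.2 (congrArg Prod.snd h)
  · intro x hx
    rw [mem_offDiag] at hx ⊢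
    exact ⟨hx.2.1, hx.1, fun e => hx.2.2 e.symm⟩
  · intro _ _; rfl

/-- the index set of the double complex -/
def OK (Δ : Cplx V) (P : ℕ → Prop) (j i : ℕ) (s : Finset V) (S : Finset (Fin d))
    (m : V →₀ ℕ) : Prop :=
  s ∪ m.support ∈ Δ.faces ∧ s.card = j ∧ S.card = i ∧ P (S.card + mdeg m)

/-- the spaces of the double complex -/
def XX (Δ : Cplx V) (P : ℕ → Prop) (j i : ℕ) : Submodule k (Tri V k d) where
  carrier := {b | ∀ s S m, ¬ OK Δ P j i s S m → b s S m = 0}
  add_mem' := by
    intro a b ha hb s S m h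
    simp only [Pi.add_apply]
    rw [ha s S m h, hb s S m h, add_zero]
  zero_mem' := fun _ _ _ _ => rfl
  smul_mem' := by
    intro c b hb s S m h
    simp only [Pi.smul_apply]
    rw [hb s S m h, smul_zero]

theorem mem_XX {Δ : Cplx V} {P : ℕ → Prop} {j i : ℕ} {b : Tri V k d} :
    b ∈ XX Δ P j i ↔ ∀ s S m, ¬ OK Δ P j i s S m → b s S m = 0 := Iff.rfl

/-- the face differential -/
def D1 (Δ : Cplx V) : Tri V k d →ₗ[k] Tri V k d where
  toFun b := fun s S m => ∑ v ∈ Δ.verts \ s, b (insert v s) S m
  map_add' := by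
    intro a b
    funext s S m
    simp only [Pi.add_apply, sum_add_distrib]
  map_smul' := by
    intro c b
    funext s S m
    simp only [Pi.smul_apply, RingHom.id_apply, smul_eq_mul, mul_sum]

theorem D1_apply (Δ : Cplx V) (b : Tri V k d) (s : Finset V) (S : Finset (Fin d))
    (m : V →₀ ℕ) : D1 Δ b s S m = ∑ v ∈ Δ.verts \ s, b (insert v s) S m := rfl

/-- the Koszul differential -/
noncomputable def D2 (Δ : Cplx V) (θ : V → Fin d → k) : Tri V k d →ₗ[k] Tri V k d where
  toFun b := fun s => kos Δ θ (b s)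
  map_add' := by
    intro a b
    funext s S m
    simp only [kos, Pi.add_apply, mul_add, sum_add_distrib]
  map_smul' := by
    intro c b
    funext s S m
    simp only [kos, Pi.smul_apply, RingHom.id_apply, smul_eq_mul, mul_sum]
    refine sum_congr rfl fun p _ => sum_congr rfl fun v _ => ?_
    ring

theorem D2_apply (Δ : Cplx V) (θ : V → Fin d → k) (b : Tri V k d) (s : Finset V)
    (S : Finset (Fin d)) (m : V →₀ ℕ) :
    D2 Δ θ b s S m =
      ∑ p ∈ S, ∑ v ∈ Δ.verts, θ v p * b s (S.erase p) (m + Finsupp.single v 1) := rfl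

theorem D1_D1 [CharP k 2] (Δ : Cplx V) (b : Tri V k d) : D1 Δ (D1 Δ b) = 0 := by
  funext s S m
  rw [D1_apply]
  simp only [Pi.zero_apply]
  have h := sum_erase_symm_zero (k := k) (Δ.verts \ s)
    (fun v w => b (insert w (insert v s)) S m) (fun v w => by rw [insert_comm])
  rw [← h]
  refine sum_congr rfl fun v hv => ?_
  rw [D1_apply]
  refine sum_congr ?_ fun w _ => rfl
  ext w
  simp only [mem_sdiff, mem_insert, mem_erase, not_or]
  tauto

theorem D2_D2 [CharP k 2] (Δ : Cplx V) (θ : V → Fin d → k) (b : Tri V k d) :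
    D2 Δ θ (D2 Δ θ b) = 0 := by
  funext s S m
  rw [D2_apply]
  simp only [Pi.zero_apply]
  have h := sum_erase_symm_zero (k := k) S
    (fun p q => ∑ v ∈ Δ.verts, ∑ w ∈ Δ.verts, θ v p * (θ w q *
      b s ((S.erase p).erase q) (m + Finsupp.single v 1 + Finsupp.single w 1)))
    (fun p q => by
      rw [sum_comm]
      refine sum_congr rfl fun v _ => sum_congr rfl fun w _ => ?_
      rw [Finset.erase_right_comm, add_right_comm]
      ring)
  rw [← h]
  refine sum_congr rfl fun p hp => ?_
  rw [sum_comm]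
  refine sum_congr rfl fun v _ => ?_
  rw [D2_apply, mul_sum]
  refine sum_congr rfl fun q _ => ?_
  rw [mul_sum]

theorem D1_D2 (Δ : Cplx V) (θ : V → Fin d → k) (b : Tri V k d) :
    D1 Δ (D2 Δ θ b) = D2 Δ θ (D1 Δ b) := by
  funext s S m
  rw [D1_apply, D2_apply]
  simp only [D2_apply, D1_apply, mul_sum]
  rw [sum_comm]
  refine sum_congr rfl fun p _ => ?_
  rw [sum_comm]

/-- the grid -/
noncomputable def grid [CharP k 2] (Δ : Cplx V) (θ : V → Fin d → k) (P : ℕ → Prop) :
    Grid k (Tri V k d) where
  X := XX Δ P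
  d1 := D1 Δ
  d2 := D2 Δ θ
  h1 := by
    intro j i b hb s S m h
    rw [D1_apply]
    refine sum_eq_zero fun v hv => hb _ _ _ fun h' => h ?_
    rw [mem_sdiff] at hv
    obtain ⟨h1, h2, h3, h4⟩ := h'
    refine ⟨Δ.down _ h1 _ (union_subset_union_left (subset_insert _ _)), ?_, h3, h4⟩
    rw [card_insert_of_notMem hv.2] at h2
    omega
  h2 := by
    intro j i b hb s S m h
    rw [D2_apply]
    refine sum_eq_zero fun p hp => sum_eq_zero fun v hv => ?_
    rw [hb, mul_zero]
    rintro ⟨h1, h2, h3, h4⟩
    apply h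
    rw [mdeg_add_one] at h4
    rw [support_add_single] at h1
    have hc : S.card = i + 1 := by
      rw [card_erase_of_mem hp] at h3
      have := card_pos.2 ⟨p, hp⟩
      omega
    refine ⟨Δ.down _ h1 _ (union_subset_union_right (subset_insert _ _)), h2, hc, ?_⟩
    rw [h3] at h4
    rw [hc]
    convert h4 using 1
    omega
  h11 := D1_D1 Δ
  h22 := D2_D2 Δ θ
  h12 := D1_D2 Δ θ
  h10 := by
    intro i b hb
    funext s S m
    rw [D1_apply]
    refine sum_eq_zero fun v hv => hb _ _ _ ?_
    rintro ⟨_, h2, _, _⟩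
    exact absurd h2 (card_pos.2 (insert_nonempty _ _)).ne'

theorem bd_eq {Δ : Cplx V} {c : Finset V → k} (hc : ∀ s, s ∉ Δ.faces → c s = 0)
    (t : Finset V) : Δ.bd c t = ∑ v ∈ Δ.verts \ t, c (insert v t) := by
  unfold Cplx.bd
  have e : ∑ v ∈ Δ.verts \ t, c (insert v t) =
      ∑ v ∈ (Δ.verts \ t).filter (fun v => insert v t ∈ Δ.faces), c (insert v t) := by
    rw [sum_filter]
    refine sum_congr rfl fun v _ => ?_
    split_ifs with h
    · rfl
    · exact hc _ h
  rw [e]
  symm
  refine sum_bij (fun v _ => insert v t) ?_ ?_ ?_ ?_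
  · intro v hv
    rw [mem_filter, mem_sdiff] at hv
    rw [mem_filter]
    exact ⟨hv.2, subset_insert _ _, card_insert_of_notMem hv.1.2⟩
  · intro v hv w hw h
    rw [mem_filter, mem_sdiff] at hv hw
    have : v ∈ insert w t := by rw [← h]; exact mem_insert_self _ _
    rcases mem_insert.1 this with h' | h'
    · exact h'
    · exact absurd h' hv.1.2
  · intro s hs
    rw [mem_filter] at hs
    obtain ⟨v, hv, hvs⟩ := exists_eq_insert_iff.2 ⟨hs.2.1, hs.2.2.symm⟩
    refine ⟨v, ?_, hvs⟩
    rw [mem_filter, mem_sdiff]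
    refine ⟨⟨Cplx.mem_verts_of hs.1 (by rw [← hvs]; exact mem_insert_self _ _), hv⟩, ?_⟩
    rw [hvs]; exact hs.1
  · intro v _; rfl

/-- row exactness -/
theorem row_exact [CharP k 2] (Δ : Cplx V) (θ : V → Fin d → k) (P : ℕ → Prop) (j i : ℕ)
    (h : ¬ P i ∨ Δ.ExactAt k j) : (grid Δ θ P).Row j i := by
  classical
  intro b hb hb1
  change b ∈ XX Δ P j i at hb
  change D1 Δ b = 0 at hb1
  have hb1' : ∀ s S m, ∑ v ∈ Δ.verts \ s, b (insert v s) S m = 0 := fun s S m => by
    rw [← D1_apply, hb1]; rfl
  -- the part m = 0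
  have h0 : ∃ c0 : Finset (Fin d) → Finset V → k, ∀ S, (∀ s, s ∉ Δ.faces → c0 S s = 0) ∧
      (∀ s, s.card ≠ j + 1 → c0 S s = 0) ∧ (¬ (S.card = i ∧ P i) → ∀ s, c0 S s = 0) ∧
      (∀ s, ∑ v ∈ Δ.verts \ s, c0 S (insert v s) = b s S 0) := by
    have : ∀ S : Finset (Fin d), ∃ c0 : Finset V → k, (∀ s, s ∉ Δ.faces → c0 s = 0) ∧
      (∀ s, s.card ≠ j + 1 → c0 s = 0) ∧ (¬ (S.card = i ∧ P i) → ∀ s, c0 s = 0) ∧
      (∀ s, ∑ v ∈ Δ.verts \ s, c0 (insert v s) = b s S 0) := by
      intro S
      by_cases hS : S.card = i ∧ P i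
      · have hex : Δ.ExactAt k j := h.resolve_left (fun h' => h' hS.2)
        have hsup : ∀ s, s ∉ Δ.faces → (fun s => b s S 0) s = 0 := by
          intro s hs
          refine hb _ _ _ fun h' => hs ?_
          simpa using h'.1
        obtain ⟨c, hc⟩ := hex (fun s => b s S 0) (by
          intro t _ _
          rw [bd_eq hsup]
          exact hb1' t S 0)
        refine ⟨fun s => if s ∈ Δ.faces ∧ s.card = j + 1 then c s else 0, ?_, ?_, ?_, ?_⟩
        · intro s hs; simp [hs]
        · intro s hs; simp [hs]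
        · intro h'; exact absurd hS h'
        · intro s
          have hsup' : ∀ s : Finset V, s ∉ Δ.faces →
              (fun s => if s ∈ Δ.faces ∧ s.card = j + 1 then c s else 0) s = 0 := by
            intro s hs; simp [hs]
          rw [← bd_eq hsup']
          by_cases hs : s ∈ Δ.faces ∧ s.card = j
          · rw [← hc s hs.1 hs.2]
            unfold Cplx.bd
            refine sum_congr rfl fun t ht => ?_
            rw [mem_filter] at ht
            exact if_pos ⟨ht.1, by omega⟩
          · have e1 : b s S 0 = 0 := hb _ _ _ (fun h' => hs ⟨by simpa using h'.1, h'.2.1⟩)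
            rw [e1]
            unfold Cplx.bd
            refine sum_eq_zero fun t ht => ?_
            rw [mem_filter] at ht
            refine if_neg ?_
            rintro ⟨h1, h2⟩
            exact hs ⟨Δ.down _ h1 _ ht.2.1, by omega⟩
      · refine ⟨0, fun _ _ => rfl, fun _ _ => rfl, fun _ _ => rfl, fun s => ?_⟩
        have e1 : b s S 0 = 0 := by
          refine hb _ _ _ fun h' => hS ⟨h'.2.2.1, ?_⟩
          have := h'.2.2.2
          rw [mdeg_zero, add_zero, h'.2.2.1] at this
          exact this
        rw [e1]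
        simp
    choose c0 hc0 using this
    exact ⟨c0, hc0⟩
  obtain ⟨c0, hc0⟩ := h0
  -- a chosen vertex in the support
  have hv0 : ∃ v0 : (V →₀ ℕ) → Option V, ∀ m, m ≠ 0 → ∃ v ∈ m.support, v0 m = some v := by
    refine ⟨fun m => if h : m.support.Nonempty then some h.choose else none, fun m hm => ?_⟩
    have h : m.support.Nonempty := Finsupp.support_nonempty_iff.2 hm
    exact ⟨h.choose, h.choose_spec, dif_pos h⟩
  obtain ⟨v0, hv0⟩ := hv0
  refine ⟨fun s S m => if m = 0 then c0 S s else
    match v0 m with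
    | none => 0
    | some v => if v ∈ s then b (s.erase v) S m else 0, ?_, ?_⟩
  · intro s S m hn
    by_cases hm : m = 0
    · subst hm
      simp only [if_true]
      by_cases h1 : s ∈ Δ.faces
      · by_cases h2 : s.card = j + 1
        · refine (hc0 S).2.2.1 (fun h' => hn ⟨by simpa using h1, h2, h'.1, ?_⟩) s
          rw [mdeg_zero, add_zero, h'.1]
          exact h'.2
        · exact (hc0 S).2.1 s h2
      · exact (hc0 S).1 s h1
    · simp only [if_neg hm]
      obtain ⟨v, hv, hv0m⟩ := hv0 m hm
      rw [hv0m]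
      simp only
      split_ifs with hvs
      · refine hb _ _ _ fun h' => hn ⟨?_, ?_, h'.2.2⟩
        · have : s ∪ m.support = s.erase v ∪ m.support := by
            ext w
            simp only [mem_union, mem_erase]
            constructor
            · rintro (h | h)
              · by_cases hwv : w = v
                · right; rw [hwv]; exact hv
                · left; exact ⟨hwv, h⟩
              · right; exact h
            · rintro (h | h)
              · left; exact h.2
              · right; exact h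
          rw [this]; exact h'.1
        · have := h'.2.1
          rw [card_erase_of_mem hvs] at this
          have := card_pos.2 ⟨v, hvs⟩
          omega
      · rfl
  · change D1 Δ _ = b
    funext s S m
    rw [D1_apply]
    by_cases hm : m = 0
    · subst hm
      simp only [if_true]
      exact (hc0 S).2.2.2 s
    · simp only [if_neg hm]
      obtain ⟨v, hv, hv0m⟩ := hv0 m hm
      rw [hv0m]
      simp only
      by_cases hvV : v ∈ Δ.verts
      swap
      · -- m is not supported in the complex
        have hz : ∀ s, b s S m = 0 := fun s => hb _ _ _ (fun h' =>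
          hvV (Cplx.mem_verts_of h'.1 (mem_union_right _ hv)))
        rw [hz]
        refine sum_eq_zero fun w _ => ?_
        split_ifs
        · exact hz _
        · rfl
      by_cases hvs : v ∈ s
      · have key := hb1' (s.erase v) S m
        have e1 : Δ.verts \ (s.erase v) = insert v (Δ.verts \ s) := by
          ext w
          simp only [mem_sdiff, mem_erase, mem_insert, not_and]
          constructor
          · rintro ⟨h1, h2⟩
            by_cases hwv : w = v
            · left; exact hwv
            · right; exact ⟨h1, h2 hwv⟩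
          · rintro (h | h)
            · subst h; exact ⟨hvV, fun h => absurd rfl h⟩
            · exact ⟨h.1, fun _ => h.2⟩
        rw [e1, sum_insert (by simp [hvs]), insert_erase hvs] at key
        have key2 := CharTwo.add_eq_zero.1 key
        rw [key2]
        refine sum_congr rfl fun w hw => ?_
        rw [mem_sdiff] at hw
        rw [if_pos (mem_insert_of_mem hvs)]
        congr 1
        have hwv : w ≠ v := fun e => hw.2 (e ▸ hvs)
        rw [erase_insert_of_ne hwv]
      · rw [sum_eq_single v]
        · rw [if_pos (mem_insert_self _ _), erase_insert hvs]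
        · intro w hw hwv
          rw [if_neg]
          rw [mem_insert]
          rintro (h | h)
          · exact hwv h.symm
          · exact hvs h
        · intro h
          exact absurd (mem_sdiff.2 ⟨hvV, hvs⟩) h

theorem kos_star {Δ : Cplx V} {s : Finset V} (hs : s ∈ Δ.faces) (θ : V → Fin d → k)
    {b : Finset (Fin d) → (V →₀ ℕ) → k} (hb : SuppOn (Δ.star s hs) b) :
    kos (Δ.star s hs) θ b = kos Δ θ b := by
  funext S m
  unfold kos
  refine sum_congr rfl fun p _ => ?_
  refine sum_subset ?_ ?_
  · intro v hv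
    rw [Cplx.mem_verts] at hv ⊢
    obtain ⟨t, ht, hvt⟩ := hv
    exact ⟨t, (mem_filter.1 ht).1, hvt⟩
  · intro v _ hv
    rw [hb, mul_zero]
    intro h'
    exact hv (Cplx.mem_verts_of h' (by rw [support_add_single]; exact mem_insert_self _ _))

/-- column exactness -/
theorem col_exact [CharP k 2] (Δ : Cplx V) (θ : V → Fin d → k) (P : ℕ → Prop)
    (hst : ∀ s (hs : s ∈ Δ.faces), s.Nonempty → KE (Δ.star s hs) θ) (j i : ℕ) :
    (grid Δ θ P).Col (j + 1) i := by
  classical
  intro b hb hb2
  change b ∈ XX Δ P (j + 1) (i + 1) at hb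
  change D2 Δ θ b = 0 at hb2
  have hkos : ∀ s, kos Δ θ (b s) = 0 := fun s => congrFun hb2 s
  have : ∀ s, ∃ c : Finset (Fin d) → (V →₀ ℕ) → k,
      (∀ S m, s ∪ m.support ∉ Δ.faces → c S m = 0) ∧ (∀ S m, S.card ≠ i → c S m = 0) ∧
      (s.card ≠ j + 1 → ∀ S m, c S m = 0) ∧ kos Δ θ c = b s := by
    intro s
    by_cases hs : s ∈ Δ.faces ∧ s.card = j + 1
    · have hne : s.Nonempty := card_pos.1 (by omega)
      have hsup : SuppOn (Δ.star s hs.1) (b s) := by
        intro S m hm
        refine hb _ _ _ fun h' => hm ?_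
        rw [Cplx.star, mem_filter]
        exact ⟨Δ.down _ h'.1 _ subset_union_right, by rw [union_comm]; exact h'.1⟩
      obtain ⟨c, hc1, hc2, hc3⟩ := hst s hs.1 hne (i + 1) (by omega) (b s) hsup
        (fun S m hS => hb _ _ _ fun h' => hS h'.2.2.1)
        (by rw [kos_star hs.1 θ hsup]; exact hkos s)
      refine ⟨c, ?_, ?_, ?_, ?_⟩
      · intro S m hm
        refine hc1 S m fun h' => hm ?_
        rw [Cplx.star, mem_filter] at h'
        rw [union_comm]; exact h'.2
      · intro S m hS
        exact hc2 S m (by simpa using hS)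
      · intro h'; exact absurd hs.2 h'
      · rw [← kos_star hs.1 θ hc1]; exact hc3
    · refine ⟨0, fun _ _ _ => rfl, fun _ _ _ => rfl, fun _ _ _ => rfl, ?_⟩
      have e1 : b s = 0 := by
        funext S m
        refine hb _ _ _ fun h' => hs ⟨Δ.down _ h'.1 _ subset_union_left, h'.2.1⟩
      rw [e1]
      funext S m
      simp [kos]
  choose c hc1 hc2 hc3 hc4 using this
  refine ⟨fun s S m => if P (S.card + mdeg m) then c s S m else 0, ?_, ?_⟩
  · intro s S m hn
    show (if P (S.card + mdeg m) then c s S m else 0) = 0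
    split_ifs with hP
    · by_cases h1 : s ∪ m.support ∈ Δ.faces
      · by_cases h2 : s.card = j + 1
        · by_cases h3 : S.card = i
          · exact absurd ⟨h1, h2, h3, hP⟩ hn
          · exact hc2 s S m h3
        · exact hc3 s h2 S m
      · exact hc1 s S m h1
    · rfl
  · change D2 Δ θ _ = b
    funext s S m
    rw [D2_apply]
    have e1 : ∀ p ∈ S, ∀ v, (S.erase p).card + mdeg (m + Finsupp.single v 1) =
        S.card + mdeg m := by
      intro p hp v
      rw [card_erase_of_mem hp, mdeg_add_one]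
      have := card_pos.2 ⟨p, hp⟩
      omega
    by_cases hP : P (S.card + mdeg m)
    · rw [← hc4 s]
      unfold kos
      refine sum_congr rfl fun p hp => sum_congr rfl fun v _ => ?_
      rw [e1 p hp v, if_pos hP]
    · rw [hb s S m (fun h' => hP h'.2.2.2)]
      refine sum_eq_zero fun p hp => sum_eq_zero fun v _ => ?_
      rw [e1 p hp v, if_neg hP, mul_zero]

end Pool.Agent.UBC
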