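import Mathlib

/-!
# UBC project (MP_8294f4_co, frozen statement S09806): interface definitions

Everything is over a field (or commutative ring) `k` of characteristic 2, so there are no signs.
-/

set_option autoImplicit false

namespace Pool.Agent.UBC

open Finset

/-- A finite abstract simplicial complex on the vertex type `V`: a down-closed finite family of
finite sets, containing the empty set. (Elements of `V` need not be vertices.) -/
structure Cplx (V : Type) [DecidableEq V] where
  faces : Finset (Finset V)
  empty_mem : ∅ ∈ faces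
  down : ∀ s ∈ faces, ∀ t : Finset V, t ⊆ s → t ∈ faces

variable {V : Type} [DecidableEq V]

namespace Cplx

/-- The link of a face `σ`. -/
def lk (Δ : Cplx V) (σ : Finset V) (hσ : σ ∈ Δ.faces) : Cplx V where
  faces := Δ.faces.filter (fun τ => Disjoint τ σ ∧ τ ∪ σ ∈ Δ.faces)
  empty_mem := by
    rw [mem_filter]
    exact ⟨Δ.empty_mem, disjoint_empty_left _, by rwa [empty_union]⟩
  down := by
    intro s hs t hts
    rw [mem_filter] at hs ⊢
    exact ⟨Δ.down s hs.1 t hts, disjoint_of_subset_left hts hs.2.1,
      Δ.down _ hs.2.2 _ (union_subset_union_left hts)⟩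

/-- number of faces with `i` vertices (so `f_{i-1}` in the usual indexing; `fnum 0 = 1`). -/
def fnum (Δ : Cplx V) (i : ℕ) : ℕ := (Δ.faces.filter (fun s => s.card = i)).card

/-- The `h`-numbers with respect to `d` (= 1 + dimension). -/
def hnum (Δ : Cplx V) (d i : ℕ) : ℤ :=
  ∑ j ∈ range (i + 1), (-1 : ℤ) ^ (i - j) * ((d - j).choose (i - j) : ℤ) * (Δ.fnum j : ℤ)

/-- `Δ` is pure of dimension `d - 1`: all faces have at most `d` vertices and each one lies in a
face with exactly `d` vertices. -/
def IsPure (Δ : Cplx V) (d : ℕ) : Prop :=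
  ∀ s ∈ Δ.faces, s.card ≤ d ∧ ∃ t ∈ Δ.faces, s ⊆ t ∧ t.card = d

/-- The (reduced, mod 2) boundary of a chain `c : Finset V → k`; the value at a face `t` is the
sum of `c (insert v t)` over the `v ∉ t` with `insert v t` a face. -/
def bd {k : Type*} [CommRing k] (Δ : Cplx V) (c : Finset V → k) (t : Finset V) : k :=
  ∑ s ∈ Δ.faces.filter (fun s => t ⊆ s ∧ s.card = t.card + 1), c s

/-- The reduced homology of `Δ` vanishes at faces with `i` vertices (i.e. in dimension `i - 1`;
`i = 0` is the augmentation): every cycle is a boundary. -/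
def ExactAt (k : Type*) [CommRing k] (Δ : Cplx V) (i : ℕ) : Prop :=
  ∀ c : Finset V → k,
    (∀ t ∈ Δ.faces, t.card + 1 = i → Δ.bd c t = 0) →
    ∃ b : Finset V → k, ∀ t ∈ Δ.faces, t.card = i → Δ.bd b t = c t

/-- reduced homology vanishes in all dimensions `< r - 1` (i.e. at faces with `< r` vertices). -/
def AcyclicBelow (k : Type*) [CommRing k] (Δ : Cplx V) (r : ℕ) : Prop :=
  ∀ i < r, Δ.ExactAt k i

/-- Buchsbaum complexes: pure, and all links of nonempty faces have vanishing homology below the
top dimension. -/
def IsBuchsbaum (k : Type*) [CommRing k] (Δ : Cplx V) (d : ℕ) : Prop :=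
  Δ.IsPure d ∧ ∀ σ (hσ : σ ∈ Δ.faces), σ.Nonempty → (Δ.lk σ hσ).AcyclicBelow k (d - σ.card)

end Cplx

/-- TARGET OF PART A. -/
def TargetA : Prop :=
  ∀ (k : Type) [Field k] [CharP k 2] [Infinite k] (V : Type) [DecidableEq V]
    (Δ : Cplx V) (d : ℕ), Δ.IsBuchsbaum k d → ∀ i ≤ d,
      Δ.hnum d i ≤ ((Δ.fnum 1 - d + i - 1).choose i : ℤ)

open Geometry in
/-- The abstract complex of a finite geometric simplicial complex. -/
noncomputable def ofGeom {E : Type} [AddCommGroup E] [Module ℝ E]
    (K : Geometry.SimplicialComplex ℝ E) (hK : K.faces.Finite) :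
    letI := Classical.decEq E
    Cplx E :=
  letI := Classical.decEq E
  { faces := insert ∅ hK.toFinset
    empty_mem := mem_insert_self _ _
    down := by
      intro s hs t hts
      rw [mem_insert] at hs ⊢
      rcases eq_or_ne t ∅ with h | h
      · exact Or.inl h
      · right
        rcases hs with hs | hs
        · subst hs
          exact absurd (subset_empty.mp hts) h
        · rw [Set.Finite.mem_toFinset] at hs ⊢
          exact K.down_closed hs hts (nonempty_iff_ne_empty.mpr h) }

/-- TARGET OF PART T: a finite geometric complex whose space is a topological manifold, possibly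
with boundary, is Buchsbaum over every field of characteristic 2. -/
def TargetT : Prop :=
  ∀ (k : Type) [Field k] [CharP k 2] (N : ℕ)
    (K : Geometry.SimplicialComplex ℝ (EuclideanSpace ℝ (Fin N))) (hK : K.faces.Finite),
    K.faces.Nonempty →
    (∃ m : ℕ, Nonempty (ChartedSpace (EuclideanSpace ℝ (Fin m)) K.space) ∨
        Nonempty (ChartedSpace (EuclideanHalfSpace (m + 1)) K.space)) →
    letI := Classical.decEq (EuclideanSpace ℝ (Fin N))
    ∃ d : ℕ, (ofGeom K hK).IsBuchsbaum k d

end Pool.Agent.UBC
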