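import Pool.Agent.UBC.TopDefs

/-!
# Local homeomorphism germs
-/

set_option autoImplicit false

namespace Pool.Agent.UBC

open Finset Topology

section

variable {F E G : Type} [TopologicalSpace F] [TopologicalSpace E] [TopologicalSpace G]

theorem LH.symm {X : Set F} {x : F} {C : Set E} {p : E} (h : LH X x C p) : LH C p X x := by
  obtain ⟨hx, hp, φ, ψ, h1, h2, h3, h4⟩ := h
  exact ⟨hp, hx, ψ, φ, h2, h1, h4, h3⟩

theorem LH.trans {X : Set F} {x : F} {C : Set E} {p : E} {Y : Set G} {y : G}
    (h : LH X x C p) (h' : LH C p Y y) : LH X x Y y := by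
  obtain ⟨hx, hp, φ, ψ, h1, h2, h3, h4⟩ := h
  obtain ⟨hp', hy, φ', ψ', h1', h2', h3', h4'⟩ := h'
  refine ⟨hx, hy, φ' ∘ φ, ψ ∘ ψ', by simp [h1, h1'], by simp [h2, h2'], ?_, ?_⟩
  · have hc : ContinuousWithinAt φ X x := (h3.self_of_nhdsWithin hx).2.2
    have ht : Filter.Tendsto φ (𝓝[X] x) (𝓝[C] p) := by
      rw [← h1]
      refine tendsto_nhdsWithin_of_tendsto_nhds_of_eventually_within _ hc.tendsto ?_
      filter_upwards [h3] with z hz using hz.1
    have h5 := ht.eventually h3'
    have h6 := eventually_eventually_nhdsWithin.mpr h3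
    filter_upwards [h3, h5, h6] with z hz1 hz2 hz3
    refine ⟨hz2.1, ?_, ?_⟩
    · simp only [Function.comp]
      rw [hz2.2.1, hz1.2.1]
    · have : Filter.Tendsto φ (𝓝[X] z) (𝓝[C] (φ z)) := by
        refine tendsto_nhdsWithin_of_tendsto_nhds_of_eventually_within _ hz1.2.2.tendsto ?_
        filter_upwards [hz3] with w hw using hw.1
      exact hz2.2.2.tendsto.comp this
  · have hc : ContinuousWithinAt ψ' Y y := (h4'.self_of_nhdsWithin hy).2.2
    have ht : Filter.Tendsto ψ' (𝓝[Y] y) (𝓝[C] p) := by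
      rw [← h2']
      refine tendsto_nhdsWithin_of_tendsto_nhds_of_eventually_within _ hc.tendsto ?_
      filter_upwards [h4'] with z hz using hz.1
    have h5 := ht.eventually h4
    have h6 := eventually_eventually_nhdsWithin.mpr h4'
    filter_upwards [h4', h5, h6] with z hz1 hz2 hz3
    refine ⟨hz2.1, ?_, ?_⟩
    · simp only [Function.comp]
      rw [hz2.2.1, hz1.2.1]
    · have : Filter.Tendsto ψ' (𝓝[Y] z) (𝓝[C] (ψ' z)) := by
        refine tendsto_nhdsWithin_of_tendsto_nhds_of_eventually_within _ hz1.2.2.tendsto ?_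
        filter_upwards [hz3] with w hw using hw.1
      exact hz2.2.2.tendsto.comp this

theorem LH.refl {X : Set F} {x : F} (hx : x ∈ X) : LH X x X x := by
  refine ⟨hx, hx, id, id, rfl, rfl, ?_, ?_⟩
  · filter_upwards [self_mem_nhdsWithin] with y hy
    exact ⟨hy, rfl, continuousWithinAt_id⟩
  · filter_upwards [self_mem_nhdsWithin] with y hy
    exact ⟨hy, rfl, continuousWithinAt_id⟩

/-- restriction to a smaller set that is a neighbourhood within the larger one -/
theorem LH.of_nhds {X Y : Set F} {x : F} (hx : x ∈ X) (hXY : X ⊆ Y) (hn : X ∈ 𝓝[Y] x) :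
    LH X x Y x := by
  refine ⟨hx, hXY hx, id, id, rfl, rfl, ?_, ?_⟩
  · filter_upwards [self_mem_nhdsWithin] with y hy
    exact ⟨hXY hy, rfl, continuousWithinAt_id⟩
  · have := eventually_eventually_nhdsWithin.mpr (Filter.Eventually.of_forall
      (f := 𝓝[Y] x) (p := fun _ => True) fun _ => trivial)
    filter_upwards [hn] with y hy
    exact ⟨hy, rfl, continuousWithinAt_id⟩

/-- two functions that are mutually inverse -/
theorem LH.of_maps {X : Set F} {C : Set E} (φ : F → E) (ψ : E → F) (hφ : ContinuousOn φ X)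
    (hψ : ContinuousOn ψ C) (h1 : Set.MapsTo φ X C) (h2 : Set.MapsTo ψ C X)
    (h3 : ∀ y ∈ X, ψ (φ y) = y) (h4 : ∀ q ∈ C, φ (ψ q) = q) {x : F} (hx : x ∈ X) :
    LH X x C (φ x) := by
  refine ⟨hx, h1 hx, φ, ψ, rfl, h3 x hx, ?_, ?_⟩
  · filter_upwards [self_mem_nhdsWithin] with y hy
    exact ⟨h1 hy, h3 y hy, hφ y hy⟩
  · filter_upwards [self_mem_nhdsWithin] with q hq
    exact ⟨h2 hq, h4 q hq, hψ q hq⟩

/-- the point can be moved -/
theorem LH.exists_nhds {X : Set F} {x : F} {C : Set E} {p : E} (h : LH X x C p) :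
    ∃ φ : F → E, φ x = p ∧ ContinuousWithinAt φ X x ∧ ∀ᶠ y in 𝓝[X] x, LH X y C (φ y) := by
  obtain ⟨hx, hp, φ, ψ, h1, h2, h3, h4⟩ := h
  have hc : ContinuousWithinAt φ X x := (h3.self_of_nhdsWithin hx).2.2
  refine ⟨φ, h1, hc, ?_⟩
  have ht : Filter.Tendsto φ (𝓝[X] x) (𝓝[C] p) := by
    rw [← h1]
    refine tendsto_nhdsWithin_of_tendsto_nhds_of_eventually_within _ hc.tendsto ?_
    filter_upwards [h3] with z hz using hz.1
  have h5 := eventually_eventually_nhdsWithin.mpr h3
  have h6 := ht.eventually (eventually_eventually_nhdsWithin.mpr h4)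
  filter_upwards [h3, h5, h6, self_mem_nhdsWithin] with y hy1 hy2 hy3 hy4
  exact ⟨hy4, hy1.1, φ, ψ, rfl, hy1.2.1, hy2, hy3⟩

end

section charts

variable {F : Type} [TopologicalSpace F]

/-- From a local homeomorphism defined on the subtype `X` to a set `C` (as a subtype). -/
theorem LH.of_openPartialHomeomorph {E : Type} [TopologicalSpace E] {X : Set F} {C : Set E}
    (e : OpenPartialHomeomorph X C) (x : X) (hx : x ∈ e.source) :
    LH X (x : F) C (e x : E) := by
  classical
  let φ : F → E := fun y => if h : y ∈ X then (e ⟨y, h⟩ : E) else (e x : E)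
  let ψ : E → F := fun q => if h : q ∈ C then (e.symm ⟨q, h⟩ : F) else (x : F)
  have hφv : ∀ y : X, φ y = e y := by
    intro y; simp [φ]
  have hψv : ∀ q : C, ψ q = e.symm q := by
    intro q; simp [ψ]
  refine ⟨x.2, (e x).2, φ, ψ, hφv x, ?_, ?_, ?_⟩
  · rw [hψv, e.left_inv hx]
  · rw [nhdsWithin_eq_map_subtype_coe x.2, Filter.eventually_map]
    filter_upwards [e.open_source.mem_nhds hx] with y hy
    refine ⟨?_, ?_, ?_⟩
    · rw [hφv]; exact (e y).2
    · rw [hφv, hψv, e.left_inv hy]
    · unfold ContinuousWithinAt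
      rw [nhdsWithin_eq_map_subtype_coe y.2, hφv]
      rw [Filter.tendsto_map'_iff]
      have : φ ∘ (Subtype.val : X → F) = fun z => (e z : E) := by
        funext z; exact hφv z
      rw [this]
      exact (continuous_subtype_val.tendsto _).comp (e.continuousAt hy).tendsto
  · have hex : e x ∈ e.target := e.map_source hx
    rw [nhdsWithin_eq_map_subtype_coe (e x).2, Filter.eventually_map]
    filter_upwards [e.open_target.mem_nhds hex] with q hq
    refine ⟨?_, ?_, ?_⟩
    · rw [hψv]; exact (e.symm q).2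
    · rw [hψv, hφv, e.right_inv hq]
    · unfold ContinuousWithinAt
      rw [nhdsWithin_eq_map_subtype_coe q.2, hψv]
      rw [Filter.tendsto_map'_iff]
      have : ψ ∘ (Subtype.val : C → E) = fun z => (e.symm z : F) := by
        funext z; exact hψv z
      rw [this]
      exact (continuous_subtype_val.tendsto _).comp (e.symm.continuousAt (x := q) hq).tendsto

/-- From a local homeomorphism to the whole model space. -/
theorem LH.of_chart {E : Type} [TopologicalSpace E] {X : Set F}
    (e : OpenPartialHomeomorph X E) (x : X) (hx : x ∈ e.source) :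
    LH X (x : F) (Set.univ : Set E) (e x) := by
  have h := LH.of_openPartialHomeomorph (C := (Set.univ : Set E))
    (e.trans (Homeomorph.Set.univ E).symm.toOpenPartialHomeomorph) x (by simpa using hx)
  simpa using h

theorem LH.of_homeomorph {E : Type} [TopologicalSpace E] {X : Set F} {C : Set E}
    (e : X ≃ₜ C) (x : X) : LH X (x : F) C (e x : E) :=
  LH.of_openPartialHomeomorph e.toOpenPartialHomeomorph x trivial

end charts

end Pool.Agent.UBC
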