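import Pool.Agent.UBC.Cone

/-!
# The local vanishing theorem from the chain-level retract lemma
-/

set_option autoImplicit false

namespace Pool.Agent.UBC

open Finset Topology

/-- the chain-level retract lemma (helper16) -/
def TargetRetract (k : Type) [Field k] [CharP k 2] : Prop :=
  ∀ (n : ℕ) (L : Cplx (Fin n)) (r : ℕ), 1 ≤ r → ∀ (E : Type) [NormedAddCommGroup E]
    [NormedSpace ℝ E] [FiniteDimensional ℝ E] (C : Set E) (p : E) (ε : ℝ)
    (f : (Fin n → ℝ) → E) (g : E → (Fin n → ℝ)), Convex ℝ C → IsClosed C → 0 < ε →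
    ContinuousOn f (real L) → (∀ y ∈ real L, f y ∈ C ∧ f y ≠ p ∧ dist (f y) p ≤ ε) →
    ContinuousOn g {q | q ∈ C ∧ q ≠ p ∧ dist q p ≤ ε} →
    (∀ q, q ∈ C → q ≠ p → dist q p ≤ ε → g q ∈ real L) →
    (∀ y ∈ real L, g (f y) = y) → Avoid C p r → L.ExactAt k r

theorem main_of_retract (k : Type) [Field k] [CharP k 2] (H : TargetRetract k) :
    TargetMain k := by
  intro n Δ x hx hne E _ _ _ C p r hC hCc hLH hr hA
  obtain ⟨-, hpC, φ, ψ, hφx, hψp, hφ, hψ⟩ := hLH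
  -- neighbourhood of x
  have hφ' : ∀ᶠ y in 𝓝[real Δ] x, φ y ∈ C ∧ ψ (φ y) = y ∧ ContinuousWithinAt φ (real Δ) y ∧
      suppF x ⊆ suppF y := by
    filter_upwards [hφ, (eventually_supp x).filter_mono nhdsWithin_le_nhds] with y h1 h2
    exact ⟨h1.1, h1.2.1, h1.2.2, h2⟩
  rw [eventually_nhdsWithin_iff, Metric.eventually_nhds_iff] at hφ'
  obtain ⟨ε0, hε0, hφ0⟩ := hφ'
  -- continuity of ψ at p
  have hψc : ContinuousWithinAt ψ C p := (hψ.self_of_nhdsWithin hpC).2.2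
  have hφc : ContinuousWithinAt φ (real Δ) x := (hφ.self_of_nhdsWithin hx).2.2
  have hψ' : ∀ᶠ q in 𝓝[C] p, ψ q ∈ real Δ ∧ φ (ψ q) = q ∧ ContinuousWithinAt ψ C q ∧
      dist (ψ q) x < ε0 := by
    have h3 : ∀ᶠ q in 𝓝[C] p, dist (ψ q) x < ε0 := by
      have := Metric.tendsto_nhds.mp hψc.tendsto ε0 hε0
      rw [hψp] at this
      exact this
    filter_upwards [hψ, h3] with q h1 h2
    exact ⟨h1.1, h1.2.1, h1.2.2, h2⟩
  rw [eventually_nhdsWithin_iff, Metric.eventually_nhds_iff] at hψ'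
  obtain ⟨r0, hr0, hψ0⟩ := hψ'
  -- scale
  have hφs : ∀ᶠ y in 𝓝[real Δ] x, dist (φ y) p < r0 / 2 := by
    have := Metric.tendsto_nhds.mp hφc.tendsto (r0 / 2) (by positivity)
    rw [hφx] at this
    exact this
  rw [eventually_nhdsWithin_iff, Metric.eventually_nhds_iff] at hφs
  obtain ⟨ε1, hε1, hφ1⟩ := hφs
  obtain ⟨ε, hε, hεlt⟩ : ∃ ε : ℝ, 0 < ε ∧ ε < min (min ε0 ε1) 1 :=
    exists_between (by positivity)
  have he0 : ε < ε0 := hεlt.trans_le ((min_le_left _ _).trans (min_le_left _ _))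
  have he1 : ε < ε1 := hεlt.trans_le ((min_le_left _ _).trans (min_le_right _ _))
  have he2 : ε ≤ 1 := (hεlt.trans_le (min_le_right _ _)).le
  set L := Lcx Δ (suppF x) hx.2.2 hne with hL
  have hscl : ∀ y ∈ real L, scl x ε y ∈ real Δ := fun y hy => scl_mem x hne hx hε he2 hy
  have hsd : ∀ y ∈ real L, dist (scl x ε y) x ≤ ε := fun y hy => dist_scl x hne hx hε hy
  have hs0 : ∀ y ∈ real L, φ (scl x ε y) ∈ C ∧ ψ (φ (scl x ε y)) = scl x ε y ∧
      ContinuousWithinAt φ (real Δ) (scl x ε y) := by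
    intro y hy
    have := hφ0 ((hsd y hy).trans_lt he0) (hscl y hy)
    exact ⟨this.1, this.2.1, this.2.2.1⟩
  -- the total cone weight
  let tot : (Fin n → ℝ) → ℝ := fun z => ∑ i, Wc x hne z i
  have htot : Continuous tot :=
    continuous_finsetSum _ fun i _ => (continuous_apply i).comp (continuous_Wc x hne)
  let g : E → (Fin n → ℝ) := fun q => (tot (ψ q))⁻¹ • Wc x hne (ψ q)
  have hgood : ∀ q, q ∈ C → q ≠ p → dist q p ≤ r0 / 2 → ψ q ∈ real Δ ∧ ψ q ≠ x ∧
      suppF x ⊆ suppF (ψ q) ∧ ContinuousWithinAt ψ C q := by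
    intro q hq hqp hd
    have h1 := hψ0 (show dist q p < r0 by linarith) hq
    have h2 := hφ0 h1.2.2.2 h1.1
    refine ⟨h1.1, ?_, h2.2.2.2, h1.2.2.1⟩
    intro h
    apply hqp
    rw [← h1.2.1, h, hφx]
  have hWnn : ∀ z ∈ real Δ, ∀ i, 0 ≤ Wc x hne z i := fun z hz i =>
    Wc_nonneg x hne hx.1 z hz.1 i
  have htotpos : ∀ z ∈ real Δ, z ≠ x → 0 < tot z := by
    intro z hz hzx
    have h1 := Wc_ne_zero x hne hx hz hzx
    have h2 : 0 ≤ tot z := sum_nonneg fun i _ => hWnn z hz i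
    refine lt_of_le_of_ne h2 fun h3 => h1 ?_
    funext i
    have := (sum_eq_zero_iff_of_nonneg fun i _ => hWnn z hz i).mp h3.symm i (mem_univ i)
    simpa using this
  refine H n L r hr E C p (r0 / 2) (fun y => φ (scl x ε y)) g hC hCc (by positivity) ?_ ?_ ?_ ?_
    ?_ hA
  · intro y hy
    have h1 := (hs0 y hy).2.2
    refine ContinuousWithinAt.comp (t := real Δ) h1 (continuous_scl x ε).continuousWithinAt ?_
    intro y' hy'
    exact hscl y' hy'
  · intro y hy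
    refine ⟨(hs0 y hy).1, ?_, ?_⟩
    · intro h
      have h2 := (hs0 y hy).2.1
      rw [h, hψp] at h2
      exact scl_ne x hne hx hε hy h2.symm
    · exact (hφ1 ((hsd y hy).trans_lt he1) (hscl y hy)).le
  · intro q hq
    obtain ⟨h1, h2, h3, h4⟩ := hgood q hq.1 hq.2.1 hq.2.2
    have h5 : ContinuousWithinAt ψ {q | q ∈ C ∧ q ≠ p ∧ dist q p ≤ r0 / 2} q :=
      h4.mono fun q' hq' => hq'.1
    have h6 : tot (ψ q) ≠ 0 := (htotpos _ h1 h2).ne'
    have h7 : ContinuousWithinAt (fun q => tot (ψ q))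
        {q | q ∈ C ∧ q ≠ p ∧ dist q p ≤ r0 / 2} q :=
      htot.continuousAt.comp_continuousWithinAt h5
    have h8 : ContinuousWithinAt (fun q => Wc x hne (ψ q))
        {q | q ∈ C ∧ q ≠ p ∧ dist q p ≤ r0 / 2} q :=
      (continuous_Wc x hne).continuousAt.comp_continuousWithinAt h5
    exact (h7.inv₀ h6).smul h8
  · intro q hq hqp hd
    obtain ⟨h1, h2, h3, h4⟩ := hgood q hq hqp hd
    have h5 := htotpos _ h1 h2
    refine ⟨fun i => ?_, ?_, ?_⟩
    · simp only [g, Pi.smul_apply, smul_eq_mul]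
      exact mul_nonneg (inv_nonneg.mpr h5.le) (hWnn _ h1 i)
    · simp only [g, Pi.smul_apply, smul_eq_mul, ← mul_sum]
      exact inv_mul_cancel₀ h5.ne'
    · have h6 : suppF (Wc x hne (ψ q)) ∈ L.faces := by
        refine Wc_mem x hne Δ hx.2.2 (ψ q) ?_
        rw [union_eq_left.mpr h3]
        exact h1.2.2
      refine L.down _ h6 _ ?_
      intro i hi
      rw [mem_suppF] at hi ⊢
      intro h7
      apply hi
      simp [g, h7]
  · intro y hy
    have h1 : ψ (φ (scl x ε y)) = scl x ε y := (hs0 y hy).2.1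
    simp only [g, h1, tot, Wc_scl x hne hx hε hy, Pi.smul_apply, smul_eq_mul, ← mul_sum,
      hy.2.1, mul_one]
    rw [smul_smul, inv_mul_cancel₀ hε.ne', one_smul]

end Pool.Agent.UBC
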