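import Pool.Agent.UBC.MainT
import Pool.Agent.UBC.Retract

set_option autoImplicit false

namespace Pool.Agent.UBC

theorem targetRetract (k : Type) [Field k] [CharP k 2] : TargetRetract k := by
  intro n L r _ E _ _ _ C p ε f g hC hCc hε hf hfm hg hgm hgf hA
  exact Tup.exactAt_of_retract L r C p hC hCc ε hε f g hf hfm hg hgm hgf hA

theorem targetMain (k : Type) [Field k] [CharP k 2] : TargetMain k :=
  main_of_retract k (targetRetract k)

end Pool.Agent.UBC
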