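import Pool.Agent.UBC.Defs

/-!
# UBC part T: definitions for the topology (abstract complexes live on `Fin n`)
-/

set_option autoImplicit false

namespace Pool.Agent.UBC

open Finset Topology

/-- support of a coordinate vector -/
noncomputable def suppF {n : ℕ} (c : Fin n → ℝ) : Finset (Fin n) := by
  classical exact univ.filter (fun i => c i ≠ 0)

theorem mem_suppF {n : ℕ} (c : Fin n → ℝ) (i : Fin n) : i ∈ suppF c ↔ c i ≠ 0 := by
  classical simp [suppF]

/-- The geometric realization of an abstract complex on `Fin n` (barycentric coordinates). -/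
def real {n : ℕ} (Δ : Cplx (Fin n)) : Set (Fin n → ℝ) :=
  {c | (∀ i, 0 ≤ c i) ∧ ∑ i, c i = 1 ∧ suppF c ∈ Δ.faces}

/-- `∂s * lk s`: faces `t` with `t ∪ s` a face and `s ⊄ t`. (For `s` nonempty.) -/
def Lcx {V : Type} [DecidableEq V] (Δ : Cplx V) (s : Finset V) (hs : s ∈ Δ.faces)
    (hne : s.Nonempty) : Cplx V where
  faces := Δ.faces.filter (fun t => t ∪ s ∈ Δ.faces ∧ ¬ s ⊆ t)
  empty_mem := by
    rw [mem_filter]
    refine ⟨Δ.empty_mem, by rwa [empty_union], ?_⟩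
    intro h
    exact hne.ne_empty (subset_empty.mp h)
  down := by
    intro t ht u hut
    rw [mem_filter] at ht ⊢
    exact ⟨Δ.down t ht.1 u hut, Δ.down _ ht.2.1 _ (union_subset_union_left hut),
      fun h => ht.2.2 (h.trans hut)⟩

/-- `(X, x)` and `(C, p)` are locally homeomorphic (germs). Symmetric and transitive. -/
def LH {F E : Type} [TopologicalSpace F] [TopologicalSpace E] (X : Set F) (x : F) (C : Set E)
    (p : E) : Prop :=
  x ∈ X ∧ p ∈ C ∧ ∃ (φ : F → E) (ψ : E → F), φ x = p ∧ ψ p = x ∧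
    (∀ᶠ y in 𝓝[X] x, φ y ∈ C ∧ ψ (φ y) = y ∧ ContinuousWithinAt φ X y) ∧
    (∀ᶠ q in 𝓝[C] p, ψ q ∈ X ∧ φ (ψ q) = q ∧ ContinuousWithinAt ψ C q)

/-- General position property: finitely many tuples of `r` points of `C` close to `p`, with `p` not
in the convex hull of any of them, can be coned off by one point `u` of `C` close to `p`, such that
no convex hull of a coned tuple contains `p`. -/
def Avoid {E : Type} [NormedAddCommGroup E] [NormedSpace ℝ E] (C : Set E) (p : E) (r : ℕ) : Prop :=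
  ∀ (ε : ℝ), 0 < ε → ∀ (T : Finset (List E)),
    (∀ l ∈ T, l.length = r ∧ (∀ y ∈ l, y ∈ C) ∧ p ∉ convexHull ℝ {y | y ∈ l}) →
    ∃ u ∈ C, dist u p < ε ∧ ∀ l ∈ T, p ∉ convexHull ℝ {y | y ∈ u :: l}

/-- `X` is locally at `x` an `m`-manifold with (possibly) boundary. -/
def LocMan {F : Type} [TopologicalSpace F] (X : Set F) (x : F) (m : ℕ) : Prop :=
  (∃ p : EuclideanSpace ℝ (Fin m), LH X x Set.univ p) ∨
  (∃ (hm : 0 < m) (p : EuclideanSpace ℝ (Fin m)), p ⟨0, hm⟩ = 0 ∧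
    LH X x {q : EuclideanSpace ℝ (Fin m) | 0 ≤ q ⟨0, hm⟩} p)

/-- T-main: the local homology vanishing theorem. -/
def TargetMain (k : Type) [Field k] [CharP k 2] : Prop :=
  ∀ (n : ℕ) (Δ : Cplx (Fin n)) (x : Fin n → ℝ) (hx : x ∈ real Δ) (hne : (suppF x).Nonempty)
    (E : Type) [NormedAddCommGroup E] [NormedSpace ℝ E] [FiniteDimensional ℝ E] (C : Set E)
    (p : E) (r : ℕ), Convex ℝ C → IsClosed C → LH (real Δ) x C p → 1 ≤ r → Avoid C p r →
    (Lcx Δ (suppF x) hx.2.2 hne).ExactAt k r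

/-- T-avoid (a): tuples of `r < m` points in `ℝ^m`. -/
def TargetAvoid : Prop :=
  (∀ (m r : ℕ) (p : EuclideanSpace ℝ (Fin m)), r < m → Avoid Set.univ p r) ∧
  (∀ (m r : ℕ) (hm : 0 < m) (p : EuclideanSpace ℝ (Fin m)), p ⟨0, hm⟩ = 0 →
    Avoid {q : EuclideanSpace ℝ (Fin m) | 0 ≤ q ⟨0, hm⟩} p r)

/-- T-res: residue along a facet of `∂s`. -/
def TargetRes (k : Type) [Field k] [CharP k 2] : Prop :=
  ∀ (V : Type) [DecidableEq V] (Δ : Cplx V) (s : Finset V) (hs : s ∈ Δ.faces)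
    (hne : s.Nonempty) (i : ℕ), (Lcx Δ s hs hne).ExactAt k (i + (s.card - 1)) →
    (Δ.lk s hs).ExactAt k i

/-- T-dim: maximal faces have `m + 1` vertices (to be proved from `TargetMain`). -/
def TargetDim : Prop :=
  ∀ (n m : ℕ) (Δ : Cplx (Fin n)), (∀ x ∈ real Δ, LocMan (real Δ) x m) →
    ∀ F ∈ Δ.faces, F.Nonempty → (∀ G ∈ Δ.faces, F ⊆ G → G = F) → F.card = m + 1

/-- T-man: abstract form of `TargetT`. -/
def TargetMan (k : Type) [Field k] [CharP k 2] : Prop :=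
  ∀ (n m : ℕ) (Δ : Cplx (Fin n)), (∀ x ∈ real Δ, LocMan (real Δ) x m) →
    (∃ s ∈ Δ.faces, s.Nonempty) → Δ.IsBuchsbaum k (m + 1)

open Geometry in
/-- T-geom: from the geometric complex to an abstract one on `Fin n`. -/
def TargetGeom : Prop :=
  ∀ (N : ℕ) (K : Geometry.SimplicialComplex ℝ (EuclideanSpace ℝ (Fin N))) (hK : K.faces.Finite),
    K.faces.Nonempty →
    (∃ m : ℕ, Nonempty (ChartedSpace (EuclideanSpace ℝ (Fin m)) K.space) ∨
        Nonempty (ChartedSpace (EuclideanHalfSpace (m + 1)) K.space)) →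
    letI := Classical.decEq (EuclideanSpace ℝ (Fin N))
    ∃ (n m : ℕ) (Δ : Cplx (Fin n)), (∀ x ∈ real Δ, LocMan (real Δ) x m) ∧
      (∃ s ∈ Δ.faces, s.Nonempty) ∧
      (∀ (k : Type) [Field k] [CharP k 2] (d : ℕ), Δ.IsBuchsbaum k d →
        (ofGeom K hK).IsBuchsbaum k d)

theorem targetT_of (h1 : ∀ (k : Type) [Field k] [CharP k 2], TargetMan k) (h2 : TargetGeom) :
    TargetT := by
  intro k _ _ N K hK hne hm
  obtain ⟨n, m, Δ, hΔ, hs, h3⟩ := h2 N K hK hne hm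
  exact ⟨m + 1, h3 k (m + 1) (h1 k n m Δ hΔ hs)⟩

end Pool.Agent.UBC
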