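import Pool.Agent.UBC.Defs

/-!
# Transfer of the Buchsbaum property along an injection of vertex sets
-/

set_option autoImplicit false

namespace Pool.Agent.UBC

open Finset

section

variable {W V : Type} [DecidableEq W] [DecidableEq V]

theorem mem_faces_map {f : W → V} (hf : Function.Injective f) {Δ : Cplx W} {Δ' : Cplx V}
    (h : Δ'.faces = Δ.faces.image (Finset.image f)) (s : Finset W) :
    s.image f ∈ Δ'.faces ↔ s ∈ Δ.faces := by
  rw [h, mem_image]
  constructor
  · rintro ⟨t, ht, hts⟩
    rwa [← image_injective hf hts]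
  · intro hs
    exact ⟨s, hs, rfl⟩

theorem exactAt_map (k : Type*) [CommRing k] {f : W → V} (hf : Function.Injective f)
    {Δ : Cplx W} {Δ' : Cplx V} (h : Δ'.faces = Δ.faces.image (Finset.image f)) (i : ℕ)
    (hΔ : Δ.ExactAt k i) : Δ'.ExactAt k i := by
  classical
  have hinj : Function.Injective (Finset.image f) := image_injective hf
  -- boundary comparison
  have hbd : ∀ (c : Finset V → k) (t : Finset W),
      Δ'.bd c (t.image f) = Δ.bd (fun s => c (s.image f)) t := by
    intro c t
    unfold Cplx.bd
    have : Δ'.faces.filter (fun s => t.image f ⊆ s ∧ s.card = (t.image f).card + 1) =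
        (Δ.faces.filter (fun s => t ⊆ s ∧ s.card = t.card + 1)).image (Finset.image f) := by
      ext s
      simp only [mem_filter, mem_image]
      constructor
      · rintro ⟨hs, h1, h2⟩
        rw [h, mem_image] at hs
        obtain ⟨u, hu, rfl⟩ := hs
        rw [image_subset_image_iff hf, card_image_of_injective _ hf,
          card_image_of_injective _ hf] at *
        exact ⟨u, ⟨hu, h1, h2⟩, rfl⟩
      · rintro ⟨u, ⟨hu, h1, h2⟩, rfl⟩
        refine ⟨(mem_faces_map hf h u).mpr hu, image_subset_image h1, ?_⟩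
        rw [card_image_of_injective _ hf, card_image_of_injective _ hf, h2]
    rw [this, sum_image fun a _ b _ hab => hinj hab]
  intro c hc
  obtain ⟨b, hb⟩ := hΔ (fun s => c (s.image f)) (by
    intro t ht hti
    rw [← hbd]
    apply hc
    · exact (mem_faces_map hf h t).mpr ht
    · rw [card_image_of_injective _ hf, hti])
  refine ⟨fun s => if hs : ∃ u : Finset W, u.image f = s then b hs.choose else 0, ?_⟩
  intro t ht hti
  rw [h, mem_image] at ht
  obtain ⟨u, hu, rfl⟩ := ht
  rw [card_image_of_injective _ hf] at hti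
  rw [hbd]
  have : (fun s : Finset W => (if hs : ∃ u : Finset W, u.image f = s.image f
      then b hs.choose else 0)) = b := by
    funext s
    have hs : ∃ u : Finset W, u.image f = s.image f := ⟨s, rfl⟩
    rw [dif_pos hs]
    congr 1
    exact hinj hs.choose_spec
  rw [this]
  exact hb u hu hti

theorem lk_map {f : W → V} (hf : Function.Injective f)
    {Δ : Cplx W} {Δ' : Cplx V} (h : Δ'.faces = Δ.faces.image (Finset.image f))
    (σ : Finset W) (hσ : σ ∈ Δ.faces) (hσ' : σ.image f ∈ Δ'.faces) :
    (Δ'.lk (σ.image f) hσ').faces = (Δ.lk σ hσ).faces.image (Finset.image f) := by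
  ext s
  simp only [Cplx.lk, mem_filter, mem_image]
  constructor
  · rintro ⟨hs, h1, h2⟩
    rw [h, mem_image] at hs
    obtain ⟨u, hu, rfl⟩ := hs
    refine ⟨u, ⟨hu, ?_, ?_⟩, rfl⟩
    · rwa [disjoint_image hf] at h1
    · rw [← image_union] at h2
      exact (mem_faces_map hf h _).mp h2
  · rintro ⟨u, ⟨hu, h1, h2⟩, rfl⟩
    refine ⟨(mem_faces_map hf h u).mpr hu, ?_, ?_⟩
    · rwa [disjoint_image hf]
    · rw [← image_union]
      exact (mem_faces_map hf h _).mpr h2

theorem isBuchsbaum_map (k : Type*) [CommRing k] {f : W → V} (hf : Function.Injective f)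
    {Δ : Cplx W} {Δ' : Cplx V} (h : Δ'.faces = Δ.faces.image (Finset.image f)) (d : ℕ)
    (hΔ : Δ.IsBuchsbaum k d) : Δ'.IsBuchsbaum k d := by
  constructor
  · intro s hs
    rw [h, mem_image] at hs
    obtain ⟨u, hu, rfl⟩ := hs
    obtain ⟨h1, t, ht, hut, htd⟩ := hΔ.1 u hu
    rw [card_image_of_injective _ hf]
    refine ⟨h1, t.image f, (mem_faces_map hf h t).mpr ht, image_subset_image hut, ?_⟩
    rw [card_image_of_injective _ hf, htd]
  · intro σ hσ hne
    have hσ0 := hσ
    rw [h, mem_image] at hσ0
    obtain ⟨u, hu, rfl⟩ := hσ0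
    have hne' : u.Nonempty := by
      rwa [image_nonempty] at hne
    intro i hi
    rw [card_image_of_injective _ hf] at hi
    exact exactAt_map k hf (lk_map hf h u hu hσ) i (hΔ.2 u hu hne' i hi)

end

end Pool.Agent.UBC
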